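import Pool.Agent.Run7.h624.PD.PairDet
import Pool.Agent.Run7.h624.DM.Final

/-!
The main theorem for pairs of random elements of the alternating group.
-/

namespace Run7.h624.PD
open RC14 Finset Equiv Run7.h624.DM Filter Topology

noncomputable section

variable {n : ℕ}

open Classical in
/-- counting with the first two coordinates -/
lemma card_cons2 (P : Alt n → Alt n → Prop) (k : ℕ) :
    #{x : Fin (k + 2) → Alt n | P (x 0) (x 1)} =
      #{z : Alt n × Alt n | P z.1 z.2} * Fintype.card (Alt n) ^ k := by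
  have h1 := (Fin.consEquiv (fun _ : Fin (k + 2) => Alt n)).sum_comp
    (fun x : Fin (k + 2) → Alt n => if P (x 0) (x 1) then 1 else 0)
  have h2 : ∀ a : Alt n, ∑ x : Fin (k + 1) → Alt n, (if P a (x 0) then 1 else 0) =
      (∑ b : Alt n, if P a b then 1 else 0) * Fintype.card (Alt n) ^ k := by
    intro a
    have h3 := (Fin.consEquiv (fun _ : Fin (k + 1) => Alt n)).sum_comp
      (fun x : Fin (k + 1) → Alt n => if P a (x 0) then 1 else 0)
    rw [← h3, Fintype.sum_prod_type, sum_mul]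
    refine sum_congr rfl fun b _ => ?_
    have h4 : ∀ y : Fin k → Alt n, (if P a ((Fin.consEquiv (fun _ : Fin (k + 1) => Alt n)) (b, y) 0)
        then 1 else 0) = if P a b then 1 else 0 := fun y => rfl
    rw [sum_congr rfl fun y _ => h4 y, sum_const, card_univ, Fintype.card_fun, Fintype.card_fin,
      smul_eq_mul, mul_comm]
  rw [card_filter, card_filter, ← h1, Fintype.sum_prod_type, Fintype.sum_prod_type, sum_mul]
  refine sum_congr rfl fun a _ => ?_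
  rw [← h2 a]
  rfl

open Classical in
/-- pairs of even permutations among all pairs -/
lemma card_Alt2_le (P : Perm (Fin n) → Perm (Fin n) → Prop) (ϑ : ℝ) (hn : 2 ≤ n)
    (hP : (#{z : Perm (Fin n) × Perm (Fin n) | P z.1 z.2} : ℝ) ≤ ϑ * (n.factorial : ℝ) ^ 2) :
    (#{z : Alt n × Alt n | P z.1 z.2} : ℝ) ≤ 4 * ϑ * (Fintype.card (Alt n) : ℝ) ^ 2 := by
  have h1 : #{z : Alt n × Alt n | P z.1 z.2} ≤ #{z : Perm (Fin n) × Perm (Fin n) | P z.1 z.2} := by
    refine card_le_card_of_injOn (fun z => ((z.1 : Perm (Fin n)), (z.2 : Perm (Fin n)))) ?_ ?_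
    · intro z hz
      rw [mem_coe, mem_filter] at hz ⊢
      exact ⟨mem_univ _, hz.2⟩
    · intro a _ b _ h
      have h2 := Prod.ext_iff.1 h
      exact Prod.ext (Subtype.ext h2.1) (Subtype.ext h2.2)
  have h2 : 2 * Fintype.card (Alt n) = n.factorial := by
    have : Nontrivial (Fin n) := Fin.nontrivial_iff_two_le.2 hn
    rw [two_mul_card_alternatingGroup, Fintype.card_perm, Fintype.card_fin]
  have h3 : (2 * Fintype.card (Alt n) : ℝ) = n.factorial := by exact_mod_cast h2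
  have h4 : (#{z : Alt n × Alt n | P z.1 z.2} : ℝ) ≤
      #{z : Perm (Fin n) × Perm (Fin n) | P z.1 z.2} := by exact_mod_cast h1
  rw [← h3] at hP
  calc _ ≤ _ := h4
    _ ≤ _ := hP
    _ = _ := by ring

/-- the list of two elements -/
def two (a b : Alt n) : Fin 2 → Alt n := ![a, b]

open Classical in
/-- most pairs are good -/
theorem pairs_good {s : ℝ} (hs : 0 < s) (hs1 : s ≤ 1 / 100) {ϑ : ℝ} (h0 : 0 < ϑ) (h1 : ϑ ≤ 1) :
    ∀ᶠ n : ℕ in atTop, (#{z : Alt n × Alt n | ¬ Dia n (10 * s) (two z.1 z.2)} : ℝ) ≤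
      8 * ϑ * (Fintype.card (Alt n) : ℝ) ^ 2 := by
  obtain ⟨I, n1, hn1⟩ := long_pair ϑ h0 h1
  have hκ : 0 < kapc ϑ := by unfold kapc; positivity
  have hκ4 : kapc ϑ ≤ 1 / 4 := by unfold kapc; nlinarith
  filter_upwards [card_not_Typ hs hs1 h0, det2 hs hs1 hκ hκ4 I, eventually_ge_atTop n1,
    eventually_ge_atTop 2] with n h2 h3 h4 h5
  have h6 := hn1 n h4
  set E1 : Finset (Perm (Fin n) × Perm (Fin n)) := {z | ¬ Typ s n z.1 z.2} with hE1
  set E2 : Finset (Perm (Fin n) × Perm (Fin n)) :=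
    {z | ¬ ∃ i < I, Gd (kapc ϑ) (z.1 ^ i * z.2)} with hE2
  have hE : (#{z : Perm (Fin n) × Perm (Fin n) | ¬ Typ s n z.1 z.2 ∨
      ¬ ∃ i < I, Gd (kapc ϑ) (z.1 ^ i * z.2)} : ℝ) ≤ 2 * ϑ * (n.factorial : ℝ) ^ 2 := by
    have h7 : ({z : Perm (Fin n) × Perm (Fin n) | ¬ Typ s n z.1 z.2 ∨
      ¬ ∃ i < I, Gd (kapc ϑ) (z.1 ^ i * z.2)} : Finset _) ⊆ E1 ∪ E2 := by
      intro z hz
      rw [mem_union, hE1, hE2, mem_filter, mem_filter]
      rcases (mem_filter.1 hz).2 with h | h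
      · exact Or.inl ⟨mem_univ _, h⟩
      · exact Or.inr ⟨mem_univ _, h⟩
    have h8 : (#{z : Perm (Fin n) × Perm (Fin n) | ¬ Typ s n z.1 z.2 ∨
      ¬ ∃ i < I, Gd (kapc ϑ) (z.1 ^ i * z.2)} : ℝ) ≤ #E1 + #E2 := by
      exact_mod_cast (card_le_card h7).trans (card_union_le _ _)
    linarith
  have h7 : (#{z : Alt n × Alt n | ¬ Typ s n (z.1 : Perm (Fin n)) (z.2 : Perm (Fin n)) ∨
        ¬ ∃ i < I, Gd (kapc ϑ) ((z.1 : Perm (Fin n)) ^ i * (z.2 : Perm (Fin n)))} : ℝ) ≤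
        4 * (2 * ϑ) * (Fintype.card (Alt n) : ℝ) ^ 2 := by
    have := card_Alt2_le (fun x y => ¬ Typ s n x y ∨ ¬ ∃ i < I, Gd (kapc ϑ) (x ^ i * y)) (2 * ϑ) h5
      (by convert hE)
    convert this
  refine le_trans ?_ (h7.trans (le_of_eq (by ring)))
  have h8 : #{z : Alt n × Alt n | ¬ Dia n (10 * s) (two z.1 z.2)} ≤
      #{z : Alt n × Alt n | ¬ Typ s n (z.1 : Perm (Fin n)) (z.2 : Perm (Fin n)) ∨
        ¬ ∃ i < I, Gd (kapc ϑ) ((z.1 : Perm (Fin n)) ^ i * (z.2 : Perm (Fin n)))} := by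
    apply card_le_card
    intro z hz
    rw [mem_filter] at hz ⊢
    refine ⟨mem_univ _, ?_⟩
    by_contra hcon
    rw [not_or, not_not, not_not] at hcon
    exact hz.2 (h3 (two z.1 z.2) hcon.1 hcon.2)
  exact_mod_cast h8

/-- the diameter for a fixed number of random elements -/
theorem diam_pairs (k : ℕ) (hk : 2 ≤ k) (δ : ℝ) (hδ : 0 < δ) : Tendsto (fun n : ℕ =>
    (Nat.card {x : Fin k → Alt n //
      ∀ g : Alt n, ∃ w : List (Alt n), (w.length : ℝ) ≤ (n : ℝ) ^ (5 / 3 + δ) ∧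
        (∀ y ∈ w, ∃ i, y = x i ∨ y = (x i)⁻¹) ∧ w.prod = g} : ℝ) /
        (Fintype.card (Alt n) : ℝ) ^ k) atTop (𝓝 1) := by
  classical
  obtain ⟨k', rfl⟩ : ∃ k', k = k' + 2 := ⟨k - 2, by omega⟩
  set s : ℝ := min δ 1 / 100 with hs
  have hm : 0 < min δ 1 := lt_min hδ one_pos
  have hs0 : 0 < s := by positivity
  have hs1 : s ≤ 1 / 100 := by
    have : min δ 1 ≤ 1 := min_le_right _ _
    rw [hs]; linarith
  have hs3 : 10 * s ≤ δ := by
    have : min δ 1 ≤ δ := min_le_left _ _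
    rw [hs]; linarith
  have hpos : ∀ n : ℕ, (0 : ℝ) < (Fintype.card (Alt n) : ℝ) := fun n => by
    exact_mod_cast Fintype.card_pos
  have key : ∀ ϑ : ℝ, 0 < ϑ → ϑ ≤ 1 → ∀ᶠ n : ℕ in atTop, (Nat.card {x : Fin (k' + 2) → Alt n //
      ¬ (∀ g : Alt n, ∃ w : List (Alt n), (w.length : ℝ) ≤ (n : ℝ) ^ (5 / 3 + δ) ∧
        (∀ y ∈ w, ∃ i, y = x i ∨ y = (x i)⁻¹) ∧ w.prod = g)} : ℝ) ≤
        8 * ϑ * (Fintype.card (Alt n) : ℝ) ^ (k' + 2) := by
    intro ϑ hϑ hϑ1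
    filter_upwards [pairs_good hs0 hs1 hϑ hϑ1, eventually_ge_atTop 1] with n h1 h3
    have h2 : #{x : Fin (k' + 2) → Alt n | ¬ Dia n (10 * s) (two (x 0) (x 1))} =
        #{z : Alt n × Alt n | ¬ Dia n (10 * s) (two z.1 z.2)} * Fintype.card (Alt n) ^ k' := by
      have := card_cons2 (n := n) (fun a b => ¬ Dia n (10 * s) (two a b)) k'
      convert this
    have h4 : (#{x : Fin (k' + 2) → Alt n | ¬ Dia n (10 * s) (two (x 0) (x 1))} : ℝ) ≤
        8 * ϑ * (Fintype.card (Alt n) : ℝ) ^ (k' + 2) := by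
      rw [h2]
      push_cast
      calc _ ≤ (8 * ϑ * (Fintype.card (Alt n) : ℝ) ^ 2) * (Fintype.card (Alt n) : ℝ) ^ k' := by
            gcongr
        _ = _ := by ring
    refine le_trans ?_ h4
    rw [← Fintype.card_subtype, ← Nat.card_eq_fintype_card]
    have h5 := RC14.card_mono (fun x : Fin (k' + 2) → Alt n =>
      ¬ (∀ g : Alt n, ∃ w : List (Alt n), (w.length : ℝ) ≤ (n : ℝ) ^ (5 / 3 + δ) ∧
        (∀ y ∈ w, ∃ i, y = x i ∨ y = (x i)⁻¹) ∧ w.prod = g))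
        (fun x => ¬ Dia n (10 * s) (two (x 0) (x 1))) (by
        intro x hx h
        apply hx
        intro g
        have hsub : Bl (two (x 0) (x 1)) ⌊(n : ℝ) ^ (5 / 3 + 10 * s)⌋₊ ⊆
            Bl x ⌊(n : ℝ) ^ (5 / 3 + 10 * s)⌋₊ := by
          apply Bl_sub
          intro i
          fin_cases i
          · exact ⟨0, rfl⟩
          · exact ⟨1, rfl⟩
        obtain ⟨w, hw1, hw2, hw3⟩ := hsub (h g)
        refine ⟨w, ?_, hw2, hw3⟩
        have hn1 : (1 : ℝ) ≤ n := by exact_mod_cast h3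
        calc (w.length : ℝ) ≤ (⌊(n : ℝ) ^ (5 / 3 + 10 * s)⌋₊ : ℝ) := by exact_mod_cast hw1
          _ ≤ (n : ℝ) ^ (5 / 3 + 10 * s) := Nat.floor_le (by positivity)
          _ ≤ (n : ℝ) ^ (5 / 3 + δ) := Real.rpow_le_rpow_of_exponent_le hn1 (by linarith))
    exact_mod_cast h5
  refine tendsto_order.mpr ⟨fun b hb => ?_, fun b hb => ?_⟩
  · filter_upwards [key (min ((1 - b) / 10) 1) (lt_min (by linarith) one_pos) (min_le_right _ _)]
      with n hn
    have hA := hpos n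
    rw [lt_div_iff₀ (by positivity), RC14.card_compl, Fintype.card_fun, Fintype.card_fin]
    push_cast
    have hp : (0 : ℝ) < (Fintype.card (Alt n) : ℝ) ^ (k' + 2) := by positivity
    have h1 : min ((1 - b) / 10) 1 ≤ (1 - b) / 10 := min_le_left _ _
    have h2 : 8 * min ((1 - b) / 10) 1 * (Fintype.card (Alt n) : ℝ) ^ (k' + 2) ≤
        8 * ((1 - b) / 10) * (Fintype.card (Alt n) : ℝ) ^ (k' + 2) := by gcongr
    nlinarith
  · refine Eventually.of_forall fun n => lt_of_le_of_lt ?_ hb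
    have hA := hpos n
    rw [div_le_one (by positivity), RC14.card_compl, Fintype.card_fun, Fintype.card_fin]
    push_cast
    have h1 := Nat.cast_nonneg (α := ℝ) (Nat.card {x : Fin (k' + 2) → Alt n //
      ¬ (∀ g : Alt n, ∃ w : List (Alt n), (w.length : ℝ) ≤ (n : ℝ) ^ (5 / 3 + δ) ∧
        (∀ y ∈ w, ∃ i, y = x i ∨ y = (x i)⁻¹) ∧ w.prod = g)})
    linarith

end

end Run7.h624.PD
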