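import Pool.Agent.Run7.h624.PD.Pairs

/-!
Most words are nice for a given tuple, after a mixing family; paths rarely come close to themselves.
-/

namespace Run7.h624.PD
open RC14 Finset Equiv Run7.h624.DM

noncomputable section

variable {n : ℕ}

/-- the path of `p` comes close to itself -/
def selfc (x y : Perm (Fin n)) (S : ℕ) (t : ℕ → ℕ) (m : ℕ) (p : Fin n) : Prop :=
  ∃ j j', j < j' ∧ j' ≤ m ∧ cl x S (hd x y t p j) (hd x y t p j')

section Self
variable (x : Perm (Fin n)) (S : ℕ) (t : ℕ → ℕ) (p : Fin n)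

/-- the first return, with a given place -/
def fr (l j : ℕ) (s : ℤ) (y : Perm (Fin n)) : Prop :=
  (∀ i i', i < i' → i' ≤ l → ¬ cl x S (hd x y t p i) (hd x y t p i')) ∧
    hd x y t p (l + 1) = (x ^ s) (hd x y t p j)

variable {x S t p}

lemma fr.same {l j : ℕ} {s : ℤ} {y : Perm (Fin n)} (h : fr x S t p l j s y) (ht : ∀ i, t i ≤ S)
    {z : Fin n} (hz : ∀ i, 1 ≤ i → i ≤ l → hd x y t p i ≠ z) :
    ∀ i ≤ l, hd x (swap (hd x y t p (l + 1)) z * y) t p i = hd x y t p i := by
  apply hd_swap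
  intro i h1 h2
  refine ⟨?_, hz i h1 h2⟩
  intro hh
  obtain ⟨i', rfl⟩ : ∃ i', i = i' + 1 := ⟨i - 1, by omega⟩
  rw [hd_succ, hd_succ] at hh
  have h3 := y.injective hh
  exact h.1 i' l (by omega) le_rfl (cl_of_pow (ht i') (ht l) h3)

open Classical in
lemma card_fr (m : ℕ) (ht : ∀ i, t i ≤ S) (l j : ℕ) (hl : l + 1 ≤ m) (hj : j ≤ l) (s : ℤ) :
    #{y : Perm (Fin n) | fr x S t p l j s y} * (n - m) ≤ n.factorial := by
  set P : Finset (Perm (Fin n)) := {y | fr x S t p l j s y} with hP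
  set alw2 : Perm (Fin n) → Finset (Fin n) :=
    fun y => ((Icc 1 l).image fun i => hd x y t p i)ᶜ with halw
  have hmem : ∀ y z, z ∈ alw2 y → ∀ i, 1 ≤ i → i ≤ l → hd x y t p i ≠ z := by
    intro y z hz i h1 h2 h3
    rw [halw, mem_compl, mem_image] at hz
    exact hz ⟨i, mem_Icc.2 ⟨h1, h2⟩, h3⟩
  have h1 : #P * (n - m) ≤ #(P.sigma alw2) := by
    rw [card_sigma, ← smul_eq_mul, ← sum_const]
    refine sum_le_sum fun y _ => ?_
    have h2 : #((Icc 1 l).image fun i => hd x y t p i) ≤ l := by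
      refine card_image_le.trans ?_
      rw [Nat.card_Icc]
      omega
    show n - m ≤ #((Icc 1 l).image fun i => hd x y t p i)ᶜ
    rw [card_compl, Fintype.card_fin]
    omega
  refine h1.trans ?_
  have h2 : #(P.sigma alw2) ≤ #(univ : Finset (Perm (Fin n))) := by
    refine card_le_card_of_injOn (fun v => swap (hd x v.1 t p (l + 1)) v.2 * v.1)
      (fun _ _ => mem_coe.2 (mem_univ _)) ?_
    rintro ⟨y, z⟩ hs ⟨y₂, z₂⟩ hs₂ heq
    rw [mem_coe, mem_sigma, hP, mem_filter] at hs hs₂
    obtain ⟨⟨-, hy⟩, hz⟩ := hs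
    obtain ⟨⟨-, hy₂⟩, hz₂⟩ := hs₂
    have c : fr x S t p l j s y := hy
    have c₂ : fr x S t p l j s y₂ := hy₂
    have heq' : swap (hd x y t p (l + 1)) z * y = swap (hd x y₂ t p (l + 1)) z₂ * y₂ := heq
    have a1 := c.same ht (z := z) (hmem y z hz)
    have a2 := c₂.same ht (z := z₂) (hmem y₂ z₂ hz₂)
    have e1 : hd x (swap (hd x y t p (l + 1)) z * y) t p (l + 1) = z := by
      rw [hd_succ, a1 l le_rfl, Perm.mul_apply, ← hd_succ, swap_apply_left]
    have e2 : hd x (swap (hd x y₂ t p (l + 1)) z₂ * y₂) t p (l + 1) = z₂ := by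
      rw [hd_succ, a2 l le_rfl, Perm.mul_apply, ← hd_succ, swap_apply_left]
    rw [heq', e2] at e1
    have e3 := a1 j hj
    rw [heq', a2 j hj] at e3
    have e5 : hd x y t p (l + 1) = hd x y₂ t p (l + 1) := by
      rw [c.2, c₂.2, e3]
    rw [e5, ← e1] at heq'
    have e6 := mul_left_cancel heq'
    rw [e6, e1]
  refine h2.trans ?_
  rw [card_univ, Fintype.card_perm, Fintype.card_fin]

open Classical in
/-- paths rarely come close to themselves -/
theorem card_selfc (m : ℕ) (ht : ∀ i, t i ≤ S) :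
    #{y : Perm (Fin n) | selfc x y S t m p} * (n - m) ≤ m ^ 2 * (2 * S + 1) * n.factorial := by
  have hsub : ({y : Perm (Fin n) | selfc x y S t m p} : Finset _) ⊆
      (range m ×ˢ range m ×ˢ Finset.Icc (-(S : ℤ)) S).biUnion fun v =>
        ({y : Perm (Fin n) | v.2.1 ≤ v.1 ∧ fr x S t p v.1 v.2.1 v.2.2 y} : Finset _) := by
    intro y hy
    have hy' : selfc x y S t m p := (mem_filter.1 hy).2
    have hex : ∃ j', j' ≤ m ∧ ∃ j < j', cl x S (hd x y t p j) (hd x y t p j') := by
      obtain ⟨j, j', h1, h2, h3⟩ := hy'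
      exact ⟨j', h2, j, h1, h3⟩
    set j' := Nat.find hex with hj'
    obtain ⟨h1, j, h2, h3⟩ := Nat.find_spec hex
    rw [← hj'] at h1 h2 h3
    obtain ⟨l, hl⟩ : ∃ l, j' = l + 1 := ⟨j' - 1, by omega⟩
    obtain ⟨s, hs1, hs2⟩ := h3
    rw [mem_biUnion]
    refine ⟨(l, j, s), ?_, ?_⟩
    · rw [mem_product, mem_product, mem_range, mem_range, mem_Icc]
      refine ⟨by show l < m; omega, by show j < m; omega, ?_, ?_⟩
      · show -(S : ℤ) ≤ s
        omega
      · show s ≤ S
        omega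
    · rw [mem_filter]
      refine ⟨mem_univ _, by show j ≤ l; omega, ?_, ?_⟩
      · intro i i' h4 h5 h6
        have h5' : i' ≤ l := h5
        exact Nat.find_min hex (m := i') (by omega) ⟨by omega, i, h4, h6⟩
      · show hd x y t p (l + 1) = (x ^ s) (hd x y t p j)
        rw [hs2, hl]
  have h1 := Nat.mul_le_mul_right (n - m) ((card_le_card hsub).trans card_biUnion_le)
  refine h1.trans ?_
  rw [sum_mul]
  have h2 : ∀ v ∈ range m ×ˢ range m ×ˢ Finset.Icc (-(S : ℤ)) S,
      #{y : Perm (Fin n) | v.2.1 ≤ v.1 ∧ fr x S t p v.1 v.2.1 v.2.2 y} * (n - m) ≤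
        n.factorial := by
    rintro ⟨l, j, s⟩ hv
    rw [mem_product, mem_range] at hv
    have hl : l < m := hv.1
    by_cases h3 : j ≤ l
    · refine le_trans ?_ (card_fr (x := x) (S := S) (t := t) (p := p) m ht l j (by omega) h3 s)
      refine Nat.mul_le_mul_right _ (card_le_card fun y hy => ?_)
      rw [mem_filter] at hy ⊢
      exact ⟨mem_univ _, hy.2.2⟩
    · have : ({y : Perm (Fin n) | j ≤ l ∧ fr x S t p l j s y} : Finset _) = ∅ := by
        rw [filter_eq_empty_iff]
        rintro y - ⟨h4, -⟩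
        exact h3 h4
      show #({y : Perm (Fin n) | j ≤ l ∧ fr x S t p l j s y} : Finset _) * (n - m) ≤ _
      rw [this, card_empty, zero_mul]
      exact Nat.zero_le _
  refine (sum_le_sum h2).trans ?_
  rw [sum_const, card_product, card_product, card_range, Int.card_Icc, smul_eq_mul]
  have h3 : ((S : ℤ) + 1 - -(S : ℤ)).toNat = 2 * S + 1 := by omega
  rw [h3]
  apply le_of_eq
  ring

end Self

/-! ### the number of not isolated points -/

section Fam
variable {K : Type*} [Fintype K] {u : K → Perm (Fin n)}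

/-- one point -/
def tup1 (p : Fin n) : Tup 1 n := ⟨fun _ => p, fun _ _ _ => Subsingleton.elim _ _⟩

lemma Mx.one (h : Mx 1 u) (p : Fin n) (P : Fin n → Prop) [DecidablePred P] :
    (#{κ | P (u κ p)} : ℝ) * n ≤ 2 * Fintype.card K * #{q | P q} := by
  have h1 : #{κ | P (u κ p)} = ∑ q ∈ ({q | P q} : Finset (Fin n)), #{κ | u κ p = q} := by
    rw [card_eq_sum_card_fiberwise (f := fun κ => u κ p) (t := ({q | P q} : Finset (Fin n)))]
    · refine sum_congr rfl fun q hq => ?_
      congr 1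
      ext κ
      simp only [mem_filter, mem_univ, true_and]
      constructor
      · exact fun h => h.2
      · exact fun h => ⟨by rw [h]; exact (mem_filter.1 hq).2, h⟩
    · intro κ hκ
      rw [mem_coe, mem_filter] at hκ ⊢
      exact ⟨mem_univ _, hκ.2⟩
  have h2 : ∀ q, (#{κ | u κ p = q} : ℝ) * n ≤ 2 * Fintype.card K := by
    intro q
    have h3 := h (tup1 p) (tup1 q)
    rw [Fintype.card_embedding_eq, Fintype.card_fin, Fintype.card_fin, Nat.descFactorial_one] at h3
    have h4 : #{κ | u κ p = q} = #{κ | mv (u κ) (tup1 p) = tup1 q} := by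
      congr 1
      ext κ
      simp only [mem_filter, mem_univ, true_and]
      constructor
      · intro hh
        ext i
        rw [mv_apply]
        exact congrArg Fin.val hh
      · intro hh
        exact congrArg (fun b : Tup 1 n => b 0) hh
    rw [h4]
    exact h3
  rw [h1]
  push_cast
  rw [sum_mul]
  calc _ ≤ ∑ _q ∈ ({q | P q} : Finset (Fin n)), 2 * (Fintype.card K : ℝ) :=
        sum_le_sum fun q _ => h2 q
    _ = _ := by rw [sum_const, nsmul_eq_mul]; ring

/-- two points -/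
def tup2 (p q : Fin n) (h : p ≠ q) : Tup 2 n := ⟨![p, q], by
  intro i j hij
  fin_cases i <;> fin_cases j <;> simp at hij ⊢
  · exact h hij
  · exact h hij.symm⟩

lemma Mx.two (h : Mx 2 u) (p q : Fin n) (hpq : p ≠ q) (P : Fin n → Fin n → Prop)
    [∀ p q, Decidable (P p q)] :
    (#{κ | P (u κ p) (u κ q)} : ℝ) * (n * (n - 1)) ≤
      2 * Fintype.card K * #{s : Fin n × Fin n | P s.1 s.2} := by
  have hn : 2 ≤ n := by
    have h1 := p.2
    have h2 := q.2
    by_contra hcon
    apply hpq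
    apply Fin.ext
    omega
  have h0 : (Fintype.card (Tup 2 n) : ℝ) = n * (n - 1) := by
    rw [Fintype.card_embedding_eq, Fintype.card_fin, Fintype.card_fin]
    obtain ⟨n', rfl⟩ := Nat.exists_eq_add_of_le hn
    rw [show 2 + n' = n' + 1 + 1 by ring, Nat.succ_descFactorial_succ, Nat.descFactorial_one]
    push_cast
    ring
  have h1 : #{κ | P (u κ p) (u κ q)} =
      ∑ s ∈ ({s : Fin n × Fin n | P s.1 s.2} : Finset _), #{κ | u κ p = s.1 ∧ u κ q = s.2} := by
    rw [card_eq_sum_card_fiberwise (f := fun κ => (u κ p, u κ q))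
      (t := ({s : Fin n × Fin n | P s.1 s.2} : Finset _))]
    · refine sum_congr rfl fun s hs => ?_
      congr 1
      ext κ
      simp only [mem_filter, mem_univ, true_and]
      constructor
      · rintro ⟨-, rfl⟩
        exact ⟨rfl, rfl⟩
      · rintro ⟨h2, h3⟩
        refine ⟨?_, Prod.ext h2 h3⟩
        rw [h2, h3]
        exact (mem_filter.1 hs).2
    · intro κ hκ
      rw [mem_coe, mem_filter] at hκ ⊢
      exact ⟨mem_univ _, hκ.2⟩
  have h2 : ∀ s : Fin n × Fin n, (#{κ | u κ p = s.1 ∧ u κ q = s.2} : ℝ) * (n * (n - 1)) ≤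
      2 * Fintype.card K := by
    rintro ⟨p', q'⟩
    by_cases hpq' : p' = q'
    · have : ({κ | u κ p = p' ∧ u κ q = q'} : Finset K) = ∅ := by
        rw [filter_eq_empty_iff]
        rintro κ - ⟨h3, h4⟩
        apply hpq
        apply (u κ).injective
        rw [h3, h4, hpq']
      show (#({κ | u κ p = p' ∧ u κ q = q'} : Finset K) : ℝ) * (n * (n - 1)) ≤ _
      rw [this]
      simp
    · have h3 := h (tup2 p q hpq) (tup2 p' q' hpq')
      rw [h0] at h3
      have h4 : #{κ | u κ p = p' ∧ u κ q = q'} =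
          #{κ | mv (u κ) (tup2 p q hpq) = tup2 p' q' hpq'} := by
        congr 1
        ext κ
        simp only [mem_filter, mem_univ, true_and]
        constructor
        · rintro ⟨hh1, hh2⟩
          ext i
          rw [mv_apply]
          fin_cases i
          · exact congrArg Fin.val hh1
          · exact congrArg Fin.val hh2
        · intro hh
          exact ⟨congrArg (fun b : Tup 2 n => b 0) hh, congrArg (fun b : Tup 2 n => b 1) hh⟩
      show (#({κ | u κ p = p' ∧ u κ q = q'} : Finset K) : ℝ) * (n * (n - 1)) ≤ _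
      rw [h4]
      exact h3
  rw [h1]
  push_cast
  rw [sum_mul]
  calc _ ≤ ∑ _s ∈ ({s : Fin n × Fin n | P s.1 s.2} : Finset _), 2 * (Fintype.card K : ℝ) :=
        sum_le_sum fun s _ => h2 s
    _ = _ := by rw [sum_const, nsmul_eq_mul]; ring

variable {x y : Perm (Fin n)} {S : ℕ} {r : ℕ}

open Classical in
/-- pairs of points whose paths come close -/
lemma card_near (t : ℕ → ℕ) (j M : ℕ) :
    #{s : Fin n × Fin n | cl x S (hd x y t s.1 j) (hd x y t s.2 M)} ≤ n * (2 * S + 1) := by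
  have h1 : #{s : Fin n × Fin n | cl x S (hd x y t s.1 j) (hd x y t s.2 M)} =
      ∑ q : Fin n, #{p | cl x S (hd x y t p j) (hd x y t q M)} := by
    rw [card_filter, Fintype.sum_prod_type_right]
    refine sum_congr rfl fun q _ => ?_
    rw [card_filter]
  rw [h1]
  have h2 : ∀ q : Fin n, #{p | cl x S (hd x y t p j) (hd x y t q M)} ≤ 2 * S + 1 := by
    intro q
    refine le_trans ?_ (card_cl' x S (hd x y t q M))
    refine card_le_card_of_injOn (fun p => hd x y t p j) ?_ ?_
    · intro p hp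
      rw [mem_coe, mem_filter] at hp ⊢
      exact ⟨mem_univ _, hp.2⟩
    · intro p _ p' _ hpp
      exact (wd x y t j).injective hpp
  refine (sum_le_sum fun q _ => h2 q).trans ?_
  rw [sum_const, card_univ, Fintype.card_fin, smul_eq_mul]

open Classical in
/-- points whose path is in a short cycle at time `M` -/
lemma card_short (t : ℕ → ℕ) (M : ℕ) :
    #{p | cyl x (hd x y t p M) ≤ S} = #{p | cyl x p ≤ S} := by
  refine card_bij (fun p _ => hd x y t p M) ?_ ?_ ?_
  · intro p hp
    rw [mem_filter] at hp ⊢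
    exact ⟨mem_univ _, hp.2⟩
  · intro p _ p' _ hpp
    exact (wd x y t M).injective hpp
  · intro q hq
    refine ⟨(wd x y t M)⁻¹ q, ?_, ?_⟩
    · rw [mem_filter] at hq ⊢
      refine ⟨mem_univ _, ?_⟩
      have : hd x y t ((wd x y t M)⁻¹ q) M = q := by unfold hd; simp
      rw [this]
      exact hq.2
    · unfold hd; simp

lemma notIso_cases {t : ℕ → ℕ} {b : Fin r → Fin n} {m M : ℕ} (hM : M ≤ m) {i : Fin r}
    (h : ¬ Iso x y S t b M i) : cyl x (hd x y t (b i) M) ≤ S ∨ selfc x y S t m (b i) ∨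
      ∃ i' ∈ univ.erase i, ∃ j ∈ Icc 1 M, cl x S (hd x y t (b i') j) (hd x y t (b i) M) := by
  unfold Iso at h
  rw [not_and_or] at h
  rcases h with h | h
  · left; omega
  · right
    push Not at h
    obtain ⟨i', j, h1, h2, h3, h4⟩ := h
    by_cases h5 : i' = i
    · left
      subst h5
      have h6 : j ≠ M := fun hh => h3 (by rw [hh])
      exact ⟨j, M, by omega, hM, h4⟩
    · right
      exact ⟨i', mem_erase.2 ⟨h5, mem_univ _⟩, j, mem_Icc.2 ⟨h1, h2⟩, h4⟩

open Classical in
/-- the expected number of points which are not isolated -/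
lemma sum_notIso (h1 : Mx 1 u) (h2 : Mx 2 u) (hn : 2 ≤ n) (t : ℕ → ℕ) (m M : ℕ) (hM : M ≤ m)
    (a : Tup r n) :
    ∑ κ, (#{i | ¬ Iso x y S t (mv (u κ) a) M i} : ℝ) ≤ Fintype.card K *
      (2 * r * (#{p | cyl x p ≤ S} : ℝ) / n + 2 * r * (#{p | selfc x y S t m p} : ℝ) / n +
        2 * (r : ℝ) ^ 2 * m * (2 * S + 1) / (n - 1)) := by
  have hn0 : (0 : ℝ) < n := by exact_mod_cast (by omega : 0 < n)
  have hn1 : (0 : ℝ) < (n : ℝ) - 1 := by
    have : (2 : ℝ) ≤ n := by exact_mod_cast hn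
    linarith
  have hpt : ∀ κ, (#{i | ¬ Iso x y S t (mv (u κ) a) M i} : ℝ) ≤ ∑ i : Fin r,
      ((if cyl x (hd x y t (u κ (a i)) M) ≤ S then (1 : ℝ) else 0) +
        (if selfc x y S t m (u κ (a i)) then 1 else 0) +
        ∑ i' ∈ univ.erase i, ∑ j ∈ Icc 1 M,
          if cl x S (hd x y t (u κ (a i')) j) (hd x y t (u κ (a i)) M) then 1 else 0) := by
    intro κ
    rw [card_filter]
    push_cast
    refine sum_le_sum fun i _ => ?_
    have p1 : (0 : ℝ) ≤ if cyl x (hd x y t (u κ (a i)) M) ≤ S then (1 : ℝ) else 0 := by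
      split_ifs <;> norm_num
    have p2 : (0 : ℝ) ≤ if selfc x y S t m (u κ (a i)) then (1 : ℝ) else 0 := by
      split_ifs <;> norm_num
    have p3 : ∀ i' ∈ univ.erase i, (0 : ℝ) ≤ ∑ j ∈ Icc 1 M,
          if cl x S (hd x y t (u κ (a i')) j) (hd x y t (u κ (a i)) M) then (1 : ℝ) else 0 :=
      fun _ _ => sum_nonneg fun _ _ => by split_ifs <;> norm_num
    have p4 := sum_nonneg p3
    by_cases c0 : Iso x y S t (mv (u κ) a) M i
    · rw [if_neg (not_not.2 c0)]
      linarith
    · rw [if_pos c0]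
      rcases notIso_cases hM c0 with c1 | c1 | ⟨i', hi', j, hj, c1⟩
      · have c1' : cyl x (hd x y t (u κ (a i)) M) ≤ S := c1
        rw [if_pos c1']
        linarith
      · have c1' : selfc x y S t m (u κ (a i)) := c1
        rw [if_pos c1']
        linarith
      · have c1' : cl x S (hd x y t (u κ (a i')) j) (hd x y t (u κ (a i)) M) := c1
        have e1 := single_le_sum p3 hi'
        have e2 := single_le_sum (f := fun j =>
          if cl x S (hd x y t (u κ (a i')) j) (hd x y t (u κ (a i)) M) then (1 : ℝ) else 0)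
          (fun _ _ => by split_ifs <;> norm_num) hj
        rw [if_pos c1'] at e2
        linarith
  refine (sum_le_sum fun κ _ => hpt κ).trans ?_
  rw [sum_comm]
  have hi : ∀ i : Fin r, ∑ κ, ((if cyl x (hd x y t (u κ (a i)) M) ≤ S then (1 : ℝ) else 0) +
        (if selfc x y S t m (u κ (a i)) then 1 else 0) +
        ∑ i' ∈ univ.erase i, ∑ j ∈ Icc 1 M,
          if cl x S (hd x y t (u κ (a i')) j) (hd x y t (u κ (a i)) M) then 1 else 0) ≤
      Fintype.card K * (2 * (#{p | cyl x p ≤ S} : ℝ) / n +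
        2 * (#{p | selfc x y S t m p} : ℝ) / n + 2 * (r : ℝ) * m * (2 * S + 1) / (n - 1)) := by
    intro i
    rw [sum_add_distrib, sum_add_distrib]
    have a1 : ∑ κ, (if cyl x (hd x y t (u κ (a i)) M) ≤ S then (1 : ℝ) else 0) ≤
        Fintype.card K * (2 * (#{p | cyl x p ≤ S} : ℝ) / n) := by
      have b1 := Mx.one h1 (a i) (fun p => cyl x (hd x y t p M) ≤ S)
      rw [card_short t M] at b1
      rw [← mul_div_assoc, le_div_iff₀ hn0]
      rw [card_filter] at b1
      push_cast at b1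
      linarith
    have a2 : ∑ κ, (if selfc x y S t m (u κ (a i)) then (1 : ℝ) else 0) ≤
        Fintype.card K * (2 * (#{p | selfc x y S t m p} : ℝ) / n) := by
      have b1 := Mx.one h1 (a i) (fun p => selfc x y S t m p)
      rw [← mul_div_assoc, le_div_iff₀ hn0]
      rw [card_filter] at b1
      push_cast at b1
      linarith
    have a3 : ∑ κ, ∑ i' ∈ univ.erase i, ∑ j ∈ Icc 1 M,
          (if cl x S (hd x y t (u κ (a i')) j) (hd x y t (u κ (a i)) M) then (1 : ℝ) else 0) ≤
        Fintype.card K * (2 * (r : ℝ) * m * (2 * S + 1) / (n - 1)) := by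
      rw [sum_comm]
      have b0 : ∀ i' ∈ univ.erase i, ∑ κ, ∑ j ∈ Icc 1 M,
          (if cl x S (hd x y t (u κ (a i')) j) (hd x y t (u κ (a i)) M) then (1 : ℝ) else 0) ≤
          Fintype.card K * (2 * m * (2 * S + 1) / (n - 1)) := by
        intro i' hi'
        rw [sum_comm]
        have b1 : ∀ j ∈ Icc 1 M, ∑ κ,
            (if cl x S (hd x y t (u κ (a i')) j) (hd x y t (u κ (a i)) M) then (1 : ℝ) else 0) ≤
            Fintype.card K * (2 * (2 * S + 1) / (n - 1)) := by
          intro j _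
          have b2 := Mx.two h2 (a i') (a i) (fun hh => (mem_erase.1 hi').1 (a.injective hh))
            (fun p q => cl x S (hd x y t p j) (hd x y t q M))
          have b3 : (#{s : Fin n × Fin n | cl x S (hd x y t s.1 j) (hd x y t s.2 M)} : ℝ) ≤
              n * (2 * S + 1) := by exact_mod_cast card_near (x := x) (y := y) (S := S) t j M
          rw [← mul_div_assoc, le_div_iff₀ hn1]
          rw [card_filter] at b2
          push_cast at b2
          have b4 : (∑ κ, (if cl x S (hd x y t (u κ (a i')) j) (hd x y t (u κ (a i)) M)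
              then (1 : ℝ) else 0)) * (n - 1) * n ≤
              Fintype.card K * (2 * (2 * S + 1)) * n := by
            calc _ = (∑ κ, (if cl x S (hd x y t (u κ (a i')) j) (hd x y t (u κ (a i)) M)
              then (1 : ℝ) else 0)) * (n * (n - 1)) := by ring
              _ ≤ _ := b2
              _ ≤ 2 * Fintype.card K * (n * (2 * S + 1)) := by gcongr
              _ = _ := by ring
          exact le_of_mul_le_mul_right b4 hn0
        refine (sum_le_sum b1).trans ?_
        rw [sum_const, Nat.card_Icc, nsmul_eq_mul, show M + 1 - 1 = M by omega]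
        have b5 : (M : ℝ) ≤ m := by exact_mod_cast hM
        calc (M : ℝ) * (Fintype.card K * (2 * (2 * S + 1) / (n - 1))) ≤
            m * (Fintype.card K * (2 * (2 * S + 1) / (n - 1))) := by gcongr
          _ = _ := by ring
      refine (sum_le_sum b0).trans ?_
      rw [sum_const, nsmul_eq_mul]
      have b5 : (#((univ : Finset (Fin r)).erase i) : ℝ) ≤ r := by
        have := card_le_univ ((univ : Finset (Fin r)).erase i)
        rw [Fintype.card_fin] at this
        exact_mod_cast this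
      calc _ ≤ (r : ℝ) * (Fintype.card K * (2 * m * (2 * S + 1) / (n - 1))) := by gcongr
        _ = _ := by ring
    calc _ ≤ Fintype.card K * (2 * (#{p | cyl x p ≤ S} : ℝ) / n) +
          Fintype.card K * (2 * (#{p | selfc x y S t m p} : ℝ) / n) +
          Fintype.card K * (2 * (r : ℝ) * m * (2 * S + 1) / (n - 1)) := by gcongr
      _ = _ := by ring
  refine (sum_le_sum fun i _ => hi i).trans (le_of_eq ?_)
  rw [sum_const, card_univ, Fintype.card_fin, nsmul_eq_mul]
  ring

open Classical in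
/-- for most members of the family the word is nice -/
theorem card_notNice (h1 : Mx 1 u) (h2 : Mx 2 u) (hn : 2 ≤ n) (β : ℕ → ℕ) {m T : ℕ} (τ : Lt m T)
    (hr : 1 ≤ r) (a : Tup r n) :
    (#{κ | ¬ Nice x y S β τ (mv (u κ) a)} : ℝ) ≤ Fintype.card K *
      (2 * (#{p | cyl x p ≤ S} : ℝ) / n +
        (2 * r * (#{p | cyl x p ≤ S} : ℝ) / n + 2 * r * (#{p | selfc x y S (ex τ) m p} : ℝ) / n +
        2 * (r : ℝ) ^ 2 * m * (2 * S + 1) / (n - 1)) * ∑ j ∈ range m, 1 / ((β j : ℝ) + 1)) := by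
  have hn0 : (0 : ℝ) < n := by exact_mod_cast (by omega : 0 < n)
  set lam : ℝ := 2 * r * (#{p | cyl x p ≤ S} : ℝ) / n +
    2 * r * (#{p | selfc x y S (ex τ) m p} : ℝ) / n +
        2 * (r : ℝ) ^ 2 * m * (2 * S + 1) / (n - 1) with hlam
  have hsub : ({κ | ¬ Nice x y S β τ (mv (u κ) a)} : Finset K) ⊆
      ({κ | cyl x (u κ (a ⟨0, hr⟩)) ≤ S} : Finset K) ∪ (Icc 1 m).biUnion fun M =>
        ({κ | β (m - M) + 1 ≤ #{i | ¬ Iso x y S (ex τ) (mv (u κ) a) M i}} : Finset K) := by
    intro κ hκ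
    have hκ' : ¬ Nice x y S β τ (mv (u κ) a) := (mem_filter.1 hκ).2
    rw [mem_union]
    unfold Nice at hκ'
    rw [not_and_or] at hκ'
    rcases hκ' with h | h
    · left
      push Not at h
      exact mem_filter.2 ⟨mem_univ _, h ⟨0, hr⟩⟩
    · right
      push Not at h
      obtain ⟨M, hM1, hM2, h3⟩ := h
      rw [mem_biUnion]
      exact ⟨M, mem_Icc.2 ⟨hM1, hM2⟩, mem_filter.2 ⟨mem_univ _, h3⟩⟩
  have b1 : (#{κ | cyl x (u κ (a ⟨0, hr⟩)) ≤ S} : ℝ) ≤
      Fintype.card K * (2 * (#{p | cyl x p ≤ S} : ℝ) / n) := by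
    have := Mx.one h1 (a ⟨0, hr⟩) (fun p => cyl x p ≤ S)
    rw [← mul_div_assoc, le_div_iff₀ hn0]
    linarith
  have b2 : ∀ M ∈ Icc 1 m,
      (#{κ | β (m - M) + 1 ≤ #{i | ¬ Iso x y S (ex τ) (mv (u κ) a) M i}} : ℝ) ≤
      Fintype.card K * lam * (1 / ((β (m - M) : ℝ) + 1)) := by
    intro M hM
    rw [mem_Icc] at hM
    have c1 := sum_notIso (x := x) (y := y) (S := S) h1 h2 hn (ex τ) m M hM.2 a
    rw [← hlam] at c1
    rw [mul_one_div, le_div_iff₀ (by positivity)]
    refine le_trans ?_ c1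
    calc (#{κ | β (m - M) + 1 ≤ #{i | ¬ Iso x y S (ex τ) (mv (u κ) a) M i}} : ℝ) *
          ((β (m - M) : ℝ) + 1)
        = ∑ κ ∈ {κ | β (m - M) + 1 ≤ #{i | ¬ Iso x y S (ex τ) (mv (u κ) a) M i}},
          ((β (m - M) : ℝ) + 1) := by rw [sum_const, nsmul_eq_mul]
      _ ≤ ∑ κ ∈ {κ | β (m - M) + 1 ≤ #{i | ¬ Iso x y S (ex τ) (mv (u κ) a) M i}},
          (#{i | ¬ Iso x y S (ex τ) (mv (u κ) a) M i} : ℝ) := by
          refine sum_le_sum fun κ hκ => ?_
          exact_mod_cast (mem_filter.1 hκ).2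
      _ ≤ _ := sum_le_sum_of_subset_of_nonneg (filter_subset _ _) (fun _ _ _ => Nat.cast_nonneg _)
  have b3 : ∑ M ∈ Icc 1 m, Fintype.card K * lam * (1 / ((β (m - M) : ℝ) + 1)) =
      Fintype.card K * (lam * ∑ j ∈ range m, 1 / ((β j : ℝ) + 1)) := by
    rw [← mul_sum, mul_assoc]
    congr 2
    refine sum_bij' (fun M _ => m - M) (fun j _ => m - j) ?_ ?_ ?_ ?_ ?_
    · intro M hM
      rw [mem_Icc] at hM
      rw [mem_range]
      omega
    · intro j hj
      rw [mem_range] at hj
      rw [mem_Icc]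
      omega
    · intro M hM
      rw [mem_Icc] at hM
      omega
    · intro j hj
      rw [mem_range] at hj
      omega
    · intro M _
      rfl
  calc (#{κ | ¬ Nice x y S β τ (mv (u κ) a)} : ℝ)
      ≤ (#{κ | cyl x (u κ (a ⟨0, hr⟩)) ≤ S} : ℝ) + ∑ M ∈ Icc 1 m,
        (#{κ | β (m - M) + 1 ≤ #{i | ¬ Iso x y S (ex τ) (mv (u κ) a) M i}} : ℝ) := by
        have h3 := (card_le_card hsub).trans (card_union_le _ _)
        have h4 := h3.trans (Nat.add_le_add_left card_biUnion_le _)
        exact_mod_cast h4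
    _ ≤ Fintype.card K * (2 * (#{p | cyl x p ≤ S} : ℝ) / n) +
        ∑ M ∈ Icc 1 m, Fintype.card K * lam * (1 / ((β (m - M) : ℝ) + 1)) :=
        add_le_add b1 (sum_le_sum b2)
    _ = _ := by rw [b3]; ring

end Fam

end

end Run7.h624.PD
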