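import Pool.Agent.Run7.h624.PD.Kern
import Pool.Agent.Run7.h624.PD.NotNice

/-!
Families of words and their transition probabilities on tuples; from nearly flat iterates to
mixing families and to routing.
-/

namespace Run7.h624.PD
open RC14 Finset Equiv Run7.h624.DM

noncomputable section

variable {n k r : ℕ}

/-- `f` are the transition probabilities of a family of words of length at most `L` -/
def FamP (x : Fin k → Alt n) (L : ℕ) (f : Tup r n → Tup r n → ℝ) : Prop :=
  ∃ (K : Type) (_ : Fintype K) (_ : Nonempty K) (g : K → Alt n), (∀ κ, g κ ∈ Bl x L) ∧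
    ∀ a b, (#{κ | mv (g κ : Perm (Fin n)) a = b} : ℝ) = f a b * Fintype.card K

namespace FamP
variable {x : Fin k → Alt n} {L L' : ℕ} {f f' : Tup r n → Tup r n → ℝ}

lemma one (x : Fin k → Alt n) : FamP x 0 (fun a b : Tup r n => if a = b then (1 : ℝ) else 0) := by
  refine ⟨Unit, inferInstance, inferInstance, fun _ => 1, fun _ => Bl_one x 0, ?_⟩
  intro a b
  by_cases h : a = b <;> simp [h]

lemma mono (h : FamP x L f) (hL : L ≤ L') : FamP x L' f := by
  obtain ⟨K, iK, nK, g, h1, h2⟩ := h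
  exact ⟨K, iK, nK, g, fun κ => Bl_mono x hL (h1 κ), h2⟩

lemma congr (h : FamP x L f) (hf : ∀ a b, f a b = f' a b) : FamP x L f' := by
  have : f = f' := funext fun a => funext fun b => hf a b
  exact this ▸ h

lemma inv (h : FamP x L f) : FamP x L (fun a b => f b a) := by
  obtain ⟨K, iK, nK, g, h1, h2⟩ := h
  refine ⟨K, iK, nK, fun κ => (g κ)⁻¹, fun κ => Bl_inv x (h1 κ), ?_⟩
  intro a b
  rw [← h2]
  congr 2
  ext κ
  simp only [mem_filter, mem_univ, true_and, Subgroup.coe_inv]
  exact mv_inv_eq _ a b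

lemma comp (h : FamP x L f) (h' : FamP x L' f') :
    FamP x (L + L') (fun a b => ∑ c, f a c * f' c b) := by
  obtain ⟨K, _, _, g, h1, h2⟩ := h
  obtain ⟨K', _, _, g', h1', h2'⟩ := h'
  refine ⟨K × K', inferInstance, inferInstance, fun κ => g' κ.2 * g κ.1, ?_, ?_⟩
  · intro κ
    rw [add_comm]
    exact Bl_mul x (h1' κ.2) (h1 κ.1)
  · intro a b
    have e1 : #{κ : K × K' | mv ((g' κ.2 * g κ.1 : Alt n) : Perm (Fin n)) a = b} =
        ∑ c, #{κ | mv (g κ : Perm (Fin n)) a = c} * #{κ' | mv (g' κ' : Perm (Fin n)) c = b} := by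
      have e2 : #{κ : K × K' | mv ((g' κ.2 * g κ.1 : Alt n) : Perm (Fin n)) a = b} =
          ∑ κ : K, #{κ' | mv (g' κ' : Perm (Fin n)) (mv (g κ : Perm (Fin n)) a) = b} := by
        rw [card_filter, Fintype.sum_prod_type]
        refine sum_congr rfl fun κ _ => ?_
        rw [card_filter]
        refine sum_congr rfl fun κ' _ => ?_
        rw [Subgroup.coe_mul, mv_mul]
      rw [e2]
      rw [← sum_fiberwise (s := (univ : Finset K)) (g := fun κ => mv (g κ : Perm (Fin n)) a)]
      refine sum_congr rfl fun c _ => ?_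
      rw [← smul_eq_mul, ← sum_const]
      refine sum_congr rfl fun κ hκ => ?_
      rw [(mem_filter.1 hκ).2]
    rw [e1, Fintype.card_prod]
    push_cast
    rw [sum_mul]
    refine sum_congr rfl fun c _ => ?_
    rw [h2, h2']
    ring

lemma card_pos' (h : FamP x L f) : ∀ a b, 0 ≤ f a b := by
  obtain ⟨K, _, _, g, h1, h2⟩ := h
  intro a b
  have hK : (0 : ℝ) < Fintype.card K := by exact_mod_cast Fintype.card_pos
  by_contra hcon
  push Not at hcon
  have h3 := h2 a b
  have h4 : (0 : ℝ) ≤ #{κ | mv (g κ : Perm (Fin n)) a = b} := Nat.cast_nonneg _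
  nlinarith

lemma row (h : FamP x L f) (a : Tup r n) : ∑ b, f a b = 1 := by
  obtain ⟨K, _, _, g, h1, h2⟩ := h
  have hK : (0 : ℝ) < Fintype.card K := by exact_mod_cast Fintype.card_pos
  have h3 : (∑ b, f a b) * Fintype.card K = Fintype.card K := by
    rw [sum_mul]
    simp_rw [← h2]
    have h4 : ∑ b, #{κ | mv (g κ : Perm (Fin n)) a = b} = Fintype.card K := by
      rw [← card_univ (α := K)]
      exact (card_eq_sum_card_fiberwise (f := fun κ => mv (g κ : Perm (Fin n)) a) (t := univ)
        (fun κ _ => by simp)).symm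
    exact_mod_cast h4
  exact mul_right_cancel₀ hK.ne' (by rw [h3, one_mul])

lemma col (h : FamP x L f) (b : Tup r n) : ∑ a, f a b = 1 := h.inv.row b

/-- a transition with positive probability is realised -/
lemma exists_word (h : FamP x L f) {a b : Tup r n} (hab : 0 < f a b) :
    ∃ g ∈ Bl x L, mv (g : Perm (Fin n)) a = b := by
  obtain ⟨K, _, _, g, h1, h2⟩ := h
  have hK : (0 : ℝ) < Fintype.card K := by exact_mod_cast Fintype.card_pos
  have h3 := h2 a b
  have h4 : (0 : ℝ) < #{κ | mv (g κ : Perm (Fin n)) a = b} := by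
    rw [h3]; positivity
  have h5 : 0 < #{κ | mv (g κ : Perm (Fin n)) a = b} := by exact_mod_cast h4
  obtain ⟨κ, hκ⟩ := card_pos.1 h5
  exact ⟨g κ, h1 κ, (mem_filter.1 hκ).2⟩

lemma pow (h : FamP x L f) (i : ℕ) : FamP x (i * L) (VV f i) := by
  induction i with
  | zero =>
    rw [zero_mul]
    exact (one x).congr fun a b => rfl
  | succ i ih =>
    have := ih.comp h
    rw [show (i + 1) * L = i * L + L by ring]
    exact this.congr fun a b => rfl

end FamP

section VVm
variable {X : Type*} [Fintype X] [DecidableEq X]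

lemma VV_mono [Nonempty X] {B B' : X → X → ℝ} (hB : ∀ a b, 0 ≤ B a b) (hBB : ∀ a b, B a b ≤ B' a b) (i : ℕ)
    (a b : X) : VV B i a b ≤ VV B' i a b := by
  induction i generalizing b with
  | zero => exact le_rfl
  | succ i ih =>
    refine sum_le_sum fun c _ => mul_le_mul (ih c) (hBB c b) (hB c b) ?_
    exact VV_nonneg (fun a b => (hB a b).trans (hBB a b)) i a c

/-- convergence of a doubly stochastic kernel with a positive lower bound -/
lemma doeblin [Nonempty X] {f : X → X → ℝ} (hrow : ∀ a, ∑ b, f a b = 1)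
    (hcol : ∀ b, ∑ a, f a b = 1) {c0 : ℝ} (hlow : ∀ a b, c0 / Fintype.card X ≤ f a b)
    (l : ℕ) (a b : X) :
    |VV f l a b - 1 / Fintype.card X| ≤ (1 - c0) ^ l := by
  have hN : (0 : ℝ) < Fintype.card X := by exact_mod_cast Fintype.card_pos
  set N : ℝ := (Fintype.card X : ℝ) with hNd
  have hmass : ∀ l a, ∑ b, VV f l a b = 1 := by
    intro l a
    induction l with
    | zero => simp [VV]
    | succ l ih =>
      simp only [VV]
      rw [sum_comm]
      simp_rw [← mul_sum, hrow, mul_one]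
      exact ih
  induction l generalizing b with
  | zero =>
    simp only [VV, pow_zero]
    have h1 : 1 / N ≤ 1 := by
      rw [div_le_one hN, hNd]
      exact_mod_cast Fintype.card_pos
    have h2 : 0 < 1 / N := by positivity
    split_ifs
    · rw [abs_le]; constructor <;> linarith
    · rw [abs_le]; constructor <;> linarith
  | succ l ih =>
    have h1 : VV f (l + 1) a b - 1 / N = ∑ c, (VV f l a c - 1 / N) * (f c b - c0 / N) := by
      have h2 : ∑ c, (VV f l a c - 1 / N) * (f c b - c0 / N) =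
          ∑ c, VV f l a c * f c b - 1 / N * ∑ c, f c b - c0 / N * (∑ c, VV f l a c) +
            N * (1 / N * (c0 / N)) := by
        rw [mul_sum, mul_sum, ← sum_sub_distrib, ← sum_sub_distrib]
        have : N * (1 / N * (c0 / N)) = ∑ _c : X, (1 / N * (c0 / N)) := by
          rw [sum_const, card_univ, nsmul_eq_mul]
        rw [this, ← sum_add_distrib]
        exact sum_congr rfl fun c _ => by ring
      rw [h2, hcol, hmass]
      simp only [VV]
      field_simp
      ring
    rw [h1]
    refine (abs_sum_le_sum_abs _ _).trans ?_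
    calc ∑ c, |(VV f l a c - 1 / N) * (f c b - c0 / N)|
        ≤ ∑ c, (1 - c0) ^ l * (f c b - c0 / N) := by
          refine sum_le_sum fun c _ => ?_
          have h3 : 0 ≤ f c b - c0 / N := by have := hlow c b; linarith
          rw [abs_mul, abs_of_nonneg h3]
          exact mul_le_mul_of_nonneg_right (ih c) h3
      _ = _ := by
          rw [← mul_sum, sum_sub_distrib, hcol, sum_const, card_univ, nsmul_eq_mul, ← hNd, pow_succ]
          congr 1
          field_simp

/-- two nearly flat functions are not orthogonal -/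
lemma inner_low [Nonempty X] (v w : X → ℝ)
    (hv : Fintype.card X * ∑ b, v b ^ 2 ≤ 3 / 2 * (∑ b, v b) ^ 2)
    (hw : Fintype.card X * ∑ b, w b ^ 2 ≤ 3 / 2 * (∑ b, w b) ^ 2)
    (hv0 : 0 ≤ ∑ b, v b) (hw0 : 0 ≤ ∑ b, w b) :
    (∑ b, v b) * (∑ b, w b) / 2 ≤ Fintype.card X * ∑ b, v b * w b := by
  have hN : (0 : ℝ) < Fintype.card X := by exact_mod_cast Fintype.card_pos
  set N : ℝ := (Fintype.card X : ℝ) with hNd
  set M := ∑ b, v b with hM
  set M' := ∑ b, w b with hM'
  have e1 : ∀ (v w : X → ℝ) (M M' : ℝ), M = ∑ b, v b → M' = ∑ b, w b →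
      ∑ b, (N * v b - M) * (N * w b - M') = N * (N * ∑ b, v b * w b - M * M') := by
    intro v w M M' hM hM'
    have : ∀ b, (N * v b - M) * (N * w b - M') =
        N ^ 2 * (v b * w b) - N * M' * v b - N * M * w b + M * M' := fun b => by ring
    simp_rw [this]
    rw [sum_add_distrib, sum_sub_distrib, sum_sub_distrib, ← mul_sum, ← mul_sum, ← mul_sum, ← hM,
      ← hM', sum_const, card_univ, nsmul_eq_mul]
    ring
  have h1 := sum_mul_sq_le_sq_mul_sq (univ : Finset X) (fun b => N * v b - M)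
    (fun b => N * w b - M')
  rw [e1 v w M M' hM hM'] at h1
  have e2 : ∑ b, (N * v b - M) ^ 2 ≤ N * (M ^ 2 / 2) := by
    have := e1 v v M M hM hM
    simp_rw [← sq] at this
    rw [this]
    apply mul_le_mul_of_nonneg_left _ hN.le
    linarith
  have e3 : ∑ b, (N * w b - M') ^ 2 ≤ N * (M' ^ 2 / 2) := by
    have := e1 w w M' M' hM' hM'
    simp_rw [← sq] at this
    rw [this]
    apply mul_le_mul_of_nonneg_left _ hN.le
    linarith
  have h2 : (N * (N * ∑ b, v b * w b - M * M')) ^ 2 ≤ (N * (M ^ 2 / 2)) * (N * (M' ^ 2 / 2)) :=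
    h1.trans (mul_le_mul e2 e3 (sum_nonneg fun _ _ => sq_nonneg _) (by positivity))
  have h3 : (N * ∑ b, v b * w b - M * M') ^ 2 ≤ (M * M' / 2) ^ 2 := by
    have h4 : N ^ 2 * (N * ∑ b, v b * w b - M * M') ^ 2 ≤ N ^ 2 * (M * M' / 2) ^ 2 := by
      calc _ = (N * (N * ∑ b, v b * w b - M * M')) ^ 2 := by ring
        _ ≤ _ := h2
        _ = _ := by ring
    exact le_of_mul_le_mul_left h4 (by positivity)
  have h4 := abs_le_of_sq_le_sq h3 (by positivity)
  have h5 := (abs_le.1 h4).1
  linarith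

end VVm

/-! ### blocks -/

section Block

variable {x : Fin k → Alt n}

/-- the words in two of the generators -/
lemma wt_mem (x : Fin k → Alt n) (i j : Fin k) {m T : ℕ} (τ : Lt m T) :
    wt (x i) (x j) τ ∈ Bl x ((m + 1) * (T + 1)) := by
  have h1 : ∀ l, l ≤ m + 1 → wd (x i) (x j) (ex τ) l ∈ Bl x (l * (T + 1)) := by
    intro l hl
    induction l with
    | zero => simpa [wd] using Bl_one x 0
    | succ l ih =>
      have h2 := Bl_mono x (Nat.mul_le_mul_right 1 (ex_le τ l)) (Bl_pow x (Bl_gen x i) (ex τ l))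
      have h3 := Bl_mul x (Bl_mul x (Bl_gen x j) h2) (ih (by omega))
      refine Bl_mono x (le_of_eq ?_) h3
      ring
  have h2 := Bl_mono x (Nat.mul_le_mul_right 1 (ex_le τ m)) (Bl_pow x (Bl_gen x i) (ex τ m))
  have h3 := Bl_mul x h2 (h1 m (by omega))
  refine Bl_mono x ?_ h3
  nlinarith

lemma coe_wt (g h : Alt n) {m T : ℕ} (τ : Lt m T) :
    ((wt g h τ : Alt n) : Perm (Fin n)) = wt (g : Perm (Fin n)) (h : Perm (Fin n)) τ := by
  have h1 : ∀ l, ((wd g h (ex τ) l : Alt n) : Perm (Fin n)) =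
      wd (g : Perm (Fin n)) (h : Perm (Fin n)) (ex τ) l := by
    intro l
    induction l with
    | zero => rfl
    | succ l ih =>
      show ((h * g ^ (ex τ l) * wd g h (ex τ) l : Alt n) : Perm (Fin n)) = _
      rw [Subgroup.coe_mul, Subgroup.coe_mul, Subgroup.coe_pow, ih]
      rfl
  show ((g ^ (ex τ m) * wd g h (ex τ) m : Alt n) : Perm (Fin n)) = _
  rw [Subgroup.coe_mul, Subgroup.coe_pow, h1]
  rfl

open Classical in
/-- the nice part of the transition probabilities of a block -/
def NK (x y : Perm (Fin n)) (S : ℕ) (β : ℕ → ℕ) (m T : ℕ) (a b : Tup r n) : ℝ :=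
  (#{τ : Lt m T | Nice x y S β τ a ∧ mv (wt x y τ) a = b} : ℝ) / (T : ℝ) ^ (m + 1)

lemma NK_nonneg (x y : Perm (Fin n)) (S : ℕ) (β : ℕ → ℕ) (m T : ℕ) (a b : Tup r n) :
    0 ≤ NK x y S β m T a b := by unfold NK; positivity

lemma card_Lt (m T : ℕ) : (Fintype.card (Lt m T) : ℝ) = (T : ℝ) ^ (m + 1) := by
  rw [Fintype.card_fun, Fintype.card_fin, Fintype.card_fin]; push_cast; ring

open Classical in
lemma NK_row_eq (x y : Perm (Fin n)) (S : ℕ) (β : ℕ → ℕ) (m T : ℕ) (a : Tup r n) :
    ∑ b, NK x y S β m T a b = (#{τ : Lt m T | Nice x y S β τ a} : ℝ) / (T : ℝ) ^ (m + 1) := by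
  unfold NK
  rw [← sum_div]
  congr 1
  have h1 : #{τ : Lt m T | Nice x y S β τ a} =
      ∑ b, #{τ : Lt m T | Nice x y S β τ a ∧ mv (wt x y τ) a = b} := by
    rw [card_eq_sum_card_fiberwise (f := fun τ => mv (wt x y τ) a) (t := univ)
        (fun κ _ => by simp)]
    refine sum_congr rfl fun b _ => ?_
    rw [filter_filter]
  rw [h1]
  push_cast
  rfl

lemma NK_row (x y : Perm (Fin n)) (S : ℕ) (β : ℕ → ℕ) (m T : ℕ) (hT : 1 ≤ T) (a : Tup r n) :
    ∑ b, NK x y S β m T a b ≤ 1 := by
  classical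
  rw [NK_row_eq]
  have hT0 : (0 : ℝ) < T := by exact_mod_cast hT
  rw [div_le_one (by positivity), ← card_Lt]
  exact_mod_cast card_le_univ _

/-- the transition probabilities of a family followed by a block -/
lemma FamP_block (x : Fin k → Alt n) (i j : Fin k) {ι : Type} [Fintype ι] [Nonempty ι]
    (u : ι → Alt n) {L : ℕ} (hu : ∀ κ, u κ ∈ Bl x L) (S : ℕ) (β : ℕ → ℕ) {m T : ℕ} (hT : 1 ≤ T) :
    ∃ f : Tup r n → Tup r n → ℝ, FamP x (L + (m + 1) * (T + 1)) f ∧
      ∀ a b, BK (NK (x i : Perm (Fin n)) (x j : Perm (Fin n)) S β m T)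
        (fun κ => mvE (u κ : Perm (Fin n))) a b ≤ f a b := by
  classical
  have : NeZero T := ⟨by omega⟩
  have hT0 : (0 : ℝ) < T := by exact_mod_cast hT
  have hι : (0 : ℝ) < Fintype.card ι := by exact_mod_cast Fintype.card_pos
  refine ⟨fun a b => (#{κ : ι × Lt m T | mv ((wt (x i) (x j) κ.2 * u κ.1 : Alt n) :
    Perm (Fin n)) a = b} : ℝ) / Fintype.card (ι × Lt m T), ?_, ?_⟩
  · refine ⟨ι × Lt m T, inferInstance, inferInstance, fun κ => wt (x i) (x j) κ.2 * u κ.1, ?_, ?_⟩
    · intro κ
      rw [add_comm]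
      exact Bl_mul x (wt_mem x i j κ.2) (hu κ.1)
    · intro a b
      have : (0 : ℝ) < Fintype.card (ι × Lt m T) := by exact_mod_cast Fintype.card_pos
      field_simp
  · intro a b
    show BK _ _ a b ≤ (#{κ : ι × Lt m T | mv ((wt (x i) (x j) κ.2 * u κ.1 : Alt n) :
      Perm (Fin n)) a = b} : ℝ) / Fintype.card (ι × Lt m T)
    unfold BK NK
    rw [← sum_div, div_div, Fintype.card_prod, Nat.cast_mul, card_Lt,
      mul_comm ((T : ℝ) ^ (m + 1))]
    apply div_le_div_of_nonneg_right _ (by positivity)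
    have h1 : #{κ : ι × Lt m T | mv ((wt (x i) (x j) κ.2 * u κ.1 : Alt n) : Perm (Fin n)) a = b} =
        ∑ κ, #{τ : Lt m T | mv (wt (x i : Perm (Fin n)) (x j : Perm (Fin n)) τ)
          (mv (u κ : Perm (Fin n)) a) = b} := by
      rw [card_filter, Fintype.sum_prod_type]
      refine sum_congr rfl fun κ _ => ?_
      rw [card_filter]
      refine sum_congr rfl fun τ _ => ?_
      rw [Subgroup.coe_mul, mv_mul, coe_wt]
    rw [h1, Nat.cast_sum]
    refine sum_le_sum fun κ _ => ?_
    have h2 : #{τ : Lt m T | Nice (x i : Perm (Fin n)) (x j : Perm (Fin n)) S β τ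
        (mvE (u κ : Perm (Fin n)) a) ∧ mv (wt (x i : Perm (Fin n)) (x j : Perm (Fin n)) τ)
        (mvE (u κ : Perm (Fin n)) a) = b} ≤
        #{τ : Lt m T | mv (wt (x i : Perm (Fin n)) (x j : Perm (Fin n)) τ)
          (mv (u κ : Perm (Fin n)) a) = b} := by
      apply card_le_card
      intro τ hτ
      rw [mem_filter] at hτ ⊢
      exact ⟨mem_univ _, hτ.2.2⟩
    exact_mod_cast h2

end Block

/-! ### consequences of flatness -/

section Flat

variable {x : Fin k → Alt n}

/-- routing and a lower bound of the transition probabilities -/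
lemma flat_inner {L : ℕ} {f B : Tup r n → Tup r n → ℝ} (hf : FamP x L f)
    (hB0 : ∀ a b, 0 ≤ B a b) (hB : ∀ a b, B a b ≤ f a b) {p : ℕ} {c : ℝ} (hc : 0 ≤ c)
    (hmass : ∀ a, c ≤ ∑ b, VV B p a b)
    (hflat : ∀ a, Fintype.card (Tup r n) * ∑ b, VV B p a b ^ 2 ≤
      3 / 2 * (∑ b, VV B p a b) ^ 2) :
    FamP x (p * L + p * L) (fun a b => ∑ d, VV f p a d * VV f p b d) ∧
      ∀ a b : Tup r n, c ^ 2 / 2 / Fintype.card (Tup r n) ≤ ∑ d, VV f p a d * VV f p b d := by
  have hp := hf.pow p
  refine ⟨hp.comp hp.inv, fun a b => ?_⟩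
  have : Nonempty (Tup r n) := ⟨a⟩
  have hN : (0 : ℝ) < Fintype.card (Tup r n) := by exact_mod_cast Fintype.card_pos
  have h1 := inner_low (VV B p a) (VV B p b) (hflat a) (hflat b) (hc.trans (hmass a))
    (hc.trans (hmass b))
  have h2 : ∑ d, VV B p a d * VV B p b d ≤ ∑ d, VV f p a d * VV f p b d := by
    refine sum_le_sum fun d _ => mul_le_mul (VV_mono hB0 hB p a d) (VV_mono hB0 hB p b d)
      (VV_nonneg hB0 p b d) (VV_nonneg hf.card_pos' p a d)
  rw [div_le_iff₀ hN]
  have h3 : c ^ 2 ≤ (∑ b', VV B p a b') * ∑ b', VV B p b b' := by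
    rw [sq]
    exact mul_le_mul (hmass a) (hmass b) hc (hc.trans (hmass a))
  nlinarith

/-- mixing families -/
def MixFam (x : Fin k → Alt n) (L R : ℕ) (e : ℝ) : Prop :=
  ∃ (K : Type) (_ : Fintype K) (_ : Nonempty K) (g : K → Alt n), (∀ κ, g κ ∈ Bl x L) ∧
    ∀ r ≤ R, Mix r e (fun κ => (g κ : Perm (Fin n)))

lemma MixFam.mono {L L' R R' : ℕ} {e : ℝ} (h : MixFam x L R e) (hL : L ≤ L') (hR : R' ≤ R) :
    MixFam x L' R' e := by
  obtain ⟨K, iK, nK, g, h1, h2⟩ := h
  exact ⟨K, iK, nK, g, fun κ => Bl_mono x hL (h1 κ), fun r hr => h2 r (hr.trans hR)⟩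

/-- the tuples extending a given tuple -/
lemma card_ext (b : Tup r n) :
    #{b' : Tup (r + 1) n | ∀ i : Fin r, b' i.castSucc = b i} = n - r := by
  classical
  have h1 : #{b' : Tup (r + 1) n | ∀ i : Fin r, b' i.castSucc = b i} =
      #((univ.map b)ᶜ : Finset (Fin n)) := by
    refine card_bij (fun b' _ => b' (Fin.last r)) ?_ ?_ ?_
    · intro b' hb'
      have h2 := (mem_filter.1 hb').2
      rw [mem_compl, mem_map]
      rintro ⟨i, -, hi⟩
      rw [← h2 i] at hi
      have := b'.injective hi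
      exact absurd this (Fin.castSucc_lt_last i).ne
    · intro b1 hb1 b2 hb2 h
      have h2 := (mem_filter.1 hb1).2
      have h3 := (mem_filter.1 hb2).2
      ext i
      refine Fin.lastCases ?_ (fun i => ?_) i
      · exact congrArg Fin.val h
      · rw [h2, h3]
    · intro q hq
      rw [mem_compl, mem_map] at hq
      push Not at hq
      have hinj : Function.Injective (Fin.snoc b q : Fin (r + 1) → Fin n) := by
        intro i
        refine Fin.lastCases ?_ (fun i => ?_) i
        · intro j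
          refine Fin.lastCases ?_ (fun j => ?_) j
          · intro _; rfl
          · intro h
            rw [Fin.snoc_last, Fin.snoc_castSucc] at h
            exact absurd h.symm (hq j (mem_univ _))
        · intro j
          refine Fin.lastCases ?_ (fun j => ?_) j
          · intro h
            rw [Fin.snoc_last, Fin.snoc_castSucc] at h
            exact absurd h (hq i (mem_univ _))
          · intro h
            rw [Fin.snoc_castSucc, Fin.snoc_castSucc] at h
            rw [b.injective h]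
      refine ⟨⟨_, hinj⟩, ?_, ?_⟩
      · rw [mem_filter]
        refine ⟨mem_univ _, fun i => ?_⟩
        show (Fin.snoc b q : Fin (r + 1) → Fin n) i.castSucc = b i
        rw [Fin.snoc_castSucc]
      · show (Fin.snoc b q : Fin (r + 1) → Fin n) (Fin.last r) = q
        rw [Fin.snoc_last]
  rw [h1, card_compl, card_map, card_univ, Fintype.card_fin, Fintype.card_fin]

/-- extending a tuple -/
lemma exists_ext (hr : r < n) (b : Tup r n) : ∃ b' : Tup (r + 1) n, ∀ i : Fin r,
    b' i.castSucc = b i := by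
  have h := card_ext b
  have h2 : 0 < #{b' : Tup (r + 1) n | ∀ i : Fin r, b' i.castSucc = b i} := by omega
  obtain ⟨b', hb'⟩ := card_pos.1 h2
  exact ⟨b', (mem_filter.1 hb').2⟩

lemma card_Tup_succ :
    (Fintype.card (Tup (r + 1) n) : ℝ) = (n - r : ℕ) * Fintype.card (Tup r n) := by
  rw [Fintype.card_embedding_eq, Fintype.card_embedding_eq, Fintype.card_fin, Fintype.card_fin,
    Fintype.card_fin, Nat.descFactorial_succ]
  push_cast
  ring

/-- marginals -/
lemma Mix.down {K : Type*} [Fintype K] {g : K → Perm (Fin n)} {e : ℝ} (hr : r < n)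
    (h : Mix (r + 1) e g) : Mix r e g := by
  classical
  intro a b
  obtain ⟨a', ha'⟩ := exists_ext hr a
  set B : Finset (Tup (r + 1) n) := {b' | ∀ i : Fin r, b' i.castSucc = b i} with hB
  have hBc : #B = n - r := card_ext b
  have h1 : #{κ | mv (g κ) a = b} = #{κ | mv (g κ) a' ∈ B} := by
    congr 1
    ext κ
    simp only [mem_filter, mem_univ, true_and, hB]
    constructor
    · intro h i
      rw [mv_apply, ha', ← h, mv_apply]
    · intro h
      ext i
      rw [mv_apply, ← ha', ← mv_apply, h i]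
  have hnr : (0 : ℝ) < ((n - r : ℕ) : ℝ) := by exact_mod_cast (by omega : 0 < n - r)
  have h2 := h.upper_set a' B
  have h3 := h.lower_set a' B
  rw [← h1, card_Tup_succ, hBc] at h2 h3
  rw [abs_le]
  constructor
  · have h4 : ((n - r : ℕ) : ℝ) * ((1 - e) * Fintype.card K) ≤
        ((n - r : ℕ) : ℝ) * ((#{κ | mv (g κ) a = b} : ℝ) * Fintype.card (Tup r n)) := by
      calc _ = (1 - e) * ((n - r : ℕ) : ℝ) * Fintype.card K := by ring
        _ ≤ _ := h3
        _ = _ := by ring
    have := le_of_mul_le_mul_left h4 hnr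
    linarith
  · have h4 : ((n - r : ℕ) : ℝ) * ((#{κ | mv (g κ) a = b} : ℝ) * Fintype.card (Tup r n)) ≤
        ((n - r : ℕ) : ℝ) * ((1 + e) * Fintype.card K) := by
      calc _ = (#{κ | mv (g κ) a = b} : ℝ) * (((n - r : ℕ) : ℝ) * Fintype.card (Tup r n)) := by ring
        _ ≤ _ := h2
        _ = _ := by ring
    have := le_of_mul_le_mul_left h4 hnr
    linarith

/-- a mixing family from a lower bound of the transition probabilities -/
lemma mixFam_of {L : ℕ} {f : Tup r n → Tup r n → ℝ} (hf : FamP x L f) (hrn : r ≤ n) {c0 : ℝ}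
    (hlow : ∀ a b, c0 / Fintype.card (Tup r n) ≤ f a b) (l : ℕ) {e : ℝ}
    (he : Fintype.card (Tup r n) * (1 - c0) ^ l ≤ e) : MixFam x (l * L) r e := by
  have hne : Nonempty (Tup r n) := ⟨Fin.castLEEmb hrn⟩
  obtain ⟨K, iK, nK, g, h1, h2⟩ := hf.pow l
  have hN : (0 : ℝ) < Fintype.card (Tup r n) := by exact_mod_cast Fintype.card_pos
  have hmix : Mix r e (fun κ => (g κ : Perm (Fin n))) := by
    intro a b
    have h3 := doeblin hf.row hf.col hlow l a b
    rw [h2]
    have h4 : VV f l a b * Fintype.card K * Fintype.card (Tup r n) - Fintype.card K =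
        (Fintype.card (Tup r n) * (VV f l a b - 1 / Fintype.card (Tup r n))) *
          Fintype.card K := by field_simp
    have h6 : (0 : ℝ) ≤ Fintype.card K := Nat.cast_nonneg _
    rw [h4, abs_mul, abs_mul, abs_of_pos hN, abs_of_nonneg h6]
    apply mul_le_mul_of_nonneg_right _ (Nat.cast_nonneg _)
    refine le_trans ?_ he
    exact mul_le_mul_of_nonneg_left h3 hN.le
  refine ⟨K, iK, nK, g, h1, ?_⟩
  have h5 : ∀ d, d ≤ r → Mix (r - d) e (fun κ => (g κ : Perm (Fin n))) := by
    intro d hd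
    induction d with
    | zero => exact hmix
    | succ d ih =>
      have h6 := ih (by omega)
      rw [show r - d = r - (d + 1) + 1 by omega] at h6
      exact Mix.down (by omega) h6
  intro r' hr'
  have := h5 (r - r') (by omega)
  rwa [show r - (r - r') = r' by omega] at this

end Flat

end

end Run7.h624.PD
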