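import Pool.Agent.Run7.h624.PD.HS

/-!
Every tuple is good after one random step `y x^t`: the sparseness of coincidences.
-/

namespace Run7.h624.PD
open RC14 Finset Equiv Run7.h624.DM

noncomputable section

variable {n : ℕ}

open Classical in
/-- coincidences are rare, for all points -/
structure Sps (x y : Perm (Fin n)) (S T : ℕ) : Prop where
  g0 : ∀ p, cyl x p ≤ S → S < cyl x (y p)
  g1 : ∀ p, S < cyl x p → ∀ q, #{t : Fin T | cl x S (y ((x ^ (t : ℕ)) p)) q} ≤ 2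
  g1' : ∀ p, S < cyl x p → #{t : Fin T | cyl x (y ((x ^ (t : ℕ)) p)) ≤ S} ≤ 2
  g2 : ∀ p q, p ≠ q → S < cyl x p → S < cyl x q →
    #{t : Fin T | cl x S (y ((x ^ (t : ℕ)) p)) (y ((x ^ (t : ℕ)) q))} ≤ 6

lemma hd_congr_t {x y : Perm (Fin n)} {t t' : ℕ → ℕ} (p : Fin n) (j : ℕ)
    (h : ∀ i < j, t i = t' i) : hd x y t p j = hd x y t' p j := by
  induction j with
  | zero => rfl
  | succ j ih =>
    rw [hd_succ, hd_succ, ih (fun i hi => h i (by omega)), h j (by omega)]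

lemma cyl_pow_apply (x : Perm (Fin n)) (t : ℕ) (p : Fin n) : cyl x ((x ^ t) p) = cyl x p := by
  have := cyl_zpow x (t : ℤ) p
  rwa [zpow_natCast] at this

section coord
variable {m T : ℕ}

lemma ex_update_ne (τ : Lt m T) (l : Fin (m + 1)) (s : Fin T) {j : ℕ} (h : j ≠ l) :
    ex (Function.update τ l s) j = ex τ j := by
  unfold ex
  split_ifs with h1
  · rw [Function.update_of_ne]
    intro h2
    exact h (congrArg Fin.val h2)
  · rfl

lemma ex_update_eq (τ : Lt m T) (l : Fin (m + 1)) (s : Fin T) :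
    ex (Function.update τ l s) l = s := by
  rw [ex_apply, Function.update_self]

open Classical in
/-- counting with one free coordinate -/
lemma card_coord1 (l : Fin (m + 1)) (P : Lt m T → Prop) (c : ℕ)
    (h : ∀ τ : Lt m T, #{s : Fin T | P (Function.update τ l s)} ≤ c) :
    T * #{τ : Lt m T | P τ} ≤ c * T ^ (m + 1) := by
  have hinv : Function.Involutive
      (fun z : Lt m T × Fin T => (Function.update z.1 l z.2, z.1 l)) := by
    rintro ⟨τ, s⟩
    simp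
  have h1 : ∑ z : Lt m T × Fin T, (if P (Function.update z.1 l z.2) then 1 else 0) =
      ∑ z : Lt m T × Fin T, (if P z.1 then 1 else 0) :=
    Equiv.sum_comp hinv.toPerm (fun z : Lt m T × Fin T => if P z.1 then 1 else 0)
  have h2 : ∑ z : Lt m T × Fin T, (if P z.1 then 1 else 0) = T * #{τ : Lt m T | P τ} := by
    rw [Fintype.sum_prod_type, card_filter, mul_sum]
    refine sum_congr rfl fun τ _ => ?_
    show ∑ _s : Fin T, (if P τ then 1 else 0) = T * (if P τ then 1 else 0)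
    rw [sum_const, card_univ, Fintype.card_fin, smul_eq_mul]
  have h3 : ∑ z : Lt m T × Fin T, (if P (Function.update z.1 l z.2) then 1 else 0) ≤
      c * T ^ (m + 1) := by
    rw [Fintype.sum_prod_type]
    have h4 : ∀ τ : Lt m T, ∑ s : Fin T, (if P (Function.update τ l s) then 1 else 0) ≤ c := by
      intro τ
      rw [← card_filter]
      exact h τ
    refine (sum_le_sum fun τ _ => h4 τ).trans (le_of_eq ?_)
    rw [sum_const, card_univ, Fintype.card_fun, Fintype.card_fin, Fintype.card_fin, smul_eq_mul,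
      mul_comm]
  rw [← h2, ← h1]
  exact h3

end coord

section det
variable {x y : Perm (Fin n)} {S T m r : ℕ}

/-- the first bad event at time `l + 1` -/
def bd (x y : Perm (Fin n)) (S : ℕ) (b : Fin r → Fin n) (l : ℕ) (τ : Lt m T) : Prop :=
  (∀ i, S < cyl x (hd x y (ex τ) (b i) l)) ∧
    ∃ i, cyl x (hd x y (ex τ) (b i) (l + 1)) ≤ S ∨
      (∃ i', ∃ j ∈ Icc 1 l, cl x S (hd x y (ex τ) (b i') j) (hd x y (ex τ) (b i) (l + 1))) ∨
      ∃ i', i' ≠ i ∧ cl x S (hd x y (ex τ) (b i') (l + 1)) (hd x y (ex τ) (b i) (l + 1))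

lemma exists_bd (hr : 1 ≤ r) {b : Tup r n} (hb : ∀ i, S < cyl x (b i)) {τ : Lt m T}
    (h : ¬ Nice x y S (fun _ => 0) τ b) : ∃ l < m, bd x y S b l τ := by
  classical
  have h1 : ∃ M, 1 ≤ M ∧ M ≤ m ∧ ∃ i, ¬ Iso x y S (ex τ) b M i := by
    by_contra hcon
    push Not at hcon
    apply h
    refine ⟨⟨⟨0, hr⟩, hb _⟩, fun M h2 h3 => ?_⟩
    rw [Nat.le_zero, card_eq_zero, filter_eq_empty_iff]
    intro i _
    rw [not_not]
    exact hcon M h2 h3 i
  obtain ⟨h2, h3, i, hi⟩ := Nat.find_spec h1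
  have h4 := fun M (hM : M < Nat.find h1) => Nat.find_min h1 hM
  set M := Nat.find h1 with hM
  obtain ⟨l, hl⟩ : ∃ l, M = l + 1 := ⟨M - 1, by omega⟩
  rw [hl] at h3 hi h4
  refine ⟨l, by omega, ?_, i, ?_⟩
  · intro i'
    rcases Nat.eq_zero_or_pos l with h5 | h5
    · rw [h5, hd_zero]
      exact hb i'
    · have h6 := h4 l (by omega)
      push Not at h6
      exact (h6 h5 (by omega) i').1
  · unfold Iso at hi
    rw [not_and_or] at hi
    rcases hi with h5 | h5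
    · left; omega
    · right
      push Not at h5
      obtain ⟨i', j, h6, h7, h8, h9⟩ := h5
      by_cases h10 : j = l + 1
      · right
        subst h10
        exact ⟨i', fun h => h8 (by rw [h]), h9⟩
      · left
        exact ⟨i', j, mem_Icc.2 ⟨h6, by omega⟩, h9⟩

open Classical in
lemma card_bd_coord (h : Sps x y S T) (b : Tup r n) {l : ℕ} (hl : l < m) (τ : Lt m T) :
    #{s : Fin T | bd x y S b l (Function.update τ ⟨l, by omega⟩ s)} ≤
      r * (2 + r * l * 2 + r * 6) := by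
  set P : Fin r → Fin n := fun i => hd x y (ex τ) (b i) l with hP
  by_cases hc : ∀ i, S < cyl x (P i)
  swap
  · have : ({s : Fin T | bd x y S b l (Function.update τ ⟨l, by omega⟩ s)} : Finset _) = ∅ := by
      rw [filter_eq_empty_iff]
      rintro s - ⟨h1, -⟩
      apply hc
      intro i
      have h2 := h1 i
      rwa [hd_congr_t (t' := ex τ) (b i) l (fun j hj => ex_update_ne τ _ s (by
        show j ≠ l; omega))] at h2
    rw [this, card_empty]
    exact Nat.zero_le _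
  have hlo : ∀ (s : Fin T) (q : Fin n) (j : ℕ), j ≤ l →
      hd x y (ex (Function.update τ ⟨l, by omega⟩ s)) q j = hd x y (ex τ) q j := by
    intro s q j hj
    refine hd_congr_t q j fun i hi => ex_update_ne τ _ s ?_
    show i ≠ l
    omega
  have hup : ∀ (s : Fin T) (i : Fin r),
      hd x y (ex (Function.update τ ⟨l, by omega⟩ s)) (b i) (l + 1) = y ((x ^ (s : ℕ)) (P i)) := by
    intro s i
    rw [hd_succ, hlo s (b i) l le_rfl]
    have h1 := ex_update_eq τ ⟨l, by omega⟩ s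
    rw [show ex (Function.update τ ⟨l, by omega⟩ s) l = (s : ℕ) from h1]
  have hPP : ∀ i i', i' ≠ i → P i' ≠ P i := by
    intro i i' hii hh
    exact hii (b.injective ((wd x y (ex τ) l).injective hh))
  have hsub : ({s : Fin T | bd x y S b l (Function.update τ ⟨l, by omega⟩ s)} : Finset _) ⊆
      univ.biUnion fun i : Fin r =>
        (({s : Fin T | cyl x (y ((x ^ (s : ℕ)) (P i))) ≤ S} : Finset _) ∪
        ((univ ×ˢ Icc 1 l : Finset (Fin r × ℕ)).biUnion fun w =>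
          ({s : Fin T | cl x S (y ((x ^ (s : ℕ)) (P i))) (hd x y (ex τ) (b w.1) w.2)} :
            Finset _))) ∪
        ((univ.erase i : Finset (Fin r)).biUnion fun i' =>
          ({s : Fin T | cl x S (y ((x ^ (s : ℕ)) (P i'))) (y ((x ^ (s : ℕ)) (P i)))} :
            Finset _)) := by
    intro s hs
    obtain ⟨-, -, i, h1⟩ := mem_filter.1 hs
    rw [mem_biUnion]
    refine ⟨i, mem_univ _, ?_⟩
    rw [mem_union, mem_union]
    rw [hup] at h1
    rcases h1 with h1 | ⟨i', j, hj, h1⟩ | ⟨i', hi', h1⟩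
    · exact Or.inl (Or.inl (mem_filter.2 ⟨mem_univ _, h1⟩))
    · rw [hlo s (b i') j (mem_Icc.1 hj).2] at h1
      left; right
      rw [mem_biUnion]
      exact ⟨(i', j), mem_product.2 ⟨mem_univ _, hj⟩, mem_filter.2 ⟨mem_univ _, cl_symm h1⟩⟩
    · rw [hup] at h1
      right
      rw [mem_biUnion]
      exact ⟨i', mem_erase.2 ⟨hi', mem_univ _⟩, mem_filter.2 ⟨mem_univ _, h1⟩⟩
  refine (card_le_card hsub).trans (card_biUnion_le.trans ?_)
  have hi : ∀ i : Fin r, #((({s : Fin T | cyl x (y ((x ^ (s : ℕ)) (P i))) ≤ S} : Finset _) ∪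
        ((univ ×ˢ Icc 1 l : Finset (Fin r × ℕ)).biUnion fun w =>
          ({s : Fin T | cl x S (y ((x ^ (s : ℕ)) (P i))) (hd x y (ex τ) (b w.1) w.2)} :
            Finset _))) ∪
        ((univ.erase i : Finset (Fin r)).biUnion fun i' =>
          ({s : Fin T | cl x S (y ((x ^ (s : ℕ)) (P i'))) (y ((x ^ (s : ℕ)) (P i)))} :
            Finset _))) ≤ 2 + r * l * 2 + r * 6 := by
    intro i
    refine (card_union_le _ _).trans (Nat.add_le_add ((card_union_le _ _).trans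
      (Nat.add_le_add (h.g1' _ (hc i)) ?_)) ?_)
    · refine card_biUnion_le.trans ((sum_le_sum fun w _ => h.g1 _ (hc i) _).trans (le_of_eq ?_))
      rw [sum_const, card_product, card_univ, Fintype.card_fin, Nat.card_Icc, smul_eq_mul,
        Nat.add_sub_cancel]
    · refine card_biUnion_le.trans ((sum_le_sum fun i' hi' =>
        h.g2 _ _ (hPP i i' (mem_erase.1 hi').1) (hc i') (hc i)).trans ?_)
      rw [sum_const, smul_eq_mul]
      refine Nat.mul_le_mul_right _ ?_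
      refine (card_le_univ _).trans (le_of_eq (Fintype.card_fin r))
  refine (sum_le_sum fun i _ => hi i).trans (le_of_eq ?_)
  rw [sum_const, card_univ, Fintype.card_fin, smul_eq_mul]

open Classical in
lemma card_not_nice_start (h : Sps x y S T) (hT : 1 ≤ T) (hr : 1 ≤ r) (b : Tup r n)
    (hb : ∀ i, S < cyl x (b i)) :
    #{τ : Lt m T | ¬ Nice x y S (fun _ => 0) τ b} ≤
      m * (r * (2 + r * m * 2 + r * 6)) * T ^ m := by
  have hsub : ({τ : Lt m T | ¬ Nice x y S (fun _ => 0) τ b} : Finset _) ⊆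
      (range m).biUnion fun l => ({τ : Lt m T | bd x y S b l τ} : Finset _) := by
    intro τ hτ
    obtain ⟨l, hl, hl'⟩ := exists_bd hr hb (mem_filter.1 hτ).2
    rw [mem_biUnion]
    exact ⟨l, mem_range.2 hl, mem_filter.2 ⟨mem_univ _, hl'⟩⟩
  refine (card_le_card hsub).trans (card_biUnion_le.trans ?_)
  have hl : ∀ l ∈ range m, #{τ : Lt m T | bd x y S b l τ} ≤
      r * (2 + r * m * 2 + r * 6) * T ^ m := by
    intro l hl
    rw [mem_range] at hl
    have h1 := card_coord1 (⟨l, by omega⟩ : Fin (m + 1)) (fun τ : Lt m T => bd x y S b l τ)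
      (r * (2 + r * l * 2 + r * 6)) (fun τ => card_bd_coord h b hl τ)
    have h2 : r * (2 + r * l * 2 + r * 6) ≤ r * (2 + r * m * 2 + r * 6) := by gcongr
    have h3 : T * #{τ : Lt m T | bd x y S b l τ} ≤ T * (r * (2 + r * m * 2 + r * 6) * T ^ m) := by
      refine h1.trans ?_
      calc r * (2 + r * l * 2 + r * 6) * T ^ (m + 1) ≤ r * (2 + r * m * 2 + r * 6) * T ^ (m + 1) :=
            Nat.mul_le_mul_right _ h2
        _ = _ := by ring
    exact Nat.le_of_mul_le_mul_left h3 hT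
  refine (sum_le_sum hl).trans (le_of_eq ?_)
  rw [sum_const, card_range, smul_eq_mul]
  ring

open Classical in
lemma card_bad_start (h : Sps x y S T) (a : Tup r n) :
    #{t : Fin T | ¬ ∀ i, S < cyl x (mv (y * x ^ (t : ℕ)) a i)} ≤ r * 2 := by
  have hsub : ({t : Fin T | ¬ ∀ i, S < cyl x (mv (y * x ^ (t : ℕ)) a i)} : Finset _) ⊆
      univ.biUnion fun i : Fin r =>
        ({t : Fin T | cyl x (y ((x ^ (t : ℕ)) (a i))) ≤ S} : Finset _) := by
    intro t ht
    have h1 := (mem_filter.1 ht).2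
    push Not at h1
    obtain ⟨i, hi⟩ := h1
    rw [mem_biUnion]
    exact ⟨i, mem_univ _, mem_filter.2 ⟨mem_univ _, hi⟩⟩
  refine (card_le_card hsub).trans (card_biUnion_le.trans ?_)
  have hi : ∀ i : Fin r, #{t : Fin T | cyl x (y ((x ^ (t : ℕ)) (a i))) ≤ S} ≤ 2 := by
    intro i
    by_cases h1 : S < cyl x (a i)
    · exact h.g1' _ h1
    · push Not at h1
      have : ({t : Fin T | cyl x (y ((x ^ (t : ℕ)) (a i))) ≤ S} : Finset _) = ∅ := by
        rw [filter_eq_empty_iff]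
        intro t _ h2
        have h3 := h.g0 ((x ^ (t : ℕ)) (a i)) (by rw [cyl_pow_apply]; exact h1)
        omega
      rw [this, card_empty]
      exact Nat.zero_le _
  refine (sum_le_sum fun i _ => hi i).trans (le_of_eq ?_)
  rw [sum_const, card_univ, Fintype.card_fin, smul_eq_mul]

/-- the constant -/
def cst (r m : ℕ) : ℕ := r * 2 + m * (r * (2 + r * m * 2 + r * 6))

/-- every tuple is retained with probability near one -/
lemma retain_start (h : Sps x y S T) (hT : 1 ≤ T) (hr : 1 ≤ r) (a : Tup r n) :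
    1 - (cst r m : ℝ) / T ≤ ∑ b, BK (NK x y S (fun _ => 0) m T)
      (fun t : Fin T => mvE (y * x ^ (t : ℕ))) a b := by
  classical
  have hT0 : (0 : ℝ) < T := by exact_mod_cast hT
  unfold BK
  rw [← sum_div, sum_comm, Fintype.card_fin, le_div_iff₀ hT0]
  have h1 : ∀ t : Fin T, 1 - (m * (r * (2 + r * m * 2 + r * 6)) : ℕ) / (T : ℝ) -
      (if ¬ ∀ i, S < cyl x (mv (y * x ^ (t : ℕ)) a i) then 1 else 0) ≤
      ∑ b, NK x y S (fun _ => 0) m T (mvE (y * x ^ (t : ℕ)) a) b := by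
    intro t
    by_cases h2 : ∀ i, S < cyl x (mv (y * x ^ (t : ℕ)) a i)
    swap
    · rw [if_pos h2]
      have h3 : 0 ≤ ∑ b, NK x y S (fun _ => 0) m T (mvE (y * x ^ (t : ℕ)) a) b :=
        sum_nonneg fun b _ => NK_nonneg _ _ _ _ _ _ _ _
      have h4 : (0 : ℝ) ≤ (m * (r * (2 + r * m * 2 + r * 6)) : ℕ) / (T : ℝ) := by positivity
      linarith
    · rw [if_neg (not_not.2 h2)]
      rw [NK_row_eq]
      have h3 := card_not_nice_start (m := m) h hT hr (mv (y * x ^ (t : ℕ)) a) h2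
      have h4 : (#{τ : Lt m T | Nice x y S (fun _ => 0) τ (mvE (y * x ^ (t : ℕ)) a)} : ℝ) +
          #{τ : Lt m T | ¬ Nice x y S (fun _ => 0) τ (mv (y * x ^ (t : ℕ)) a)} =
          (T : ℝ) ^ (m + 1) := by
        rw [← card_Lt]
        have := card_filter_add_card_filter_not (s := (univ : Finset (Lt m T)))
          (fun τ => Nice x y S (fun _ => 0) τ (mv (y * x ^ (t : ℕ)) a))
        rw [card_univ] at this
        exact_mod_cast this
      have h5 : (#{τ : Lt m T | ¬ Nice x y S (fun _ => 0) τ (mv (y * x ^ (t : ℕ)) a)} : ℝ) ≤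
          (m * (r * (2 + r * m * 2 + r * 6)) : ℕ) * (T : ℝ) ^ m := by exact_mod_cast h3
      rw [le_div_iff₀ (by positivity), sub_zero, sub_mul, one_mul]
      have h6 : (m * (r * (2 + r * m * 2 + r * 6)) : ℕ) / (T : ℝ) * (T : ℝ) ^ (m + 1) =
          (m * (r * (2 + r * m * 2 + r * 6)) : ℕ) * (T : ℝ) ^ m := by
        rw [pow_succ]
        field_simp
      rw [h6]
      linarith
  refine le_trans ?_ (sum_le_sum fun t _ => h1 t)
  have h2 := card_bad_start h a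
  have h3 : (#{t : Fin T | ¬ ∀ i, S < cyl x (mv (y * x ^ (t : ℕ)) a i)} : ℝ) ≤ (r * 2 : ℕ) := by
    exact_mod_cast h2
  rw [sum_sub_distrib, sum_const, card_univ, Fintype.card_fin, nsmul_eq_mul, ← sum_filter,
    sum_const, nsmul_eq_mul, mul_one]
  have h4 : (1 - (cst r m : ℝ) / T) * T = T - cst r m := by field_simp
  have h5 : (T : ℝ) * (1 - (m * (r * (2 + r * m * 2 + r * 6)) : ℕ) / (T : ℝ)) =
      T - (m * (r * (2 + r * m * 2 + r * 6)) : ℕ) := by field_simp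
  rw [h4, h5]
  have h6 : (cst r m : ℝ) = (r * 2 : ℕ) + (m * (r * (2 + r * m * 2 + r * 6)) : ℕ) := by
    unfold cst
    push_cast
    ring
  rw [h6]
  linarith

end det

/-! ### typical `y` -/
section typ
variable (x : Perm (Fin n)) {S T : ℕ}

/-- permutations moving a tuple into a set -/
lemma card_perm_in {r : ℕ} (a : Tup r n) (B : Finset (Tup r n)) :
    #{y : Perm (Fin n) | mv y a ∈ B} * Fintype.card (Tup r n) = #B * n.factorial := by
  rw [card_mem_eq (fun y : Perm (Fin n) => y) a B, sum_mul]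
  simp_rw [card_mv_perm]
  rw [sum_const, smul_eq_mul]

open Classical in
lemma bad0 : #{y : Perm (Fin n) | ¬ ∀ p, cyl x p ≤ S → S < cyl x (y p)} * n ≤
    #{p | cyl x p ≤ S} ^ 2 * n.factorial := by
  set Sh : Finset (Fin n) := {p | cyl x p ≤ S} with hSh
  have hsub : ({y : Perm (Fin n) | ¬ ∀ p, cyl x p ≤ S → S < cyl x (y p)} : Finset _) ⊆
      (Sh ×ˢ Sh).biUnion fun w => ({y : Perm (Fin n) | mv y (tup1 w.1) ∈
        ({tup1 w.2} : Finset (Tup 1 n))} : Finset _) := by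
    intro y hy
    have h1 := (mem_filter.1 hy).2
    push Not at h1
    obtain ⟨p, hp, hq⟩ := h1
    rw [mem_biUnion]
    refine ⟨(p, y p), mem_product.2 ⟨mem_filter.2 ⟨mem_univ _, hp⟩,
      mem_filter.2 ⟨mem_univ _, hq⟩⟩, mem_filter.2 ⟨mem_univ _, ?_⟩⟩
    rw [mem_singleton]
    ext i
    rfl
  have h1 := (card_le_card hsub).trans card_biUnion_le
  have h2 : ∀ w ∈ Sh ×ˢ Sh, #{y : Perm (Fin n) | mv y (tup1 w.1) ∈
        ({tup1 w.2} : Finset (Tup 1 n))} * n = n.factorial := by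
    intro w _
    have := card_perm_in (tup1 w.1) ({tup1 w.2} : Finset (Tup 1 n))
    rw [Fintype.card_embedding_eq, Fintype.card_fin, Fintype.card_fin, Nat.descFactorial_one,
      card_singleton, one_mul] at this
    exact this
  calc _ ≤ (∑ w ∈ Sh ×ˢ Sh, #{y : Perm (Fin n) | mv y (tup1 w.1) ∈
        ({tup1 w.2} : Finset (Tup 1 n))}) * n := Nat.mul_le_mul_right _ h1
    _ = #Sh ^ 2 * n.factorial := by
      rw [sum_mul, sum_congr rfl h2, sum_const, card_product, smul_eq_mul, sq]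

/-- three points of an orbit -/
def tup3 (a b c : Fin n) (h1 : a ≠ b) (h2 : a ≠ c) (h3 : b ≠ c) : Tup 3 n := ⟨![a, b, c], by
  intro i j hij
  fin_cases i <;> fin_cases j <;> simp at hij ⊢
  · exact h1 hij
  · exact h2 hij
  · exact h1 hij.symm
  · exact h3 hij
  · exact h2 hij.symm
  · exact h3 hij.symm⟩

open Classical in
/-- three values in a set -/
lemma card_three (A : Finset (Fin n)) (p : Fin n) (hp : S < cyl x p) (hTS : T ≤ S) :
    #{y : Perm (Fin n) | 3 ≤ #{t : Fin T | y ((x ^ (t : ℕ)) p) ∈ A}} * Fintype.card (Tup 3 n) ≤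
      T ^ 3 * #A ^ 3 * n.factorial := by
  set D : Finset (Fin T × Fin T × Fin T) := {w | w.1 ≠ w.2.1 ∧ w.1 ≠ w.2.2 ∧ w.2.1 ≠ w.2.2} with hD
  have hsub : ({y : Perm (Fin n) | 3 ≤ #{t : Fin T | y ((x ^ (t : ℕ)) p) ∈ A}} : Finset _) ⊆
      D.biUnion fun w => ({y : Perm (Fin n) | y ((x ^ (w.1 : ℕ)) p) ∈ A ∧
        y ((x ^ (w.2.1 : ℕ)) p) ∈ A ∧ y ((x ^ (w.2.2 : ℕ)) p) ∈ A} : Finset _) := by
    intro y hy
    have h1 := (mem_filter.1 hy).2
    obtain ⟨t1, h2, t2, h3, t3, h4, h5, h6, h7⟩ := two_lt_card.1 (show 2 < _ from h1)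
    rw [mem_biUnion]
    exact ⟨(t1, t2, t3), by rw [hD, mem_filter]; exact ⟨mem_univ _, h5, h6, h7⟩,
      mem_filter.2 ⟨mem_univ _, (mem_filter.1 h2).2, (mem_filter.1 h3).2, (mem_filter.1 h4).2⟩⟩
  have h1 := (card_le_card hsub).trans card_biUnion_le
  have h2 : ∀ w ∈ D, #{y : Perm (Fin n) | y ((x ^ (w.1 : ℕ)) p) ∈ A ∧
        y ((x ^ (w.2.1 : ℕ)) p) ∈ A ∧ y ((x ^ (w.2.2 : ℕ)) p) ∈ A} * Fintype.card (Tup 3 n) ≤
        #A ^ 3 * n.factorial := by
    intro w hw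
    obtain ⟨-, h3, h4, h5⟩ := mem_filter.1 hw
    have hne : ∀ s t : Fin T, s ≠ t → (x ^ (s : ℕ)) p ≠ (x ^ (t : ℕ)) p := by
      intro s t hst
      exact pow_ne hp (s.2.le.trans hTS) (t.2.le.trans hTS) (fun h => hst (Fin.ext h))
    have h6 := card_perm_in (tup3 _ _ _ (hne _ _ h3) (hne _ _ h4) (hne _ _ h5))
      ({a : Tup 3 n | ∀ i, a i ∈ A} : Finset _)
    have h7 : #{y : Perm (Fin n) | y ((x ^ (w.1 : ℕ)) p) ∈ A ∧
        y ((x ^ (w.2.1 : ℕ)) p) ∈ A ∧ y ((x ^ (w.2.2 : ℕ)) p) ∈ A} ≤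
        #{y : Perm (Fin n) | mv y (tup3 _ _ _ (hne _ _ h3) (hne _ _ h4) (hne _ _ h5)) ∈
          ({a : Tup 3 n | ∀ i, a i ∈ A} : Finset _)} := by
      apply card_le_card
      intro y hy
      obtain ⟨-, h8, h9, h10⟩ := mem_filter.1 hy
      rw [mem_filter, mem_filter]
      refine ⟨mem_univ _, mem_univ _, fun i => ?_⟩
      fin_cases i
      · exact h8
      · exact h9
      · exact h10
    calc _ ≤ _ := Nat.mul_le_mul_right _ h7
      _ = _ := h6
      _ ≤ _ := Nat.mul_le_mul_right _ (card_tup_in 3 A)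
  calc _ ≤ (∑ w ∈ D, #{y : Perm (Fin n) | y ((x ^ (w.1 : ℕ)) p) ∈ A ∧
        y ((x ^ (w.2.1 : ℕ)) p) ∈ A ∧ y ((x ^ (w.2.2 : ℕ)) p) ∈ A}) * Fintype.card (Tup 3 n) :=
        Nat.mul_le_mul_right _ h1
    _ ≤ ∑ w ∈ D, #A ^ 3 * n.factorial := by
        rw [sum_mul]
        exact sum_le_sum h2
    _ ≤ T ^ 3 * (#A ^ 3 * n.factorial) := by
        rw [sum_const, smul_eq_mul]
        refine Nat.mul_le_mul_right _ ?_
        refine (card_le_univ _).trans (le_of_eq ?_)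
        rw [Fintype.card_prod, Fintype.card_prod, Fintype.card_fin]
        ring
    _ = _ := by ring

open Classical in
lemma bad1 (hTS : T ≤ S) : #{y : Perm (Fin n) | ¬ ∀ p, S < cyl x p → ∀ q,
    #{t : Fin T | cl x S (y ((x ^ (t : ℕ)) p)) q} ≤ 2} * Fintype.card (Tup 3 n) ≤
    n ^ 2 * T ^ 3 * (2 * S + 1) ^ 3 * n.factorial := by
  set D : Finset (Fin n × Fin n) := {w | S < cyl x w.1} with hD
  have hsub : ({y : Perm (Fin n) | ¬ ∀ p, S < cyl x p → ∀ q,
      #{t : Fin T | cl x S (y ((x ^ (t : ℕ)) p)) q} ≤ 2} : Finset _) ⊆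
      D.biUnion fun w => ({y : Perm (Fin n) | 3 ≤ #{t : Fin T | y ((x ^ (t : ℕ)) w.1) ∈
        ({z | cl x S z w.2} : Finset (Fin n))}} : Finset _) := by
    intro y hy
    have h1 := (mem_filter.1 hy).2
    push Not at h1
    obtain ⟨p, hp, q, hq⟩ := h1
    rw [mem_biUnion]
    refine ⟨(p, q), by rw [hD, mem_filter]; exact ⟨mem_univ _, hp⟩, mem_filter.2 ⟨mem_univ _, ?_⟩⟩
    have : ({t : Fin T | y ((x ^ (t : ℕ)) p) ∈ ({z | cl x S z q} : Finset (Fin n))} : Finset _) =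
        ({t : Fin T | cl x S (y ((x ^ (t : ℕ)) p)) q} : Finset _) := by
      ext t
      simp only [mem_filter, mem_univ, true_and]
    show 3 ≤ #{t : Fin T | y ((x ^ (t : ℕ)) p) ∈ ({z | cl x S z q} : Finset (Fin n))}
    rw [this]
    exact hq
  have h1 := (card_le_card hsub).trans card_biUnion_le
  have h2 : ∀ w ∈ D, #{y : Perm (Fin n) | 3 ≤ #{t : Fin T | y ((x ^ (t : ℕ)) w.1) ∈
        ({z | cl x S z w.2} : Finset (Fin n))}} * Fintype.card (Tup 3 n) ≤
        T ^ 3 * (2 * S + 1) ^ 3 * n.factorial := by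
    intro w hw
    have h3 := card_three x ({z | cl x S z w.2} : Finset (Fin n)) w.1 (mem_filter.1 hw).2 hTS
    refine h3.trans ?_
    have := card_cl' x S w.2
    gcongr
  calc _ ≤ (∑ w ∈ D, #{y : Perm (Fin n) | 3 ≤ #{t : Fin T | y ((x ^ (t : ℕ)) w.1) ∈
        ({z | cl x S z w.2} : Finset (Fin n))}}) * Fintype.card (Tup 3 n) :=
        Nat.mul_le_mul_right _ h1
    _ ≤ ∑ w ∈ D, T ^ 3 * (2 * S + 1) ^ 3 * n.factorial := by
        rw [sum_mul]
        exact sum_le_sum h2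
    _ ≤ n ^ 2 * (T ^ 3 * (2 * S + 1) ^ 3 * n.factorial) := by
        rw [sum_const, smul_eq_mul]
        refine Nat.mul_le_mul_right _ ?_
        refine (card_le_univ _).trans (le_of_eq ?_)
        rw [Fintype.card_prod, Fintype.card_fin]
        ring
    _ = _ := by ring

open Classical in
lemma bad1' (hTS : T ≤ S) : #{y : Perm (Fin n) | ¬ ∀ p, S < cyl x p →
    #{t : Fin T | cyl x (y ((x ^ (t : ℕ)) p)) ≤ S} ≤ 2} * Fintype.card (Tup 3 n) ≤
    n * T ^ 3 * #{p | cyl x p ≤ S} ^ 3 * n.factorial := by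
  set D : Finset (Fin n) := {w | S < cyl x w} with hD
  have hsub : ({y : Perm (Fin n) | ¬ ∀ p, S < cyl x p →
      #{t : Fin T | cyl x (y ((x ^ (t : ℕ)) p)) ≤ S} ≤ 2} : Finset _) ⊆
      D.biUnion fun w => ({y : Perm (Fin n) | 3 ≤ #{t : Fin T | y ((x ^ (t : ℕ)) w) ∈
        ({z | cyl x z ≤ S} : Finset (Fin n))}} : Finset _) := by
    intro y hy
    have h1 := (mem_filter.1 hy).2
    push Not at h1
    obtain ⟨p, hp, hq⟩ := h1
    rw [mem_biUnion]
    refine ⟨p, by rw [hD, mem_filter]; exact ⟨mem_univ _, hp⟩, mem_filter.2 ⟨mem_univ _, ?_⟩⟩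
    have : ({t : Fin T | y ((x ^ (t : ℕ)) p) ∈ ({z | cyl x z ≤ S} : Finset (Fin n))} : Finset _) =
        ({t : Fin T | cyl x (y ((x ^ (t : ℕ)) p)) ≤ S} : Finset _) := by
      ext t
      simp only [mem_filter, mem_univ, true_and]
    rw [this]
    exact hq
  have h1 := (card_le_card hsub).trans card_biUnion_le
  have h2 : ∀ w ∈ D, #{y : Perm (Fin n) | 3 ≤ #{t : Fin T | y ((x ^ (t : ℕ)) w) ∈
        ({z | cyl x z ≤ S} : Finset (Fin n))}} * Fintype.card (Tup 3 n) ≤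
        T ^ 3 * #{p | cyl x p ≤ S} ^ 3 * n.factorial := by
    intro w hw
    exact card_three x ({z | cyl x z ≤ S} : Finset (Fin n)) w (mem_filter.1 hw).2 hTS
  calc _ ≤ (∑ w ∈ D, #{y : Perm (Fin n) | 3 ≤ #{t : Fin T | y ((x ^ (t : ℕ)) w) ∈
        ({z | cyl x z ≤ S} : Finset (Fin n))}}) * Fintype.card (Tup 3 n) :=
        Nat.mul_le_mul_right _ h1
    _ ≤ ∑ w ∈ D, T ^ 3 * #{p | cyl x p ≤ S} ^ 3 * n.factorial := by
        rw [sum_mul]
        exact sum_le_sum h2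
    _ ≤ n * (T ^ 3 * #{p | cyl x p ≤ S} ^ 3 * n.factorial) := by
        rw [sum_const, smul_eq_mul]
        refine Nat.mul_le_mul_right _ ?_
        refine (card_le_univ _).trans (le_of_eq ?_)
        rw [Fintype.card_fin]
    _ = _ := by ring

/-- independent exponents: the six points are distinct -/
def ind (p q : Fin n) (w : Fin T × Fin T × Fin T) : Prop :=
  Function.Injective (![(x ^ (w.1 : ℕ)) p, (x ^ (w.1 : ℕ)) q, (x ^ (w.2.1 : ℕ)) p,
    (x ^ (w.2.1 : ℕ)) q, (x ^ (w.2.2 : ℕ)) p, (x ^ (w.2.2 : ℕ)) q] : Fin 6 → Fin n)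

variable {x} in
lemma exists_ind (hTS : T ≤ S) {p q : Fin n} (hpq : p ≠ q) (hp : S < cyl x p) (hq : S < cyl x q)
    (D : Finset (Fin T)) (hD : 7 ≤ #D) : ∃ w : Fin T × Fin T × Fin T, ind x p q w ∧
      w.1 ∈ D ∧ w.2.1 ∈ D ∧ w.2.2 ∈ D := by
  classical
  have hne : ∀ (p : Fin n), S < cyl x p → ∀ s t : Fin T, s ≠ t →
      (x ^ (s : ℕ)) p ≠ (x ^ (t : ℕ)) p := by
    intro p hp s t hst
    exact pow_ne hp (s.2.le.trans hTS) (t.2.le.trans hTS) (fun h => hst (Fin.ext h))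
  set C : Fin T → Finset (Fin T) := fun t =>
    (({s | (x ^ (s : ℕ)) p = (x ^ (t : ℕ)) q} : Finset (Fin T)) ∪
      ({s | (x ^ (s : ℕ)) q = (x ^ (t : ℕ)) p} : Finset (Fin T))) ∪ {t} with hC
  have hC3 : ∀ t, #(C t) ≤ 3 := by
    intro t
    have h1 : ∀ (p : Fin n), S < cyl x p → ∀ z, #{s : Fin T | (x ^ (s : ℕ)) p = z} ≤ 1 := by
      intro p hp z
      rw [card_le_one]
      intro s hs s' hs'
      by_contra hcon
      apply hne p hp s s' hcon
      rw [(mem_filter.1 hs).2, (mem_filter.1 hs').2]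
    have h2 := h1 p hp ((x ^ (t : ℕ)) q)
    have h3 := h1 q hq ((x ^ (t : ℕ)) p)
    have h4 := card_union_le (({s | (x ^ (s : ℕ)) p = (x ^ (t : ℕ)) q} : Finset (Fin T)) ∪
      ({s | (x ^ (s : ℕ)) q = (x ^ (t : ℕ)) p} : Finset (Fin T))) {t}
    have h5 := card_union_le ({s | (x ^ (s : ℕ)) p = (x ^ (t : ℕ)) q} : Finset (Fin T))
      ({s | (x ^ (s : ℕ)) q = (x ^ (t : ℕ)) p} : Finset (Fin T))
    rw [card_singleton] at h4
    simp only [hC]
    omega
  obtain ⟨t1, ht1⟩ : D.Nonempty := by rw [← card_pos]; omega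
  have hD1 : 4 ≤ #(D \ C t1) := by
    have h1 := le_card_sdiff (C t1) D
    have h2 := hC3 t1
    omega
  obtain ⟨t2, ht2⟩ : (D \ C t1).Nonempty := by rw [← card_pos]; omega
  have hD2 : 1 ≤ #((D \ C t1) \ C t2) := by
    have h1 := le_card_sdiff (C t2) (D \ C t1)
    have h2 := hC3 t2
    omega
  obtain ⟨t3, ht3⟩ : ((D \ C t1) \ C t2).Nonempty := by rw [← card_pos]; omega
  rw [mem_sdiff] at ht2 ht3
  rw [mem_sdiff] at ht3
  have hCn : ∀ s t, s ∉ C t → (x ^ (s : ℕ)) p ≠ (x ^ (t : ℕ)) q ∧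
      (x ^ (s : ℕ)) q ≠ (x ^ (t : ℕ)) p ∧ s ≠ t := by
    intro s t hst
    simp only [hC, mem_union, mem_filter, mem_univ, true_and, mem_singleton, not_or] at hst
    exact ⟨hst.1.1, hst.1.2, hst.2⟩
  obtain ⟨a1, a2, a3⟩ := hCn t2 t1 ht2.2
  obtain ⟨b1, b2, b3⟩ := hCn t3 t1 ht3.1.2
  obtain ⟨c1, c2, c3⟩ := hCn t3 t2 ht3.2
  refine ⟨(t1, t2, t3), ?_, ht1, ht2.1, ht3.1.1⟩
  have hpq' : ∀ t : Fin T, (x ^ (t : ℕ)) p ≠ (x ^ (t : ℕ)) q := fun t h =>
    hpq ((x ^ (t : ℕ)).injective h)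
  have p12 := hne p hp t2 t1 a3
  have p13 := hne p hp t3 t1 b3
  have p23 := hne p hp t3 t2 c3
  have q12 := hne q hq t2 t1 a3
  have q13 := hne q hq t3 t1 b3
  have q23 := hne q hq t3 t2 c3
  intro i j hij
  fin_cases i <;> fin_cases j <;> simp at hij ⊢
  all_goals first
    | exact hpq hij | exact hpq hij.symm | exact hpq' _ hij | exact hpq' _ hij.symm
    | exact a1 hij | exact a1 hij.symm | exact a2 hij | exact a2 hij.symm
    | exact b1 hij | exact b1 hij.symm | exact b2 hij | exact b2 hij.symm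
    | exact c1 hij | exact c1 hij.symm | exact c2 hij | exact c2 hij.symm
    | exact p12 hij | exact p12 hij.symm | exact p13 hij | exact p13 hij.symm
    | exact p23 hij | exact p23 hij.symm | exact q12 hij | exact q12 hij.symm
    | exact q13 hij | exact q13 hij.symm | exact q23 hij | exact q23 hij.symm

open Classical in
lemma card_cl_pairs : #{w : Fin n × Fin n | cl x S w.1 w.2} ≤ n * (2 * S + 1) := by
  have h1 : #{w : Fin n × Fin n | cl x S w.1 w.2} = ∑ p : Fin n, #{q | cl x S p q} := by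
    rw [card_filter, Fintype.sum_prod_type]
    refine sum_congr rfl fun q _ => ?_
    rw [card_filter]
  rw [h1]
  refine (sum_le_sum fun q _ => card_cl x S q).trans ?_
  rw [sum_const, card_univ, Fintype.card_fin, smul_eq_mul]

open Classical in
lemma card_cl6 : #{b : Tup 6 n | cl x S (b 0) (b 1) ∧ cl x S (b 2) (b 3) ∧ cl x S (b 4) (b 5)} ≤
    (n * (2 * S + 1)) ^ 3 := by
  set P : Finset (Fin n × Fin n) := {w | cl x S w.1 w.2} with hP
  have h1 : #{b : Tup 6 n | cl x S (b 0) (b 1) ∧ cl x S (b 2) (b 3) ∧ cl x S (b 4) (b 5)} ≤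
      #(P ×ˢ P ×ˢ P) := by
    refine card_le_card_of_injOn (fun b => ((b 0, b 1), (b 2, b 3), (b 4, b 5))) ?_ ?_
    · intro b hb
      obtain ⟨h2, h3, h4⟩ := (mem_filter.1 hb).2
      rw [mem_coe, mem_product, mem_product, hP, mem_filter, mem_filter, mem_filter]
      exact ⟨⟨mem_univ _, h2⟩, ⟨mem_univ _, h3⟩, ⟨mem_univ _, h4⟩⟩
    · intro a _ b _ h
      simp only [Prod.mk.injEq] at h
      ext i
      fin_cases i
      · exact congrArg Fin.val h.1.1
      · exact congrArg Fin.val h.1.2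
      · exact congrArg Fin.val h.2.1.1
      · exact congrArg Fin.val h.2.1.2
      · exact congrArg Fin.val h.2.2.1
      · exact congrArg Fin.val h.2.2.2
  refine h1.trans ?_
  rw [card_product, card_product]
  have h2 : #P ≤ n * (2 * S + 1) := card_cl_pairs x
  calc #P * (#P * #P) ≤ (n * (2 * S + 1)) * ((n * (2 * S + 1)) * (n * (2 * S + 1))) := by gcongr
    _ = _ := by ring

open Classical in
lemma bad2 (hTS : T ≤ S) : #{y : Perm (Fin n) | ¬ ∀ p q, p ≠ q → S < cyl x p → S < cyl x q →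
    #{t : Fin T | cl x S (y ((x ^ (t : ℕ)) p)) (y ((x ^ (t : ℕ)) q))} ≤ 6} *
      Fintype.card (Tup 6 n) ≤ n ^ 2 * T ^ 3 * (n * (2 * S + 1)) ^ 3 * n.factorial := by
  set D : Finset ((Fin n × Fin n) × (Fin T × Fin T × Fin T)) := {w | ind x w.1.1 w.1.2 w.2} with hD
  have hsub : ({y : Perm (Fin n) | ¬ ∀ p q, p ≠ q → S < cyl x p → S < cyl x q →
    #{t : Fin T | cl x S (y ((x ^ (t : ℕ)) p)) (y ((x ^ (t : ℕ)) q))} ≤ 6} : Finset _) ⊆
      D.biUnion fun w => ({y : Perm (Fin n) |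
        cl x S (y ((x ^ (w.2.1 : ℕ)) w.1.1)) (y ((x ^ (w.2.1 : ℕ)) w.1.2)) ∧
        cl x S (y ((x ^ (w.2.2.1 : ℕ)) w.1.1)) (y ((x ^ (w.2.2.1 : ℕ)) w.1.2)) ∧
        cl x S (y ((x ^ (w.2.2.2 : ℕ)) w.1.1)) (y ((x ^ (w.2.2.2 : ℕ)) w.1.2))} :
          Finset _) := by
    intro y hy
    have h1 := (mem_filter.1 hy).2
    push Not at h1
    obtain ⟨p, q, hpq, hp, hq, h2⟩ := h1
    obtain ⟨w, hw, h3, h4, h5⟩ := exists_ind hTS hpq hp hq _ (show 7 ≤ _ from h2)
    rw [mem_biUnion]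
    refine ⟨((p, q), w), by rw [hD, mem_filter]; exact ⟨mem_univ _, hw⟩, mem_filter.2
      ⟨mem_univ _, (mem_filter.1 h3).2, (mem_filter.1 h4).2, (mem_filter.1 h5).2⟩⟩
  have h1 := (card_le_card hsub).trans card_biUnion_le
  have h2 : ∀ w ∈ D, #{y : Perm (Fin n) |
        cl x S (y ((x ^ (w.2.1 : ℕ)) w.1.1)) (y ((x ^ (w.2.1 : ℕ)) w.1.2)) ∧
        cl x S (y ((x ^ (w.2.2.1 : ℕ)) w.1.1)) (y ((x ^ (w.2.2.1 : ℕ)) w.1.2)) ∧
        cl x S (y ((x ^ (w.2.2.2 : ℕ)) w.1.1)) (y ((x ^ (w.2.2.2 : ℕ)) w.1.2))} *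
        Fintype.card (Tup 6 n) ≤ (n * (2 * S + 1)) ^ 3 * n.factorial := by
    intro w hw
    have hw' : ind x w.1.1 w.1.2 w.2 := (mem_filter.1 hw).2
    have h6 := card_perm_in (⟨_, hw'⟩ : Tup 6 n)
      ({b : Tup 6 n | cl x S (b 0) (b 1) ∧ cl x S (b 2) (b 3) ∧ cl x S (b 4) (b 5)} : Finset _)
    have h7 : #{y : Perm (Fin n) |
        cl x S (y ((x ^ (w.2.1 : ℕ)) w.1.1)) (y ((x ^ (w.2.1 : ℕ)) w.1.2)) ∧
        cl x S (y ((x ^ (w.2.2.1 : ℕ)) w.1.1)) (y ((x ^ (w.2.2.1 : ℕ)) w.1.2)) ∧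
        cl x S (y ((x ^ (w.2.2.2 : ℕ)) w.1.1)) (y ((x ^ (w.2.2.2 : ℕ)) w.1.2))} ≤
        #{y : Perm (Fin n) | mv y (⟨_, hw'⟩ : Tup 6 n) ∈
          ({b : Tup 6 n | cl x S (b 0) (b 1) ∧ cl x S (b 2) (b 3) ∧ cl x S (b 4) (b 5)} :
            Finset _)} := by
      apply card_le_card
      intro y hy
      obtain ⟨-, h8, h9, h10⟩ := mem_filter.1 hy
      rw [mem_filter, mem_filter]
      exact ⟨mem_univ _, mem_univ _, h8, h9, h10⟩
    calc _ ≤ _ := Nat.mul_le_mul_right _ h7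
      _ = _ := h6
      _ ≤ _ := Nat.mul_le_mul_right _ (card_cl6 x)
  calc _ ≤ (∑ w ∈ D, #{y : Perm (Fin n) |
        cl x S (y ((x ^ (w.2.1 : ℕ)) w.1.1)) (y ((x ^ (w.2.1 : ℕ)) w.1.2)) ∧
        cl x S (y ((x ^ (w.2.2.1 : ℕ)) w.1.1)) (y ((x ^ (w.2.2.1 : ℕ)) w.1.2)) ∧
        cl x S (y ((x ^ (w.2.2.2 : ℕ)) w.1.1)) (y ((x ^ (w.2.2.2 : ℕ)) w.1.2))}) *
          Fintype.card (Tup 6 n) := Nat.mul_le_mul_right _ h1
    _ ≤ ∑ w ∈ D, (n * (2 * S + 1)) ^ 3 * n.factorial := by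
        rw [sum_mul]
        exact sum_le_sum h2
    _ ≤ (n ^ 2 * T ^ 3) * ((n * (2 * S + 1)) ^ 3 * n.factorial) := by
        rw [sum_const, smul_eq_mul]
        refine Nat.mul_le_mul_right _ ?_
        refine (card_le_univ _).trans (le_of_eq ?_)
        rw [Fintype.card_prod, Fintype.card_prod, Fintype.card_prod, Fintype.card_prod,
          Fintype.card_fin, Fintype.card_fin]
        ring
    _ = _ := by ring

/-- lower bound of the number of tuples -/
lemma card_Tup_ge {r : ℕ} (hr : 2 * r ≤ n) : (n : ℝ) ^ r ≤ 2 ^ r * Fintype.card (Tup r n) := by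
  have h1 : (n + 1 - r) ^ r ≤ Fintype.card (Tup r n) := by
    rw [Fintype.card_embedding_eq, Fintype.card_fin, Fintype.card_fin]
    exact Nat.pow_sub_le_descFactorial n r
  have h2 : n ≤ 2 * (n + 1 - r) := by omega
  have h3 : n ^ r ≤ 2 ^ r * Fintype.card (Tup r n) := by
    calc n ^ r ≤ (2 * (n + 1 - r)) ^ r := Nat.pow_le_pow_left h2 r
      _ = 2 ^ r * (n + 1 - r) ^ r := mul_pow _ _ _
      _ ≤ _ := Nat.mul_le_mul_left _ h1
  exact_mod_cast h3

open Classical in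
/-- most `y` are sparse -/
theorem card_not_Sps (hTS : T ≤ S) (hS : 1 ≤ S) (hn : 12 ≤ n) {w : ℝ} (hw : (S : ℝ) ≤ w)
    (hsh : (#{p | cyl x p ≤ S} : ℝ) ≤ w) :
    (#{y : Perm (Fin n) | ¬ Sps x y S T} : ℝ) ≤ 2000 * w ^ 6 / n * n.factorial := by
  have hn0 : (0 : ℝ) < n := by exact_mod_cast (by omega : 0 < n)
  have hw1 : 1 ≤ w := le_trans (by exact_mod_cast hS) hw
  have hfac : (0 : ℝ) < n.factorial := by exact_mod_cast Nat.factorial_pos n
  have hTw : (T : ℝ) ≤ w := le_trans (by exact_mod_cast hTS) hw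
  have h2S : (2 * S + 1 : ℝ) ≤ 3 * w := by linarith
  set E0 : Finset (Perm (Fin n)) := {y | ¬ ∀ p, cyl x p ≤ S → S < cyl x (y p)} with hE0
  set E1 : Finset (Perm (Fin n)) := {y | ¬ ∀ p, S < cyl x p → ∀ q,
    #{t : Fin T | cl x S (y ((x ^ (t : ℕ)) p)) q} ≤ 2} with hE1
  set E1' : Finset (Perm (Fin n)) := {y | ¬ ∀ p, S < cyl x p →
    #{t : Fin T | cyl x (y ((x ^ (t : ℕ)) p)) ≤ S} ≤ 2} with hE1'
  set E2 : Finset (Perm (Fin n)) := {y | ¬ ∀ p q, p ≠ q → S < cyl x p → S < cyl x q →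
    #{t : Fin T | cl x S (y ((x ^ (t : ℕ)) p)) (y ((x ^ (t : ℕ)) q))} ≤ 6} with hE2
  have hsub : ({y : Perm (Fin n) | ¬ Sps x y S T} : Finset _) ⊆ ((E0 ∪ E1) ∪ E1') ∪ E2 := by
    intro y hy
    have h1 := (mem_filter.1 hy).2
    by_contra hcon
    rw [mem_union, mem_union, mem_union] at hcon
    push Not at hcon
    obtain ⟨⟨⟨h2, h3⟩, h4⟩, h5⟩ := hcon
    rw [hE0, mem_filter] at h2
    rw [hE1, mem_filter] at h3
    rw [hE1', mem_filter] at h4
    rw [hE2, mem_filter] at h5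
    simp only [mem_univ, true_and, not_not] at h2 h3 h4 h5
    exact h1 ⟨h2, h3, h4, h5⟩
  have hc : (#{y : Perm (Fin n) | ¬ Sps x y S T} : ℝ) ≤ #E0 + #E1 + #E1' + #E2 := by
    have := (card_le_card hsub).trans ((card_union_le _ _).trans (Nat.add_le_add_right
      ((card_union_le _ _).trans (Nat.add_le_add_right (card_union_le _ _) _)) _))
    exact_mod_cast this
  have hN3 : (n : ℝ) ^ 3 ≤ 8 * Fintype.card (Tup 3 n) := by
    have := card_Tup_ge (n := n) (r := 3) (by omega)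
    rwa [show (2 : ℝ) ^ 3 = 8 by norm_num] at this
  have hN6 : (n : ℝ) ^ 6 ≤ 64 * Fintype.card (Tup 6 n) := by
    have := card_Tup_ge (n := n) (r := 6) (by omega)
    rwa [show (2 : ℝ) ^ 6 = 64 by norm_num] at this
  have b0 : (#E0 : ℝ) * n ≤ w ^ 2 * n.factorial := by
    have h1 := bad0 (n := n) x (S := S)
    have h2 : (#E0 : ℝ) * n ≤ (#{p | cyl x p ≤ S} : ℝ) ^ 2 * n.factorial := by exact_mod_cast h1
    refine h2.trans ?_
    gcongr
  have b1 : (#E1 : ℝ) * n ≤ 216 * w ^ 6 * n.factorial := by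
    have h1 := bad1 x (S := S) hTS
    have h2 : (#E1 : ℝ) * Fintype.card (Tup 3 n) ≤
        (n : ℝ) ^ 2 * (T : ℝ) ^ 3 * (2 * S + 1) ^ 3 * n.factorial := by exact_mod_cast h1
    have h3 : (n : ℝ) ^ 2 * ((#E1 : ℝ) * n) ≤ n ^ 2 * (216 * w ^ 6 * n.factorial) := by
      calc (n : ℝ) ^ 2 * ((#E1 : ℝ) * n) = (#E1 : ℝ) * n ^ 3 := by ring
        _ ≤ (#E1 : ℝ) * (8 * Fintype.card (Tup 3 n)) := by gcongr
        _ = 8 * ((#E1 : ℝ) * Fintype.card (Tup 3 n)) := by ring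
        _ ≤ 8 * ((n : ℝ) ^ 2 * (T : ℝ) ^ 3 * (2 * S + 1) ^ 3 * n.factorial) := by gcongr
        _ ≤ 8 * ((n : ℝ) ^ 2 * w ^ 3 * (3 * w) ^ 3 * n.factorial) := by gcongr
        _ = _ := by ring
    exact le_of_mul_le_mul_left h3 (by positivity)
  have b1' : (#E1' : ℝ) * n ≤ 8 * w ^ 6 * n.factorial := by
    have h1 := bad1' x (S := S) hTS
    have h2 : (#E1' : ℝ) * Fintype.card (Tup 3 n) ≤
        (n : ℝ) * (T : ℝ) ^ 3 * (#{p | cyl x p ≤ S} : ℝ) ^ 3 * n.factorial := by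
      exact_mod_cast h1
    have h3 : (n : ℝ) ^ 2 * ((#E1' : ℝ) * n) ≤ n ^ 2 * (8 * w ^ 6 * n.factorial) := by
      calc (n : ℝ) ^ 2 * ((#E1' : ℝ) * n) = (#E1' : ℝ) * n ^ 3 := by ring
        _ ≤ (#E1' : ℝ) * (8 * Fintype.card (Tup 3 n)) := by gcongr
        _ = 8 * ((#E1' : ℝ) * Fintype.card (Tup 3 n)) := by ring
        _ ≤ 8 * ((n : ℝ) * (T : ℝ) ^ 3 * (#{p | cyl x p ≤ S} : ℝ) ^ 3 * n.factorial) := by gcongr
        _ ≤ 8 * ((n : ℝ) * w ^ 3 * w ^ 3 * n.factorial) := by gcongr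
        _ = n ^ 1 * (8 * w ^ 6 * n.factorial) := by ring
        _ ≤ n ^ 2 * (8 * w ^ 6 * n.factorial) := by
          have : (n : ℝ) ^ 1 ≤ (n : ℝ) ^ 2 :=
            pow_le_pow_right₀ (by exact_mod_cast (by omega : 1 ≤ n)) (by norm_num)
          gcongr
    exact le_of_mul_le_mul_left h3 (by positivity)
  have b2 : (#E2 : ℝ) * n ≤ 1728 * w ^ 6 * n.factorial := by
    have h1 := bad2 x (S := S) hTS
    have h2 : (#E2 : ℝ) * Fintype.card (Tup 6 n) ≤
        (n : ℝ) ^ 2 * (T : ℝ) ^ 3 * (n * (2 * S + 1)) ^ 3 * n.factorial := by exact_mod_cast h1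
    have h3 : (n : ℝ) ^ 5 * ((#E2 : ℝ) * n) ≤ n ^ 5 * (1728 * w ^ 6 * n.factorial) := by
      calc (n : ℝ) ^ 5 * ((#E2 : ℝ) * n) = (#E2 : ℝ) * n ^ 6 := by ring
        _ ≤ (#E2 : ℝ) * (64 * Fintype.card (Tup 6 n)) := by gcongr
        _ = 64 * ((#E2 : ℝ) * Fintype.card (Tup 6 n)) := by ring
        _ ≤ 64 * ((n : ℝ) ^ 2 * (T : ℝ) ^ 3 * (n * (2 * S + 1)) ^ 3 * n.factorial) := by gcongr
        _ ≤ 64 * ((n : ℝ) ^ 2 * w ^ 3 * (n * (3 * w)) ^ 3 * n.factorial) := by gcongr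
        _ = _ := by ring
    exact le_of_mul_le_mul_left h3 (by positivity)
  have hw26 : w ^ 2 ≤ w ^ 6 := pow_le_pow_right₀ hw1 (by norm_num)
  rw [div_mul_eq_mul_div, le_div_iff₀ hn0]
  have h5 : (#{y : Perm (Fin n) | ¬ Sps x y S T} : ℝ) * n ≤ (#E0 + #E1 + #E1' + #E2) * n := by
    gcongr
  have h6 : w ^ 2 * n.factorial ≤ w ^ 6 * n.factorial := by gcongr
  nlinarith [mul_pos (pow_pos (by linarith : (0 : ℝ) < w) 6) hfac]

end typ

end

end Run7.h624.PD
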