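import Pool.Agent.Run7.h624.PD.Fam

/-!
The Hilbert-Schmidt distance of the nice part of a block from the uniform kernel.
-/

namespace Run7.h624.PD
open RC14 Finset Equiv Run7.h624.DM

noncomputable section

variable {n r : ℕ}

/-- all permutations move tuples uniformly -/
lemma card_mv_perm (a b : Tup r n) :
    #{κ : Perm (Fin n) | mv κ a = b} * Fintype.card (Tup r n) = n.factorial := by
  have h1 : ∀ b', #{κ : Perm (Fin n) | mv κ a = b'} = #{κ : Perm (Fin n) | mv κ a = b} := by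
    intro b'
    obtain ⟨σ, hσ⟩ := exists_perm_ext b' b
    have hσ' : mv σ b' = b := by ext i; rw [mv_apply, hσ]
    refine card_bij (fun κ _ => σ * κ) ?_ (fun κ _ κ' _ h => mul_left_cancel h) ?_
    · intro κ hκ
      rw [mem_filter] at hκ ⊢
      exact ⟨mem_univ _, by rw [mv_mul, hκ.2, hσ']⟩
    · intro κ hκ
      rw [mem_filter] at hκ
      refine ⟨σ⁻¹ * κ, ?_, by simp⟩
      rw [mem_filter]
      refine ⟨mem_univ _, ?_⟩
      rw [mv_mul, hκ.2, ← hσ', ← mv_mul]
      simp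
  have h2 : ∑ b', #{κ : Perm (Fin n) | mv κ a = b'} = n.factorial := by
    have h3 : Fintype.card (Perm (Fin n)) = n.factorial := by
      rw [Fintype.card_perm, Fintype.card_fin]
    rw [← h3, ← card_univ (α := Perm (Fin n))]
    exact (card_eq_sum_card_fiberwise (f := fun κ : Perm (Fin n) => mv κ a) (t := univ)
        (fun κ _ => by simp)).symm
  simp_rw [h1] at h2
  rw [sum_const, card_univ, smul_eq_mul, mul_comm] at h2
  exact h2

lemma Mx_perm (r : ℕ) : Mx r (fun κ : Perm (Fin n) => κ) := by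
  intro a b
  have h := card_mv_perm a b
  have h' : (#{κ : Perm (Fin n) | mv κ a = b} : ℝ) * Fintype.card (Tup r n) = n.factorial := by
    exact_mod_cast h
  rw [h', Fintype.card_perm, Fintype.card_fin]
  have : (0 : ℝ) ≤ n.factorial := Nat.cast_nonneg _
  linarith

open Classical in
/-- averaging over tuples and over permutations -/
lemma card_tup_avg (a0 : Tup r n) (P : Tup r n → Prop) :
    #{a | P a} * n.factorial = Fintype.card (Tup r n) * #{κ : Perm (Fin n) | P (mv κ a0)} := by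
  have h1 : #{κ : Perm (Fin n) | P (mv κ a0)} = ∑ a ∈ ({a | P a} : Finset (Tup r n)),
      #{κ : Perm (Fin n) | mv κ a0 = a} := by
    rw [card_eq_sum_card_fiberwise (f := fun κ : Perm (Fin n) => mv κ a0)
      (t := ({a | P a} : Finset (Tup r n)))]
    · refine sum_congr rfl fun a ha => ?_
      congr 1
      ext κ
      simp only [mem_filter, mem_univ, true_and]
      constructor
      · exact fun h => h.2
      · exact fun h => ⟨by rw [h]; exact (mem_filter.1 ha).2, h⟩
    · intro κ hκ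
      rw [mem_coe, mem_filter] at hκ ⊢
      exact ⟨mem_univ _, hκ.2⟩
  rw [h1, mul_sum, ← smul_eq_mul, ← sum_const]
  refine sum_congr rfl fun a _ => ?_
  rw [mul_comm]
  exact (card_mv_perm a0 a).symm

section sumHS

variable (x : Perm (Fin n)) {S T m : ℕ} {β : ℕ → ℕ}

open Classical in
/-- the number of tuples for which a word is not nice -/
lemma card_notNice_tup (hn : 2 ≤ n) (hr : 1 ≤ r) (hrn : r ≤ n) (y : Perm (Fin n)) (τ : Lt m T) :
    (#{a : Tup r n | ¬ Nice x y S β τ a} : ℝ) ≤ Fintype.card (Tup r n) *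
      (2 * (#{p | cyl x p ≤ S} : ℝ) / n +
        (2 * r * (#{p | cyl x p ≤ S} : ℝ) / n + 2 * r * (#{p | selfc x y S (ex τ) m p} : ℝ) / n +
        2 * (r : ℝ) ^ 2 * m * (2 * S + 1) / (n - 1)) * ∑ j ∈ range m, 1 / ((β j : ℝ) + 1)) := by
  have hfac : (0 : ℝ) < n.factorial := by exact_mod_cast Nat.factorial_pos n
  have h1 := card_tup_avg (Fin.castLEEmb hrn) (fun a => ¬ Nice x y S β τ a)
  have h2 := card_notNice (x := x) (y := y) (S := S) (Mx_perm (n := n) 1) (Mx_perm 2) hn β τ hr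
    (Fin.castLEEmb hrn)
  rw [Fintype.card_perm, Fintype.card_fin] at h2
  have h3 : (#{a : Tup r n | ¬ Nice x y S β τ a} : ℝ) * n.factorial =
      Fintype.card (Tup r n) * #{κ : Perm (Fin n) | ¬ Nice x y S β τ (mv κ (Fin.castLEEmb hrn))} := by
    rw [← Nat.cast_mul, ← Nat.cast_mul]
    congr 1
    convert h1
  refine le_of_mul_le_mul_right ?_ hfac
  rw [h3]
  calc _ ≤ (Fintype.card (Tup r n) : ℝ) * _ := mul_le_mul_of_nonneg_left h2 (Nat.cast_nonneg _)
    _ = _ := by ring

open Classical in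
/-- the expected number of self-close paths -/
lemma sum_selfc (hmn : m < n) (t : ℕ → ℕ) (ht : ∀ i, t i ≤ S) :
    (∑ y : Perm (Fin n), (#{p | selfc x y S t m p} : ℝ)) ≤
      n.factorial * (n * ((m : ℝ) ^ 2 * (2 * S + 1) / (n - m))) := by
  have h1 : ∑ y : Perm (Fin n), #{p | selfc x y S t m p} =
      ∑ p, #{y : Perm (Fin n) | selfc x y S t m p} := by
    simp only [card_filter]
    rw [sum_comm]
  have hnm : (0 : ℝ) < (n : ℝ) - m := by
    have : (m : ℝ) < n := by exact_mod_cast hmn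
    linarith
  have h2 : ∀ p, (#{y : Perm (Fin n) | selfc x y S t m p} : ℝ) ≤
      n.factorial * ((m : ℝ) ^ 2 * (2 * S + 1) / (n - m)) := by
    intro p
    have h3 := card_selfc (x := x) (p := p) m ht
    have h4 : (#{y : Perm (Fin n) | selfc x y S t m p} : ℝ) * (n - m) ≤
        (m : ℝ) ^ 2 * (2 * S + 1) * n.factorial := by
      have : ((n - m : ℕ) : ℝ) = n - m := by rw [Nat.cast_sub hmn.le]
      rw [← this]
      exact_mod_cast h3
    rw [mul_div_assoc', le_div_iff₀ hnm]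
    linarith
  calc (∑ y : Perm (Fin n), (#{p | selfc x y S t m p} : ℝ))
      = ∑ p, (#{y : Perm (Fin n) | selfc x y S t m p} : ℝ) := by exact_mod_cast h1
    _ ≤ ∑ _p : Fin n, (n.factorial * ((m : ℝ) ^ 2 * (2 * S + 1) / (n - m)) : ℝ) :=
        sum_le_sum fun p _ => h2 p
    _ = _ := by
        rw [sum_const, card_univ, Fintype.card_fin, nsmul_eq_mul]
        ring

open Classical in
/-- the sum of the squares of the nice kernel -/
lemma sum_NK_sq (a : Tup r n) :
    ∑ y : Perm (Fin n), ∑ b, NK x y S β m T a b ^ 2 =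
      (∑ s : Lt m T × Lt m T, (c3 x S β s.1 s.2 a : ℝ)) / ((T : ℝ) ^ (m + 1)) ^ 2 := by
  have h1 : ∀ y : Perm (Fin n), ∑ b, #{τ : Lt m T | Nice x y S β τ a ∧ mv (wt x y τ) a = b} ^ 2 =
      #{s : Lt m T × Lt m T | Nice x y S β s.1 a ∧ Nice x y S β s.2 a ∧
        mv (wt x y s.1) a = mv (wt x y s.2) a} := by
    intro y
    have h2 : ∀ b : Tup r n, #{τ : Lt m T | Nice x y S β τ a ∧ mv (wt x y τ) a = b} ^ 2 =
        ∑ s : Lt m T × Lt m T, if (Nice x y S β s.1 a ∧ mv (wt x y s.1) a = b) ∧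
          (Nice x y S β s.2 a ∧ mv (wt x y s.2) a = b) then 1 else 0 := by
      intro b
      rw [← card_filter, sq, ← card_product]
      congr 1
      ext s
      simp only [mem_product, mem_filter, mem_univ, true_and]
    simp_rw [h2]
    rw [sum_comm, card_filter]
    refine sum_congr rfl fun s _ => ?_
    by_cases h3 : Nice x y S β s.1 a ∧ Nice x y S β s.2 a ∧
        mv (wt x y s.1) a = mv (wt x y s.2) a
    · rw [if_pos h3, sum_eq_single (mv (wt x y s.1) a)]
      · rw [if_pos ⟨⟨h3.1, rfl⟩, h3.2.1, h3.2.2.symm⟩]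
      · intro b _ hb
        rw [if_neg]
        rintro ⟨⟨-, h4⟩, -⟩
        exact hb h4.symm
      · intro h; exact absurd (mem_univ _) h
    · rw [if_neg h3]
      refine sum_eq_zero fun b _ => ?_
      rw [if_neg]
      rintro ⟨⟨h4, h5⟩, h6, h7⟩
      exact h3 ⟨h4, h6, h5.trans h7.symm⟩
  have h2 : ∑ y : Perm (Fin n), #{s : Lt m T × Lt m T | Nice x y S β s.1 a ∧ Nice x y S β s.2 a ∧
        mv (wt x y s.1) a = mv (wt x y s.2) a} = ∑ s : Lt m T × Lt m T, c3 x S β s.1 s.2 a := by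
    unfold c3
    simp only [card_filter]
    rw [sum_comm]
  have h3 : ∑ y : Perm (Fin n), ∑ b,
      (#{τ : Lt m T | Nice x y S β τ a ∧ mv (wt x y τ) a = b} : ℝ) ^ 2 =
      ∑ s : Lt m T × Lt m T, (c3 x S β s.1 s.2 a : ℝ) := by
    have h4 : ∑ y : Perm (Fin n), ∑ b,
      #{τ : Lt m T | Nice x y S β τ a ∧ mv (wt x y τ) a = b} ^ 2 =
      ∑ s : Lt m T × Lt m T, c3 x S β s.1 s.2 a := by
      rw [← h2]
      exact sum_congr rfl fun y _ => h1 y
    exact_mod_cast h4
  unfold NK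
  simp_rw [div_pow, ← sum_div]
  rw [h3]

/-- the expected Hilbert-Schmidt distance -/
theorem sum_HS (hTS : T ≤ S) (hT : 1 ≤ T) (hr : 1 ≤ r) (hrn : r ≤ n) (hn : 2 ≤ n) (hmn : m < n)
    (hW : 2 * r * m * (2 * S + 1) < n) (e : ℝ) (he : 0 ≤ e)
    (hβ : ∀ j ≤ m, β j ≠ 0 → ((r + 1) * n : ℝ) ^ (2 * β j) ≤ e * (T : ℝ) ^ j) :
    ∑ y : Perm (Fin n), ∑ a : Tup r n, ∑ b : Tup r n,
      (NK x y S β m T a b - 1 / Fintype.card (Tup r n)) ^ 2 ≤
      n.factorial * (Fintype.card (Tup r n) / (T : ℝ) ^ (m + 1) +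
        Fintype.card (Tup r n) / (n - 2 * r * m * (2 * S + 1) : ℝ) ^ r * (1 + (m + 1) * e) - 1 +
        2 * (2 * (#{p | cyl x p ≤ S} : ℝ) / n +
          (2 * r * (#{p | cyl x p ≤ S} : ℝ) / n +
            2 * r * ((m : ℝ) ^ 2 * (2 * S + 1) / (n - m)) +
            2 * (r : ℝ) ^ 2 * m * (2 * S + 1) / (n - 1)) *
              ∑ j ∈ range m, 1 / ((β j : ℝ) + 1))) := by
  classical
  have : Nonempty (Tup r n) := ⟨Fin.castLEEmb hrn⟩
  have hN : (0 : ℝ) < Fintype.card (Tup r n) := by exact_mod_cast Fintype.card_pos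
  set N : ℝ := (Fintype.card (Tup r n) : ℝ) with hNd
  have hT0 : (0 : ℝ) < T := by exact_mod_cast hT
  set Q : ℝ := (T : ℝ) ^ (m + 1) with hQ
  have hQ0 : 0 < Q := by positivity
  have hn0 : (0 : ℝ) < n := by exact_mod_cast (by omega : 0 < n)
  have hfac : (0 : ℝ) < n.factorial := by exact_mod_cast Nat.factorial_pos n
  set X : ℝ := n - 2 * r * m * (2 * S + 1) with hX
  have hX0 : 0 < X := by
    have : ((2 * r * m * (2 * S + 1) : ℕ) : ℝ) < n := by exact_mod_cast hW
    rw [hX]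
    push_cast at this
    linarith
  set σ : ℝ := ∑ j ∈ range m, 1 / ((β j : ℝ) + 1) with hσ
  have hσ0 : 0 ≤ σ := sum_nonneg fun j _ => by positivity
  set sh : ℝ := (#{p | cyl x p ≤ S} : ℝ) with hsh
  -- expanding the square
  have h1 : ∀ y : Perm (Fin n), ∑ a : Tup r n, ∑ b : Tup r n,
      (NK x y S β m T a b - 1 / N) ^ 2 =
      ∑ a : Tup r n, ∑ b : Tup r n, NK x y S β m T a b ^ 2 - 1 +
        2 / N * ∑ a : Tup r n, ((#{τ : Lt m T | ¬ Nice x y S β τ a} : ℝ) / Q) := by
    intro y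
    have h2 : ∀ a : Tup r n, ∑ b, (NK x y S β m T a b - 1 / N) ^ 2 =
        ∑ b, NK x y S β m T a b ^ 2 - 1 / N +
          2 / N * ((#{τ : Lt m T | ¬ Nice x y S β τ a} : ℝ) / Q) := by
      intro a
      have h3 : ∀ b, (NK x y S β m T a b - 1 / N) ^ 2 =
          NK x y S β m T a b ^ 2 - 2 / N * NK x y S β m T a b + (1 / N) ^ 2 := fun b => by ring
      simp_rw [h3]
      rw [sum_add_distrib, sum_sub_distrib, ← mul_sum, NK_row_eq, sum_const, card_univ,
        nsmul_eq_mul, ← hNd, ← hQ]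
      have h4 : (#{τ : Lt m T | Nice x y S β τ a} : ℝ) + #{τ : Lt m T | ¬ Nice x y S β τ a} = Q := by
        rw [hQ, ← card_Lt]
        have := card_filter_add_card_filter_not (s := (univ : Finset (Lt m T)))
          (fun τ => Nice x y S β τ a)
        rw [card_univ] at this
        exact_mod_cast this
      have h5 : (#{τ : Lt m T | Nice x y S β τ a} : ℝ) =
          Q - #{τ : Lt m T | ¬ Nice x y S β τ a} := by linarith
      rw [h5]
      field_simp
      ring
    simp_rw [h2]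
    rw [sum_add_distrib, sum_sub_distrib, sum_const, card_univ, nsmul_eq_mul, ← hNd, ← mul_sum]
    congr 2
    field_simp
  simp_rw [h1]
  rw [sum_add_distrib, sum_sub_distrib, sum_const, card_univ, Fintype.card_perm, Fintype.card_fin,
    nsmul_eq_mul, mul_one]
  -- the squares
  have h2 : ∑ y : Perm (Fin n), ∑ a : Tup r n, ∑ b, NK x y S β m T a b ^ 2 ≤
      n.factorial * (N / Q + N / X ^ r * (1 + (m + 1) * e)) := by
    rw [sum_comm]
    have h3 : ∀ a : Tup r n, ∑ y : Perm (Fin n), ∑ b, NK x y S β m T a b ^ 2 ≤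
        n.factorial * (1 / Q + 1 / X ^ r * (1 + (m + 1) * e)) := by
      intro a
      rw [sum_NK_sq, ← hQ, div_le_iff₀ (by positivity)]
      refine (sum_c3 hTS hT a hW e he hβ).trans (le_of_eq ?_)
      rw [← hQ, ← hX]
      field_simp
    refine (sum_le_sum fun a _ => h3 a).trans (le_of_eq ?_)
    rw [sum_const, card_univ, nsmul_eq_mul, ← hNd]
    ring
  -- the words which are not nice
  have h3 : ∑ y : Perm (Fin n), ∑ a : Tup r n, (#{τ : Lt m T | ¬ Nice x y S β τ a} : ℝ) / Q ≤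
      n.factorial * N * (2 * sh / n + (2 * r * sh / n +
        2 * r * ((m : ℝ) ^ 2 * (2 * S + 1) / (n - m)) +
            2 * (r : ℝ) ^ 2 * m * (2 * S + 1) / (n - 1)) * σ) := by
    have h4 : ∑ y : Perm (Fin n), ∑ a : Tup r n, (#{τ : Lt m T | ¬ Nice x y S β τ a} : ℝ) / Q =
        (∑ τ : Lt m T, ∑ y : Perm (Fin n), (#{a : Tup r n | ¬ Nice x y S β τ a} : ℝ)) / Q := by
      simp_rw [← sum_div]
      congr 1
      rw [sum_comm (s := (univ : Finset (Lt m T)))]
      refine sum_congr rfl fun y _ => ?_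
      have : ∑ a : Tup r n, #{τ : Lt m T | ¬ Nice x y S β τ a} =
          ∑ τ : Lt m T, #{a : Tup r n | ¬ Nice x y S β τ a} := by
        simp only [card_filter]
        rw [sum_comm]
      exact_mod_cast this
    rw [h4, div_le_iff₀ hQ0]
    have h5 : ∀ τ : Lt m T, ∑ y : Perm (Fin n), (#{a : Tup r n | ¬ Nice x y S β τ a} : ℝ) ≤
        n.factorial * N * (2 * sh / n + (2 * r * sh / n +
        2 * r * ((m : ℝ) ^ 2 * (2 * S + 1) / (n - m)) +
            2 * (r : ℝ) ^ 2 * m * (2 * S + 1) / (n - 1)) * σ) := by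
      intro τ
      have h6 : ∑ y : Perm (Fin n), (#{a : Tup r n | ¬ Nice x y S β τ a} : ℝ) ≤
          ∑ y : Perm (Fin n), (N * (2 * sh / n + (2 * r * sh / n +
            2 * r * (#{p | selfc x y S (ex τ) m p} : ℝ) / n +
            2 * (r : ℝ) ^ 2 * m * (2 * S + 1) / (n - 1)) * σ)) :=
        sum_le_sum fun y _ => card_notNice_tup x hn hr hrn y τ
      refine h6.trans ?_
      have h7 := sum_selfc x hmn (ex τ) (S := S) (fun i => (ex_le τ i).trans hTS)
      have h8 : ∀ y : Perm (Fin n), (N * (2 * sh / n + (2 * r * sh / n +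
            2 * r * (#{p | selfc x y S (ex τ) m p} : ℝ) / n +
            2 * (r : ℝ) ^ 2 * m * (2 * S + 1) / (n - 1)) * σ)) =
          N * (2 * sh / n + (2 * r * sh / n +
            2 * (r : ℝ) ^ 2 * m * (2 * S + 1) / (n - 1)) * σ) +
            N * σ * (2 * r / n) * (#{p | selfc x y S (ex τ) m p} : ℝ) := fun y => by ring
      simp_rw [h8]
      rw [sum_add_distrib, sum_const, card_univ, Fintype.card_perm, Fintype.card_fin,
        nsmul_eq_mul, ← mul_sum]
      have h9 : N * σ * (2 * r / n) * ∑ y : Perm (Fin n), (#{p | selfc x y S (ex τ) m p} : ℝ) ≤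
          N * σ * (2 * r / n) * (n.factorial * (n * ((m : ℝ) ^ 2 * (2 * S + 1) / (n - m)))) :=
        mul_le_mul_of_nonneg_left h7 (by positivity)
      refine (add_le_add le_rfl h9).trans (le_of_eq ?_)
      field_simp
      ring
    refine (sum_le_sum fun τ _ => h5 τ).trans (le_of_eq ?_)
    rw [sum_const, card_univ, nsmul_eq_mul, card_Lt, ← hQ]
    ring
  have h4 : ∑ y : Perm (Fin n), 2 / N * ∑ a : Tup r n,
      (#{τ : Lt m T | ¬ Nice x y S β τ a} : ℝ) / Q ≤
      n.factorial * (2 * (2 * sh / n + (2 * r * sh / n +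
        2 * r * ((m : ℝ) ^ 2 * (2 * S + 1) / (n - m)) +
            2 * (r : ℝ) ^ 2 * m * (2 * S + 1) / (n - 1)) * σ)) := by
    rw [← mul_sum]
    calc _ ≤ 2 / N * _ := mul_le_mul_of_nonneg_left h3 (by positivity)
      _ = _ := by field_simp
  linarith

end sumHS

end

end Run7.h624.PD
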