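import Pool.Agent.Run7.h624.PD.Fam
import Pool.Agent.Run7.h624.DM.Iter

/-!
Iterated commutators, for a general mixing family of short words; commutators of two permutations
with small supports.
-/

namespace Run7.h624.PD
open RC14 Finset Equiv Run7.h624.DM

noncomputable section

variable {n k : ℕ}

/-- the standing assumptions of the iteration -/
structure GoodF (x : Fin k → Alt n) (κ H : ℝ) (T : ℕ) : Prop where
  hκ : 0 < κ
  hκ2 : κ ≤ 1 / 2
  hn : 4500 ≤ κ * n
  hH : 400 * n ≤ κ * H ^ 2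
  hH0 : 1 ≤ H
  mix : ∃ e : ℝ, 0 ≤ e ∧ e * (n : ℝ) ^ 2 ≤ 1 ∧ MixFam x T 4 e

lemma GoodF.step {x : Fin k → Alt n} {κ H : ℝ} {T : ℕ} (hg : GoodF x κ H T) {L : ℕ} {z : Alt n}
    (hz : z ∈ Bl x L) (h1 : H < sp z) (h2 : sp z ≤ (1 / 2 - κ) * n) :
    Done x H (4 * L + 4 * T) ∨ ∃ z' ∈ Bl x (4 * L + 4 * T), H < sp z' ∧
      sp z' ≤ (1 - κ / 6) * sp z ∧ sp z' * n ≤ 10 * sp z ^ 2 := by
  obtain ⟨e, he0, he1, K, iK, nK, gw, hgw, hmm⟩ := hg.mix
  have hm2 := hmm 2 (by norm_num)
  have hm4 := hmm 4 le_rfl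
  have hH0 := hg.hH0
  have hκ := hg.hκ
  have h3 : 400 * (n : ℝ) ≤ κ * sp z ^ 2 := by
    refine hg.hH.trans ?_
    gcongr
  obtain ⟨ω, a1, a2, a3⟩ := comm_step (z : Perm (Fin n)) hg.hκ hg.hκ2 hg.hn he0 he1 hm2 hm4 h2 h3
  set h : Alt n := gw ω with hh
  have hhB : h ∈ Bl x T := hgw ω
  set z' : Alt n := z * (h⁻¹ * z * h) * z⁻¹ * (h⁻¹ * z * h)⁻¹ with hz'
  have hzB : z' ∈ Bl x (4 * L + 4 * T) := by
    have b1 : h⁻¹ * z * h ∈ Bl x (2 * T + L) := by
      have := Bl_conj x (Bl_inv x hhB) hz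
      rwa [inv_inv] at this
    have b2 := Bl_mul x (Bl_mul x (Bl_mul x hz b1) (Bl_inv x hz)) (Bl_inv x b1)
    refine Bl_mono x ?_ b2
    omega
  have hzc : (z' : Perm (Fin n)) = cm (z : Perm (Fin n)) (h : Perm (Fin n)) := by
    rw [hz']
    unfold cm cjg
    simp only [Subgroup.coe_mul, Subgroup.coe_inv]
  rw [← hzc] at a1 a2 a3
  by_cases h5 : sp z' ≤ H
  · left
    refine ⟨z', hzB, ?_, h5⟩
    refine le_trans ?_ a1
    have : H ≤ (#(z : Perm (Fin n)).support : ℝ) := h1.le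
    gcongr
  · right
    push Not at h5
    exact ⟨z', hzB, h5, a2, a3⟩

lemma GoodF.phase1 {x : Fin k → Alt n} {κ H : ℝ} {T : ℕ} (hg : GoodF x κ H T) {L : ℕ} {z : Alt n}
    (hz : z ∈ Bl x L) (h1 : H < sp z) (h2 : sp z ≤ (1 / 2 - κ) * n) (j : ℕ) :
    Done x H (4 ^ j * (L + 2 * T)) ∨ ∃ z', ∃ L', z' ∈ Bl x L' ∧ L' + 2 * T ≤ 4 ^ j * (L + 2 * T) ∧
      H < sp z' ∧ sp z' ≤ (1 / 2 - κ) * n ∧ sp z' ≤ (1 - κ / 6) ^ j * n := by
  have hκ := hg.hκ
  have hκ2 := hg.hκ2
  induction j with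
  | zero =>
    right
    refine ⟨z, L, hz, by simp, h1, h2, ?_⟩
    have : (0 : ℝ) ≤ n := Nat.cast_nonneg _
    simp only [pow_zero, one_mul]
    nlinarith
  | succ j ih =>
    rcases ih with ih | ⟨z', L', b1, b2, b3, b4, b5⟩
    · left
      refine ih.mono ?_
      rw [pow_succ]
      nlinarith [Nat.zero_le (4 ^ j * (L + 2 * T))]
    · have hL : 4 * L' + 4 * T + 2 * T ≤ 4 ^ (j + 1) * (L + 2 * T) := by
        rw [pow_succ]
        nlinarith
      rcases hg.step b1 b3 b4 with c | ⟨z'', c1, c2, c3, c4⟩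
      · left
        exact c.mono (by omega)
      · right
        refine ⟨z'', _, c1, hL, c2, ?_, ?_⟩
        · have := sp_nonneg z'
          nlinarith
        · calc sp z'' ≤ (1 - κ / 6) * sp z' := c3
            _ ≤ (1 - κ / 6) * ((1 - κ / 6) ^ j * n) := by
              apply mul_le_mul_of_nonneg_left b5 (by linarith)
            _ = _ := by ring

lemma GoodF.phase2 {x : Fin k → Alt n} {κ H : ℝ} {T : ℕ} (hg : GoodF x κ H T) {L : ℕ} {z : Alt n}
    (hz : z ∈ Bl x L) (h1 : H < sp z) (h2 : sp z ≤ (1 / 2 - κ) * n) (h3 : sp z ≤ 1 / 20 * n)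
    (j : ℕ) :
    Done x H (4 ^ j * (L + 2 * T)) ∨ ∃ z', ∃ L', z' ∈ Bl x L' ∧ L' + 2 * T ≤ 4 ^ j * (L + 2 * T) ∧
      H < sp z' ∧ sp z' ≤ (1 / 2 - κ) * n ∧ 10 * sp z' ≤ (1 / 2) ^ (2 ^ j) * n := by
  have hκ := hg.hκ
  have hκ2 := hg.hκ2
  have hn0 : (0 : ℝ) < n := by
    have := hg.hn
    by_contra hcon
    push Not at hcon
    nlinarith
  induction j with
  | zero =>
    right
    refine ⟨z, L, hz, by simp, h1, h2, ?_⟩
    simp only [pow_zero, pow_one]
    linarith
  | succ j ih =>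
    rcases ih with ih | ⟨z', L', b1, b2, b3, b4, b5⟩
    · left
      refine ih.mono ?_
      rw [pow_succ]
      nlinarith [Nat.zero_le (4 ^ j * (L + 2 * T))]
    · have hL : 4 * L' + 4 * T + 2 * T ≤ 4 ^ (j + 1) * (L + 2 * T) := by
        rw [pow_succ]
        nlinarith
      rcases hg.step b1 b3 b4 with c | ⟨z'', c1, c2, c3, c4⟩
      · left
        exact c.mono (by omega)
      · right
        refine ⟨z'', _, c1, hL, c2, ?_, ?_⟩
        · have := sp_nonneg z'
          nlinarith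
        · have h5 : 10 * sp z'' * n ≤ ((1 / 2) ^ (2 ^ (j + 1)) * n) * n := by
            calc 10 * sp z'' * n = 10 * (sp z'' * n) := by ring
              _ ≤ 10 * (10 * sp z' ^ 2) := by linarith
              _ = (10 * sp z') ^ 2 := by ring
              _ ≤ ((1 / 2) ^ (2 ^ j) * n) ^ 2 := by
                have := sp_nonneg z'
                gcongr
              _ = _ := by
                have h6 : (1 / 2 : ℝ) ^ (2 ^ (j + 1)) = ((1 / 2) ^ (2 ^ j)) ^ 2 := by
                  rw [pow_succ 2 j, pow_mul]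
                rw [h6]; ring
          exact le_of_mul_le_mul_right h5 hn0

/-- the whole iteration -/
theorem shrinkF {κ : ℝ} (hκ : 0 < κ) (hκ2 : κ ≤ 1 / 2) : ∃ C : ℝ, 0 < C ∧ ∀ (n k : ℕ)
    (x : Fin k → Alt n) (H : ℝ) (T L : ℕ), GoodF x κ H T → ∀ z ∈ Bl x L, H < sp z →
    sp z ≤ (1 / 2 - κ) * n →
    ∃ L' : ℕ, (L' : ℝ) ≤ C * Real.log n ^ 2 * (L + 2 * T) ∧ Done x H L' := by
  obtain ⟨j, hj⟩ := exists_pow_lt_of_lt_one (show (0 : ℝ) < 1 / 20 by norm_num)
    (show 1 - κ / 6 < 1 by linarith)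
  refine ⟨36 * 4 ^ j, by positivity, ?_⟩
  intro n k x H T L hg z hz h1 h2
  have hn0 : (0 : ℝ) ≤ n := Nat.cast_nonneg _
  have hn3 : 3 ≤ n := by
    have := hg.hn
    have h3 : (3 : ℝ) ≤ n := by nlinarith
    exact_mod_cast h3
  obtain ⟨i, hi1, hi2⟩ := loglog n hn3
  refine ⟨4 ^ i * (4 ^ j * (L + 2 * T)), ?_, ?_⟩
  · push_cast
    have : (0 : ℝ) ≤ (L + 2 * T : ℝ) := by positivity
    calc (4 : ℝ) ^ i * (4 ^ j * (L + 2 * T)) ≤ (36 * Real.log n ^ 2) * (4 ^ j * (L + 2 * T)) := by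
          gcongr
      _ = _ := by ring
  · rcases hg.phase1 hz h1 h2 j with c | ⟨z', L', b1, b2, b3, b4, b5⟩
    · refine c.mono ?_
      exact Nat.le_mul_of_pos_left _ (by positivity)
    · have b6 : sp z' ≤ 1 / 20 * n := b5.trans (by gcongr)
      rcases hg.phase2 b1 b3 b4 b6 i with c | ⟨z'', L'', c1, c2, c3, c4, c5⟩
      · exact c.mono (Nat.mul_le_mul_left _ b2)
      · exfalso
        have h5 : (1 / 2 : ℝ) ^ (2 ^ i) * n ≤ 1 := by
          rw [one_div, inv_pow, inv_mul_le_iff₀ (by positivity), mul_one]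
          exact hi1
        have := hg.hH0
        linarith


/-! ### two permutations with small supports -/

section Two
variable (Z z h : Perm (Fin n))

/-- the commutator of `Z` with the conjugate of `z` -/
def cm2 : Perm (Fin n) := Z * cjg z h * Z⁻¹ * (cjg z h)⁻¹

/-- the overlap -/
def ov : ℕ := #{p ∈ Z.support | h p ∈ z.support}

/-- the lower bound -/
def B3 : ℕ := #{p ∈ Z.support | h p ∉ z.support ∧ h (Z p) ∈ z.support}

lemma card_cm2 : #(cm2 Z z h).support = #{p | Z (cjg z h p) ≠ cjg z h (Z p)} := by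
  symm
  refine card_bij (fun p _ => cjg z h (Z p)) ?_ ?_ ?_
  · intro p hp
    simp only [mem_filter, mem_univ, true_and] at hp
    rw [Perm.mem_support]
    unfold cm2
    simpa using hp
  · intro a _ b _ hab
    simpa using hab
  · intro p hp
    rw [Perm.mem_support] at hp
    refine ⟨Z⁻¹ ((cjg z h)⁻¹ p), ?_, by simp⟩
    simp only [mem_filter, mem_univ, true_and]
    intro h1
    apply hp
    unfold cm2
    simp only [Perm.mul_apply]
    rw [h1]
    simp

lemma card_cm2_lower : B3 Z z h ≤ #(cm2 Z z h).support := by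
  rw [card_cm2]
  unfold B3
  apply card_le_card
  intro p hp
  obtain ⟨h1, h2, h3⟩ := mem_filter.1 hp
  simp only [mem_filter, mem_univ, true_and]
  rw [(cjg_fix z h p).2 h2]
  intro h4
  exact ((cjg_fix z h (Z p)).1 h4.symm) h3

lemma card_cm2_upper : #(cm2 Z z h).support ≤ 3 * ov Z z h := by
  rw [card_cm2]
  set C := cjg z h with hC
  set Γ : Finset (Fin n) := {p ∈ Z.support | h p ∈ z.support} with hΓ
  have hmem : ∀ p, p ∈ Γ ↔ Z p ≠ p ∧ C p ≠ p := by
    intro p
    rw [hΓ, mem_filter, Perm.mem_support, ne_eq (C p), hC, cjg_fix, not_not]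
  have hsub : ({p | Z (C p) ≠ C (Z p)} : Finset (Fin n)) ⊆
      (Γ ∪ Γ.map (Z⁻¹ : Perm (Fin n)).toEmbedding) ∪ Γ.map (C⁻¹ : Perm (Fin n)).toEmbedding := by
    intro p hp
    have hp' := (mem_filter.1 hp).2
    by_contra hcon
    rw [mem_union, mem_union, not_or, not_or] at hcon
    obtain ⟨⟨c1, c2⟩, c3⟩ := hcon
    have c2' : Z p ∉ Γ := by
      intro h1
      apply c2
      rw [mem_map]
      exact ⟨Z p, h1, by simp⟩
    have c3' : C p ∉ Γ := by
      intro h1
      apply c3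
      rw [mem_map]
      exact ⟨C p, h1, by simp⟩
    rw [hmem, not_and_or, not_not, not_not] at c1 c2' c3'
    apply hp'
    by_cases hz : Z p = p
    · by_cases hc : C p = p
      · rw [hc, hz, hc]
      · have h1 : C (C p) ≠ C p := fun h2 => hc (C.injective h2)
        have h2 : Z (C p) = C p := by
          rcases c3' with h3 | h3
          · exact h3
          · exact absurd h3 h1
        rw [h2, hz]
    · have hc : C p = p := by
        rcases c1 with h3 | h3
        · exact absurd h3 hz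
        · exact h3
      have h1 : Z (Z p) ≠ Z p := fun h2 => hz (Z.injective h2)
      have h2 : C (Z p) = Z p := by
        rcases c2' with h3 | h3
        · exact absurd h3 h1
        · exact h3
      rw [hc, h2]
  have h1 := (card_le_card hsub).trans ((card_union_le _ _).trans (Nat.add_le_add_right
    (card_union_le _ _) _))
  rw [card_map, card_map] at h1
  have h2 : ov Z z h = #Γ := rfl
  rw [h2]
  omega

end Two

section Avg2
variable {K : Type*} [Fintype K] {h : K → Perm (Fin n)} {e : ℝ} (Z z : Perm (Fin n))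

lemma sum_ov (hm : Mix 1 e h) :
    (∑ κ, (ov Z z (h κ) : ℝ)) * n ≤ (1 + e) * (#Z.support * #z.support) * Fintype.card K := by
  have h1 : ∑ κ, (ov Z z (h κ) : ℝ) = ∑ p ∈ Z.support, (#{κ | h κ p ∈ z.support} : ℝ) := by
    unfold ov
    simp only [card_filter]
    push_cast
    rw [sum_comm]
  rw [h1, sum_mul]
  have h2 : ∀ p ∈ Z.support, (#{κ | h κ p ∈ z.support} : ℝ) * n ≤
      (1 + e) * #z.support * Fintype.card K := by
    intro p hp
    have h3 := hm.upper_set (tup1 p) (univ.filter fun b : Tup 1 n => b 0 ∈ z.support)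
    have h4 : #(univ.filter fun b : Tup 1 n => b 0 ∈ z.support) = #z.support := by
      refine card_bij (fun b _ => b 0) ?_ ?_ ?_
      · intro b hb
        exact (mem_filter.1 hb).2
      · intro a _ b _ hab
        ext i
        rw [Subsingleton.elim i 0]
        exact congrArg Fin.val hab
      · intro q hq
        exact ⟨tup1 q, mem_filter.2 ⟨mem_univ _, hq⟩, rfl⟩
    rw [h4, Fintype.card_embedding_eq, Fintype.card_fin, Fintype.card_fin,
      Nat.descFactorial_one] at h3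
    simp only [mem_filter, mem_univ, true_and, mv_apply] at h3
    exact h3
  calc _ ≤ ∑ _p ∈ Z.support, (1 + e) * #z.support * Fintype.card K := sum_le_sum h2
    _ = _ := by rw [sum_const, nsmul_eq_mul]; ring

lemma sum_B3 (hm : Mix 2 e h) :
    (1 - e) * (#Z.support * ((n - #z.support) * #z.support)) * Fintype.card K ≤
      (∑ κ, (B3 Z z (h κ) : ℝ)) * (n * (n - 1)) := by
  have h1 : ∑ κ, (B3 Z z (h κ) : ℝ) = ∑ p ∈ Z.support,
      (#{κ | h κ p ∉ z.support ∧ h κ (Z p) ∈ z.support} : ℝ) := by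
    unfold B3
    simp only [card_filter]
    push_cast
    rw [sum_comm]
  rw [h1, sum_mul]
  have h2 : ∀ p ∈ Z.support, (1 - e) * ((n - #z.support) * #z.support) * Fintype.card K ≤
      (#{κ | h κ p ∉ z.support ∧ h κ (Z p) ∈ z.support} : ℝ) * (n * (n - 1)) := by
    intro p hp
    have h3 := hm.lower_set (pr p (Z p) (ne_of_supp Z hp))
      (univ.filter fun b : Tup 2 n => b 0 ∈ (z.support)ᶜ ∧ b 1 ∈ z.support)
    rw [cardB2_disj _ _ (disjoint_compl_left), compl_card, card_tup2] at h3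
    simp only [mem_filter, mem_univ, true_and, mv_apply, pr_0, pr_1, mem_compl] at h3
    exact h3
  calc _ = ∑ _p ∈ Z.support, (1 - e) * ((n - #z.support) * #z.support) *
          Fintype.card K := by rw [sum_const, nsmul_eq_mul]; ring
    _ ≤ _ := sum_le_sum h2

lemma sum_B3_sq (hn : 3 ≤ n) (he : 0 ≤ e) (hm : Mix 4 e h) :
    (∑ κ, (B3 Z z (h κ) : ℝ) ^ 2) * (n * (n - 1) * (n - 2) * (n - 3)) ≤
      (∑ κ, (B3 Z z (h κ) : ℝ)) * (n * (n - 1) * (n - 2) * (n - 3)) +
      (1 + e) * (#Z.support ^ 2 * ((n - #z.support) * #z.support) ^ 2) * Fintype.card K := by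
  set Q : K → Fin n → Prop := fun κ p => h κ p ∉ z.support ∧ h κ (Z p) ∈ z.support with hQ
  have h1 : ∀ κ, (B3 Z z (h κ) : ℝ) ^ 2 = ∑ p ∈ Z.support, ∑ p' ∈ Z.support,
      (if Q κ p ∧ Q κ p' then (1 : ℝ) else 0) := by
    intro κ
    unfold B3
    rw [card_filter]
    push_cast
    rw [sq, sum_mul_sum]
    refine sum_congr rfl fun p _ => sum_congr rfl fun p' _ => ?_
    have aux : ∀ (P R : Prop) [Decidable P] [Decidable R],
        (if P then (1 : ℝ) else 0) * (if R then (1 : ℝ) else 0) = if P ∧ R then (1 : ℝ) else 0 := by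
      intro P R _ _
      by_cases hP : P <;> by_cases hR : R <;> simp [hP, hR]
    exact aux (Q κ p) (Q κ p')
  have h1' : ∀ κ, (B3 Z z (h κ) : ℝ) = ∑ p ∈ Z.support, (if Q κ p then (1 : ℝ) else 0) := by
    intro κ
    unfold B3
    rw [card_filter]
    push_cast
    rfl
  simp_rw [h1, h1']
  rw [sum_comm]
  have h2 : ∀ p ∈ Z.support, (∑ κ, ∑ p' ∈ Z.support, (if Q κ p ∧ Q κ p' then (1 : ℝ) else 0)) *
      (n * (n - 1) * (n - 2) * (n - 3)) ≤
      (∑ κ, (if Q κ p then (1 : ℝ) else 0)) * (n * (n - 1) * (n - 2) * (n - 3)) +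
      (1 + e) * (#Z.support * ((n - #z.support) * #z.support) ^ 2) * Fintype.card K := by
    intro p hp
    rw [sum_comm, ← add_sum_erase _ _ hp, add_mul]
    have h3 : ∀ κ, (if Q κ p ∧ Q κ p then (1 : ℝ) else 0) = if Q κ p then 1 else 0 := by
      intro κ; simp
    simp_rw [h3]
    refine add_le_add le_rfl ?_
    rw [sum_mul]
    have h4 : ∀ p' ∈ Z.support.erase p,
        (∑ κ, (if Q κ p ∧ Q κ p' then (1 : ℝ) else 0)) * (n * (n - 1) * (n - 2) * (n - 3)) ≤
        (1 + e) * ((n - #z.support) * #z.support) ^ 2 * Fintype.card K := by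
      intro p' hp'
      obtain ⟨hne, hp'⟩ := mem_erase.1 hp'
      by_cases hz1 : Z p = p'
      · have h5 : ∀ κ, (if Q κ p ∧ Q κ p' then (1 : ℝ) else 0) = 0 := by
          intro κ
          rw [if_neg]
          rintro ⟨⟨-, h6⟩, h7, -⟩
          rw [hz1] at h6
          exact h7 h6
        simp_rw [h5]
        rw [sum_const_zero, zero_mul]
        positivity
      by_cases hz2 : Z p' = p
      · have h5 : ∀ κ, (if Q κ p ∧ Q κ p' then (1 : ℝ) else 0) = 0 := by
          intro κ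
          rw [if_neg]
          rintro ⟨⟨h7, -⟩, -, h6⟩
          rw [hz2] at h6
          exact h7 h6
        simp_rw [h5]
        rw [sum_const_zero, zero_mul]
        positivity
      let a : Tup 4 n := ⟨![p, Z p, p', Z p'], by
        have e1 := ne_of_supp Z hp
        have e2 := ne_of_supp Z hp'
        have e3 : Z p ≠ Z p' := fun hh => hne (Z.injective hh).symm
        intro i j hij
        fin_cases i <;> fin_cases j <;> simp at hij ⊢
        · exact e1 hij
        · exact hne hij.symm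
        · exact hz2 hij.symm
        · exact e1 hij.symm
        · exact hz1 hij
        · exact hne hij.symm
        · exact hne hij
        · exact hz1 hij.symm
        · exact e2 hij
        · exact hz2 hij
        · exact hne hij
        · exact e2 hij.symm⟩
      have h5 := hm.upper_set a
        (univ.filter fun b : Tup 4 n => (b 0 ∈ (z.support)ᶜ ∧ b 1 ∈ z.support) ∧
          b 2 ∈ (z.support)ᶜ ∧ b 3 ∈ z.support)
      have h6 := cardB4_le (z.support)ᶜ z.support
      rw [compl_card] at h6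
      rw [card_tup4 hn] at h5
      have h7 : (∑ κ, (if Q κ p ∧ Q κ p' then (1 : ℝ) else 0)) =
          (#{κ | mv (h κ) a ∈ univ.filter fun b : Tup 4 n =>
            (b 0 ∈ (z.support)ᶜ ∧ b 1 ∈ z.support) ∧ b 2 ∈ (z.support)ᶜ ∧ b 3 ∈ z.support} : ℝ) := by
        rw [card_filter]
        push_cast
        refine sum_congr rfl fun κ _ => ?_
        congr 1
        simp only [mem_filter, mem_univ, true_and, mem_compl, hQ]
        rfl
      rw [h7]
      refine h5.trans ?_
      gcongr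
    calc _ ≤ ∑ _p' ∈ Z.support.erase p,
          (1 + e) * ((n - #z.support) * #z.support) ^ 2 * Fintype.card K := sum_le_sum h4
      _ = (#(Z.support.erase p) : ℝ) *
          ((1 + e) * ((n - #z.support) * #z.support) ^ 2 * Fintype.card K) := by
          rw [sum_const, nsmul_eq_mul]
      _ ≤ (#Z.support : ℝ) * ((1 + e) * ((n - #z.support) * #z.support) ^ 2 * Fintype.card K) := by
          gcongr
          exact erase_subset _ _
      _ = _ := by ring
  have h8 : ∑ κ, ∑ p ∈ Z.support, (if Q κ p then (1 : ℝ) else 0) =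
      ∑ p ∈ Z.support, ∑ κ, (if Q κ p then (1 : ℝ) else 0) := sum_comm
  rw [h8, sum_mul, sum_mul]
  calc _ ≤ ∑ p ∈ Z.support, ((∑ κ, (if Q κ p then (1 : ℝ) else 0)) *
        (n * (n - 1) * (n - 2) * (n - 3)) +
      (1 + e) * (#Z.support * ((n - #z.support) * #z.support) ^ 2) * Fintype.card K) :=
        sum_le_sum h2
    _ = _ := by
        rw [sum_add_distrib, sum_const, nsmul_eq_mul]; ring

/-- one step with two permutations -/
theorem comm_two [Nonempty K] (hn : 9000 ≤ n) (he : 0 ≤ e) (he2 : e * (n : ℝ) ^ 2 ≤ 1)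
    (hm1 : Mix 1 e h) (hm2 : Mix 2 e h) (hm4 : Mix 4 e h) (hM : (#z.support : ℝ) ≤ 1 / 2 * n)
    (hbig : 1000 * n ≤ (#Z.support : ℝ) * #z.support) :
    ∃ i, (#Z.support : ℝ) * #z.support ≤ 6 * n * #(cm2 Z z (h i)).support ∧
      (#(cm2 Z z (h i)).support : ℝ) * n ≤ 12 * ((#Z.support : ℝ) * #z.support) := by
  have hK : (0 : ℝ) < Fintype.card K := by exact_mod_cast Fintype.card_pos
  set N : ℝ := (n : ℝ) with hN
  set M1 : ℝ := (#Z.support : ℝ) with hM1
  set M : ℝ := (#z.support : ℝ) with hMd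
  have hN1 : 9000 ≤ N := by rw [hN]; exact_mod_cast hn
  have hN0 : 0 < N := by linarith
  have hM10 : 0 ≤ M1 := Nat.cast_nonneg _
  have hM0 : 0 ≤ M := Nat.cast_nonneg _
  have hNN : 0 < N * (N - 1) := by nlinarith
  have he3 : e ≤ 1 / 100 := by nlinarith
  have s1 := sum_ov Z z hm1
  have s3 := sum_B3 Z z hm2
  have s4 := sum_B3_sq Z z (by omega) he hm4
  rw [← hN, ← hM1, ← hMd] at s1 s3 s4
  obtain ⟨μ, hμs⟩ : ∃ μ : ℝ, ∑ i, (B3 Z z (h i) : ℝ) = μ * Fintype.card K :=
    ⟨_, (div_mul_cancel₀ _ hK.ne').symm⟩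
  obtain ⟨P, hP⟩ : ∃ P : ℝ, P * (N * (N - 1)) = M1 * ((N - M) * M) :=
    ⟨_, div_mul_cancel₀ _ hNN.ne'⟩
  have hμ1 : (1 - e) * (M1 * ((N - M) * M)) ≤ μ * (N * (N - 1)) := by
    rw [hμs] at s3
    have : (1 - e) * (M1 * ((N - M) * M)) * Fintype.card K ≤
        μ * (N * (N - 1)) * Fintype.card K := by
      calc _ ≤ _ := s3
        _ = _ := by ring
    exact le_of_mul_le_mul_right this hK
  have hNM : N / 2 ≤ N - M := by linarith
  have hμ2 : 9 / 20 * (M1 * M) ≤ μ * N := by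
    have h1 : 9 / 20 * (M1 * M) * (N - 1) ≤ (1 - e) * (M1 * ((N - M) * M)) := by
      have h2 : 9 / 10 * (N / 2) ≤ (1 - e) * (N - M) :=
        mul_le_mul (by linarith) (by linarith) (by linarith) (by linarith)
      have h3 : 9 / 20 * (N - 1) ≤ (1 - e) * (N - M) := by linarith
      calc 9 / 20 * (M1 * M) * (N - 1) = (M1 * M) * (9 / 20 * (N - 1)) := by ring
        _ ≤ (M1 * M) * ((1 - e) * (N - M)) := by gcongr
        _ = _ := by ring
    have h2 : 9 / 20 * (M1 * M) * (N - 1) ≤ μ * N * (N - 1) := by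
      calc _ ≤ _ := h1
        _ ≤ _ := hμ1
        _ = _ := by ring
    exact le_of_mul_le_mul_right h2 (by linarith)
  have hμ3 : 450 ≤ μ := by
    have : 450 * N ≤ μ * N := by linarith
    exact le_of_mul_le_mul_right this hN0
  have hP0 : 0 ≤ P := by
    have : 0 ≤ P * (N * (N - 1)) := by
      rw [hP]
      have : 0 ≤ N - M := by linarith
      positivity
    by_contra hcon
    push Not at hcon
    nlinarith
  have hPμ : (1 - e) * P ≤ μ := by
    have : (1 - e) * P * (N * (N - 1)) ≤ μ * (N * (N - 1)) := by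
      calc _ = (1 - e) * (P * (N * (N - 1))) := by ring
        _ ≤ _ := by rw [hP]; exact hμ1
    exact le_of_mul_le_mul_right this hNN
  have h3 : (∑ i, (B3 Z z (h i) : ℝ) ^ 2) / Fintype.card K ≤ μ ^ 2 + (μ + 6 * μ ^ 2 / N) := by
    refine num3 N P e μ _ hN1 he he2 hP0 hPμ ?_
    rw [hP, div_mul_eq_mul_div, div_le_iff₀ hK]
    rw [hμs] at s4
    calc _ ≤ _ := s4
      _ = _ := by ring
  have h3' : ∑ i, (B3 Z z (h i) : ℝ) ^ 2 ≤ (μ ^ 2 + (μ + 6 * μ ^ 2 / N)) * Fintype.card K := by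
    rwa [div_le_iff₀ hK] at h3
  have hMM : 0 < M1 * M := by linarith
  obtain ⟨i, hi1, hi2⟩ := exists_good (fun i => (ov Z z (h i) : ℝ)) (fun i => (B3 Z z (h i) : ℝ))
    (fun i => Nat.cast_nonneg _) (2 * (M1 * M) / N) μ (μ + 6 * μ ^ 2 / N) 1 (by positivity)
    (by linarith) one_pos (by
      rw [div_mul_eq_mul_div, le_div_iff₀ hN0]
      refine s1.trans ?_
      gcongr
      linarith) hμs h3' (by
      have hμ0 : 0 < μ := by linarith
      have h1 : 4 * (μ + 6 * μ ^ 2 / N) / μ ^ 2 = 4 / μ + 24 / N := by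
        field_simp
        ring
      rw [h1]
      have h2 : 4 / μ ≤ 1 / 100 := by
        rw [div_le_div_iff₀ hμ0 (by norm_num)]
        linarith
      have h3 : 24 / N ≤ 1 / 100 := by
        rw [div_le_div_iff₀ hN0 (by norm_num)]
        linarith
      norm_num
      linarith)
  refine ⟨i, ?_, ?_⟩
  · have h5 : (B3 Z z (h i) : ℝ) ≤ #(cm2 Z z (h i)).support := by
      exact_mod_cast card_cm2_lower Z z (h i)
    have h6 : μ / 2 ≤ (#(cm2 Z z (h i)).support : ℝ) := hi2.trans h5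
    have h7 : μ / 2 * N ≤ (#(cm2 Z z (h i)).support : ℝ) * N := by gcongr
    linarith
  · have h5 : (#(cm2 Z z (h i)).support : ℝ) ≤ 3 * ov Z z (h i) := by
      exact_mod_cast card_cm2_upper Z z (h i)
    have h6 : (#(cm2 Z z (h i)).support : ℝ) ≤ 3 * ((1 + 1) * (2 * (M1 * M) / N)) := by linarith
    calc (#(cm2 Z z (h i)).support : ℝ) * N ≤ 3 * ((1 + 1) * (2 * (M1 * M) / N)) * N := by gcongr
      _ = _ := by
        field_simp
        ring

end Avg2

/-- geometric descent to a window -/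
theorem descend {x : Fin k → Alt n} {L T J : ℕ} {e H : ℝ} (hn : 9000 ≤ n) (he : 0 ≤ e)
    (he2 : e * (n : ℝ) ^ 2 ≤ 1) (hmix : MixFam x T 4 e) {z : Alt n} (hz : z ∈ Bl x L)
    (hz1 : sp z ≤ 1 / 2 * n) (hH : 1000 * n ≤ H * sp z) (hH1 : 1 ≤ H) (hzH : H < sp z)
    (hJ : (12 * sp z / n) ^ J * sp z ≤ 1) :
    ∃ Z ∈ Bl x (2 ^ J * (3 * L + 4 * T)), H * sp z ≤ 6 * n * sp Z ∧ sp Z ≤ H := by
  obtain ⟨K, iK, nK, g, hgB, hmm⟩ := hmix
  have hn0 : (0 : ℝ) < n := by exact_mod_cast (by omega : 0 < n)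
  have hsz := sp_nonneg z
  have key : ∀ j, (∃ Z ∈ Bl x (2 ^ j * (3 * L + 4 * T)), H * sp z ≤ 6 * n * sp Z ∧ sp Z ≤ H) ∨
      ∃ Z, ∃ L', Z ∈ Bl x L' ∧ L' + (2 * L + 4 * T) ≤ 2 ^ j * (3 * L + 4 * T) ∧ H < sp Z ∧
        sp Z ≤ (12 * sp z / n) ^ j * sp z := by
    intro j
    induction j with
    | zero =>
      right
      exact ⟨z, L, hz, by omega, hzH, by simp⟩
    | succ j ih =>
      rcases ih with ⟨Z, a1, a2⟩ | ⟨Z, L', b1, b2, b3, b4⟩
      · left
        refine ⟨Z, Bl_mono x ?_ a1, a2⟩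
        exact Nat.mul_le_mul_right _ (Nat.pow_le_pow_right (by norm_num) (by omega))
      · obtain ⟨i, c1, c2⟩ := comm_two (Z : Perm (Fin n)) (z : Perm (Fin n)) hn he he2
          (hmm 1 (by norm_num)) (hmm 2 (by norm_num)) (hmm 4 le_rfl) hz1 (by
            refine hH.trans ?_
            have : H * sp z ≤ sp Z * sp z := by gcongr
            exact this)
        set h := g i with hh
        set Z' : Alt n := Z * (h⁻¹ * z * h) * Z⁻¹ * (h⁻¹ * z * h)⁻¹ with hZ'
        have hZc : (Z' : Perm (Fin n)) =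
            cm2 (Z : Perm (Fin n)) (z : Perm (Fin n)) (h : Perm (Fin n)) := by
          rw [hZ']
          unfold cm2 cjg
          simp only [Subgroup.coe_mul, Subgroup.coe_inv]
        have hZB : Z' ∈ Bl x (2 * L' + (2 * L + 4 * T)) := by
          have b1' : h⁻¹ * z * h ∈ Bl x (2 * T + L) := by
            have := Bl_conj x (Bl_inv x (hgB i)) hz
            rwa [inv_inv] at this
          have b2' := Bl_mul x (Bl_mul x (Bl_mul x b1 b1') (Bl_inv x b1)) (Bl_inv x b1')
          refine Bl_mono x ?_ b2'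
          omega
        have hle : 2 * L' + (2 * L + 4 * T) + (2 * L + 4 * T) ≤ 2 ^ (j + 1) * (3 * L + 4 * T) := by
          rw [pow_succ]
          nlinarith
        rw [← hZc] at c1 c2
        have c1' : sp Z * sp z ≤ 6 * n * sp Z' := c1
        have c2' : sp Z' * n ≤ 12 * (sp Z * sp z) := c2
        by_cases h5 : sp Z' ≤ H
        · left
          refine ⟨Z', Bl_mono x (by omega) hZB, ?_, h5⟩
          refine le_trans ?_ c1'
          gcongr
        · right
          push Not at h5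
          refine ⟨Z', _, hZB, hle, h5, ?_⟩
          have h6 : sp Z' ≤ 12 * sp z / n * sp Z := by
            rw [div_mul_eq_mul_div, le_div_iff₀ hn0]
            linarith
          calc sp Z' ≤ 12 * sp z / n * sp Z := h6
            _ ≤ 12 * sp z / n * ((12 * sp z / n) ^ j * sp z) := by gcongr
            _ = _ := by ring
  rcases key J with h | ⟨Z, L', b1, b2, b3, b4⟩
  · exact h
  · exfalso
    linarith

end

end Run7.h624.PD
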