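import Pool.Agent.Run7.h624.DM.Base

/-!
Iteration of a kernel which is close to uniform in the Hilbert-Schmidt norm, families of words, and
from a lower bound for the transition probabilities to mixing.
-/

namespace Run7.h624.PD
open RC14 Finset Equiv Run7.h624.DM

noncomputable section

/-! ### iteration -/
section Iter
variable {X : Type*} [Fintype X] [Nonempty X] {ι : Type*} [Fintype ι] [Nonempty ι]

/-- first a random permutation of the family, then the kernel -/
def BK (K : X → X → ℝ) (e : ι → Perm X) (a b : X) : ℝ := (∑ κ, K (e κ a) b) / Fintype.card ι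

/-- the iterates -/
def VV [DecidableEq X] (B : X → X → ℝ) : ℕ → X → X → ℝ
  | 0, a, b => if a = b then 1 else 0
  | i + 1, a, b => ∑ c, VV B i a c * B c b

variable {K : X → X → ℝ} {e : ι → Perm X}

lemma BK_nonneg (hK : ∀ a b, 0 ≤ K a b) (a b : X) : 0 ≤ BK K e a b :=
  div_nonneg (sum_nonneg fun _ _ => hK _ _) (Nat.cast_nonneg _)

lemma BK_row (hrow : ∀ a, ∑ b, K a b ≤ 1) (a : X) : ∑ b, BK K e a b ≤ 1 := by
  have hι : (0 : ℝ) < Fintype.card ι := by exact_mod_cast Fintype.card_pos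
  unfold BK
  rw [← sum_div, sum_comm, div_le_one hι]
  calc ∑ κ, ∑ b, K (e κ a) b ≤ ∑ _κ : ι, (1 : ℝ) := sum_le_sum fun κ _ => hrow _
    _ = _ := by simp

/-- one step -/
lemma step_sq (hK : ∀ a b, 0 ≤ K a b) (hrow : ∀ a, ∑ b, K a b ≤ 1) {θ : ℝ}
    (hD : ∑ a, ∑ b, (K a b - 1 / Fintype.card X) ^ 2 ≤ θ) (v : X → ℝ) (hv : ∀ a, 0 ≤ v a) :
    ∑ b, (∑ a, v a * BK K e a b) ^ 2 ≤ θ * ∑ a, v a ^ 2 + (∑ a, v a) ^ 2 / Fintype.card X := by
  have hι : (0 : ℝ) < Fintype.card ι := by exact_mod_cast Fintype.card_pos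
  have hN : (0 : ℝ) < Fintype.card X := by exact_mod_cast Fintype.card_pos
  set N : ℝ := (Fintype.card X : ℝ) with hNd
  set w : X → ℝ := fun c => (∑ κ, v ((e κ).symm c)) / Fintype.card ι with hw
  have hw0 : ∀ c, 0 ≤ w c := fun c => div_nonneg (sum_nonneg fun _ _ => hv _) (Nat.cast_nonneg _)
  have h1 : ∀ b, ∑ a, v a * BK K e a b = ∑ c, w c * K c b := by
    intro b
    have h2 : ∑ a, v a * BK K e a b = (∑ κ, ∑ a, v a * K (e κ a) b) / Fintype.card ι := by
      rw [sum_comm, sum_div]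
      refine sum_congr rfl fun a _ => ?_
      unfold BK
      rw [← mul_sum, mul_div_assoc]
    have h3 : ∀ κ, ∑ a, v a * K (e κ a) b = ∑ c, v ((e κ).symm c) * K c b := by
      intro κ
      have h4 := Equiv.sum_comp (e κ) (fun c => v ((e κ).symm c) * K c b)
      simp only [Equiv.symm_apply_apply] at h4
      exact h4
    rw [h2]
    simp_rw [h3]
    rw [sum_comm, sum_div]
    refine sum_congr rfl fun c _ => ?_
    rw [hw]
    simp only
    rw [← sum_mul, div_mul_eq_mul_div]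
  have hmass : ∑ c, w c = ∑ a, v a := by
    rw [hw]
    simp only
    rw [← sum_div, sum_comm]
    have : ∀ κ, ∑ c, v ((e κ).symm c) = ∑ a, v a := fun κ => Equiv.sum_comp (e κ).symm v
    simp_rw [this]
    rw [sum_const, card_univ, nsmul_eq_mul]
    field_simp
  have hsq : ∑ c, w c ^ 2 ≤ ∑ a, v a ^ 2 := by
    have h2 : ∀ c, w c ^ 2 ≤ (∑ κ, v ((e κ).symm c) ^ 2) / Fintype.card ι := by
      intro c
      rw [hw]
      simp only
      rw [div_pow, div_le_div_iff₀ (by positivity) hι]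
      have h3 := sq_sum_le_card_mul_sum_sq (s := (univ : Finset ι))
        (f := fun κ => v ((e κ).symm c))
      rw [card_univ] at h3
      calc (∑ κ, v ((e κ).symm c)) ^ 2 * Fintype.card ι ≤
          (Fintype.card ι * ∑ κ, v ((e κ).symm c) ^ 2) * Fintype.card ι := by gcongr
        _ = _ := by ring
    refine (sum_le_sum fun c _ => h2 c).trans (le_of_eq ?_)
    rw [← sum_div, sum_comm]
    have : ∀ κ, ∑ c, v ((e κ).symm c) ^ 2 = ∑ a, v a ^ 2 :=
      fun κ => Equiv.sum_comp (e κ).symm (fun a => v a ^ 2)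
    simp_rw [this]
    rw [sum_const, card_univ, nsmul_eq_mul]
    field_simp
  set m : ℝ := ∑ a, v a with hm
  set f : X → ℝ := fun b => ∑ c, w c * (K c b - 1 / N) with hf
  have h4 : ∀ b, ∑ a, v a * BK K e a b = f b + m / N := by
    intro b
    rw [h1, hf]
    simp only
    have : ∑ c, w c * (K c b - 1 / N) = ∑ c, w c * K c b - m / N := by
      simp_rw [mul_sub]
      rw [sum_sub_distrib, ← sum_mul, hmass]
      ring
    rw [this]
    ring
  have hfs : ∑ b, f b ≤ 0 := by
    have h5 : ∑ b, (f b + m / N) ≤ m := by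
      have : ∀ b, f b + m / N = ∑ c, w c * K c b := fun b => by rw [← h4, h1]
      simp_rw [this]
      rw [sum_comm]
      calc ∑ c, ∑ b, w c * K c b = ∑ c, w c * ∑ b, K c b := by
            refine sum_congr rfl fun c _ => ?_
            rw [mul_sum]
        _ ≤ ∑ c, w c * 1 := sum_le_sum fun c _ => mul_le_mul_of_nonneg_left (hrow c) (hw0 c)
        _ = m := by simp only [mul_one]; exact hmass
    rw [sum_add_distrib, sum_const, card_univ, nsmul_eq_mul, ← hNd] at h5
    have : N * (m / N) = m := by field_simp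
    linarith
  have hff : ∑ b, f b ^ 2 ≤ θ * ∑ a, v a ^ 2 := by
    have h5 : ∀ b, f b ^ 2 ≤ (∑ c, w c ^ 2) * ∑ c, (K c b - 1 / N) ^ 2 := by
      intro b
      exact sum_mul_sq_le_sq_mul_sq _ _ _
    calc ∑ b, f b ^ 2 ≤ ∑ b, (∑ c, w c ^ 2) * ∑ c, (K c b - 1 / N) ^ 2 :=
          sum_le_sum fun b _ => h5 b
      _ = (∑ c, w c ^ 2) * ∑ c, ∑ b, (K c b - 1 / N) ^ 2 := by
          rw [← mul_sum, sum_comm]
      _ ≤ (∑ a, v a ^ 2) * θ := by
          apply mul_le_mul hsq hD (sum_nonneg fun _ _ => sum_nonneg fun _ _ => sq_nonneg _)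
            (sum_nonneg fun _ _ => sq_nonneg _)
      _ = _ := by ring
  have hm0 : 0 ≤ m := sum_nonneg fun a _ => hv a
  simp_rw [h4]
  calc ∑ b, (f b + m / N) ^ 2 = ∑ b, f b ^ 2 + 2 * (m / N) * ∑ b, f b + N * (m / N) ^ 2 := by
        have : ∀ b, (f b + m / N) ^ 2 = f b ^ 2 + 2 * (m / N) * f b + (m / N) ^ 2 :=
          fun b => by ring
        simp_rw [this]
        rw [sum_add_distrib, sum_add_distrib, ← mul_sum, sum_const, card_univ, nsmul_eq_mul]
    _ ≤ θ * ∑ a, v a ^ 2 + 0 + m ^ 2 / N := by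
        have h6 : 2 * (m / N) * ∑ b, f b ≤ 0 :=
          mul_nonpos_of_nonneg_of_nonpos (by positivity) hfs
        have h7 : N * (m / N) ^ 2 = m ^ 2 / N := by field_simp
        linarith
    _ = _ := by ring

variable [DecidableEq X]

lemma VV_nonneg {B : X → X → ℝ} (hB : ∀ a b, 0 ≤ B a b) (i : ℕ) (a b : X) : 0 ≤ VV B i a b := by
  induction i generalizing b with
  | zero => unfold VV; split_ifs <;> norm_num
  | succ i ih => exact sum_nonneg fun c _ => mul_nonneg (ih c) (hB c b)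

/-- the iterates are nearly uniform -/
theorem VV_flat (hK : ∀ a b, 0 ≤ K a b) (hrow : ∀ a, ∑ b, K a b ≤ 1)
    (hD : ∑ a, ∑ b, (K a b - 1 / Fintype.card X) ^ 2 ≤ 1 / 100) {η : ℝ} (hη : η ≤ 1 / 10)
    (hη0 : 0 ≤ η) (hret : ∀ a, 1 - η ≤ ∑ b, BK K e a b) (a : X) (i : ℕ) :
    (1 - η) ^ i ≤ ∑ b, VV (BK K e) i a b ∧ ∑ b, VV (BK K e) i a b ≤ 1 ∧
    Fintype.card X * ∑ b, VV (BK K e) i a b ^ 2 ≤
      ((1 / 81) ^ i * Fintype.card X + 5 / 4) * (∑ b, VV (BK K e) i a b) ^ 2 := by
  have hN : (0 : ℝ) < Fintype.card X := by exact_mod_cast Fintype.card_pos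
  have hnn : ∀ i b, 0 ≤ VV (BK K e) i a b := fun i b => VV_nonneg (BK_nonneg hK) i a b
  induction i with
  | zero =>
    have e1 : ∑ b, VV (BK K e) 0 a b = 1 := by simp [VV]
    have e2 : ∑ b, VV (BK K e) 0 a b ^ 2 = 1 := by simp [VV]
    rw [e1, e2]
    simp only [pow_zero, le_refl, true_and, one_mul, mul_one, one_pow]
    linarith
  | succ i ih =>
    obtain ⟨h1, h2, h3⟩ := ih
    set M := ∑ b, VV (BK K e) i a b with hM
    set M' := ∑ b, VV (BK K e) (i + 1) a b with hM'
    have hMM : M' = ∑ c, VV (BK K e) i a c * ∑ b, BK K e c b := by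
      rw [hM']
      simp only [VV]
      rw [sum_comm]
      refine sum_congr rfl fun c _ => ?_
      rw [mul_sum]
    have hM1 : (1 - η) * M ≤ M' := by
      rw [hMM, hM, mul_sum]
      refine sum_le_sum fun c _ => ?_
      rw [mul_comm]
      exact mul_le_mul_of_nonneg_left (hret c) (hnn i c)
    have hM2 : M' ≤ M := by
      rw [hMM, hM]
      refine sum_le_sum fun c _ => ?_
      calc _ ≤ VV (BK K e) i a c * 1 := mul_le_mul_of_nonneg_left (BK_row hrow c) (hnn i c)
        _ = _ := mul_one _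
    have hM0 : 0 ≤ M := sum_nonneg fun b _ => hnn i b
    refine ⟨?_, hM2.trans h2, ?_⟩
    · rw [pow_succ, mul_comm]
      exact (mul_le_mul_of_nonneg_left h1 (by linarith)).trans hM1
    · have h4 := step_sq (e := e) hK hrow hD (fun b => VV (BK K e) i a b) (hnn i)
      have h5 : ∑ b, VV (BK K e) (i + 1) a b ^ 2 =
          ∑ b, (∑ c, VV (BK K e) i a c * BK K e c b) ^ 2 := rfl
      rw [h5]
      have h6 : Fintype.card X * ∑ b, (∑ c, VV (BK K e) i a c * BK K e c b) ^ 2 ≤
          1 / 100 * (((1 / 81) ^ i * Fintype.card X + 5 / 4) * M ^ 2) + M ^ 2 := by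
        calc _ ≤ Fintype.card X * (1 / 100 * ∑ b, VV (BK K e) i a b ^ 2 +
              M ^ 2 / Fintype.card X) := by gcongr
          _ = 1 / 100 * (Fintype.card X * ∑ b, VV (BK K e) i a b ^ 2) + M ^ 2 := by
              field_simp
          _ ≤ _ := by gcongr
      have h7 : 81 / 100 * M ^ 2 ≤ M' ^ 2 := by
        have h8 : 9 / 10 * M ≤ M' := by nlinarith
        have h9 : 0 ≤ 9 / 10 * M := by positivity
        calc 81 / 100 * M ^ 2 = (9 / 10 * M) ^ 2 := by ring
          _ ≤ _ := by gcongr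
      refine h6.trans ?_
      have h10 : (0 : ℝ) ≤ (1 / 81) ^ (i + 1) * Fintype.card X + 5 / 4 := by positivity
      calc 1 / 100 * (((1 / 81) ^ i * Fintype.card X + 5 / 4) * M ^ 2) + M ^ 2
          = (1 / 100 * ((1 / 81) ^ i * Fintype.card X) + 1 / 80 + 1) * M ^ 2 := by ring
        _ ≤ ((1 / 81) ^ (i + 1) * Fintype.card X + 5 / 4) * (81 / 100 * M ^ 2) := by
            have h11 : (0 : ℝ) ≤ (1 / 81) ^ i * Fintype.card X := by positivity
            have h12 : (0 : ℝ) ≤ M ^ 2 := sq_nonneg _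
            have h13 : ((1 / 81 : ℝ) ^ (i + 1) * Fintype.card X + 5 / 4) * (81 / 100 * M ^ 2) =
                (1 / 100 * ((1 / 81) ^ i * Fintype.card X) + 405 / 400) * M ^ 2 := by
              rw [pow_succ]; ring
            rw [h13]
            apply mul_le_mul_of_nonneg_right _ h12
            norm_num
            linarith
        _ ≤ _ := by gcongr

end Iter

end

end Run7.h624.PD
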