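import Pool.Agent.Run7.h624.PD.Stay

/-!
For most pairs `(x, w)` there is `i < I` such that a power of `x^i w` moves between `κ n / 2` and
`(1/2 - κ) n` points.
-/

namespace Run7.h624.PD
open RC14 Finset Equiv Run7.h624.DM

noncomputable section

variable {n : ℕ}

/-- the constants -/
def lamc (ϑ : ℝ) : ℝ := ϑ / 64
/-- the constants -/
def kapc (ϑ : ℝ) : ℝ := ϑ ^ 2 / 16384

/-- outside of a small set a translate is good if the number of pairs is not too small -/
theorem long_core (ϑ : ℝ) (h0 : 0 < ϑ) (h1 : ϑ ≤ 1) : ∃ n0 : ℕ,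
    ∀ n ≥ n0, ∀ (K : Type) [Fintype K] [Nonempty K] (g : K → Perm (Fin n)),
    ∃ W : Finset (Perm (Fin n)), (#W : ℝ) ≤ 3 / 4 * ϑ * n.factorial ∧
      ∀ w ∉ W, (1 / 2 - lamc ϑ / 4) * n ^ 2 * Fintype.card K ≤ FF g w →
        ∃ i, Gd (kapc ϑ) (g i * w) := by
  classical
  set lam : ℝ := lamc ϑ with hlam'
  have hlam : lam = ϑ / 64 := rfl
  set c : ℝ := lam / 16 with hc
  set κ : ℝ := kapc ϑ with hκ'
  have hκ : κ = ϑ ^ 2 / 16384 := rfl
  have hlam0 : 0 < lam := by rw [hlam]; positivity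
  have hc0 : 0 < c := by positivity
  have hκ0 : 0 < κ := by rw [hκ]; positivity
  have hκ1 : κ ≤ lam / 8 := by rw [hκ, hlam]; nlinarith
  have hlam1 : lam ≤ 1 / 64 := by rw [hlam]; linarith
  set δ : ℝ := ϑ * κ * c / 16 with hδ
  have hδ0 : 0 < δ := by positivity
  obtain ⟨n2, hn2⟩ := exists_nat_ge (9 / δ ^ 2)
  obtain ⟨n3, hn3⟩ := exists_nat_ge (1 / κ)
  refine ⟨max n2 (max n3 1), ?_⟩
  intro n hn K _ _ g
  have hn2' : n2 ≤ n := le_trans (le_max_left _ _) hn
  have hn3' : n3 ≤ n := le_trans ((le_max_left _ _).trans (le_max_right _ _)) hn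
  have hn4 : 1 ≤ n := le_trans ((le_max_right _ _).trans (le_max_right _ _)) hn
  have hnR : (0 : ℝ) < n := by exact_mod_cast hn4
  have hfac : (0 : ℝ) < n.factorial := by exact_mod_cast Nat.factorial_pos n
  have hK : (0 : ℝ) < Fintype.card K := by exact_mod_cast Fintype.card_pos
  have hκn : 1 ≤ κ * n := by
    have h2 : (n3 : ℝ) ≤ n := by exact_mod_cast hn3'
    have h3 := hn3.trans h2
    rw [div_le_iff₀ hκ0] at h3
    linarith
  have hlog : 1 + Real.log n ≤ δ * n := by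
    apply log_small hδ0 hn4
    have h2 : (n2 : ℝ) ≤ n := by exact_mod_cast hn2'
    exact hn2.trans h2
  -- the four exceptional sets
  set W1 : Finset (Perm (Fin n)) :=
    {w | 1 / 2 * (Fintype.card K : ℝ) < #{i | Mid lam κ (g i * w)}} with hW1
  set W2 : Finset (Perm (Fin n)) :=
    {w | c * (Fintype.card K : ℝ) < #{i | Lng κ (g i * w)}} with hW2
  set W3 : Finset (Perm (Fin n)) :=
    {w | c * (Fintype.card K : ℝ) < #{i | Dvd κ (g i * w)}} with hW3
  have b1 : (#W1 : ℝ) ≤ ϑ / 4 * n.factorial := by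
    have m1 := markov g (Mid lam κ) (1 / 2)
    have m2 := card_window' (n := n) (a := (1 / 2 - lam) * n) (c := (1 / 2 + κ) * n)
      (by apply mul_pos (by linarith) hnR) (by gcongr; linarith)
    rw [← hW1] at m1
    have m3 : (#W1 : ℝ) ≤ 2 * #{u : Perm (Fin n) | Mid lam κ u} := by
      have : (Fintype.card K : ℝ) * #W1 ≤ Fintype.card K * (2 * #{u : Perm (Fin n) | Mid lam κ u}) := by
        linarith
      exact le_of_mul_le_mul_left this hK
    have m4 : 1 / 4 * n * (#{u : Perm (Fin n) | Mid lam κ u} : ℝ) ≤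
        (ϑ / 32 * n) * n.factorial := by
      refine le_trans ?_ (m2.trans ?_)
      · have : (1 / 4 : ℝ) ≤ 1 / 2 - lam := by linarith
        unfold Mid
        gcongr
      · have : (1 / 2 + κ) * n - (1 / 2 - lam) * n + 1 ≤ ϑ / 32 * (n : ℝ) := by
          have h2 : (1 / 2 + κ) * n - (1 / 2 - lam) * n + 1 ≤ (lam + 2 * κ) * (n : ℝ) := by
            linarith
          refine h2.trans ?_
          have : lam + 2 * κ ≤ ϑ / 32 := by rw [hlam] at *; linarith
          gcongr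
        gcongr
    have m5 : (#{u : Perm (Fin n) | Mid lam κ u} : ℝ) ≤ ϑ / 8 * n.factorial := by
      have : (n : ℝ) * (#{u : Perm (Fin n) | Mid lam κ u} : ℝ) ≤ n * (ϑ / 8 * n.factorial) := by
        linarith
      exact le_of_mul_le_mul_left this hnR
    linarith
  have b2 : (#W2 : ℝ) ≤ ϑ / 4 * n.factorial := by
    have m1 := markov g (Lng κ) c
    have m2 := card_window' (n := n) (a := (1 - κ) * n) (c := n)
      (by apply mul_pos (by linarith) hnR) (by nlinarith)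
    rw [← hW2] at m1
    have m3 : c * (#W2 : ℝ) ≤ #{u : Perm (Fin n) | Lng κ u} := by
      have : (Fintype.card K : ℝ) * (c * #W2) ≤ Fintype.card K * #{u : Perm (Fin n) | Lng κ u} := by
        linarith
      exact le_of_mul_le_mul_left this hK
    have m4 : 1 / 2 * n * (#{u : Perm (Fin n) | Lng κ u} : ℝ) ≤ (2 * κ * n) * n.factorial := by
      refine le_trans ?_ (m2.trans ?_)
      · have h2 : (1 / 2 : ℝ) ≤ 1 - κ := by linarith
        have h3 : (#{u : Perm (Fin n) | Lng κ u} : ℝ) =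
            #{u : Perm (Fin n) | ∃ b, (1 - κ) * n < cyl u b ∧ (cyl u b : ℝ) ≤ n} := by
          congr 2
          ext u
          simp only [mem_filter, mem_univ, true_and]
          constructor
          · rintro ⟨b, hb⟩
            exact ⟨b, hb, by exact_mod_cast cyl_le u b⟩
          · rintro ⟨b, hb, -⟩
            exact ⟨b, hb⟩
        rw [h3]
        gcongr
      · have : (n : ℝ) - (1 - κ) * n + 1 ≤ 2 * κ * n := by linarith
        gcongr
    have m5 : (#{u : Perm (Fin n) | Lng κ u} : ℝ) ≤ 4 * κ * n.factorial := by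
      have : (n : ℝ) * (#{u : Perm (Fin n) | Lng κ u} : ℝ) ≤ n * (4 * κ * n.factorial) := by
        linarith
      exact le_of_mul_le_mul_left this hnR
    have m6 : c * (#W2 : ℝ) ≤ c * (ϑ / 4 * n.factorial) := by
      refine m3.trans (m5.trans (le_of_eq ?_))
      rw [hc, hlam, hκ]
      ring
    exact le_of_mul_le_mul_left m6 hc0
  have b3 : (#W3 : ℝ) ≤ ϑ / 4 * n.factorial := by
    have m1 := markov g (Dvd κ) c
    have m2 := card_Dvd (n := n) hκ0
    rw [← hW3] at m1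
    have m3 : c * (#W3 : ℝ) ≤ #{u : Perm (Fin n) | Dvd κ u} := by
      have : (Fintype.card K : ℝ) * (c * #W3) ≤ Fintype.card K * #{u : Perm (Fin n) | Dvd κ u} := by
        linarith
      exact le_of_mul_le_mul_left this hK
    have m4 : (#{u : Perm (Fin n) | Dvd κ u} : ℝ) ≤ ϑ * c / 4 * n.factorial := by
      have h2 : κ / 4 * n ^ 2 * (#{u : Perm (Fin n) | Dvd κ u} : ℝ) ≤
          κ / 4 * n ^ 2 * (ϑ * c / 4 * n.factorial) := by
        calc κ / 4 * n ^ 2 * (#{u : Perm (Fin n) | Dvd κ u} : ℝ) =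
            (1 / 2 * n) * (κ / 2 * n) * (#{u : Perm (Fin n) | Dvd κ u} : ℝ) := by ring
          _ ≤ n * (1 + Real.log n) * n.factorial := m2
          _ ≤ n * (δ * n) * n.factorial := by gcongr
          _ = _ := by rw [hδ]; ring
      exact le_of_mul_le_mul_left h2 (by positivity)
    have m5 : c * (#W3 : ℝ) ≤ c * (ϑ / 4 * n.factorial) := by
      refine m3.trans (m4.trans (le_of_eq ?_))
      ring
    exact le_of_mul_le_mul_left m5 hc0
  refine ⟨W1 ∪ W2 ∪ W3, ?_, ?_⟩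
  · have h2 : #(W1 ∪ W2 ∪ W3) ≤ #W1 + #W2 + #W3 := by
      refine (card_union_le _ _).trans ?_
      gcongr
      exact card_union_le _ _
    have h3 : (#(W1 ∪ W2 ∪ W3) : ℝ) ≤ #W1 + #W2 + #W3 := by exact_mod_cast h2
    linarith
  · intro w hw w4
    rw [mem_union, mem_union] at hw
    push Not at hw
    obtain ⟨⟨w1, w2⟩, w3⟩ := hw
    rw [hW1, mem_filter] at w1
    rw [hW2, mem_filter] at w2
    rw [hW3, mem_filter] at w3
    push Not at w1 w2 w3
    exact exists_Gd g w hn4 hlam0 (by linarith) hκ0 hκ1 le_rfl (w1 (mem_univ _))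
      (w2 (mem_univ _)) (w3 (mem_univ _)) w4

/-! ### the second moment for the words `x^i w` -/

/-- the sum over all `x` of the number of pairs, for `x^i` and `x^j` -/
lemma sum_two {η : ℝ} {I : ℕ} (hη : 0 ≤ η)
    (h : ∀ d, 1 ≤ d → d < I → ∑ y : Perm (Fin n), ∑ u : Perm (Fin n), (cnt u * cnt (y ^ d * u) : ℝ) ≤
      (n.factorial : ℝ) ^ 2 * n ^ 4 * (1 / 4 + η)) (i j : Fin I) :
    ∑ x : Perm (Fin n), ∑ u : Perm (Fin n),
      (cnt u * cnt (x ^ (i : ℕ) * (x ^ (j : ℕ))⁻¹ * u) : ℝ) ≤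
      (n.factorial : ℝ) ^ 2 * n ^ 4 * (1 / 4 + η) +
        (if i = j then (n.factorial : ℝ) ^ 2 * n ^ 4 else 0) := by
  have hpos : 0 ≤ (n.factorial : ℝ) ^ 2 * n ^ 4 * (1 / 4 + η) := by positivity
  rcases lt_trichotomy i j with hij | hij | hij
  · rw [if_neg hij.ne, add_zero]
    have hd : (i : ℕ) < j := hij
    have h1 : ∀ x : Perm (Fin n), x ^ (i : ℕ) * (x ^ (j : ℕ))⁻¹ = (x⁻¹) ^ ((j : ℕ) - i) := by
      intro x
      rw [inv_pow, ← zpow_natCast, ← zpow_natCast, ← zpow_natCast, ← zpow_neg, ← zpow_add,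
        ← zpow_neg]
      congr 1
      omega
    simp_rw [h1]
    have h2 := Equiv.sum_comp (Equiv.inv (Perm (Fin n)))
      (fun y : Perm (Fin n) => ∑ u : Perm (Fin n), (cnt u * cnt (y ^ ((j : ℕ) - i) * u) : ℝ))
    simp only [Equiv.inv_apply] at h2
    rw [h2]
    exact h _ (by omega) (by have := j.2; omega)
  · subst hij
    rw [if_pos rfl]
    have h1 : ∀ x u : Perm (Fin n), (cnt u * cnt (x ^ (i : ℕ) * (x ^ (i : ℕ))⁻¹ * u) : ℝ) ≤
        n ^ 4 := by
      intro x u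
      rw [mul_inv_cancel, one_mul]
      have h2 : cnt u ≤ n ^ 2 := by
        unfold cnt
        refine (card_le_univ _).trans ?_
        rw [Fintype.card_prod, Fintype.card_fin, sq]
      have h3 : (cnt u : ℝ) ≤ n ^ 2 := by exact_mod_cast h2
      calc (cnt u : ℝ) * cnt u ≤ n ^ 2 * n ^ 2 := by gcongr
        _ = _ := by ring
    have h2 : ∑ x : Perm (Fin n), ∑ u : Perm (Fin n),
        (cnt u * cnt (x ^ (i : ℕ) * (x ^ (i : ℕ))⁻¹ * u) : ℝ) ≤
        ∑ _x : Perm (Fin n), ∑ _u : Perm (Fin n), (n : ℝ) ^ 4 :=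
      sum_le_sum fun x _ => sum_le_sum fun u _ => h1 x u
    simp only [sum_const, card_univ, Fintype.card_perm, Fintype.card_fin, nsmul_eq_mul] at h2
    have h3 : (n.factorial : ℝ) * (n.factorial * (n : ℝ) ^ 4) = (n.factorial : ℝ) ^ 2 * n ^ 4 := by
      ring
    linarith
  · rw [if_neg hij.ne', add_zero]
    have hd : (j : ℕ) < i := hij
    have h1 : ∀ x : Perm (Fin n), x ^ (i : ℕ) * (x ^ (j : ℕ))⁻¹ = x ^ ((i : ℕ) - j) := by
      intro x
      rw [← zpow_natCast, ← zpow_natCast, ← zpow_natCast, ← zpow_neg, ← zpow_add]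
      congr 1
      omega
    simp_rw [h1]
    exact h _ (by omega) (by have := i.2; omega)

open Classical in
/-- Chebyshev's inequality -/
lemma cheb2 {η lam : ℝ} {I : ℕ} (hI : 1 ≤ I) (hη : 0 ≤ η) (hlam : 0 < lam) (hn : 1 ≤ n)
    (h : ∀ d, 1 ≤ d → d < I → ∑ y : Perm (Fin n), ∑ u : Perm (Fin n), (cnt u * cnt (y ^ d * u) : ℝ) ≤
      (n.factorial : ℝ) ^ 2 * n ^ 4 * (1 / 4 + η)) :
    (#{z : Perm (Fin n) × Perm (Fin n) | FF (fun i : Fin I => z.1 ^ (i : ℕ)) z.2 <
      (1 / 2 - lam) * n ^ 2 * I} : ℝ) ≤ (η + 1 / I) / lam ^ 2 * (n.factorial : ℝ) ^ 2 := by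
  have hI0 : (0 : ℝ) < I := by exact_mod_cast hI
  have hn0 : (0 : ℝ) < n := by exact_mod_cast hn
  set m : ℝ := n ^ 2 * I / 2 with hm
  set F : Perm (Fin n) × Perm (Fin n) → ℝ := fun z => FF (fun i : Fin I => z.1 ^ (i : ℕ)) z.2 with hF
  have e1 : ∑ z, F z = (n.factorial : ℝ) * (I * (n.factorial * (n ^ 2 + n) / 2)) := by
    rw [Fintype.sum_prod_type]
    have : ∀ x : Perm (Fin n), ∑ w, F (x, w) = I * (n.factorial * (n ^ 2 + n) / 2) := by
      intro x
      have := sum_FF (fun i : Fin I => x ^ (i : ℕ))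
      rw [Fintype.card_fin] at this
      exact this
    simp_rw [this]
    rw [sum_const, card_univ, Fintype.card_perm, Fintype.card_fin, nsmul_eq_mul]
  have e2 : ∑ z, F z ^ 2 ≤ (n.factorial : ℝ) ^ 2 * n ^ 4 * (I ^ 2 * (1 / 4 + η) + I) := by
    rw [Fintype.sum_prod_type]
    have h1 : ∀ x : Perm (Fin n), ∑ w, F (x, w) ^ 2 = ∑ j : Fin I, ∑ i : Fin I,
        ∑ u : Perm (Fin n), (cnt u * cnt (x ^ (i : ℕ) * (x ^ (j : ℕ))⁻¹ * u) : ℝ) := by
      intro x
      have h2 : ∑ w, F (x, w) ^ 2 = ∑ j : Fin I, ∑ i : Fin I, ∑ w : Perm (Fin n),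
          (cnt (x ^ (j : ℕ) * w) * cnt (x ^ (i : ℕ) * w) : ℝ) := by
        simp only [hF]
        unfold FF
        simp_rw [sq, sum_mul_sum]
        rw [sum_comm]
        refine sum_congr rfl fun κ0 _ => ?_
        rw [sum_comm]
      rw [h2]
      refine sum_congr rfl fun j _ => sum_congr rfl fun i _ => ?_
      have h3 := Equiv.sum_comp (Equiv.mulLeft (x ^ (j : ℕ)))
        (fun u : Perm (Fin n) => (cnt u * cnt (x ^ (i : ℕ) * (x ^ (j : ℕ))⁻¹ * u) : ℝ))
      rw [← h3]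
      refine sum_congr rfl fun w _ => ?_
      simp [mul_assoc]
    simp_rw [h1]
    have h2 : ∑ x : Perm (Fin n), ∑ j : Fin I, ∑ i : Fin I,
        ∑ u : Perm (Fin n), (cnt u * cnt (x ^ (i : ℕ) * (x ^ (j : ℕ))⁻¹ * u) : ℝ) =
        ∑ j : Fin I, ∑ i : Fin I, ∑ x : Perm (Fin n),
        ∑ u : Perm (Fin n), (cnt u * cnt (x ^ (i : ℕ) * (x ^ (j : ℕ))⁻¹ * u) : ℝ) := by
      rw [sum_comm]
      refine sum_congr rfl fun j _ => ?_
      rw [sum_comm]
    rw [h2]
    refine (sum_le_sum fun j _ => sum_le_sum fun i _ => sum_two hη h i j).trans (le_of_eq ?_)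
    simp only [sum_add_distrib, sum_ite_eq', mem_univ, if_true, sum_const, card_univ,
      Fintype.card_fin, nsmul_eq_mul]
    ring
  have e3 : ∑ z, (F z - m) ^ 2 ≤ (n.factorial : ℝ) ^ 2 * n ^ 4 * (I ^ 2 * η + I) := by
    have h2 : ∀ z, (F z - m) ^ 2 = F z ^ 2 - 2 * m * F z + m ^ 2 := fun z => by ring
    simp_rw [h2]
    rw [sum_add_distrib, sum_sub_distrib, ← mul_sum, e1, sum_const, card_univ, Fintype.card_prod,
      Fintype.card_perm, Fintype.card_fin, nsmul_eq_mul]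
    push_cast
    have h3 : 2 * m * ((n.factorial : ℝ) * (I * (n.factorial * (n ^ 2 + n) / 2))) ≥
        (n.factorial : ℝ) ^ 2 * n ^ 4 * I ^ 2 / 2 := by
      rw [hm]
      have : (0 : ℝ) ≤ (n.factorial : ℝ) ^ 2 * I ^ 2 * n ^ 3 := by positivity
      nlinarith
    have h4 : (n.factorial : ℝ) * n.factorial * m ^ 2 =
        (n.factorial : ℝ) ^ 2 * n ^ 4 * I ^ 2 / 4 := by
      rw [hm]; ring
    rw [h4]
    nlinarith
  set B : Finset (Perm (Fin n) × Perm (Fin n)) := {z | F z < (1 / 2 - lam) * n ^ 2 * I} with hB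
  have e4 : (lam * n ^ 2 * I) ^ 2 * (#B : ℝ) ≤ (n.factorial : ℝ) ^ 2 * n ^ 4 * (I ^ 2 * η + I) := by
    refine le_trans ?_ e3
    calc (lam * n ^ 2 * I) ^ 2 * (#B : ℝ) = ∑ _z ∈ B, (lam * n ^ 2 * I) ^ 2 := by
          rw [sum_const, nsmul_eq_mul, mul_comm]
      _ ≤ ∑ z ∈ B, (F z - m) ^ 2 := by
          refine sum_le_sum fun z hz => ?_
          have h2 := (mem_filter.1 hz).2
          have h3 : lam * n ^ 2 * I ≤ m - F z := by
            rw [hm]; linarith
          have h4 : 0 ≤ lam * n ^ 2 * I := by positivity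
          calc (lam * n ^ 2 * I) ^ 2 ≤ (m - F z) ^ 2 := by gcongr
            _ = _ := by ring
      _ ≤ _ := sum_le_sum_of_subset_of_nonneg (filter_subset _ _) (fun _ _ _ => sq_nonneg _)
  have e5 : (lam * n ^ 2 * I) ^ 2 * (#B : ℝ) ≤
      (lam * n ^ 2 * I) ^ 2 * ((η + 1 / I) / lam ^ 2 * (n.factorial : ℝ) ^ 2) := by
    refine e4.trans (le_of_eq ?_)
    field_simp
  exact le_of_mul_le_mul_left e5 (by positivity)

open Classical in
/-- for most pairs some word `x^i w` is good -/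
theorem long_pair (ϑ : ℝ) (h0 : 0 < ϑ) (h1 : ϑ ≤ 1) : ∃ I n0 : ℕ, ∀ n ≥ n0,
    (#{z : Perm (Fin n) × Perm (Fin n) | ¬ ∃ i < I, Gd (kapc ϑ) (z.1 ^ i * z.2)} : ℝ) ≤
      ϑ * (n.factorial : ℝ) ^ 2 := by
  obtain ⟨n1, hn1⟩ := long_core ϑ h0 h1
  have hl : 0 < lamc ϑ := by unfold lamc; positivity
  have hl1 : lamc ϑ ≤ 1 := by unfold lamc; linarith
  set lam : ℝ := lamc ϑ / 4 with hlam
  have hlam0 : 0 < lam := by positivity
  have hlam1 : lam ≤ 1 := by rw [hlam]; linarith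
  set η : ℝ := ϑ * lam ^ 2 / 8 with hη
  have hη0 : 0 < η := by positivity
  have hη1 : η ≤ 1 := by
    rw [hη]
    have h2 : lam ^ 2 ≤ 1 := by nlinarith
    nlinarith
  obtain ⟨I, hI⟩ := exists_nat_ge (1 / η)
  have hI1 : 1 ≤ I := by
    have : (0 : ℝ) < I := lt_of_lt_of_le (by positivity) hI
    exact_mod_cast this
  have hI0 : (0 : ℝ) < I := by exact_mod_cast hI1
  have hIη : 1 / (I : ℝ) ≤ η := by
    rw [div_le_iff₀ hI0]
    rw [div_le_iff₀ hη0] at hI
    linarith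
  choose! f hf using fun (d : ℕ) (hd : 1 ≤ d) => second_pow η hη0 hη1 d hd
  refine ⟨I, max n1 (max 1 ((range I).sup f)), ?_⟩
  intro n hn
  have hn1' : n1 ≤ n := le_trans (le_max_left _ _) hn
  have hn2' : 1 ≤ n := le_trans ((le_max_left _ _).trans (le_max_right _ _)) hn
  have hn3' : (range I).sup f ≤ n := le_trans ((le_max_right _ _).trans (le_max_right _ _)) hn
  have hch := cheb2 (n := n) hI1 hη0.le hlam0 hn2' (fun d hd hdI => hf d hd n
    ((Finset.le_sup (f := f) (mem_range.2 hdI)).trans hn3'))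
  have hneI : Nonempty (Fin I) := ⟨⟨0, hI1⟩⟩
  choose W hW1 hW2 using fun x : Perm (Fin n) => hn1 n hn1' (Fin I) (fun i => x ^ (i : ℕ))
  set B : Finset (Perm (Fin n) × Perm (Fin n)) := {z | FF (fun i : Fin I => z.1 ^ (i : ℕ)) z.2 <
      (1 / 2 - lam) * n ^ 2 * I} with hB
  set D : Finset (Perm (Fin n) × Perm (Fin n)) := {z | z.2 ∈ W z.1} with hD
  have hsub : ({z : Perm (Fin n) × Perm (Fin n) | ¬ ∃ i < I, Gd (kapc ϑ) (z.1 ^ i * z.2)} :
      Finset _) ⊆ B ∪ D := by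
    intro z hz
    have hz' := (mem_filter.1 hz).2
    by_contra hcon
    rw [mem_union] at hcon
    push Not at hcon
    obtain ⟨h2, h3⟩ := hcon
    rw [hB, mem_filter] at h2
    rw [hD, mem_filter] at h3
    simp only [mem_univ, true_and, not_lt] at h2 h3
    obtain ⟨i, hi⟩ := hW2 z.1 z.2 h3 (by
      rw [Fintype.card_fin]
      exact h2)
    exact hz' ⟨i, i.2, hi⟩
  have hDc : (#D : ℝ) ≤ 3 / 4 * ϑ * (n.factorial : ℝ) ^ 2 := by
    have h2 : (#D : ℝ) = ∑ x : Perm (Fin n), (#(W x) : ℝ) := by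
      have : #D = ∑ x : Perm (Fin n), #(W x) := by
        rw [hD, card_filter, Fintype.sum_prod_type]
        refine sum_congr rfl fun x _ => ?_
        rw [← card_filter]
        congr 1
        ext w
        simp
      exact_mod_cast this
    rw [h2]
    refine (sum_le_sum fun x _ => hW1 x).trans (le_of_eq ?_)
    rw [sum_const, card_univ, Fintype.card_perm, Fintype.card_fin, nsmul_eq_mul]
    ring
  have hBc : (#B : ℝ) ≤ 1 / 4 * ϑ * (n.factorial : ℝ) ^ 2 := by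
    refine hch.trans ?_
    have h2 : (η + 1 / I) / lam ^ 2 ≤ 1 / 4 * ϑ := by
      rw [div_le_iff₀ (by positivity)]
      have : η = ϑ * lam ^ 2 / 8 := rfl
      linarith
    gcongr
  have h2 : (#{z : Perm (Fin n) × Perm (Fin n) | ¬ ∃ i < I, Gd (kapc ϑ) (z.1 ^ i * z.2)} : ℝ) ≤
      #B + #D := by exact_mod_cast (card_le_card hsub).trans (card_union_le _ _)
  linarith

end

end Run7.h624.PD
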