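import Pool.Agent.Run7.h624.PD.TypCnt

/-!
A typical pair mixes quadruples in a short time and routes long tuples.
-/

namespace Run7.h624.PD
open RC14 Finset Equiv Run7.h624.DM Filter Topology

noncomputable section

variable {n : ℕ}

lemma exp4 : (1 / 81 : ℝ) ≤ Real.exp (-4) := by
  rw [Real.exp_neg, one_div]
  apply inv_anti₀ (Real.exp_pos _)
  have h1 : Real.exp 1 < 2.7182818286 := Real.exp_one_lt_d9
  have h2 : Real.exp 4 = Real.exp 1 ^ 4 := by rw [← Real.exp_nat_mul]; norm_num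
  rw [h2]
  have h3 : Real.exp 1 ≤ 2.72 := by linarith
  calc Real.exp 1 ^ 4 ≤ 2.72 ^ 4 := by gcongr
    _ ≤ 81 := by norm_num

lemma exp_half : (119 / 200 : ℝ) ≤ Real.exp (-(1 / 2)) := by
  rw [Real.exp_neg]
  rw [show (119 / 200 : ℝ) = (200 / 119)⁻¹ by norm_num]
  apply inv_anti₀ (Real.exp_pos _)
  have h1 : Real.exp 1 < 2.7182818286 := Real.exp_one_lt_d9
  have h2 : Real.exp (1 / 2) ^ 2 = Real.exp 1 := by rw [← Real.exp_nat_mul]; norm_num
  have h3 : 0 < Real.exp (1 / 2) := Real.exp_pos _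
  by_contra hcon
  push Not at hcon
  have h4 : (200 / 119 : ℝ) ^ 2 < Real.exp (1 / 2) ^ 2 := by gcongr
  rw [h2] at h4
  norm_num at h4 h1
  linarith

/-- powers of numbers below `exp (-c)` -/
lemma pow_small {q c : ℝ} (hq : 0 ≤ q) (hqc : q ≤ Real.exp (-c)) {n : ℕ} (hn : 1 ≤ n)
    (j l : ℕ) (hl : j * Real.log n ≤ c * l) : q ^ l ≤ 1 / (n : ℝ) ^ j := by
  have hn0 : (0 : ℝ) < n := by exact_mod_cast hn
  calc q ^ l ≤ Real.exp (-c) ^ l := by gcongr
    _ = Real.exp (-(c * l)) := by rw [← Real.exp_nat_mul]; ring_nf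
    _ ≤ Real.exp (-(j * Real.log n)) := Real.exp_le_exp.2 (by linarith)
    _ = 1 / (n : ℝ) ^ j := by
      rw [Real.exp_neg, ← Real.log_pow, Real.exp_log (by positivity), one_div]

section retain
variable {K : Type*} [Fintype K] [Nonempty K]

open Classical in
/-- retention after a mixing family -/
lemma retain_mix {x y : Perm (Fin n)} {S r : ℕ} {u : K → Perm (Fin n)} (h1 : Mx 1 u) (h2 : Mx 2 u)
    (hn : 2 ≤ n) (β : ℕ → ℕ) {m T : ℕ} (hT : 1 ≤ T) (hr : 1 ≤ r) (a : Tup r n) {sh F σ : ℝ}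
    (hsh : (#{p | cyl x p ≤ S} : ℝ) ≤ sh)
    (hF : ∑ τ : Lt m T, (#{p | selfc x y S (ex τ) m p} : ℝ) ≤ (T : ℝ) ^ (m + 1) * F)
    (hσ : ∑ j ∈ range m, 1 / ((β j : ℝ) + 1) ≤ σ) :
    1 - (2 * sh / n + (2 * r * sh / n + 2 * r * F / n +
      2 * (r : ℝ) ^ 2 * m * (2 * S + 1) / (n - 1)) * σ) ≤
      ∑ b, BK (NK x y S β m T) (fun κ => mvE (u κ)) a b := by
  have hn0 : (0 : ℝ) < n := by exact_mod_cast (by omega : 0 < n)
  have hn1 : (0 : ℝ) < (n : ℝ) - 1 := by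
    have : (2 : ℝ) ≤ n := by exact_mod_cast hn
    linarith
  have hK : (0 : ℝ) < Fintype.card K := by exact_mod_cast Fintype.card_pos
  have hT0 : (0 : ℝ) < T := by exact_mod_cast hT
  set Q : ℝ := (T : ℝ) ^ (m + 1) with hQ
  have hQ0 : 0 < Q := by positivity
  set σ0 : ℝ := ∑ j ∈ range m, 1 / ((β j : ℝ) + 1) with hσ0
  have hσ00 : 0 ≤ σ0 := sum_nonneg fun j _ => by positivity
  have e1 : ∑ b, BK (NK x y S β m T) (fun κ => mvE (u κ)) a b =
      1 - (∑ τ : Lt m T, (#{κ | ¬ Nice x y S β τ (mv (u κ) a)} : ℝ)) / (Fintype.card K * Q) := by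
    unfold BK
    rw [← sum_div, sum_comm]
    have e2 : ∀ κ, ∑ b, NK x y S β m T (mvE (u κ) a) b =
        1 - (#{τ : Lt m T | ¬ Nice x y S β τ (mv (u κ) a)} : ℝ) / Q := by
      intro κ
      rw [NK_row_eq]
      have h4 : (#{τ : Lt m T | Nice x y S β τ (mvE (u κ) a)} : ℝ) +
          #{τ : Lt m T | ¬ Nice x y S β τ (mv (u κ) a)} = Q := by
        rw [hQ, ← card_Lt]
        have := card_filter_add_card_filter_not (s := (univ : Finset (Lt m T)))
          (fun τ => Nice x y S β τ (mv (u κ) a))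
        rw [card_univ] at this
        exact_mod_cast this
      rw [← hQ]
      field_simp
      linarith
    simp_rw [e2]
    rw [sum_sub_distrib, sum_const, card_univ, nsmul_eq_mul, mul_one, ← sum_div]
    have e3 : ∑ κ, (#{τ : Lt m T | ¬ Nice x y S β τ (mv (u κ) a)} : ℝ) =
        ∑ τ : Lt m T, (#{κ | ¬ Nice x y S β τ (mv (u κ) a)} : ℝ) := by
      have : ∑ κ, #{τ : Lt m T | ¬ Nice x y S β τ (mv (u κ) a)} =
        ∑ τ : Lt m T, #{κ | ¬ Nice x y S β τ (mv (u κ) a)} := by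
        simp only [card_filter]
        rw [sum_comm]
      exact_mod_cast this
    rw [e3]
    field_simp
  have e4 : ∑ τ : Lt m T, (#{κ | ¬ Nice x y S β τ (mv (u κ) a)} : ℝ) ≤
      (Fintype.card K * Q) * (2 * sh / n + (2 * r * sh / n + 2 * r * F / n +
      2 * (r : ℝ) ^ 2 * m * (2 * S + 1) / (n - 1)) * σ) := by
    have e5 : ∀ τ : Lt m T, (#{κ | ¬ Nice x y S β τ (mv (u κ) a)} : ℝ) ≤
        Fintype.card K * (2 * sh / n + (2 * r * sh / n +
          2 * (r : ℝ) ^ 2 * m * (2 * S + 1) / (n - 1)) * σ0) +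
        Fintype.card K * (2 * r / n * σ0) * (#{p | selfc x y S (ex τ) m p} : ℝ) := by
      intro τ
      refine (card_notNice (x := x) (y := y) (S := S) h1 h2 hn β τ hr a).trans ?_
      rw [← hσ0]
      calc _ ≤ (Fintype.card K : ℝ) * (2 * sh / n + (2 * r * sh / n +
              2 * r * (#{p | selfc x y S (ex τ) m p} : ℝ) / n +
              2 * (r : ℝ) ^ 2 * m * (2 * S + 1) / (n - 1)) * σ0) := by gcongr
        _ = _ := by ring
    refine (sum_le_sum fun τ _ => e5 τ).trans ?_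
    rw [sum_add_distrib, sum_const, card_univ, nsmul_eq_mul, card_Lt, ← hQ, ← mul_sum]
    have hsh0 : 0 ≤ sh := (Nat.cast_nonneg _).trans hsh
    have hF0 : 0 ≤ F := by
      have h5 : 0 ≤ Q * F := (sum_nonneg fun _ _ => Nat.cast_nonneg _).trans hF
      by_contra hcon
      push Not at hcon
      nlinarith
    have hσp : 0 ≤ σ := hσ00.trans hσ
    calc Q * (Fintype.card K * (2 * sh / n + (2 * r * sh / n +
          2 * (r : ℝ) ^ 2 * m * (2 * S + 1) / (n - 1)) * σ0)) +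
        Fintype.card K * (2 * r / n * σ0) * ∑ τ : Lt m T, (#{p | selfc x y S (ex τ) m p} : ℝ)
        ≤ Q * (Fintype.card K * (2 * sh / n + (2 * r * sh / n +
          2 * (r : ℝ) ^ 2 * m * (2 * S + 1) / (n - 1)) * σ)) +
        Fintype.card K * (2 * r / n * σ) * (Q * F) := by gcongr
      _ = _ := by ring
  rw [e1]
  have e6 : (∑ τ : Lt m T, (#{κ | ¬ Nice x y S β τ (mv (u κ) a)} : ℝ)) / (Fintype.card K * Q) ≤
      2 * sh / n + (2 * r * sh / n + 2 * r * F / n +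
      2 * (r : ℝ) ^ 2 * m * (2 * S + 1) / (n - 1)) * σ := by
    rw [div_le_iff₀ (by positivity)]
    linarith
  linarith

end retain

/-- routing of shorter tuples -/
lemma route_down {k : ℕ} {x : Fin k → Alt n} {R T : ℕ} (hRn : R ≤ n)
    (h : ∀ a b : Tup R n, ∃ g ∈ Bl x T, mv (g : Perm (Fin n)) a = b) : Route x R T := by
  intro r hr a b
  have key : ∀ a : Tup r n, ∃ a' : Tup R n, ∀ i : Fin r, a' (Fin.castLE hr i) = a i := by
    intro a
    obtain ⟨σ, hσ⟩ := exists_perm_ext (Fin.castLEEmb (hr.trans hRn)) a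
    refine ⟨(Fin.castLEEmb hRn).trans σ.toEmbedding, fun i => ?_⟩
    rw [← hσ i]
    rfl
  obtain ⟨a', ha'⟩ := key a
  obtain ⟨b', hb'⟩ := key b
  obtain ⟨g, hg, hg'⟩ := h a' b'
  refine ⟨g, hg, ?_⟩
  ext i
  rw [mv_apply, ← ha', ← hb', ← hg', mv_apply]

section main
variable {s K : ℝ} (hs : 0 < s) (hs1 : s ≤ 1 / 100) (hK : 100 ≤ K) (h : Num s K n)
include hs hs1 hK h

lemma Num.logs : (⌈12 * Real.log n⌉₊ : ℝ) ≤ (n : ℝ) ^ s ∧ (⌈2 * Real.log n⌉₊ : ℝ) ≤ (n : ℝ) ^ s := by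
  have h1 := h.a1
  have h3 := h.a3
  have hlog : 0 ≤ Real.log n := Real.log_natCast_nonneg n
  have e1 := (Nat.ceil_lt_add_one (show 0 ≤ 12 * Real.log n by positivity)).le
  have e2 := (Nat.ceil_lt_add_one (show 0 ≤ 2 * Real.log n by positivity)).le
  have h4 : 100 * Real.log n ≤ (n : ℝ) ^ s := by nlinarith
  constructor <;> linarith

/-- mixing of quadruples -/
theorem Num.mix4 (x : Fin 2 → Alt n) (ht : Typ s n (x 0 : Perm (Fin n)) (x 1 : Perm (Fin n)))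
    (hc : 200 * (cn s : ℝ) ≤ K)
    (hη : 10 * (cst 4 (cn s) : ℝ) * (2 * Real.log n + 1) ≤ (n : ℝ) ^ (s / 2)) :
    ∃ L : ℕ, (L : ℝ) ≤ ((n : ℝ) ^ s) ^ 5 ∧ MixFam x L 4 (1 / (n : ℝ) ^ 2) := by
  set a : ℝ := (n : ℝ) ^ s with ha
  have hn := h.npos hs hs1 hK
  have hn1 : 1 ≤ n := by have := h.a2; omega
  have hn1' : (1 : ℝ) ≤ n := by exact_mod_cast hn1
  have ha1 : K ≤ a := h.a1
  have ha100 : a ^ 100 ≤ n := h.a100 hs hs1 hK
  have ha0 : 1 ≤ a := by linarith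
  have hT : (Tn s n : ℝ) ≤ a := h.Tle hs hs1 hK
  have hT1 := h.T1 hs hs1 hK
  have hTp : (0 : ℝ) < Tn s n := by exact_mod_cast hT1
  have hTge := h.Tge hs hs1 hK
  have hlog : 0 ≤ Real.log n := Real.log_natCast_nonneg n
  have h4n : 4 ≤ n := by
    have : (4 : ℝ) ≤ n := by
      have h3 : (100 : ℝ) ≤ a := hK.trans ha1
      have h4 : a ≤ a ^ 100 := le_self_pow₀ ha0 (by norm_num)
      linarith
    exact_mod_cast this
  have hne : Nonempty (Tup 4 n) := ⟨Fin.castLEEmb h4n⟩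
  have hneT : NeZero (Tn s n) := ⟨by omega⟩
  set u : Fin (Tn s n) → Alt n := fun t => x 1 * x 0 ^ (t : ℕ) with hu
  have huB : ∀ t, u t ∈ Bl x (Tn s n + 1) := by
    intro t
    have h1 := Bl_mul x (Bl_gen x 1) (Bl_pow x (Bl_gen x 0) (t : ℕ))
    refine Bl_mono x ?_ h1
    have := t.2
    omega
  obtain ⟨f, hf, hBf⟩ := FamP_block (r := 4) x 0 1 u huB (Tn s n) (fun _ => 0) (m := cn s) hT1
  have hcoe : ∀ t, (u t : Perm (Fin n)) = (x 1 : Perm (Fin n)) * (x 0 : Perm (Fin n)) ^ (t : ℕ) := by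
    intro t
    simp only [hu, Subgroup.coe_mul, Subgroup.coe_pow]
  simp_rw [hcoe] at hBf
  set p : ℕ := ⌈2 * Real.log n⌉₊ with hp
  set l : ℕ := ⌈12 * Real.log n⌉₊ with hl
  obtain ⟨hla, hpa⟩ := h.logs hs hs1 hK
  rw [← hl, ← ha] at hla
  rw [← hp, ← ha] at hpa
  have hp1 : (p : ℝ) ≤ 2 * Real.log n + 1 :=
    (Nat.ceil_lt_add_one (show 0 ≤ 2 * Real.log n by positivity)).le
  have hp2 : 2 * Real.log n ≤ p := Nat.le_ceil _
  have hl2 : 12 * Real.log n ≤ l := Nat.le_ceil _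
  set η : ℝ := (cst 4 (cn s) : ℝ) / Tn s n with hηd
  have hη0 : 0 ≤ η := by positivity
  have hpη : p * η ≤ 1 / 10 := by
    rw [hηd, mul_div_assoc', div_le_iff₀ hTp]
    have : (p : ℝ) * cst 4 (cn s) ≤ (2 * Real.log n + 1) * cst 4 (cn s) := by gcongr
    linarith
  have hη1 : η ≤ 1 / 10 := by
    rw [hηd, div_le_iff₀ hTp]
    have : (0 : ℝ) ≤ cst 4 (cn s) := Nat.cast_nonneg _
    nlinarith
  have hflat := fun a0 : Tup 4 n => VV_flat (K := NK (x 0 : Perm (Fin n)) (x 1 : Perm (Fin n))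
    (Tn s n) (fun _ => 0) (cn s) (Tn s n))
    (e := fun t : Fin (Tn s n) => mvE ((x 1 : Perm (Fin n)) * (x 0 : Perm (Fin n)) ^ (t : ℕ)))
    (fun a b => NK_nonneg _ _ _ _ _ _ _ _) (fun a => NK_row _ _ _ _ _ _ hT1 a) ht.hs1 hη1 hη0
    (fun a => retain_start ht.sps hT1 (by norm_num) a) a0 p
  have hN4 : (1 / 81 : ℝ) ^ p * Fintype.card (Tup 4 n) + 5 / 4 ≤ 3 / 2 := by
    have h1 := pow_small (q := 1 / 81) (c := 4) (by norm_num) exp4 hn1 8 p (by push_cast; linarith)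
    have h2 := card_Tup_le 4 n
    have h3 : (1 / 81 : ℝ) ^ p * Fintype.card (Tup 4 n) ≤ 1 / (n : ℝ) ^ 8 * (n : ℝ) ^ 4 := by
      gcongr
    have h4 : 1 / (n : ℝ) ^ 8 * (n : ℝ) ^ 4 ≤ 1 / 4 := by
      rw [one_div, inv_mul_le_iff₀ (by positivity)]
      have h5 : (4 : ℝ) ≤ n := by exact_mod_cast h4n
      have h6 : (n : ℝ) ≤ (n : ℝ) ^ 4 := le_self_pow₀ hn1' (by norm_num)
      have h7 : (n : ℝ) ^ 8 = (n : ℝ) ^ 4 * (n : ℝ) ^ 4 := by ring
      rw [h7]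
      have h8 : (0 : ℝ) ≤ (n : ℝ) ^ 4 := by positivity
      nlinarith
    linarith
  have hmass : ∀ a0 : Tup 4 n, 9 / 10 ≤ ∑ b, VV (BK (NK (x 0 : Perm (Fin n))
      (x 1 : Perm (Fin n)) (Tn s n) (fun _ => 0) (cn s) (Tn s n))
      (fun t : Fin (Tn s n) => mvE ((x 1 : Perm (Fin n)) * (x 0 : Perm (Fin n)) ^ (t : ℕ))))
      p a0 b := by
    intro a0
    refine le_trans ?_ (hflat a0).1
    have h1 := one_add_mul_le_pow (a := -η) (by linarith) p
    have h2 : (1 : ℝ) + p * -η ≤ (1 - η) ^ p := by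
      calc _ ≤ (1 + -η) ^ p := h1
        _ = _ := by ring
    linarith
  obtain ⟨hf2, hlow⟩ := flat_inner (f := f) hf (fun a b => BK_nonneg
    (fun a b => NK_nonneg _ _ _ _ _ _ _ _) a b) hBf (p := p) (c := 9 / 10) (by norm_num) hmass
    (fun a0 => by
      refine (hflat a0).2.2.trans ?_
      exact mul_le_mul_of_nonneg_right hN4 (sq_nonneg _))
  have hmix := mixFam_of hf2 h4n (c0 := 81 / 200) (fun a b => by
    refine le_trans (le_of_eq ?_) (hlow a b)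
    norm_num) l (e := 1 / (n : ℝ) ^ 2) (by
      have h1 := pow_small (q := 119 / 200) (c := 1 / 2) (by norm_num) exp_half hn1 6 l
        (by push_cast; linarith)
      have h2 := card_Tup_le 4 n
      rw [show (1 - 81 / 200 : ℝ) = 119 / 200 by norm_num]
      calc (Fintype.card (Tup 4 n) : ℝ) * (119 / 200) ^ l ≤ (n : ℝ) ^ 4 * (1 / (n : ℝ) ^ 6) := by
            gcongr
        _ = 1 / (n : ℝ) ^ 2 := by field_simp)
  refine ⟨_, ?_, hmix⟩
  push_cast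
  have hca : 200 * (cn s : ℝ) ≤ a := by linarith
  have h100 : 100 ≤ a := by linarith
  calc (l : ℝ) * (p * ((Tn s n + 1) + (cn s + 1) * (Tn s n + 1)) +
        p * ((Tn s n + 1) + (cn s + 1) * (Tn s n + 1)))
      = l * p * (2 * (cn s + 2)) * (Tn s n + 1) := by ring
    _ ≤ a * a * a * (2 * a) := by
        have e1 : (2 * (cn s + 2) : ℝ) ≤ a := by linarith
        have e2 : (Tn s n + 1 : ℝ) ≤ 2 * a := by linarith
        gcongr
    _ = a ^ 4 * 2 := by ring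
    _ ≤ a ^ 4 * a := by
        have : (2 : ℝ) ≤ a := by linarith
        gcongr
    _ = a ^ 5 := by ring

/-- routing of long tuples -/
theorem Num.route (x : Fin 2 → Alt n) (ht : Typ s n (x 0 : Perm (Fin n)) (x 1 : Perm (Fin n)))
    (hc : 10000 * (cn s : ℝ) ^ 3 ≤ K) {L : ℕ} (hL : (L : ℝ) ≤ ((n : ℝ) ^ s) ^ 5)
    (hmix : MixFam x L 4 (1 / (n : ℝ) ^ 2)) : Route x (Rn s n) n := by
  classical
  set a : ℝ := (n : ℝ) ^ s with ha
  have hn := h.npos hs hs1 hK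
  have hn1 : 1 ≤ n := by have := h.a2; omega
  have hn2 : 2 ≤ n := by have := h.a2; omega
  have hn1' : (1 : ℝ) ≤ n := by exact_mod_cast hn1
  have ha1 : K ≤ a := h.a1
  have ha100 : a ^ 100 ≤ n := h.a100 hs hs1 hK
  have ha0 : 1 ≤ a := by linarith
  have hap : 0 < a := by linarith
  have hT : (Tn s n : ℝ) ≤ a := h.Tle hs hs1 hK
  have hT1 := h.T1 hs hs1 hK
  have hlog : 0 ≤ Real.log n := Real.log_natCast_nonneg n
  have hc1 : (1 : ℝ) ≤ cn s := by exact_mod_cast cn_pos hs hs1 hK h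
  have hc3 : (cn s : ℝ) ≤ (cn s : ℝ) ^ 3 := le_self_pow₀ hc1 (by norm_num)
  have hc30 : (1 : ℝ) ≤ (cn s : ℝ) ^ 3 := one_le_pow₀ hc1
  have hca : 10000 * (cn s : ℝ) ^ 3 ≤ a := by linarith
  have hR1 : (1 : ℝ) ≤ Rn s n := by exact_mod_cast h.a4
  have hR3 := h.R3 hs hs1 hK
  rw [← ha] at hR3
  have hm := h.m_le hs hs1 hK
  have hmpos := h.m1 hs hs1 hK
  have h2s : (n : ℝ) ^ (2 * s) = a ^ 2 := by
    rw [ha, ← Real.rpow_natCast, ← Real.rpow_mul hn.le]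
    congr 1; push_cast; ring
  have hsh := ht.sh
  rw [h2s] at hsh
  have hRn : Rn s n ≤ n := by
    have : (Rn s n : ℝ) ≤ n := by
      have h1 : (Rn s n : ℝ) ≤ (Rn s n : ℝ) ^ 3 := le_self_pow₀ hR1 (by norm_num)
      have h2 : (1 : ℝ) ≤ a ^ 6 := one_le_pow₀ ha0
      calc (Rn s n : ℝ) ≤ (Rn s n : ℝ) ^ 3 * 1 := by linarith
        _ ≤ (Rn s n : ℝ) ^ 3 * a ^ 6 := by gcongr
        _ ≤ n := hR3
    exact_mod_cast this
  have hmn : 2 * mn s n ≤ n := by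
    have : (2 * mn s n : ℝ) ≤ n := by
      calc (2 * mn s n : ℝ) ≤ 2 * (2 * cn s * Rn s n) := by linarith
        _ = (Rn s n : ℝ) * (4 * cn s) := by ring
        _ ≤ (Rn s n : ℝ) ^ 3 * a ^ 6 := by
          have h3 : (Rn s n : ℝ) ≤ (Rn s n : ℝ) ^ 3 := le_self_pow₀ hR1 (by norm_num)
          have h4 : a ≤ a ^ 6 := le_self_pow₀ ha0 (by norm_num)
          have h5 : 4 * (cn s : ℝ) ≤ a ^ 6 := by linarith
          gcongr
        _ ≤ n := hR3
    exact_mod_cast this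
  have hne : Nonempty (Tup (Rn s n) n) := ⟨Fin.castLEEmb hRn⟩
  obtain ⟨K', iK, nK, u, huB, humix⟩ := hmix
  have hMx : ∀ r ≤ 4, Mx r (fun κ => (u κ : Perm (Fin n))) := by
    intro r hr b c
    refine ((humix r hr).upper b c).trans ?_
    have h1 : 1 / (n : ℝ) ^ 2 ≤ 1 := by
      rw [div_le_one (by positivity)]
      exact one_le_pow₀ hn1'
    gcongr
    linarith
  obtain ⟨f, hf, hBf⟩ := FamP_block (r := Rn s n) x 0 1 u huB (Tn s n) (bt s) (m := mn s n) hT1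
  set p : ℕ := ⌈2 * Rn s n * Real.log n⌉₊ with hp
  have hp1 : (p : ℝ) ≤ 2 * Rn s n * Real.log n + 1 :=
    (Nat.ceil_lt_add_one (show 0 ≤ 2 * Rn s n * Real.log n by positivity)).le
  have hp2 : 2 * Rn s n * Real.log n ≤ p := Nat.le_ceil _
  have hσ1 : ∑ j ∈ range (mn s n), 1 / ((bt s j : ℝ) + 1) ≤ cn s * a := by
    refine (sum_bt (cn_pos hs hs1 hK h) (mn s n)).trans ?_
    have h5 : Real.log (mn s n) ≤ Real.log n := by
      apply Real.log_le_log (by exact_mod_cast hmpos)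
      exact_mod_cast (show mn s n ≤ n by omega)
    have h6 := h.alog hs hs1 hK
    have : 1 + Real.log (mn s n) ≤ a := by linarith
    exact mul_le_mul_of_nonneg_left this (by linarith)
  set η : ℝ := 2 * a ^ 2 / n + (2 * (Rn s n : ℕ) * a ^ 2 / n + 2 * (Rn s n : ℕ) *
    (a * (2 * ((mn s n : ℝ) ^ 2 * (2 * Tn s n + 1)))) / n +
      2 * ((Rn s n : ℕ) : ℝ) ^ 2 * mn s n * (2 * (Tn s n : ℕ) + 1) / (n - 1)) * (cn s * a) with hηd
  have hret := fun b : Tup (Rn s n) n => retain_mix (x := (x 0 : Perm (Fin n)))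
    (y := (x 1 : Perm (Fin n))) (S := Tn s n) (u := fun κ => (u κ : Perm (Fin n)))
    (hMx 1 (by norm_num)) (hMx 2 (by norm_num)) hn2 (bt s) (m := mn s n) (T := Tn s n) hT1 h.a4 b
    hsh ht.slf hσ1
  have hη0 : 0 ≤ η := by
    have h1 : (0 : ℝ) ≤ (n : ℝ) - 1 := by linarith
    rw [hηd]
    positivity
  have hη1 : η ≤ 1 / 10 := by
    have hT2 : (2 * Tn s n + 1 : ℝ) ≤ 3 * a := by linarith
    have t1 : 2 * ((Rn s n : ℕ) : ℝ) ^ 2 * mn s n * (2 * (Tn s n : ℕ) + 1) / (n - 1) ≤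
        2 * (2 * ((Rn s n : ℕ) : ℝ) ^ 2 * mn s n * (2 * (Tn s n : ℕ) + 1)) / n := by
      have h1 : (2 : ℝ) ≤ n := by exact_mod_cast hn2
      rw [div_le_div_iff₀ (by linarith) hn]
      have : (0 : ℝ) ≤ 2 * ((Rn s n : ℕ) : ℝ) ^ 2 * mn s n * (2 * (Tn s n : ℕ) + 1) := by positivity
      nlinarith
    set R : ℝ := ((Rn s n : ℕ) : ℝ) with hR
    set c : ℝ := (cn s : ℝ) with hcd
    set m : ℝ := (mn s n : ℝ) with hmd
    have hm0 : 0 ≤ m := Nat.cast_nonneg _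
    have hc0 : 0 ≤ c := by linarith
    have t2 : η ≤ (7 * c ^ 3 * (R ^ 3 * a ^ 3) + 80 * c ^ 3 * (R ^ 3 * a ^ 3)) / n := by
      calc η ≤ 2 * a ^ 2 / n + (2 * R * a ^ 2 / n + 2 * R *
              (a * (2 * ((2 * c * R) ^ 2 * (3 * a)))) / n +
              2 * (2 * R ^ 2 * (2 * c * R) * (3 * a)) / n) * (c * a) := by
            rw [hηd]
            have t3 : 2 * R ^ 2 * m * (2 * (Tn s n : ℕ) + 1) / (n - 1) ≤
                2 * (2 * R ^ 2 * (2 * c * R) * (3 * a)) / n := by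
              refine t1.trans ?_
              gcongr
            gcongr
        _ = (2 * a ^ 2 + 2 * c * (R * a ^ 3) + 48 * c ^ 3 * (R ^ 3 * a ^ 3) +
              24 * c ^ 2 * (R ^ 3 * a ^ 2)) / n := by ring
        _ ≤ _ := by
            apply div_le_div_of_nonneg_right _ hn.le
            have e1 : (1 : ℝ) ≤ R ^ 3 := one_le_pow₀ hR1
            have e2 : R ≤ R ^ 3 := le_self_pow₀ hR1 (by norm_num)
            have e3 : a ^ 2 ≤ a ^ 3 := pow_le_pow_right₀ ha0 (by norm_num)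
            have e4 : c ^ 2 ≤ c ^ 3 := pow_le_pow_right₀ hc1 (by norm_num)
            have f1 : 2 * a ^ 2 ≤ 2 * c ^ 3 * (R ^ 3 * a ^ 3) := by
              calc 2 * a ^ 2 = 2 * 1 * (1 * a ^ 2) := by ring
                _ ≤ _ := by gcongr
            have f2 : 2 * c * (R * a ^ 3) ≤ 2 * c ^ 3 * (R ^ 3 * a ^ 3) := by gcongr
            have f3 : 24 * c ^ 2 * (R ^ 3 * a ^ 2) ≤ 24 * c ^ 3 * (R ^ 3 * a ^ 3) := by gcongr
            have f4 : 0 ≤ c ^ 3 * (R ^ 3 * a ^ 3) := by positivity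
            nlinarith
    refine t2.trans ?_
    rw [div_le_iff₀ hn]
    have e1 : a ^ 4 ≤ a ^ 6 := pow_le_pow_right₀ ha0 (by norm_num)
    calc 7 * c ^ 3 * (R ^ 3 * a ^ 3) + 80 * c ^ 3 * (R ^ 3 * a ^ 3)
        = 87 * c ^ 3 * (R ^ 3 * a ^ 3) := by ring
      _ ≤ (1 / 10 * a) * (R ^ 3 * a ^ 3) := by
          have : 87 * c ^ 3 ≤ 1 / 10 * a := by linarith
          gcongr
      _ = 1 / 10 * (R ^ 3 * a ^ 4) := by ring
      _ ≤ 1 / 10 * (R ^ 3 * a ^ 6) := by gcongr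
      _ ≤ 1 / 10 * n := by gcongr
  have hflat := fun a0 : Tup (Rn s n) n => VV_flat (K := NK (x 0 : Perm (Fin n))
    (x 1 : Perm (Fin n)) (Tn s n) (bt s) (mn s n) (Tn s n))
    (e := fun κ => mvE (u κ : Perm (Fin n)))
    (fun a b => NK_nonneg _ _ _ _ _ _ _ _) (fun a => NK_row _ _ _ _ _ _ hT1 a) ht.hs2 hη1 hη0
    hret a0 p
  have hN4 : (1 / 81 : ℝ) ^ p * Fintype.card (Tup (Rn s n) n) + 5 / 4 ≤ 3 / 2 := by
    have h1 := pow_small (q := 1 / 81) (c := 4) (by norm_num) exp4 hn1 (8 * Rn s n) p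
      (by push_cast; linarith)
    have h2 := card_Tup_le (Rn s n) n
    have h3 : (1 / 81 : ℝ) ^ p * Fintype.card (Tup (Rn s n) n) ≤
        1 / (n : ℝ) ^ (8 * Rn s n) * (n : ℝ) ^ Rn s n := by
      gcongr
    have h4 : 1 / (n : ℝ) ^ (8 * Rn s n) * (n : ℝ) ^ Rn s n ≤ 1 / 4 := by
      rw [one_div, inv_mul_le_iff₀ (by positivity)]
      have h5 : (4 : ℝ) ≤ (n : ℝ) ^ (7 * Rn s n) := by
        calc (4 : ℝ) ≤ a := by linarith
          _ ≤ a ^ 100 := le_self_pow₀ ha0 (by norm_num)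
          _ ≤ n := ha100
          _ ≤ (n : ℝ) ^ (7 * Rn s n) := le_self_pow₀ hn1' (by have := h.a4; omega)
      have h7 : (n : ℝ) ^ (8 * Rn s n) = (n : ℝ) ^ (7 * Rn s n) * (n : ℝ) ^ Rn s n := by
        rw [← pow_add]; congr 1; ring
      rw [h7]
      have h8 : (0 : ℝ) ≤ (n : ℝ) ^ Rn s n := by positivity
      nlinarith
    linarith
  have hmass : ∀ a0 : Tup (Rn s n) n, (9 / 10 : ℝ) ^ p ≤ ∑ b, VV (BK (NK (x 0 : Perm (Fin n))
      (x 1 : Perm (Fin n)) (Tn s n) (bt s) (mn s n) (Tn s n))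
      (fun κ => mvE (u κ : Perm (Fin n)))) p a0 b := by
    intro a0
    refine le_trans ?_ (hflat a0).1
    have : (9 / 10 : ℝ) ≤ 1 - η := by linarith
    gcongr
  obtain ⟨hf2, hlow⟩ := flat_inner (f := f) hf (fun a b => BK_nonneg
    (fun a b => NK_nonneg _ _ _ _ _ _ _ _) a b) hBf (p := p) (c := (9 / 10 : ℝ) ^ p)
    (by positivity) hmass
    (fun a0 => by
      refine (hflat a0).2.2.trans ?_
      exact mul_le_mul_of_nonneg_right hN4 (sq_nonneg _))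
  apply route_down hRn
  intro b c
  have hN : (0 : ℝ) < Fintype.card (Tup (Rn s n) n) := by exact_mod_cast Fintype.card_pos
  obtain ⟨g, hg, hg'⟩ := hf2.exists_word (a := b) (b := c)
    (lt_of_lt_of_le (by positivity) (hlow b c))
  refine ⟨g, Bl_mono x ?_ hg, hg'⟩
  have hfin : ((p * (L + (mn s n + 1) * (Tn s n + 1)) + p * (L + (mn s n + 1) * (Tn s n + 1)) : ℕ) :
      ℝ) ≤ n := by
    push_cast
    have e1 : (p : ℝ) ≤ Rn s n * a := by
      have h3 := h.a3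
      rw [← ha] at h3
      have h4 : 10000 * Real.log n ≤ a := by nlinarith
      nlinarith
    have e2 : (mn s n + 1 : ℝ) ≤ 3 * cn s * Rn s n := by nlinarith
    have e3 : (Tn s n + 1 : ℝ) ≤ 2 * a := by linarith
    have e4 : (L + (mn s n + 1) * (Tn s n + 1) : ℝ) ≤ Rn s n * (2 * a ^ 5) := by
      have f1 : ((mn s n + 1) * (Tn s n + 1) : ℝ) ≤ (3 * cn s * Rn s n) * (2 * a) := by gcongr
      have f2 : (3 * cn s * Rn s n) * (2 * a) ≤ Rn s n * a ^ 5 := by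
        have f3 : 6 * (cn s : ℝ) ≤ a := by linarith
        calc (3 * cn s * Rn s n) * (2 * a) = Rn s n * ((6 * cn s) * a) := by ring
          _ ≤ Rn s n * (a * a) := by gcongr
          _ = Rn s n * a ^ 2 := by ring
          _ ≤ Rn s n * a ^ 5 := by
            have : a ^ 2 ≤ a ^ 5 := pow_le_pow_right₀ ha0 (by norm_num)
            gcongr
      have f4 : (L : ℝ) ≤ Rn s n * a ^ 5 := by
        calc (L : ℝ) ≤ 1 * a ^ 5 := by linarith
          _ ≤ Rn s n * a ^ 5 := by gcongr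
      linarith
    have e5 : (Rn s n : ℝ) ^ 2 * a ^ 7 ≤ n := by
      have h1 : (Rn s n : ℝ) ≤ (n : ℝ) ^ (1 / 3 - 2 * s) := Nat.floor_le (by positivity)
      calc (Rn s n : ℝ) ^ 2 * a ^ 7 ≤ ((n : ℝ) ^ (1 / 3 - 2 * s)) ^ 2 * ((n : ℝ) ^ s) ^ 7 := by
            rw [← ha]
            gcongr
        _ ≤ (n : ℝ) := by
          rw [← Real.rpow_natCast, ← Real.rpow_natCast, ← Real.rpow_mul hn.le,
            ← Real.rpow_mul hn.le, ← Real.rpow_add hn]
          nth_rewrite 2 [← Real.rpow_one (n : ℝ)]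
          apply Real.rpow_le_rpow_of_exponent_le hn1'
          push_cast
          linarith
    calc (p : ℝ) * (L + (mn s n + 1) * (Tn s n + 1)) + p * (L + (mn s n + 1) * (Tn s n + 1))
        = 2 * (p * (L + (mn s n + 1) * (Tn s n + 1))) := by ring
      _ ≤ 2 * ((Rn s n * a) * (Rn s n * (2 * a ^ 5))) := by gcongr
      _ = (Rn s n : ℝ) ^ 2 * (4 * a ^ 6) := by ring
      _ ≤ (Rn s n : ℝ) ^ 2 * (a * a ^ 6) := by
          have : (4 : ℝ) ≤ a := by linarith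
          gcongr
      _ = (Rn s n : ℝ) ^ 2 * a ^ 7 := by ring
      _ ≤ n := e5
  exact_mod_cast hfin

end main

end

end Run7.h624.PD
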