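import Pool.Agent.Run7.h624.PD.Path

/-!
The expected number of pairs of nice words with the same values on a tuple.
-/

namespace Run7.h624.PD
open RC14 Finset Equiv Run7.h624.DM

noncomputable section

variable {n : ℕ}

/-- the letters of a word -/
abbrev Lt (m T : ℕ) := Fin (m + 1) → Fin T

section Lt
variable {m T : ℕ}

/-- the letters as a function on the natural numbers -/
def ex (τ : Lt m T) (j : ℕ) : ℕ := if h : j < m + 1 then (τ ⟨j, h⟩ : ℕ) else 0

lemma ex_le (τ : Lt m T) (j : ℕ) : ex τ j ≤ T := by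
  unfold ex
  split_ifs with h
  · exact (τ ⟨j, h⟩).2.le
  · exact Nat.zero_le _

lemma ex_apply (τ : Lt m T) (j : Fin (m + 1)) : ex τ j = τ j := by
  unfold ex
  rw [dif_pos j.2]

lemma ex_ext {τ τ' : Lt m T} (h : ∀ j ≤ m, ex τ j = ex τ' j) : τ = τ' := by
  funext j
  have h1 := h j (by omega)
  rw [ex_apply, ex_apply] at h1
  exact Fin.ext h1

/-- the word `x^{t_m} y x^{t_{m-1}} ⋯ y x^{t_0}` -/
def wt {G : Type*} [Group G] (x y : G) (τ : Lt m T) : G := x ^ (ex τ m) * wd x y (ex τ) m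

lemma wt_apply (x y : Perm (Fin n)) (τ : Lt m T) (p : Fin n) :
    wt x y τ p = (x ^ (ex τ m)) (hd x y (ex τ) p m) := rfl

/-- the last place where two words differ -/
def lev (τ τ' : Lt m T) : ℕ := Nat.findGreatest (fun j => ex τ j ≠ ex τ' j) m

lemma lev_le (τ τ' : Lt m T) : lev τ τ' ≤ m := Nat.findGreatest_le _

lemma lev_spec {τ τ' : Lt m T} (h : τ ≠ τ') : ex τ (lev τ τ') ≠ ex τ' (lev τ τ') := by
  classical
  have h1 : ∃ j ≤ m, ex τ j ≠ ex τ' j := by
    by_contra hcon
    push Not at hcon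
    exact h (ex_ext hcon)
  obtain ⟨j, hj, hj'⟩ := h1
  exact Nat.findGreatest_spec (P := fun j => ex τ j ≠ ex τ' j) hj hj'

lemma lev_after {τ τ' : Lt m T} {j : ℕ} (h : lev τ τ' < j) (hj : j ≤ m) : ex τ j = ex τ' j := by
  classical
  by_contra hcon
  exact Nat.findGreatest_is_greatest (P := fun j => ex τ j ≠ ex τ' j) h hj hcon

open Classical in
/-- the number of pairs with a given level -/
lemma card_lev (M : ℕ) (hM : M ≤ m) :
    #{s : Lt m T × Lt m T | lev s.1 s.2 = M} ≤ T ^ (m + 1) * T ^ (M + 1) := by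
  have h1 : #{s : Lt m T × Lt m T | lev s.1 s.2 = M} ≤
      #(univ : Finset (Lt m T × (Fin (M + 1) → Fin T))) := by
    refine card_le_card_of_injOn (fun s => (s.1, fun j => s.2 ⟨j, by omega⟩))
      (fun _ _ => mem_coe.2 (mem_univ _)) ?_
    rintro ⟨τ, τ'⟩ hs ⟨σ, σ'⟩ hs' heq
    rw [mem_coe, mem_filter] at hs hs'
    have e1 : lev τ τ' = M := hs.2
    have e2 : lev σ σ' = M := hs'.2
    obtain ⟨h2, h3⟩ := Prod.mk.inj heq
    have h2' : τ = σ := h2
    subst h2'
    refine Prod.ext rfl ?_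
    apply ex_ext
    intro j hj
    show ex τ' j = ex σ' j
    by_cases h4 : j ≤ M
    · have h5 := congrFun h3 ⟨j, by omega⟩
      unfold ex
      rw [dif_pos (by omega), dif_pos (by omega)]
      exact congrArg Fin.val h5
    · have h5 := lev_after (τ := τ) (τ' := τ') (j := j) (by omega) hj
      have h6 := lev_after (τ := τ) (τ' := σ') (j := j) (by omega) hj
      rw [← h5, ← h6]
  refine h1.trans ?_
  rw [card_univ, Fintype.card_prod, Fintype.card_fun, Fintype.card_fun, Fintype.card_fin,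
    Fintype.card_fin, Fintype.card_fin]

end Lt

lemma Cls.down {x y : Perm (Fin n)} {t t' : ℕ → ℕ} {r : ℕ} {a : Fin r → Fin n} {m : ℕ} {i : Fin r}
    (h : Cls x y t t' a m i) {M : ℕ} (hM : M ≤ m) (ht : ∀ j, M < j → j ≤ m → t j = t' j) :
    Cls x y t t' a M i := by
  induction m with
  | zero =>
    have : M = 0 := by omega
    subst this
    exact h
  | succ m ih =>
    rcases Nat.lt_or_ge m M with h1 | h1
    · have : M = m + 1 := by omega
      subst this
      exact h
    · refine ih ?_ h1 fun j h2 h3 => ht j h2 (by omega)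
      unfold Cls at h ⊢
      rw [ht (m + 1) (by omega) le_rfl] at h
      have h2 := (x ^ t' (m + 1)).injective h
      rw [hd_succ, hd_succ] at h2
      exact y.injective h2

open Classical in
/-- a nice word for a tuple -/
def Nice (x y : Perm (Fin n)) (S : ℕ) (β : ℕ → ℕ) {m T r : ℕ} (τ : Lt m T) (a : Tup r n) : Prop :=
  (∃ i, S < cyl x (a i)) ∧
    ∀ M, 1 ≤ M → M ≤ m → #{i | ¬ Iso x y S (ex τ) a M i} ≤ β (m - M)

/-- the number of sets with at most `c` elements -/
lemma card_small (r c : ℕ) : #{A : Finset (Fin r) | #A ≤ c} ≤ (r + 1) ^ c := by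
  induction c with
  | zero =>
    rw [pow_zero, card_le_one]
    intro A hA B hB
    have h1 := (mem_filter.1 hA).2
    have h2 := (mem_filter.1 hB).2
    rw [card_eq_zero.1 (Nat.le_zero.1 h1), card_eq_zero.1 (Nat.le_zero.1 h2)]
  | succ c ih =>
    have h1 : ({A : Finset (Fin r) | #A ≤ c + 1} : Finset _) ⊆
        ({A : Finset (Fin r) | #A ≤ c} : Finset _) ∪ powersetCard (c + 1) univ := by
      intro A hA
      have h2 := (mem_filter.1 hA).2
      rw [mem_union, mem_filter, mem_powersetCard]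
      rcases Nat.lt_or_ge c #A with h3 | h3
      · exact Or.inr ⟨subset_univ _, by omega⟩
      · exact Or.inl ⟨mem_univ _, h3⟩
    have h2 := (card_le_card h1).trans (card_union_le _ _)
    rw [card_powersetCard, card_univ, Fintype.card_fin] at h2
    have h3 := Nat.choose_le_pow r (c + 1)
    have h4 : r ^ (c + 1) ≤ r * (r + 1) ^ c := by
      rw [pow_succ']
      gcongr
      omega
    calc _ ≤ (r + 1) ^ c + r * (r + 1) ^ c := h2.trans (by omega)
      _ = _ := by ring

section count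
variable (x : Perm (Fin n)) (S : ℕ) (β : ℕ → ℕ) {m T r : ℕ}

open Classical in
/-- the number of `y` for which both words are nice and have the same values on `a` -/
def c3 (τ τ' : Lt m T) (a : Tup r n) : ℕ :=
  #{y : Perm (Fin n) | Nice x y S β τ a ∧ Nice x y S β τ' a ∧ mv (wt x y τ) a = mv (wt x y τ') a}

variable {x S β}

lemma c3_zero {τ τ' : Lt m T} (hTS : T ≤ S) (hne : τ ≠ τ') (h : lev τ τ' = 0) (a : Tup r n) :
    c3 x S β τ τ' a = 0 := by
  classical
  unfold c3
  rw [card_eq_zero, filter_eq_empty_iff]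
  rintro y - ⟨⟨⟨i, hi⟩, -⟩, -, h3⟩
  have h4 : Cls x y (ex τ) (ex τ') a m i := congrArg (fun b : Tup r n => b i) h3
  have h5 := h4.down (M := 0) (by omega) (fun j hj hj' => lev_after (by omega) hj')
  have h6 := lev_spec hne
  rw [h] at h6
  exact pow_ne hi ((ex_le τ 0).trans hTS) ((ex_le τ' 0).trans hTS) h6 h5

lemma c3_le {τ τ' : Lt m T} (hTS : T ≤ S) (hne : τ ≠ τ') {M : ℕ} (h : lev τ τ' = M) (hM : 1 ≤ M)
    (a : Tup r n) (hW : 2 * r * m * (2 * S + 1) < n) :
    (c3 x S β τ τ' a : ℝ) ≤ n.factorial / (n - 2 * r * m * (2 * S + 1) : ℝ) ^ r *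
      ((r + 1) * n) ^ (2 * β (m - M)) := by
  classical
  set b := β (m - M) with hb
  set W := 2 * r * m * (2 * S + 1) with hWd
  have hMm : M ≤ m := h ▸ lev_le τ τ'
  have hWR : (W : ℝ) < n := by exact_mod_cast hW
  have hW1 : (n : ℝ) - 2 * r * m * (2 * S + 1) = n - W := by rw [hWd]; push_cast; ring
  rw [hW1]
  set X : ℝ := n - W with hX
  have hX0 : 0 < X := by rw [hX]; linarith
  have hX1 : ((n - W : ℕ) : ℝ) = X := by rw [Nat.cast_sub hW.le]
  -- the covering
  have hsub : ({y : Perm (Fin n) | Nice x y S β τ a ∧ Nice x y S β τ' a ∧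
      mv (wt x y τ) a = mv (wt x y τ') a} : Finset _) ⊆
      ({B : Finset (Fin r) | #B ≤ 2 * b} : Finset _).biUnion fun B =>
        ({y : Perm (Fin n) | ∀ i ∈ Bᶜ, CI x S (ex τ) (ex τ') a M y i} : Finset _) := by
    intro y hy
    obtain ⟨-, h1, h2, h3⟩ := mem_filter.1 hy
    rw [mem_biUnion]
    refine ⟨({i | ¬ Iso x y S (ex τ) a M i} : Finset _) ∪
      ({i | ¬ Iso x y S (ex τ') a M i} : Finset _), ?_, ?_⟩
    · rw [mem_filter]
      refine ⟨mem_univ _, (card_union_le _ _).trans ?_⟩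
      have e1 := h1.2 M hM hMm
      have e2 := h2.2 M hM hMm
      omega
    · rw [mem_filter]
      refine ⟨mem_univ _, fun i hi => ?_⟩
      rw [mem_compl, mem_union, mem_filter, mem_filter] at hi
      push Not at hi
      have h4 : Cls x y (ex τ) (ex τ') a m i := congrArg (fun b : Tup r n => b i) h3
      exact ⟨h4.down hMm (fun j hj hj' => lev_after (by omega) hj'), hi.1 (mem_univ _),
        hi.2 (mem_univ _)⟩
  have hne' : ex τ M ≠ ex τ' M := h ▸ lev_spec hne
  have hsw : ∀ B : Finset (Fin r), #B ≤ 2 * b →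
      (#{y : Perm (Fin n) | ∀ i ∈ Bᶜ, CI x S (ex τ) (ex τ') a M y i} : ℝ) ≤
        n.factorial / X ^ r * (n : ℝ) ^ (2 * b) := by
    intro B hB
    have h1 := switch x S (ex τ) (ex τ') a M hM hne' ((ex_le τ M).trans hTS)
      ((ex_le τ' M).trans hTS) Bᶜ
    have h2 : W ≥ 2 * r * M * (2 * S + 1) := by rw [hWd]; gcongr
    have h3 : #{y : Perm (Fin n) | ∀ i ∈ Bᶜ, CI x S (ex τ) (ex τ') a M y i} * (n - W) ^ #Bᶜ ≤
        n.factorial := by
      refine le_trans ?_ h1
      gcongr
    have h4 : (#{y : Perm (Fin n) | ∀ i ∈ Bᶜ, CI x S (ex τ) (ex τ') a M y i} : ℝ) * X ^ #Bᶜ ≤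
        n.factorial := by
      rw [← hX1]
      exact_mod_cast h3
    have h5 : #Bᶜ + #B = r := by
      have := card_add_card_compl B
      rw [Fintype.card_fin] at this
      omega
    have h6 : X ^ r = X ^ #Bᶜ * X ^ #B := by rw [← pow_add, h5]
    have h7 : X ^ #B ≤ (n : ℝ) ^ (2 * b) := by
      have hXn : X ≤ n := by rw [hX]; have : (0 : ℝ) ≤ W := Nat.cast_nonneg _; linarith
      have hn1 : (1 : ℝ) ≤ n := by exact_mod_cast (by omega : 1 ≤ n)
      calc X ^ #B ≤ (n : ℝ) ^ #B := by gcongr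
        _ ≤ (n : ℝ) ^ (2 * b) := pow_le_pow_right₀ hn1 hB
    rw [div_mul_eq_mul_div, le_div_iff₀ (by positivity), h6, ← mul_assoc]
    calc _ ≤ (n.factorial : ℝ) * X ^ #B := by gcongr
      _ ≤ _ := by gcongr
  have h1 : (c3 x S β τ τ' a : ℝ) ≤ ∑ B ∈ ({B : Finset (Fin r) | #B ≤ 2 * b} : Finset _),
      (#{y : Perm (Fin n) | ∀ i ∈ Bᶜ, CI x S (ex τ) (ex τ') a M y i} : ℝ) := by
    unfold c3
    exact_mod_cast (card_le_card hsub).trans card_biUnion_le
  refine h1.trans ((sum_le_sum fun B hB => hsw B (mem_filter.1 hB).2).trans ?_)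
  rw [sum_const, nsmul_eq_mul]
  have h2 : (#{B : Finset (Fin r) | #B ≤ 2 * b} : ℝ) ≤ ((r : ℝ) + 1) ^ (2 * b) := by
    exact_mod_cast card_small r (2 * b)
  calc _ ≤ ((r : ℝ) + 1) ^ (2 * b) * (n.factorial / X ^ r * (n : ℝ) ^ (2 * b)) := by gcongr
    _ = _ := by rw [mul_pow]; ring

/-- the sum over all pairs of words -/
theorem sum_c3 (hTS : T ≤ S) (hT : 1 ≤ T) (a : Tup r n) (hW : 2 * r * m * (2 * S + 1) < n)
    (e : ℝ) (he : 0 ≤ e)
    (hβ : ∀ j ≤ m, β j ≠ 0 → ((r + 1) * n : ℝ) ^ (2 * β j) ≤ e * (T : ℝ) ^ j) :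
    ∑ s : Lt m T × Lt m T, (c3 x S β s.1 s.2 a : ℝ) ≤
      n.factorial * ((T : ℝ) ^ (m + 1) + ((T : ℝ) ^ (m + 1)) ^ 2 /
        (n - 2 * r * m * (2 * S + 1) : ℝ) ^ r * (1 + (m + 1) * e)) := by
  classical
  set Q : ℝ := (T : ℝ) ^ (m + 1) with hQ
  have hT0 : (0 : ℝ) < T := by exact_mod_cast hT
  have hQ0 : 0 < Q := by positivity
  set X : ℝ := n - 2 * r * m * (2 * S + 1) with hX
  have hX0 : 0 < X := by
    have : ((2 * r * m * (2 * S + 1) : ℕ) : ℝ) < n := by exact_mod_cast hW
    rw [hX]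
    push_cast at this
    linarith
  have hfac : (0 : ℝ) < n.factorial := by exact_mod_cast Nat.factorial_pos n
  have hcardL : (Fintype.card (Lt m T) : ℝ) = Q := by
    rw [Fintype.card_fun, Fintype.card_fin, Fintype.card_fin, hQ]; push_cast; ring
  have hbound : ∀ s : Lt m T × Lt m T, (c3 x S β s.1 s.2 a : ℝ) ≤
      (if s.1 = s.2 then (n.factorial : ℝ) else 0) + n.factorial / X ^ r *
        (1 + ∑ j ∈ range (m + 1), if lev s.1 s.2 = m - j then e * (T : ℝ) ^ j else 0) := by
    rintro ⟨τ, τ'⟩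
    by_cases h1 : τ = τ'
    · have h2 : (c3 x S β τ τ' a : ℝ) ≤ n.factorial := by
        have : c3 x S β τ τ' a ≤ n.factorial := by
          unfold c3
          refine (card_le_univ _).trans ?_
          rw [Fintype.card_perm, Fintype.card_fin]
        exact_mod_cast this
      simp only [h1, if_true]
      rw [h1] at h2
      have h3 : (0 : ℝ) ≤ ∑ j ∈ range (m + 1), if lev τ' τ' = m - j then e * (T : ℝ) ^ j else 0 :=
        sum_nonneg fun j _ => by split_ifs <;> positivity
      have h4 : 0 ≤ n.factorial / X ^ r *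
        (1 + ∑ j ∈ range (m + 1), if lev τ' τ' = m - j then e * (T : ℝ) ^ j else 0) := by positivity
      linarith
    · simp only [h1, if_false, zero_add]
      rcases Nat.eq_zero_or_pos (lev τ τ') with h2 | h2
      · rw [c3_zero hTS h1 h2]
        have h3 : (0 : ℝ) ≤ ∑ j ∈ range (m + 1), if lev τ τ' = m - j then e * (T : ℝ) ^ j else 0 :=
          sum_nonneg fun j _ => by split_ifs <;> positivity
        push_cast
        positivity
      · refine (c3_le hTS h1 rfl h2 a hW).trans ?_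
        gcongr
        set j := m - lev τ τ' with hj
        have hlm := lev_le τ τ'
        by_cases h3 : β j = 0
        · rw [h3, mul_zero, pow_zero]
          have h4 : (0 : ℝ) ≤ ∑ j ∈ range (m + 1),
              if lev τ τ' = m - j then e * (T : ℝ) ^ j else 0 :=
            sum_nonneg fun j _ => by split_ifs <;> positivity
          linarith
        · refine (hβ j (by omega) h3).trans ?_
          have h4 : (if lev τ τ' = m - j then e * (T : ℝ) ^ j else 0) ≤ ∑ j ∈ range (m + 1),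
              if lev τ τ' = m - j then e * (T : ℝ) ^ j else 0 :=
            single_le_sum (f := fun j => if lev τ τ' = m - j then e * (T : ℝ) ^ j else 0)
              (fun j _ => by split_ifs <;> positivity) (mem_range.2 (by omega))
          rw [if_pos (by omega)] at h4
          linarith
  refine (sum_le_sum fun s _ => hbound s).trans ?_
  rw [sum_add_distrib, ← mul_sum, sum_add_distrib, sum_comm]
  have e1 : ∑ s : Lt m T × Lt m T, (if s.1 = s.2 then (n.factorial : ℝ) else 0) =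
      n.factorial * Q := by
    rw [Fintype.sum_prod_type]
    simp only [sum_ite_eq, mem_univ, if_true, sum_const, card_univ, nsmul_eq_mul]
    rw [hcardL, mul_comm]
  have e2 : ∑ s : Lt m T × Lt m T, (1 : ℝ) = Q ^ 2 := by
    rw [sum_const, card_univ, nsmul_eq_mul, mul_one, Fintype.card_prod, sq, ← hcardL]
    push_cast
    ring
  have e3 : ∀ j ∈ range (m + 1), ∑ s : Lt m T × Lt m T,
      (if lev s.1 s.2 = m - j then e * (T : ℝ) ^ j else 0) ≤ e * Q ^ 2 := by
    intro j hj
    rw [mem_range] at hj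
    rw [← sum_filter, sum_const, nsmul_eq_mul]
    have h1 := card_lev (m := m) (T := T) (m - j) (by omega)
    have h2 : (#{s : Lt m T × Lt m T | lev s.1 s.2 = m - j} : ℝ) ≤
        (T : ℝ) ^ (m + 1) * (T : ℝ) ^ (m - j + 1) := by exact_mod_cast h1
    calc _ ≤ ((T : ℝ) ^ (m + 1) * (T : ℝ) ^ (m - j + 1)) * (e * (T : ℝ) ^ j) := by gcongr
      _ = e * (Q * ((T : ℝ) ^ (m - j + 1) * (T : ℝ) ^ j)) := by rw [hQ]; ring
      _ = e * Q ^ 2 := by
        rw [← pow_add, show m - j + 1 + j = m + 1 by omega, ← hQ]; ring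
  rw [e1, e2]
  have e4 : ∑ j ∈ range (m + 1), ∑ s : Lt m T × Lt m T,
      (if lev s.1 s.2 = m - j then e * (T : ℝ) ^ j else 0) ≤ (m + 1) * (e * Q ^ 2) := by
    refine (sum_le_sum e3).trans (le_of_eq ?_)
    rw [sum_const, card_range, nsmul_eq_mul]
    push_cast
    ring
  calc _ ≤ n.factorial * Q + n.factorial / X ^ r * (Q ^ 2 + (m + 1) * (e * Q ^ 2)) := by gcongr
    _ = _ := by ring

end count

end

end Run7.h624.PD
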