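import Pool.Agent.Run7.h624.DM.Cnt

/-!
Paths of words `y x^{t_j} ⋯ y x^{t_0}` and the switching lemma.
-/

namespace Run7.h624.PD
open RC14 Finset Equiv Run7.h624.DM

noncomputable section

/-- the words `y x^{t_{j-1}} ⋯ y x^{t_0}` -/
def wd {G : Type*} [Group G] (x y : G) (t : ℕ → ℕ) : ℕ → G
  | 0 => 1
  | j + 1 => y * x ^ (t j) * wd x y t j

variable {n : ℕ}

/-- the points of the path of `p` -/
def hd (x y : Perm (Fin n)) (t : ℕ → ℕ) (p : Fin n) (j : ℕ) : Fin n := wd x y t j p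

@[simp] lemma hd_zero (x y : Perm (Fin n)) (t : ℕ → ℕ) (p : Fin n) : hd x y t p 0 = p := rfl

lemma hd_succ (x y : Perm (Fin n)) (t : ℕ → ℕ) (p : Fin n) (j : ℕ) :
    hd x y t p (j + 1) = y ((x ^ t j) (hd x y t p j)) := rfl

/-- two points are close on a cycle of `x` -/
def cl (x : Perm (Fin n)) (S : ℕ) (p q : Fin n) : Prop := ∃ s : ℤ, s.natAbs ≤ S ∧ (x ^ s) p = q

lemma cl_refl (x : Perm (Fin n)) (S : ℕ) (p : Fin n) : cl x S p p := ⟨0, by simp, by simp⟩

lemma cl_symm {x : Perm (Fin n)} {S : ℕ} {p q : Fin n} (h : cl x S p q) : cl x S q p := by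
  obtain ⟨s, hs, rfl⟩ := h
  refine ⟨-s, by simpa using hs, ?_⟩
  rw [zpow_neg]; simp

lemma cl_of_pow {x : Perm (Fin n)} {S : ℕ} {p q : Fin n} {a b : ℕ} (ha : a ≤ S) (hb : b ≤ S)
    (h : (x ^ a) p = (x ^ b) q) : cl x S p q := by
  refine ⟨(a : ℤ) - b, by omega, ?_⟩
  rw [sub_eq_neg_add, zpow_add, Perm.mul_apply, zpow_natCast, h, zpow_neg, zpow_natCast]
  simp

lemma cyl_zpow (x : Perm (Fin n)) (s : ℤ) (p : Fin n) : cyl x ((x ^ s) p) = cyl x p :=
  (cyl_congr (w := x) ⟨s, rfl⟩).symm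

lemma cl_cyl {x : Perm (Fin n)} {S : ℕ} {p q : Fin n} (h : cl x S p q) : cyl x p = cyl x q := by
  obtain ⟨s, -, rfl⟩ := h
  exact (cyl_zpow x s p).symm

/-- a point in a long cycle is not fixed by small powers -/
lemma zpow_ne {x : Perm (Fin n)} {S : ℕ} {p : Fin n} (h : S < cyl x p) {s : ℤ} (hs : s ≠ 0)
    (hs' : s.natAbs ≤ S) : (x ^ s) p ≠ p := by
  intro hh
  have h1 : (x ^ s.natAbs) p = p := by
    rcases Int.natAbs_eq s with h2 | h2
    · rw [h2, zpow_natCast] at hh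
      exact hh
    · rw [h2, zpow_neg, zpow_natCast, Perm.inv_eq_iff_eq] at hh
      exact hh.symm
  rw [pow_fix] at h1
  have h2 := Nat.le_of_dvd (by omega) h1
  omega

lemma pow_ne {x : Perm (Fin n)} {S : ℕ} {p : Fin n} (h : S < cyl x p) {a b : ℕ} (ha : a ≤ S)
    (hb : b ≤ S) (hab : a ≠ b) : (x ^ a) p ≠ (x ^ b) p := by
  intro hh
  apply zpow_ne h (s := (a : ℤ) - b) (by omega) (by omega)
  rw [sub_eq_neg_add, zpow_add, Perm.mul_apply, zpow_natCast, hh, zpow_neg, zpow_natCast]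
  simp

open Classical in
lemma card_cl (x : Perm (Fin n)) (S : ℕ) (p : Fin n) : #{q | cl x S p q} ≤ 2 * S + 1 := by
  have h1 : ({q | cl x S p q} : Finset (Fin n)) ⊆
      (Finset.Icc (-(S : ℤ)) S).image fun s => (x ^ s) p := by
    intro q hq
    obtain ⟨s, hs, rfl⟩ := (mem_filter.1 hq).2
    rw [mem_image]
    refine ⟨s, ?_, rfl⟩
    rw [mem_Icc]
    omega
  refine (card_le_card h1).trans (card_image_le.trans ?_)
  rw [Int.card_Icc]
  omega

open Classical in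
lemma card_cl' (x : Perm (Fin n)) (S : ℕ) (p : Fin n) : #{q | cl x S q p} ≤ 2 * S + 1 := by
  have h1 : univ.filter (fun q => cl x S q p) = univ.filter (fun q => cl x S p q) := by
    ext q
    simp only [mem_filter, mem_univ, true_and]
    exact ⟨cl_symm, cl_symm⟩
  rw [h1]
  exact card_cl x S p

/-- the path does not change if the values which it reads do not change -/
lemma hd_congr {x y y' : Perm (Fin n)} {t : ℕ → ℕ} {p : Fin n} {M : ℕ}
    (h : ∀ j < M, y' ((x ^ t j) (hd x y t p j)) = hd x y t p (j + 1)) :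
    ∀ j ≤ M, hd x y' t p j = hd x y t p j := by
  intro j
  induction j with
  | zero => intro _; rfl
  | succ j ih =>
    intro hj
    rw [hd_succ, ih (by omega), h j (by omega)]

/-- the path does not change under a switch -/
lemma hd_swap {x y : Perm (Fin n)} {t : ℕ → ℕ} {p q z : Fin n} {M : ℕ}
    (h : ∀ j, 1 ≤ j → j ≤ M → hd x y t p j ≠ q ∧ hd x y t p j ≠ z) :
    ∀ j ≤ M, hd x (swap q z * y) t p j = hd x y t p j := by
  apply hd_congr
  intro j hj
  rw [Perm.mul_apply, ← hd_succ]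
  obtain ⟨h1, h2⟩ := h (j + 1) (by omega) (by omega)
  exact swap_apply_of_ne_of_ne h1 h2

/-- the point of the path of `a i` at time `M` is far away from all other points of the paths -/
def Iso (x y : Perm (Fin n)) (S : ℕ) (t : ℕ → ℕ) {r : ℕ} (a : Fin r → Fin n) (M : ℕ)
    (i : Fin r) : Prop :=
  S < cyl x (hd x y t (a i) M) ∧
  ∀ (i' : Fin r) (j : ℕ), 1 ≤ j → j ≤ M → (i', j) ≠ (i, M) →
    ¬ cl x S (hd x y t (a i') j) (hd x y t (a i) M)

/-- the two paths of `a i` come together after time `M` -/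
def Cls (x y : Perm (Fin n)) (t t' : ℕ → ℕ) {r : ℕ} (a : Fin r → Fin n) (M : ℕ)
    (i : Fin r) : Prop :=
  (x ^ t M) (hd x y t (a i) M) = (x ^ t' M) (hd x y t' (a i) M)

section switch

variable (x : Perm (Fin n)) (S : ℕ) (t t' : ℕ → ℕ) {r : ℕ} (a : Fin r → Fin n) (M : ℕ)

/-- closed and isolated -/
def CI (y : Perm (Fin n)) (i : Fin r) : Prop :=
  Cls x y t t' a M i ∧ Iso x y S t a M i ∧ Iso x y S t' a M i

open Classical in
/-- the allowed new points -/
def alw (y : Perm (Fin n)) : Finset (Fin n) :=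
  {z | ∀ (i : Fin r) (j : ℕ), 1 ≤ j → j ≤ M →
    ¬ cl x S z (hd x y t (a i) j) ∧ ¬ cl x S z (hd x y t' (a i) j)}

lemma mem_alw {y : Perm (Fin n)} {z : Fin n} : z ∈ alw x S t t' a M y ↔
    ∀ (i : Fin r) (j : ℕ), 1 ≤ j → j ≤ M →
    ¬ cl x S z (hd x y t (a i) j) ∧ ¬ cl x S z (hd x y t' (a i) j) := by
  classical
  unfold alw
  rw [mem_filter]
  exact ⟨fun h => h.2, fun h => ⟨mem_univ _, h⟩⟩

lemma card_alw (y : Perm (Fin n)) : n - 2 * r * M * (2 * S + 1) ≤ #(alw x S t t' a M y) := by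
  classical
  have h1 : (alw x S t t' a M y)ᶜ ⊆ (univ ×ˢ Icc 1 M : Finset (Fin r × ℕ)).biUnion fun s =>
      (({q | cl x S q (hd x y t (a s.1) s.2)} : Finset (Fin n)) ∪
        ({q | cl x S q (hd x y t' (a s.1) s.2)} : Finset (Fin n))) := by
    intro z hz
    rw [mem_compl, mem_alw] at hz
    push Not at hz
    obtain ⟨i, j, h1, h2, h3⟩ := hz
    rw [mem_biUnion]
    refine ⟨(i, j), mem_product.2 ⟨mem_univ _, mem_Icc.2 ⟨h1, h2⟩⟩, ?_⟩
    rw [mem_union, mem_filter, mem_filter]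
    by_cases h4 : cl x S z (hd x y t (a i) j)
    · exact Or.inl ⟨mem_univ _, h4⟩
    · exact Or.inr ⟨mem_univ _, h3 h4⟩
  have h2 := (card_le_card h1).trans card_biUnion_le
  have h3 : ∀ s ∈ (univ ×ˢ Icc 1 M : Finset (Fin r × ℕ)),
      #(({q | cl x S q (hd x y t (a s.1) s.2)} : Finset (Fin n)) ∪
        ({q | cl x S q (hd x y t' (a s.1) s.2)} : Finset (Fin n))) ≤ 2 * (2 * S + 1) := by
    intro s _
    refine (card_union_le _ _).trans ?_
    have e1 := card_cl' x S (hd x y t (a s.1) s.2)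
    have e2 := card_cl' x S (hd x y t' (a s.1) s.2)
    omega
  have h4 := h2.trans (sum_le_sum h3)
  rw [sum_const, card_product, card_univ, Fintype.card_fin, Nat.card_Icc, smul_eq_mul,
    card_compl, Fintype.card_fin, show M + 1 - 1 = M by omega] at h4
  have h5 : r * M * (2 * (2 * S + 1)) = 2 * r * M * (2 * S + 1) := by ring
  omega

variable {x S t t' a M}

lemma CI.q_eq {y : Perm (Fin n)} {i : Fin r} (h : CI x S t t' a M y i) :
    hd x y t' (a i) M = (x ^ ((t M : ℤ) - t' M)) (hd x y t (a i) M) := by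
  have h1 : (x ^ t M) (hd x y t (a i) M) = (x ^ t' M) (hd x y t' (a i) M) := h.1
  rw [sub_eq_neg_add, zpow_add, Perm.mul_apply, zpow_natCast, h1, zpow_neg, zpow_natCast]
  simp

lemma CI.ne1 {y : Perm (Fin n)} {i : Fin r} (h : CI x S t t' a M y i) (hne : t M ≠ t' M)
    (ht : t M ≤ S) (ht' : t' M ≤ S) (i' : Fin r) (j : ℕ) (h1 : 1 ≤ j) (h2 : j ≤ M) :
    hd x y t (a i') j ≠ hd x y t' (a i) M := by
  intro hh
  by_cases h3 : (i', j) = (i, M)
  · obtain ⟨rfl, rfl⟩ := Prod.mk.inj h3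
    rw [h.q_eq] at hh
    exact zpow_ne h.2.1.1 (by omega) (by omega) hh.symm
  · apply h.2.1.2 i' j h1 h2 h3
    rw [hh]
    exact cl_symm (cl_of_pow ht ht' h.1)

lemma CI.ne2 {y : Perm (Fin n)} {i : Fin r} (h : CI x S t t' a M y i) (i' : Fin r) (j : ℕ)
    (h1 : 1 ≤ j) (h2 : j ≤ M) (h3 : (i', j) ≠ (i, M)) :
    hd x y t' (a i') j ≠ hd x y t' (a i) M := by
  intro hh
  apply h.2.2.2 i' j h1 h2 h3
  rw [hh]
  exact cl_refl _ _ _

section
variable {y : Perm (Fin n)} {i : Fin r} {z : Fin n} (h : CI x S t t' a M y i)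
  (hne : t M ≠ t' M) (ht : t M ≤ S) (ht' : t' M ≤ S) (hz : z ∈ alw x S t t' a M y)
include h hne ht ht' hz

lemma sw1 (i' : Fin r) : ∀ j ≤ M,
    hd x (swap (hd x y t' (a i) M) z * y) t (a i') j = hd x y t (a i') j := by
  apply hd_swap
  intro j h1 h2
  refine ⟨h.ne1 hne ht ht' i' j h1 h2, ?_⟩
  rintro rfl
  have := (mem_alw _ _ _ _ _ _).1 hz i' j h1 h2
  exact this.1 (cl_refl _ _ _)

omit hne ht ht' in
lemma sw2 (i' : Fin r) (j : ℕ) (hj : j ≤ M) (hij : (i', j) ≠ (i, M)) :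
    hd x (swap (hd x y t' (a i) M) z * y) t' (a i') j = hd x y t' (a i') j := by
  refine hd_swap (M := j) ?_ j le_rfl
  intro l h1 h2
  refine ⟨h.ne2 i' l h1 (h2.trans hj) ?_, ?_⟩
  · intro hh
    obtain ⟨rfl, rfl⟩ := Prod.mk.inj hh
    apply hij
    have : j = l := by omega
    rw [this]
  · rintro rfl
    have := (mem_alw _ _ _ _ _ _).1 hz i' l h1 (h2.trans hj)
    exact this.2 (cl_refl _ _ _)

omit hne ht ht' in
lemma sw3 (hM : 1 ≤ M) : hd x (swap (hd x y t' (a i) M) z * y) t' (a i) M = z := by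
  obtain ⟨M', rfl⟩ : ∃ M', M = M' + 1 := ⟨M - 1, by omega⟩
  rw [hd_succ x (swap (hd x y t' (a i) (M' + 1)) z * y), sw2 h hz i M' (by omega) (by simp),
    Perm.mul_apply, ← hd_succ, swap_apply_left]

lemma sw4 (i' : Fin r) (hi' : i' ≠ i) (h' : CI x S t t' a M y i') :
    CI x S t t' a M (swap (hd x y t' (a i) M) z * y) i' := by
  have e1 := sw1 h hne ht ht' hz
  have e2 := sw2 h hz
  have hM2 : (i', M) ≠ (i, M) := fun hh => hi' (Prod.mk.inj hh).1
  obtain ⟨c1, ⟨c2, c3⟩, ⟨c4, c5⟩⟩ := h'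
  refine ⟨?_, ⟨?_, ?_⟩, ⟨?_, ?_⟩⟩
  · unfold Cls at c1 ⊢
    rw [e1 i' M le_rfl, e2 i' M le_rfl hM2]
    exact c1
  · rw [e1 i' M le_rfl]
    exact c2
  · intro i'' j h1 h2 h3
    rw [e1 i' M le_rfl, e1 i'' j h2]
    exact c3 i'' j h1 h2 h3
  · rw [e2 i' M le_rfl hM2]
    exact c4
  · intro i'' j h1 h2 h3
    rw [e2 i' M le_rfl hM2]
    by_cases h4 : (i'', j) = (i, M)
    · obtain ⟨rfl, rfl⟩ := Prod.mk.inj h4
      rw [sw3 h hz (by omega)]
      exact ((mem_alw _ _ _ _ _ _).1 hz i' j h1 h2).2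
    · rw [e2 i'' j h2 h4]
      exact c5 i'' j h1 h2 h3

end

variable (x S t t' a M)

open Classical in
/-- the switching lemma -/
theorem switch (hM : 1 ≤ M) (hne : t M ≠ t' M) (ht : t M ≤ S) (ht' : t' M ≤ S)
    (A : Finset (Fin r)) :
    #{y : Perm (Fin n) | ∀ i ∈ A, CI x S t t' a M y i} * (n - 2 * r * M * (2 * S + 1)) ^ #A ≤
      n.factorial := by
  induction A using Finset.induction_on with
  | empty =>
    simp only [card_empty, pow_zero, mul_one]
    refine (card_le_univ _).trans ?_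
    rw [Fintype.card_perm, Fintype.card_fin]
  | insert i A hi ih =>
    rw [card_insert_of_notMem hi, pow_succ, ← mul_assoc]
    refine le_trans ?_ ih
    rw [mul_right_comm]
    refine Nat.mul_le_mul_right _ ?_
    set P : Finset (Perm (Fin n)) := {y | ∀ i' ∈ insert i A, CI x S t t' a M y i'} with hP
    have h1 : #P * (n - 2 * r * M * (2 * S + 1)) ≤ #(P.sigma fun y => alw x S t t' a M y) := by
      rw [card_sigma, ← smul_eq_mul, ← sum_const]
      exact sum_le_sum fun y _ => card_alw x S t t' a M y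
    refine h1.trans ?_
    refine card_le_card_of_injOn (fun s => swap (hd x s.1 t' (a i) M) s.2 * s.1) ?_ ?_
    · rintro ⟨y, z⟩ hs
      rw [mem_coe, mem_sigma, hP, mem_filter] at hs
      obtain ⟨⟨-, hy⟩, hz⟩ := hs
      have hy' : ∀ i' ∈ insert i A, CI x S t t' a M y i' := hy
      have hz' : z ∈ alw x S t t' a M y := hz
      rw [mem_coe, mem_filter]
      refine ⟨mem_univ _, fun i' hi' => ?_⟩
      exact sw4 (hy' i (mem_insert_self _ _)) hne ht ht' hz' i' (fun e => hi (e ▸ hi'))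
        (hy' i' (mem_insert_of_mem hi'))
    · rintro ⟨y, z⟩ hs ⟨y₂, z₂⟩ hs₂ heq
      rw [mem_coe, mem_sigma, hP, mem_filter] at hs hs₂
      obtain ⟨⟨-, hy⟩, hz⟩ := hs
      obtain ⟨⟨-, hy₂⟩, hz₂⟩ := hs₂
      have c : CI x S t t' a M y i := hy i (mem_insert_self _ _)
      have c₂ : CI x S t t' a M y₂ i := hy₂ i (mem_insert_self _ _)
      have hz' : z ∈ alw x S t t' a M y := hz
      have hz₂' : z₂ ∈ alw x S t t' a M y₂ := hz₂
      have heq' : swap (hd x y t' (a i) M) z * y = swap (hd x y₂ t' (a i) M) z₂ * y₂ := heq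
      have e1 := sw3 c hz' hM
      have e2 := sw3 c₂ hz₂' hM
      rw [heq', e2] at e1
      have e3 := sw1 c hne ht ht' hz' i M le_rfl
      have e4 := sw1 c₂ hne ht ht' hz₂' i M le_rfl
      rw [heq', e4] at e3
      have e5 : hd x y t' (a i) M = hd x y₂ t' (a i) M := by
        rw [c.q_eq, c₂.q_eq, e3]
      rw [e5, ← e1] at heq'
      have e6 := mul_left_cancel heq'
      rw [e6, e1]

end switch

end

end Run7.h624.PD
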