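import Pool.Agent.Run7.h624.PD.HS
import Pool.Agent.Run7.h624.DM.Long

/-!
Paths of the words `y^d u` for a random permutation `y`, and the second moment of the number of
pairs of points in the same cycle.
-/

namespace Run7.h624.PD
open RC14 Finset Equiv Run7.h624.DM

noncomputable section

variable {n : ℕ}

/-- the values read on the path of `p` -/
def pt (y : Perm (Fin n)) (c : ℕ → Perm (Fin n)) (p : Fin n) : ℕ → Fin n
  | 0 => p
  | k + 1 => y (c k (pt y c p k))

/-- the places where `y` is read are distinct before `L` -/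
def dis (y : Perm (Fin n)) (c : ℕ → Perm (Fin n)) (p : Fin n) (L : ℕ) : Prop :=
  ∀ i j, i < L → j < L → c i (pt y c p i) = c j (pt y c p j) → i = j

/-- reading a path reveals new values -/
lemma path_bound2 {L : ℕ} (c : ℕ → Perm (Fin n)) (p : Fin n) (E : Finset (Perm (Fin n)))
    (hE : ∀ y ∈ E, dis y c p L) (B : Finset (Tup L n))
    (hB : ∀ y ∈ E, ∀ b0 : Tup L n, (∀ i, b0 i = pt y c p ((i : ℕ) + 1)) → b0 ∈ B) :
    #E * Fintype.card (Tup L n) ≤ #B * n.factorial := by
  have h1 : E ⊆ B.biUnion (fun b0 => E.filter fun y => ∀ i, b0 i = pt y c p ((i : ℕ) + 1)) := by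
    intro y hy
    rw [mem_biUnion]
    have hinj : Function.Injective (fun i : Fin L => pt y c p ((i : ℕ) + 1)) := by
      intro i j hij
      apply Fin.ext
      exact hE y hy i j i.2 j.2 (y.injective hij)
    refine ⟨⟨_, hinj⟩, hB y hy _ fun i => rfl, ?_⟩
    rw [mem_filter]
    exact ⟨hy, fun i => rfl⟩
  have h2 : ∀ b0 ∈ B, #(E.filter fun y => ∀ i, b0 i = pt y c p ((i : ℕ) + 1)) *
      Fintype.card (Tup L n) ≤ n.factorial := by
    intro b0 _
    rcases (E.filter fun y => ∀ i, b0 i = pt y c p ((i : ℕ) + 1)).eq_empty_or_nonempty with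
      h3 | ⟨y0, h3⟩
    · rw [h3]
      simp
    · obtain ⟨h4, h5⟩ := mem_filter.1 h3
      have hinj : Function.Injective (fun i : Fin L => c i (pt y0 c p i)) := by
        intro i j hij
        apply Fin.ext
        exact hE y0 h4 i j i.2 j.2 hij
      rw [← card_mv_perm ⟨_, hinj⟩ b0]
      refine Nat.mul_le_mul_right _ (card_le_card ?_)
      intro y hy
      obtain ⟨h6, h7⟩ := mem_filter.1 hy
      rw [mem_filter]
      refine ⟨mem_univ _, ?_⟩
      have h8 : ∀ i : ℕ, i < L → pt y c p i = pt y0 c p i := by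
        intro i hi
        rcases i with _ | i
        · rfl
        · have h9 := h7 ⟨i, by omega⟩
          have h10 := h5 ⟨i, by omega⟩
          rw [h9] at h10
          exact h10
      ext i
      rw [h7 i, mv_apply]
      show ((y (c i (pt y0 c p i)) : Fin n) : ℕ) = _
      rw [← h8 i i.2]
      rfl
  calc #E * Fintype.card (Tup L n)
      ≤ (∑ b0 ∈ B, #(E.filter fun y => ∀ i, b0 i = pt y c p ((i : ℕ) + 1))) *
        Fintype.card (Tup L n) := Nat.mul_le_mul_right _ ((card_le_card h1).trans card_biUnion_le)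
    _ = ∑ b0 ∈ B, #(E.filter fun y => ∀ i, b0 i = pt y c p ((i : ℕ) + 1)) *
        Fintype.card (Tup L n) := by rw [sum_mul]
    _ ≤ ∑ _b0 ∈ B, n.factorial := sum_le_sum h2
    _ = _ := by rw [sum_const, smul_eq_mul]

/-- a coincidence determines the last value -/
lemma coin_bound (c : ℕ → Perm (Fin n)) (p : Fin n) (k j : ℕ) (hj : j ≤ k) (hk : k < n)
    (E : Finset (Perm (Fin n))) (hE : ∀ y ∈ E, dis y c p (k + 1) ∧
      c (k + 1) (pt y c p (k + 1)) = c j (pt y c p j)) :
    #E * (n - k) ≤ n.factorial := by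
  classical
  set B : Finset (Tup (k + 1) n) := {b | c (k + 1) (b (Fin.last k)) =
    c j (if h : j = 0 then p else b ⟨j - 1, by omega⟩)} with hB
  have h1 := path_bound2 (L := k + 1) c p E (fun y hy => (hE y hy).1) B (by
    intro y hy b0 hb0
    rw [hB, mem_filter]
    refine ⟨mem_univ _, ?_⟩
    rw [hb0, Fin.val_last, (hE y hy).2]
    congr 1
    split_ifs with h
    · rw [h]; rfl
    · rw [hb0]
      congr 1
      show j = j - 1 + 1
      omega)
  have h2 : #B ≤ Fintype.card (Tup k n) := by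
    rw [← card_univ]
    refine card_le_card_of_injOn (fun b => (Fin.castSuccEmb.trans b : Tup k n)) ?_ ?_
    · intro b _
      exact mem_coe.2 (mem_univ _)
    · intro b hb b' hb' hbb
      have e1 := (mem_filter.1 hb).2
      have e2 := (mem_filter.1 hb').2
      have e3 : ∀ i : Fin k, b i.castSucc = b' i.castSucc := fun i =>
        congrArg (fun z : Tup k n => z i) hbb
      have e4 : (if h : j = 0 then p else b ⟨j - 1, by omega⟩) =
          (if h : j = 0 then p else b' ⟨j - 1, by omega⟩) := by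
        split_ifs with h
        · rfl
        · exact e3 ⟨j - 1, by omega⟩
      rw [e4, ← e2] at e1
      have e5 := (c (k + 1)).injective e1
      ext i
      refine Fin.lastCases ?_ (fun i => ?_) i
      · exact congrArg Fin.val e5
      · exact congrArg Fin.val (e3 i)
  have h3 : Fintype.card (Tup (k + 1) n) = (n - k) * Fintype.card (Tup k n) := by
    rw [Fintype.card_embedding_eq, Fintype.card_embedding_eq, Fintype.card_fin, Fintype.card_fin,
      Fintype.card_fin, Nat.descFactorial_succ]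
  have h4 : 0 < Fintype.card (Tup k n) := by
    have : Nonempty (Tup k n) := ⟨Fin.castLEEmb hk.le⟩
    exact Fintype.card_pos
  rw [h3] at h1
  have h5 : Fintype.card (Tup k n) * (#E * (n - k)) ≤ Fintype.card (Tup k n) * n.factorial := by
    calc Fintype.card (Tup k n) * (#E * (n - k)) = #E * ((n - k) * Fintype.card (Tup k n)) := by
          ring
      _ ≤ #B * n.factorial := h1
      _ ≤ _ := Nat.mul_le_mul_right _ h2
  exact Nat.le_of_mul_le_mul_left h5 h4

section powers
variable (d : ℕ) (u : Perm (Fin n))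

/-- the constants of the word `(y^d u)^m` -/
def cc (k : ℕ) : Perm (Fin n) := if d ∣ k then u else 1

variable {d u}

lemma pt_pow (hd : 1 ≤ d) (y : Perm (Fin n)) (p : Fin n) (m : ℕ) :
    pt y (cc d u) p (m * d) = ((y ^ d * u) ^ m) p := by
  induction m with
  | zero => rw [zero_mul]; rfl
  | succ m ih =>
    have h1 : ∀ i, 1 ≤ i → i ≤ d → pt y (cc d u) p (m * d + i) =
        (y ^ i) (u (((y ^ d * u) ^ m) p)) := by
      intro i hi hid
      induction i with
      | zero => omega
      | succ i ihi =>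
        rcases Nat.eq_zero_or_pos i with h0 | h0
        · subst h0
          show y (cc d u (m * d) (pt y (cc d u) p (m * d))) = _
          rw [ih]
          unfold cc
          rw [if_pos (Dvd.intro_left m rfl), zero_add, pow_one]
        · show y (cc d u (m * d + i) (pt y (cc d u) p (m * d + i))) = _
          rw [ihi h0 (by omega)]
          unfold cc
          rw [if_neg]
          · rw [pow_succ', Perm.mul_apply]; rfl
          · rw [Nat.dvd_add_right (Dvd.intro_left m rfl)]
            intro h2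
            have := Nat.le_of_dvd h0 h2
            omega
    rw [show (m + 1) * d = m * d + d by ring, h1 d hd le_rfl, pow_succ', Perm.mul_apply,
      Perm.mul_apply]

/-- the tuples with the return values in `S` -/
lemma card_ret (S : Finset (Fin n)) (t : ℕ) (hd : 1 ≤ d) :
    #{b : Tup (t * d) n | ∀ i : Fin (t * d), d ∣ (i : ℕ) + 1 → b i ∈ S} ≤
      #S ^ t * n ^ (t * d - t) := by
  classical
  have h1 : #{b : Tup (t * d) n | ∀ i : Fin (t * d), d ∣ (i : ℕ) + 1 → b i ∈ S} ≤
      #(Fintype.piFinset fun i : Fin (t * d) => if d ∣ (i : ℕ) + 1 then S else univ) := by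
    refine card_le_card_of_injOn (fun b => (b : Fin (t * d) → Fin n)) ?_ ?_
    · intro b hb
      have hb' := (mem_filter.1 hb).2
      rw [mem_coe, Fintype.mem_piFinset]
      intro i
      split_ifs with h
      · exact hb' i h
      · exact mem_univ _
    · intro a _ b _ hab
      exact DFunLike.coe_injective hab
  refine h1.trans (le_of_eq ?_)
  rw [Fintype.card_piFinset]
  have h2 : ∏ i : Fin (t * d), #(if d ∣ (i : ℕ) + 1 then S else univ) =
      ∏ i ∈ range (t * d), (if d ∣ i + 1 then #S else n) := by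
    rw [← Fin.prod_univ_eq_prod_range (fun i => if d ∣ i + 1 then #S else n)]
    refine prod_congr rfl fun i _ => ?_
    split_ifs
    · rfl
    · rw [card_univ, Fintype.card_fin]
  rw [h2, prod_ite, prod_const, prod_const]
  have h3 : #{i ∈ range (t * d) | d ∣ i + 1} = t := by
    rw [Nat.card_multiples, Nat.mul_div_cancel _ hd]
  have h4 := card_filter_add_card_filter_not (s := range (t * d)) (fun i => d ∣ i + 1)
  rw [card_range, h3] at h4
  rw [h3]
  congr 2
  omega

/-- the probability of staying in `S` -/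
theorem stay2 (hd : 1 ≤ d) (t : ℕ) (p : Fin n) (S : Finset (Fin n)) (hL : 2 * (t * d) < n) :
    (#{y : Perm (Fin n) | ∀ m ≤ t, ((y ^ d * u) ^ m) p ∈ S} : ℝ) ≤
      ((#S : ℝ) ^ t * (n : ℝ) ^ (t * d - t) / Fintype.card (Tup (t * d) n) +
        2 * (t * d : ℕ) ^ 2 / n) * n.factorial := by
  classical
  set L := t * d with hLd
  set c := cc d u with hc
  have hn : 0 < n := by omega
  have hnR : (0 : ℝ) < n := by exact_mod_cast hn
  have hNL : (0 : ℝ) < Fintype.card (Tup L n) := by
    have : Nonempty (Tup L n) := ⟨Fin.castLEEmb (by omega)⟩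
    exact_mod_cast Fintype.card_pos
  set E0 : Finset (Perm (Fin n)) := {y | dis y c p L ∧ ∀ m ≤ t, ((y ^ d * u) ^ m) p ∈ S} with hE0
  set E : ℕ × ℕ → Finset (Perm (Fin n)) := fun v => {y | v.2 ≤ v.1 ∧ dis y c p (v.1 + 1) ∧
    c (v.1 + 1) (pt y c p (v.1 + 1)) = c v.2 (pt y c p v.2)} with hEd
  have hcov : ({y : Perm (Fin n) | ∀ m ≤ t, ((y ^ d * u) ^ m) p ∈ S} : Finset _) ⊆
      E0 ∪ (range L ×ˢ range L).biUnion E := by
    intro y hy
    have hy' := (mem_filter.1 hy).2
    rw [mem_union]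
    by_cases h1 : dis y c p L
    · left
      rw [hE0, mem_filter]
      exact ⟨mem_univ _, h1, hy'⟩
    · right
      have h2 : ∃ k, k < L ∧ ∃ j < k, c k (pt y c p k) = c j (pt y c p j) := by
        unfold dis at h1
        push Not at h1
        obtain ⟨i, j, hi, hj, hij, hne⟩ := h1
        rcases lt_or_gt_of_ne hne with h | h
        · exact ⟨j, hj, i, h, hij.symm⟩
        · exact ⟨i, hi, j, h, hij⟩
      obtain ⟨h3, j, hj, h4⟩ := Nat.find_spec h2
      have h5 := fun k (hk : k < Nat.find h2) => Nat.find_min h2 hk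
      set k := Nat.find h2 with hk
      obtain ⟨k', hk'⟩ : ∃ k', k = k' + 1 := ⟨k - 1, by omega⟩
      rw [hk'] at h3 hj h4 h5
      rw [mem_biUnion]
      refine ⟨(k', j), ?_, ?_⟩
      · rw [mem_product, mem_range, mem_range]
        constructor
        · show k' < L; omega
        · show j < L; omega
      · rw [hEd, mem_filter]
        refine ⟨mem_univ _, ?_, ?_, h4⟩
        · show j ≤ k'; omega
        · intro i i' hi hi' hii
          by_contra hne
          have hi1 : i < k' + 1 := hi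
          have hi1' : i' < k' + 1 := hi'
          rcases lt_or_gt_of_ne hne with h | h
          · exact h5 i' hi1' ⟨by omega, i, h, hii.symm⟩
          · exact h5 i hi1 ⟨by omega, i', h, hii⟩
  have b0 : (#E0 : ℝ) ≤ (#S : ℝ) ^ t * (n : ℝ) ^ (L - t) / Fintype.card (Tup L n) *
      n.factorial := by
    have h1 := path_bound2 (L := L) c p E0 (fun y hy => (mem_filter.1 hy).2.1)
      {b : Tup L n | ∀ i : Fin L, d ∣ (i : ℕ) + 1 → b i ∈ S} (by
        intro y hy b hb
        rw [mem_filter]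
        refine ⟨mem_univ _, fun i hi => ?_⟩
        rw [hb]
        obtain ⟨m, hm⟩ := hi
        rw [hm, mul_comm, hc, pt_pow hd]
        apply (mem_filter.1 hy).2.2
        have h2 : d * m ≤ t * d := by rw [← hm]; have := i.2; omega
        rw [mul_comm t d] at h2
        exact Nat.le_of_mul_le_mul_left h2 hd)
    have h2 := card_ret (n := n) (d := d) S t hd
    have h3 : (#E0 : ℝ) * Fintype.card (Tup L n) ≤ ((#S : ℝ) ^ t * (n : ℝ) ^ (L - t)) *
        n.factorial := by exact_mod_cast h1.trans (Nat.mul_le_mul_right _ h2)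
    rw [div_mul_eq_mul_div, le_div_iff₀ hNL]
    exact h3
  have b1 : ∀ v ∈ range L ×ˢ range L, (#(E v) : ℝ) ≤ 2 / n * n.factorial := by
    intro v hv
    rw [mem_product, mem_range, mem_range] at hv
    by_cases hvv : v.2 ≤ v.1
    · have h1 := coin_bound c p v.1 v.2 hvv (by omega) (E v) (fun y hy => (mem_filter.1 hy).2.2)
      have h2 : (#(E v) : ℝ) * (n - v.1 : ℕ) ≤ n.factorial := by exact_mod_cast h1
      have h3 : (n : ℝ) / 2 ≤ (n - v.1 : ℕ) := by
        rw [Nat.cast_sub (by omega)]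
        have : (2 * v.1 : ℝ) ≤ n := by exact_mod_cast (show 2 * v.1 ≤ n by omega)
        linarith
      rw [div_mul_eq_mul_div, le_div_iff₀ hnR]
      have h4 : (#(E v) : ℝ) * (n / 2) ≤ n.factorial :=
        (mul_le_mul_of_nonneg_left h3 (Nat.cast_nonneg _)).trans h2
      linarith
    · have : E v = ∅ := by
        rw [hEd]
        simp only
        rw [filter_eq_empty_iff]
        rintro y - ⟨h, -⟩
        exact hvv h
      rw [this, card_empty]
      push_cast
      positivity
  calc (#{y : Perm (Fin n) | ∀ m ≤ t, ((y ^ d * u) ^ m) p ∈ S} : ℝ)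
      ≤ (#E0 : ℝ) + ∑ v ∈ range L ×ˢ range L, (#(E v) : ℝ) := by
        have h1 := (card_le_card hcov).trans (card_union_le _ _)
        have h2 := card_biUnion_le (s := range L ×ˢ range L) (t := E)
        have h3 := h1.trans (Nat.add_le_add_left h2 _)
        exact_mod_cast h3
    _ ≤ (#S : ℝ) ^ t * (n : ℝ) ^ (L - t) / Fintype.card (Tup L n) * n.factorial +
        ∑ v ∈ range L ×ˢ range L, (2 / n * n.factorial : ℝ) := add_le_add b0 (sum_le_sum b1)
    _ = _ := by
        rw [sum_const, card_product, card_range, nsmul_eq_mul]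
        push_cast
        ring

end powers

/-! ### the second moment -/

section Fam

variable {K : Type*} [Fintype K]

open Classical in
/-- the average number of pairs with bad exits -/
lemma sum_nb_gen {t : ℕ} {y : K → Perm (Fin n)} (u : Perm (Fin n)) (b : Fin n) (β : ℝ)
    (h1 : ∀ p, (#{κ | ∀ m ≤ t, u.SameCycle b (((y κ * u) ^ m) p)} : ℝ) ≤ β * Fintype.card K) :
    (∑ κ, (nb u (y κ) b t : ℝ)) ≤ (2 * (n : ℝ) ^ 2 * β + (t + 1) ^ 2 * n) * Fintype.card K := by
  set P : K → Fin n → Prop := fun κ p => ∀ m ≤ t, u.SameCycle b (((y κ * u) ^ m) p) with hP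
  have h2 : ∀ κ, (nb u (y κ) b t : ℝ) ≤ n * #{p | P κ p} + n * #{p | P κ p} + (t + 1) ^ 2 * n := by
    intro κ
    have h3 : ({x : Fin n × Fin n | ¬ Dst u (y κ) b t x.1 x.2} : Finset _) ⊆
        (({x : Fin n × Fin n | P κ x.1} : Finset _) ∪ ({x : Fin n × Fin n | P κ x.2} : Finset _)) ∪
        ({x : Fin n × Fin n | ∃ i ≤ t, ∃ j ≤ t, ((y κ * u) ^ i) x.1 = ((y κ * u) ^ j) x.2} :
          Finset _) := by
      intro x hx
      have hx' := (mem_filter.1 hx).2
      rw [mem_union, mem_union]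
      rcases not_Dst hx' with h | h | h
      · exact Or.inl (Or.inl (mem_filter.2 ⟨mem_univ _, h⟩))
      · exact Or.inl (Or.inr (mem_filter.2 ⟨mem_univ _, h⟩))
      · exact Or.inr (mem_filter.2 ⟨mem_univ _, h⟩)
    have h4 : #{x : Fin n × Fin n | P κ x.1} = n * #{p | P κ p} := by
      have e : ({x : Fin n × Fin n | P κ x.1} : Finset _) =
          ({p | P κ p} : Finset (Fin n)) ×ˢ (univ : Finset (Fin n)) := by
        ext x; simp
      rw [e, card_product, card_univ, Fintype.card_fin, mul_comm]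
    have h5 : #{x : Fin n × Fin n | P κ x.2} = n * #{p | P κ p} := by
      have e : ({x : Fin n × Fin n | P κ x.2} : Finset _) =
          (univ : Finset (Fin n)) ×ˢ ({p | P κ p} : Finset (Fin n)) := by
        ext x; simp
      rw [e, card_product, card_univ, Fintype.card_fin]
    have h6 : #{x : Fin n × Fin n | ∃ i ≤ t, ∃ j ≤ t,
        ((y κ * u) ^ i) x.1 = ((y κ * u) ^ j) x.2} ≤ (t + 1) ^ 2 * n := by
      convert card_close (y κ * u) t
    have h7 := (card_le_card h3).trans ((card_union_le _ _).trans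
      (Nat.add_le_add (card_union_le _ _) h6))
    rw [h4, h5] at h7
    unfold nb
    exact_mod_cast h7
  have h3 : ∑ κ, (#{p | P κ p} : ℝ) ≤ n * (β * Fintype.card K) := by
    have h4 : ∑ κ, (#{p | P κ p} : ℝ) = ∑ p, (#{κ | P κ p} : ℝ) := by
      simp only [card_filter]
      push_cast
      rw [sum_comm]
    rw [h4]
    calc ∑ p, (#{κ | P κ p} : ℝ) ≤ ∑ _p : Fin n, β * Fintype.card K := sum_le_sum fun p _ => h1 p
      _ = _ := by rw [sum_const, card_univ, Fintype.card_fin, nsmul_eq_mul]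
  calc ∑ κ, (nb u (y κ) b t : ℝ)
      ≤ ∑ κ, (n * #{p | P κ p} + n * #{p | P κ p} + (t + 1) ^ 2 * n : ℝ) :=
        sum_le_sum fun κ _ => h2 κ
    _ = 2 * n * ∑ κ, (#{p | P κ p} : ℝ) + Fintype.card K * ((t + 1) ^ 2 * n) := by
        rw [sum_add_distrib, sum_add_distrib, sum_const, card_univ, nsmul_eq_mul, ← mul_sum]
        ring
    _ ≤ 2 * n * (n * (β * Fintype.card K)) + Fintype.card K * ((t + 1) ^ 2 * n) := by gcongr
    _ = _ := by ring

open Classical in
/-- points in very long cycles -/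
lemma card_very_long {η0 : ℝ} (h0 : 0 < η0) (h1 : η0 ≤ 1) (hn : 0 < n) :
    (#{x : Perm (Fin n) × Fin n | (1 - η0) * n < cyl x.1 x.2} : ℝ) ≤
        (η0 * n + 1) * n.factorial := by
  have hn1 : (0 : ℝ) < n := by exact_mod_cast hn
  have h2 := card_window (n := n) (a := (1 - η0) * n) (c := n)
    (mul_nonneg (by linarith) hn1.le) (by nlinarith)
  have h3 : (#{x : Perm (Fin n) × Fin n | (1 - η0) * n < cyl x.1 x.2} : ℝ) =
      #{x : Perm (Fin n) × Fin n | (1 - η0) * n < cyl x.1 x.2 ∧ (cyl x.1 x.2 : ℝ) ≤ n} := by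
    congr 2
    ext x
    simp only [mem_filter, mem_univ, true_and]
    constructor
    · exact fun h => ⟨h, by exact_mod_cast cyl_le x.1 x.2⟩
    · exact fun h => h.1
  rw [h3]
  refine h2.trans (le_of_eq ?_)
  ring

open Classical in
/-- the second moment from a bound for the probability of staying -/
theorem second_of (η : ℝ) (hη : 0 < η) (hη1 : η ≤ 1) (t : ℕ) : ∃ n0 : ℕ, ∀ n ≥ n0,
    ∀ (K : Type) [Fintype K] (y : K → Perm (Fin n)),
    (∀ (u : Perm (Fin n)) (b : Fin n), (cyl u b : ℝ) ≤ (1 - η / 4) * n → ∀ p,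
      (#{κ | ∀ m ≤ t, u.SameCycle b (((y κ * u) ^ m) p)} : ℝ) ≤ η / 8 * Fintype.card K) →
    ∑ κ, ∑ u : Perm (Fin n), (cnt u * cnt (y κ * u) : ℝ) ≤
      Fintype.card K * n.factorial * n ^ 4 * (1 / 4 + η) := by
  set η0 : ℝ := η / 4 with hη0
  obtain ⟨n0, hn0⟩ := exists_nat_ge ((4 * (2 + (t + 1) ^ 2) + 1) / η : ℝ)
  refine ⟨n0, ?_⟩
  intro n hn K _ y hy
  have ht0 : (0 : ℝ) ≤ t := Nat.cast_nonneg t
  have hnR : (4 * (2 + (t + 1) ^ 2) + 1 : ℝ) ≤ η * n := by
    have h1 : (n0 : ℝ) ≤ n := by exact_mod_cast hn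
    have h2 := hn0.trans h1
    rw [div_le_iff₀ hη] at h2
    linarith
  have hn1 : (0 : ℝ) < n := by
    by_contra hcon
    push Not at hcon
    nlinarith
  have hfac : (0 : ℝ) < n.factorial := by exact_mod_cast Nat.factorial_pos n
  -- the bad part
  have hbad : ∑ κ, ∑ u : Perm (Fin n), ∑ b, (nb u (y κ) b t : ℝ) ≤
      Fintype.card K * n.factorial * n ^ 3 *
        (2 * (η / 8) + (t + 1) ^ 2 / n + (η0 + 1 / n)) := by
    have h1 : ∑ κ, ∑ u : Perm (Fin n), ∑ b, (nb u (y κ) b t : ℝ) =
        ∑ x : Perm (Fin n) × Fin n, ∑ κ, (nb x.1 (y κ) x.2 t : ℝ) := by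
      rw [Fintype.sum_prod_type, sum_comm]
      refine sum_congr rfl fun u _ => ?_
      rw [sum_comm]
    rw [h1]
    set M1 : ℝ := (2 * (n : ℝ) ^ 2 * (η / 8) + (t + 1) ^ 2 * n) * Fintype.card K with hM1
    have hM1' : 0 ≤ M1 := by positivity
    have h2 : ∀ x : Perm (Fin n) × Fin n, ∑ κ, (nb x.1 (y κ) x.2 t : ℝ) ≤
        M1 + (if (1 - η0) * n < cyl x.1 x.2 then (Fintype.card K : ℝ) * n ^ 2 else 0) := by
      intro x
      split_ifs with h3
      · have h4 : ∑ κ, (nb x.1 (y κ) x.2 t : ℝ) ≤ ∑ _κ : K, (n : ℝ) ^ 2 :=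
          sum_le_sum fun κ _ => by exact_mod_cast nb_le x.1 (y κ) x.2 t
        rw [sum_const, card_univ, nsmul_eq_mul] at h4
        linarith
      · push Not at h3
        rw [add_zero]
        exact sum_nb_gen x.1 x.2 (η / 8) (hy x.1 x.2 h3)
    refine (sum_le_sum fun x _ => h2 x).trans ?_
    rw [sum_add_distrib, sum_const, card_univ, Fintype.card_prod, Fintype.card_perm,
      Fintype.card_fin, nsmul_eq_mul, ← sum_filter, sum_const, nsmul_eq_mul]
    have h3 := card_very_long (n := n) (η0 := η0) (by positivity) (by rw [hη0]; linarith)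
      (by exact_mod_cast hn1)
    calc ((n.factorial * n : ℕ) : ℝ) * M1 +
          (#{x : Perm (Fin n) × Fin n | (1 - η0) * n < cyl x.1 x.2} : ℝ) *
            ((Fintype.card K : ℝ) * n ^ 2)
        ≤ ((n.factorial * n : ℕ) : ℝ) * M1 + ((η0 * n + 1) * n.factorial) *
            ((Fintype.card K : ℝ) * n ^ 2) := by gcongr
      _ = _ := by
          rw [hM1]
          push_cast
          field_simp
  -- summing the pair bounds
  have hpair : ∀ κ, ∑ u : Perm (Fin n), (cnt u * cnt (y κ * u) : ℝ) ≤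
      n ^ 2 / 2 * (n.factorial * (n ^ 2 + n) / 2) +
        n * ∑ u : Perm (Fin n), ∑ b, (nb u (y κ) b t : ℝ) := by
    intro κ
    have h1 := sum_pair (y κ) t
    have h2 : (2 * ∑ u : Perm (Fin n), (cnt u * cnt (y κ * u) : ℝ)) ≤
        n ^ 2 * ∑ u : Perm (Fin n), (cnt u : ℝ) +
          2 * (n * ∑ u : Perm (Fin n), ∑ b, (nb u (y κ) b t : ℝ)) := by exact_mod_cast h1
    have h3 : 2 * ∑ u : Perm (Fin n), (cnt u : ℝ) = n.factorial * (n ^ 2 + n) := by
      exact_mod_cast sum_cnt (n := n)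
    have h4 : ∑ u : Perm (Fin n), (cnt u : ℝ) = n.factorial * (n ^ 2 + n) / 2 := by linarith
    rw [h4] at h2
    linarith
  calc ∑ κ, ∑ u : Perm (Fin n), (cnt u * cnt (y κ * u) : ℝ)
      ≤ ∑ κ, (n ^ 2 / 2 * (n.factorial * (n ^ 2 + n) / 2) +
        n * ∑ u : Perm (Fin n), ∑ b, (nb u (y κ) b t : ℝ)) := sum_le_sum fun κ _ => hpair κ
    _ = Fintype.card K * (n ^ 2 / 2 * (n.factorial * (n ^ 2 + n) / 2)) +
        n * ∑ κ, ∑ u : Perm (Fin n), ∑ b, (nb u (y κ) b t : ℝ) := by
        rw [sum_add_distrib, sum_const, card_univ, nsmul_eq_mul, ← mul_sum]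
    _ ≤ Fintype.card K * (n ^ 2 / 2 * (n.factorial * (n ^ 2 + n) / 2)) +
        n * (Fintype.card K * n.factorial * n ^ 3 *
        (2 * (η / 8) + (t + 1) ^ 2 / n + (η0 + 1 / n))) := by gcongr
    _ = Fintype.card K * n.factorial * n ^ 4 * (1 / 4 + 1 / (4 * n) +
        (2 * (η / 8) + (t + 1) ^ 2 / n + (η0 + 1 / n))) := by
        field_simp
        ring
    _ ≤ _ := by
        have h5 : 1 / (4 * n) + (2 * (η / 8) + (t + 1) ^ 2 / n + (η0 + 1 / n)) ≤ η := by
          have h6 : 1 / (4 * n) + ((t + 1) ^ 2 / n + 1 / n : ℝ) ≤ η / 4 := by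
            have : 1 / (4 * n) + ((t + 1) ^ 2 / n + 1 / n : ℝ) =
                (1 / 4 + (t + 1) ^ 2 + 1) / n := by
              field_simp
              ring
            rw [this, div_le_iff₀ hn1]
            linarith
          have h9 : η0 = η / 4 := rfl
          linarith
        have : 1 / 4 + 1 / (4 * n) + (2 * (η / 8) + (t + 1) ^ 2 / n +
            (η0 + 1 / n)) ≤ 1 / 4 + η := by linarith
        gcongr

end Fam

/-- the ratio of powers and falling factorials -/
lemma pow_div_card {L : ℕ} (hn : 1 ≤ n) (hL : 2 * L ^ 2 ≤ n) :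
    (n : ℝ) ^ L ≤ 2 * Fintype.card (Tup L n) := by
  have hnR : (0 : ℝ) < n := by exact_mod_cast hn
  have hLn : L ≤ n := by nlinarith
  have h1 : ((n + 1 - L : ℕ) : ℝ) ^ L ≤ Fintype.card (Tup L n) := by
    rw [Fintype.card_embedding_eq, Fintype.card_fin, Fintype.card_fin]
    exact_mod_cast Nat.pow_sub_le_descFactorial n L
  have h2 : ((n + 1 - L : ℕ) : ℝ) = n + 1 - L := by
    rw [Nat.cast_sub (by omega)]
    push_cast
    ring
  have h3 : (n : ℝ) ^ L * (1 - L * (L / n)) ≤ (n - L : ℝ) ^ L := by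
    have h4 := one_add_mul_le_pow (a := -((L : ℝ) / n)) (by
      have : (L : ℝ) / n ≤ 1 := by rw [div_le_one hnR]; exact_mod_cast hLn
      linarith) L
    have h5 : (n - L : ℝ) ^ L = (n : ℝ) ^ L * (1 + -((L : ℝ) / n)) ^ L := by
      rw [← mul_pow]
      congr 1
      field_simp
      ring
    rw [h5]
    apply mul_le_mul_of_nonneg_left _ (by positivity)
    calc (1 : ℝ) - L * (L / n) = 1 + L * -((L : ℝ) / n) := by ring
      _ ≤ _ := h4
  have h4 : (L : ℝ) * (L / n) ≤ 1 / 2 := by
    rw [mul_div_assoc', div_le_iff₀ hnR]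
    have : (2 * L ^ 2 : ℝ) ≤ n := by exact_mod_cast hL
    nlinarith
  have h5 : (n - L : ℝ) ^ L ≤ (n + 1 - L : ℝ) ^ L := by
    have : (0 : ℝ) ≤ n - L := by
      have : (L : ℝ) ≤ n := by exact_mod_cast hLn
      linarith
    gcongr
    linarith
  rw [h2] at h1
  have h6 : (0 : ℝ) ≤ (n : ℝ) ^ L := by positivity
  nlinarith

/-- the second moment for the powers of a random permutation -/
theorem second_pow (η : ℝ) (hη : 0 < η) (hη1 : η ≤ 1) (d : ℕ) (hd : 1 ≤ d) : ∃ n0 : ℕ, ∀ n ≥ n0,
    ∑ y : Perm (Fin n), ∑ u : Perm (Fin n), (cnt u * cnt (y ^ d * u) : ℝ) ≤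
      (n.factorial : ℝ) ^ 2 * n ^ 4 * (1 / 4 + η) := by
  classical
  obtain ⟨t, ht⟩ := exists_pow_lt_of_lt_one (show (0 : ℝ) < η / 32 by positivity)
    (show 1 - η / 4 < 1 by linarith)
  obtain ⟨n1, hn1⟩ := second_of η hη hη1 t
  obtain ⟨n2, hn2⟩ := exists_nat_ge ((32 * ((t * d : ℕ) : ℝ) ^ 2 + 1) / η)
  refine ⟨max n1 (max n2 (2 * (t * d) ^ 2 + 2 * (t * d) + 1)), ?_⟩
  intro n hn
  have hn1' : n1 ≤ n := le_trans (le_max_left _ _) hn
  have hn2' : n2 ≤ n := le_trans ((le_max_left _ _).trans (le_max_right _ _)) hn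
  have hn3' : 2 * (t * d) ^ 2 + 2 * (t * d) + 1 ≤ n :=
    le_trans ((le_max_right _ _).trans (le_max_right _ _)) hn
  have hnR : (0 : ℝ) < n := by exact_mod_cast (by omega : 0 < n)
  have hfac : (0 : ℝ) ≤ n.factorial := Nat.cast_nonneg _
  have h1 := hn1 n hn1' (Perm (Fin n)) (fun y => y ^ d) (by
    intro u b hb p
    have h2 := stay2 (u := u) hd t p {q | u.SameCycle b q} (n := n) (by omega)
    have h3 : (#{κ : Perm (Fin n) | ∀ m ≤ t, u.SameCycle b (((κ ^ d * u) ^ m) p)} : ℝ) =
        #{y : Perm (Fin n) | ∀ m ≤ t, ((y ^ d * u) ^ m) p ∈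
          ({q | u.SameCycle b q} : Finset (Fin n))} := by
      congr 2
      ext y
      simp only [mem_filter, mem_univ, true_and]
    rw [h3, Fintype.card_perm, Fintype.card_fin]
    refine h2.trans ?_
    apply mul_le_mul_of_nonneg_right _ hfac
    have h4 : ((#{q | u.SameCycle b q} : ℕ) : ℝ) = cyl u b := rfl
    rw [h4]
    have h5 := pow_div_card (n := n) (L := t * d) (by omega) (by omega)
    have hN : (0 : ℝ) < Fintype.card (Tup (t * d) n) := by
      have : (0 : ℝ) < (n : ℝ) ^ (t * d) := by positivity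
      linarith
    have h6 : (cyl u b : ℝ) ^ t * (n : ℝ) ^ (t * d - t) / Fintype.card (Tup (t * d) n) ≤ η / 16 := by
      rw [div_le_iff₀ hN]
      calc (cyl u b : ℝ) ^ t * (n : ℝ) ^ (t * d - t) ≤ ((1 - η / 4) * n) ^ t * (n : ℝ) ^ (t * d - t) := by
            gcongr
        _ = (1 - η / 4) ^ t * ((n : ℝ) ^ t * (n : ℝ) ^ (t * d - t)) := by rw [mul_pow]; ring
        _ = (1 - η / 4) ^ t * (n : ℝ) ^ (t * d) := by
            rw [← pow_add]
            congr 2
            have : t ≤ t * d := Nat.le_mul_of_pos_right t hd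
            omega
        _ ≤ η / 32 * (2 * Fintype.card (Tup (t * d) n)) := by
            have : (0 : ℝ) ≤ 1 - η / 4 := by linarith
            gcongr
        _ = _ := by ring
    have h7 : 2 * ((t * d : ℕ) : ℝ) ^ 2 / n ≤ η / 16 := by
      rw [div_le_iff₀ hnR]
      have h8 : (n2 : ℝ) ≤ n := by exact_mod_cast hn2'
      have h9 := hn2.trans h8
      rw [div_le_iff₀ hη] at h9
      linarith
    linarith)
  rw [Fintype.card_perm, Fintype.card_fin] at h1
  refine h1.trans (le_of_eq ?_)
  ring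

end

end Run7.h624.PD
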