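import Pool.Agent.Run7.h624.PD.First
import Pool.Agent.Run7.h624.DM.Det

/-!
Typical pairs of permutations.
-/

namespace Run7.h624.PD
open RC14 Finset Equiv Run7.h624.DM Filter Topology

noncomputable section

variable {n r : ℕ}

lemma card_Tup_le (r n : ℕ) : (Fintype.card (Tup r n) : ℝ) ≤ (n : ℝ) ^ r := by
  rw [Fintype.card_embedding_eq, Fintype.card_fin, Fintype.card_fin]
  exact_mod_cast Nat.descFactorial_le_pow n r

lemma pow_ratio {N n W : ℝ} {r : ℕ} (hn : 0 < n) (hN : N ≤ n ^ r) (hW : 0 ≤ W)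
    (hrW : 2 * (r * W) ≤ n) (hWn : W < n) : N / (n - W) ^ r ≤ 1 + 2 * (r * W / n) := by
  have hX : 0 < n - W := by linarith
  have h1 : 1 - r * W / n ≤ (1 - W / n) ^ r := by
    have h2 := one_add_mul_le_pow (a := -(W / n)) (by
      have : W / n ≤ 1 := by rw [div_le_one hn]; exact hWn.le
      linarith) r
    calc 1 - r * W / n = 1 + r * -(W / n) := by ring
      _ ≤ (1 + -(W / n)) ^ r := h2
      _ = _ := by ring
  have h3 : (n - W) ^ r = n ^ r * (1 - W / n) ^ r := by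
    rw [← mul_pow]
    congr 1
    field_simp
  have h4 : r * W / n ≤ 1 / 2 := by
    rw [div_le_iff₀ hn]; linarith
  have h5 : 0 ≤ r * W / n := by positivity
  rw [div_le_iff₀ (by positivity), h3]
  have h6 : 1 ≤ (1 + 2 * (r * W / n)) * (1 - W / n) ^ r := by
    calc (1 : ℝ) ≤ (1 + 2 * (r * W / n)) * (1 - r * W / n) := by nlinarith
      _ ≤ _ := mul_le_mul_of_nonneg_left h1 (by linarith)
  have h7 : 0 ≤ n ^ r := by positivity
  calc N ≤ n ^ r := hN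
    _ ≤ n ^ r * ((1 + 2 * (r * W / n)) * (1 - W / n) ^ r) := le_mul_of_one_le_right h7 h6
    _ = _ := by ring

open Classical in
/-- Markov's inequality -/
lemma markov_sum {α : Type*} [Fintype α] (f : α → ℝ) (hf : ∀ y, 0 ≤ f y) (c : ℝ) :
    c * (#{y | c < f y} : ℝ) ≤ ∑ y, f y := by
  calc c * (#{y | c < f y} : ℝ) = ∑ _y ∈ {y | c < f y}, c := by
        rw [sum_const, nsmul_eq_mul, mul_comm]
    _ ≤ ∑ y ∈ {y | c < f y}, f y := sum_le_sum fun y hy => (mem_filter.1 hy).2.le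
    _ ≤ _ := sum_le_sum_of_subset_of_nonneg (filter_subset _ _) (fun _ _ _ => hf _)

/-- the Hilbert-Schmidt distance -/
def hsd (x y : Perm (Fin n)) (S : ℕ) (β : ℕ → ℕ) (m T r : ℕ) : ℝ :=
  ∑ a : Tup r n, ∑ b : Tup r n, (NK x y S β m T a b - 1 / Fintype.card (Tup r n)) ^ 2

lemma hsd_nonneg (x y : Perm (Fin n)) (S : ℕ) (β : ℕ → ℕ) (m T r : ℕ) :
    0 ≤ hsd x y S β m T r := sum_nonneg fun _ _ => sum_nonneg fun _ _ => sq_nonneg _

open Classical in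
/-- a cleaner bound of the expected distance -/
lemma sum_hsd (x : Perm (Fin n)) {S T m : ℕ} {β : ℕ → ℕ} (hTS : T ≤ S) (hT : 1 ≤ T) (hr : 1 ≤ r)
    (hrn : r ≤ n) (hn : 2 ≤ n) (hm1 : 1 ≤ m) (hmn : 2 * m ≤ n)
    (hW : 4 * r * r * m * (2 * S + 1) ≤ n) (e : ℝ)
    (he : 0 ≤ e) (he2 : (m + 1) * e ≤ 1 / n)
    (hβ : ∀ j ≤ m, β j ≠ 0 → ((r + 1) * n : ℝ) ^ (2 * β j) ≤ e * (T : ℝ) ^ j)
    (hQ : (n : ℝ) ^ (r + 1) ≤ (T : ℝ) ^ (m + 1)) {sh σ : ℝ}
    (hsh : (#{p | cyl x p ≤ S} : ℝ) ≤ sh) (hσ : ∑ j ∈ range m, 1 / ((β j : ℝ) + 1) ≤ σ)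
    (hσ1 : 1 ≤ σ) :
    ∑ y : Perm (Fin n), hsd x y S β m T r ≤
      n.factorial * ((3 + 4 * sh + (4 * r * sh + 12 * r * m * (m + r) * (2 * S + 1)) * σ) / n) := by
  have hn0 : (0 : ℝ) < n := by exact_mod_cast (by omega : 0 < n)
  have hr0 : (1 : ℝ) ≤ r := by exact_mod_cast hr
  have hm0 : (1 : ℝ) ≤ m := by exact_mod_cast hm1
  have hfac : (0 : ℝ) ≤ n.factorial := Nat.cast_nonneg _
  have hS0 : (0 : ℝ) ≤ S := Nat.cast_nonneg _
  have hWR : 4 * r * r * m * (2 * S + 1) ≤ (n : ℝ) := by exact_mod_cast hW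
  have hmR : 2 * (m : ℝ) ≤ n := by exact_mod_cast hmn
  have hT0 : (0 : ℝ) < T := by exact_mod_cast hT
  have hW' : 2 * r * m * (2 * S + 1) < n := by
    have h1 : 2 * (2 * r * m * (2 * S + 1)) ≤ 4 * r * r * m * (2 * S + 1) := by
      calc 2 * (2 * r * m * (2 * S + 1)) = 4 * r * 1 * m * (2 * S + 1) := by ring
        _ ≤ 4 * r * r * m * (2 * S + 1) := by gcongr
    have h2 : 0 < 2 * r * m * (2 * S + 1) := by positivity
    omega
  have main := sum_HS x hTS hT hr hrn hn (by omega) hW' e he hβ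
  refine (show ∑ y : Perm (Fin n), hsd x y S β m T r ≤ _ from main).trans ?_
  apply mul_le_mul_of_nonneg_left _ hfac
  set N : ℝ := (Fintype.card (Tup r n) : ℝ) with hN
  set W : ℝ := 2 * r * m * (2 * S + 1) with hWd
  have hWn : W < n := by rw [hWd]; exact_mod_cast hW'
  have hW0 : 0 ≤ W := by positivity
  have hrW : 2 * (r * W) ≤ n := by
    rw [hWd]
    linarith
  have t1 : N / (T : ℝ) ^ (m + 1) ≤ 1 / n := by
    rw [div_le_div_iff₀ (by positivity) hn0, one_mul]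
    calc N * n ≤ (n : ℝ) ^ r * n := by
          have := card_Tup_le r n
          gcongr
      _ = (n : ℝ) ^ (r + 1) := by ring
      _ ≤ _ := hQ
  have t2 := pow_ratio hn0 (card_Tup_le r n) hW0 hrW hWn
  rw [← hN] at t2
  have hρ : r * W / n ≤ 1 / 2 := by
    rw [div_le_iff₀ hn0]; linarith
  have hρ0 : 0 ≤ r * W / n := by positivity
  have t3 : N / (n - W) ^ r * (1 + (m + 1) * e) ≤ 1 + 2 * (r * W / n) + 2 / n := by
    calc N / (n - W) ^ r * (1 + (m + 1) * e) ≤ (1 + 2 * (r * W / n)) * (1 + 1 / n) := by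
          gcongr
      _ = 1 + 2 * (r * W / n) + (1 + 2 * (r * W / n)) * (1 / n) := by ring
      _ ≤ 1 + 2 * (r * W / n) + 2 * (1 / n) := by
          have : 0 < 1 / (n : ℝ) := by positivity
          have h2 : 1 + 2 * (r * W / n) ≤ 2 := by linarith
          have := mul_le_mul_of_nonneg_right h2 this.le
          linarith
      _ = _ := by ring
  have hσ0 : 0 ≤ ∑ j ∈ range m, 1 / ((β j : ℝ) + 1) := sum_nonneg fun j _ => by positivity
  have hshn : (0 : ℝ) ≤ (#{p | cyl x p ≤ S} : ℝ) := Nat.cast_nonneg _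
  have t4 : (m : ℝ) ^ 2 * (2 * S + 1) / (n - m) ≤ 2 * ((m : ℝ) ^ 2 * (2 * S + 1)) / n := by
    rw [div_le_div_iff₀ (by linarith) hn0]
    have : (0 : ℝ) ≤ (m : ℝ) ^ 2 * (2 * S + 1) := by positivity
    nlinarith
  have t5 : 2 * (r : ℝ) ^ 2 * m * (2 * S + 1) / (n - 1) ≤
      2 * (2 * (r : ℝ) ^ 2 * m * (2 * S + 1)) / n := by
    have h1 : (2 : ℝ) ≤ n := by exact_mod_cast hn
    rw [div_le_div_iff₀ (by linarith) hn0]
    have : (0 : ℝ) ≤ 2 * (r : ℝ) ^ 2 * m * (2 * S + 1) := by positivity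
    nlinarith
  have t6 : 2 * r * (#{p | cyl x p ≤ S} : ℝ) / n + 2 * r * ((m : ℝ) ^ 2 * (2 * S + 1) / (n - m)) +
            2 * (r : ℝ) ^ 2 * m * (2 * S + 1) / (n - 1) ≤
      (2 * r * sh + 4 * r * m * (m + r) * (2 * S + 1)) / n := by
    calc _ ≤ 2 * r * sh / n + 2 * r * (2 * ((m : ℝ) ^ 2 * (2 * S + 1)) / n) +
            2 * (2 * (r : ℝ) ^ 2 * m * (2 * S + 1)) / n := by gcongr
      _ = _ := by ring
  have t7 : 0 ≤ 2 * r * (#{p | cyl x p ≤ S} : ℝ) / n +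
      2 * r * ((m : ℝ) ^ 2 * (2 * S + 1) / (n - m)) +
            2 * (r : ℝ) ^ 2 * m * (2 * S + 1) / (n - 1) := by
    have h1 : (2 : ℝ) ≤ n := by exact_mod_cast hn
    have h2 : (0 : ℝ) ≤ n - m := by linarith
    have h3 : (0 : ℝ) ≤ (n : ℝ) - 1 := by linarith
    positivity
  have t8 : (2 * r * (#{p | cyl x p ≤ S} : ℝ) / n + 2 * r * ((m : ℝ) ^ 2 * (2 * S + 1) / (n - m)) +
            2 * (r : ℝ) ^ 2 * m * (2 * S + 1) / (n - 1)) *
              ∑ j ∈ range m, 1 / ((β j : ℝ) + 1) ≤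
      ((2 * r * sh + 4 * r * m * (m + r) * (2 * S + 1)) / n) * σ := by
    apply mul_le_mul t6 hσ hσ0 (t7.trans t6)
  have t9 : 2 * (#{p | cyl x p ≤ S} : ℝ) / n ≤ 2 * sh / n := by gcongr
  have t10 : 2 * (r * W / n) ≤ (4 * r * m * (m + r) * (2 * S + 1)) * σ / n := by
    rw [hWd]
    have h1 : (r : ℝ) ^ 2 * m ≤ r * m * (m + r) := by nlinarith [mul_pos (by linarith : (0:ℝ) < r) (by linarith : (0:ℝ) < (m:ℝ))]
    calc 2 * (r * (2 * r * m * (2 * S + 1)) / n) = 4 * ((r : ℝ) ^ 2 * m) * (2 * S + 1) * 1 / n := by ring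
      _ ≤ 4 * (r * m * (m + r)) * (2 * S + 1) * σ / n := by gcongr
      _ = _ := by ring
  have hfin : (3 + 4 * sh + (4 * r * sh + 12 * r * m * (m + r) * (2 * S + 1)) * σ) / n =
      1 / n + 2 / n + (4 * r * m * (m + r) * (2 * S + 1)) * σ / n + 2 * (2 * sh / n +
        ((2 * r * sh + 4 * r * m * (m + r) * (2 * S + 1)) / n) * σ) := by ring
  rw [hfin]
  linarith

/-! ### typical first permutation -/

open Classical in
lemma sum_short (S : ℕ) : (∑ x : Perm (Fin n), (#{p | cyl x p ≤ S} : ℝ)) ≤ S * n.factorial := by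
  have h1 : ∑ x : Perm (Fin n), #{p | cyl x p ≤ S} =
      #{z : Perm (Fin n) × Fin n | cyl z.1 z.2 ∈ Icc 1 S} := by
    rw [card_filter, Fintype.sum_prod_type]
    refine sum_congr rfl fun x _ => ?_
    rw [card_filter]
    refine sum_congr rfl fun p _ => ?_
    have := cyl_pos x p
    congr 1
    rw [mem_Icc]
    apply propext
    constructor
    · exact fun h => ⟨this, h⟩
    · exact fun h => h.2
  have h2 := card_cyl_set (n := n) (Icc 1 S) (by simp)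
  rw [← h1, Nat.card_Icc, Nat.add_sub_cancel] at h2
  exact_mod_cast h2

/-! ### the parameters -/

/-- `T = S` -/
def Tn (s : ℝ) (n : ℕ) : ℕ := ⌊(n : ℝ) ^ s⌋₊
/-- the constant -/
def cn (s : ℝ) : ℕ := ⌈20 / s⌉₊
/-- the size of the tuples -/
def Rn (s : ℝ) (n : ℕ) : ℕ := ⌊(n : ℝ) ^ (1 / 3 - 2 * s)⌋₊
/-- the length of the words -/
def mn (s : ℝ) (n : ℕ) : ℕ := cn s * (Rn s n + 1)
/-- the allowed number of not isolated points -/
def bt (s : ℝ) (j : ℕ) : ℕ := j / cn s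

open Classical in
/-- typical pairs -/
structure Typ (s : ℝ) (n : ℕ) (x y : Perm (Fin n)) : Prop where
  sh : (#{p | cyl x p ≤ Tn s n} : ℝ) ≤ (n : ℝ) ^ (2 * s)
  sps : Sps x y (Tn s n) (Tn s n)
  hs1 : hsd x y (Tn s n) (fun _ => 0) (cn s) (Tn s n) 4 ≤ 1 / 100
  hs2 : hsd x y (Tn s n) (bt s) (mn s n) (Tn s n) (Rn s n) ≤ 1 / 100
  slf : ∑ τ : Lt (mn s n) (Tn s n), (#{p | selfc x y (Tn s n) (ex τ) (mn s n) p} : ℝ) ≤
    (Tn s n : ℝ) ^ (mn s n + 1) * ((n : ℝ) ^ s * (2 * ((mn s n : ℝ) ^ 2 * (2 * Tn s n + 1))))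

/-- numerical conditions on `n`; `a = n ^ s` -/
structure Num (s K : ℝ) (n : ℕ) : Prop where
  a1 : K ≤ (n : ℝ) ^ s
  a2 : 3 ≤ n
  a3 : K * Real.log n ≤ (n : ℝ) ^ s
  a4 : 1 ≤ Rn s n

lemma ev_Num {s : ℝ} (hs : 0 < s) (hs1 : s ≤ 1 / 100) (K : ℝ) : ∀ᶠ n : ℕ in atTop, Num s K n := by
  filter_upwards [ev_pow hs K, eventually_ge_atTop 3, ev_log1 hs K,
    ev_pow (show (0 : ℝ) < 1 / 3 - 2 * s by linarith) 1] with n h1 h2 h3 h4
  exact ⟨h1, h2, h3, Nat.le_floor (by exact_mod_cast h4)⟩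

section consq
variable {s K : ℝ} (hs : 0 < s) (hs1 : s ≤ 1 / 100) (hK : 100 ≤ K) (h : Num s K n)
include hs hs1 hK h

lemma Num.npos : (0 : ℝ) < n := by exact_mod_cast (show 0 < n by have := h.a2; omega)

lemma Num.Tle : (Tn s n : ℝ) ≤ (n : ℝ) ^ s := Nat.floor_le (by positivity)

lemma Num.Tge : (n : ℝ) ^ (s / 2) ≤ Tn s n := by
  have hn := h.npos hs hs1 hK
  have h1 : (n : ℝ) ^ s < Tn s n + 1 := Nat.lt_floor_add_one _
  have h2 : (n : ℝ) ^ s = ((n : ℝ) ^ (s / 2)) ^ 2 := by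
    rw [← Real.rpow_natCast, ← Real.rpow_mul hn.le]
    congr 1
    push_cast
    ring
  have h3 : 10 ≤ (n : ℝ) ^ (s / 2) := by
    have h4 := h.a1
    rw [h2] at h4
    by_contra hcon
    push Not at hcon
    have : (0 : ℝ) ≤ (n : ℝ) ^ (s / 2) := by positivity
    nlinarith
  rw [h2] at h1
  nlinarith

lemma Num.T1 : 1 ≤ Tn s n := by
  have h1 := h.Tge hs hs1 hK
  have hn := h.npos hs hs1 hK
  have : (0 : ℝ) < (n : ℝ) ^ (s / 2) := by positivity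
  have h2 : (0 : ℝ) < Tn s n := by linarith
  exact_mod_cast h2

lemma cn_pos : 1 ≤ cn s := by
  unfold cn
  exact Nat.one_le_iff_ne_zero.2 (Nat.ceil_pos.2 (by positivity)).ne'

lemma Num.Tpow : (n : ℝ) ^ 10 ≤ (Tn s n : ℝ) ^ cn s := by
  have hn := h.npos hs hs1 hK
  have hn1 : (1 : ℝ) ≤ n := by exact_mod_cast (show 1 ≤ n by have := h.a2; omega)
  have h1 := h.Tge hs hs1 hK
  have h2 : 20 / s ≤ cn s := Nat.le_ceil _
  calc (n : ℝ) ^ 10 = (n : ℝ) ^ (10 : ℝ) := by rw [← Real.rpow_natCast]; norm_num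
    _ ≤ (n : ℝ) ^ (s / 2 * cn s) := by
      apply Real.rpow_le_rpow_of_exponent_le hn1
      rw [div_le_iff₀ hs] at h2
      linarith
    _ = ((n : ℝ) ^ (s / 2)) ^ cn s := by rw [Real.rpow_mul hn.le, Real.rpow_natCast]
    _ ≤ _ := by gcongr

lemma Num.R3 : (Rn s n : ℝ) ^ 3 * ((n : ℝ) ^ s) ^ 6 ≤ n := by
  have hn := h.npos hs hs1 hK
  have h1 : (Rn s n : ℝ) ≤ (n : ℝ) ^ (1 / 3 - 2 * s) := Nat.floor_le (by positivity)
  calc (Rn s n : ℝ) ^ 3 * ((n : ℝ) ^ s) ^ 6 ≤ ((n : ℝ) ^ (1 / 3 - 2 * s)) ^ 3 * ((n : ℝ) ^ s) ^ 6 := by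
        gcongr
    _ = (n : ℝ) := by
      rw [← Real.rpow_natCast, ← Real.rpow_natCast, ← Real.rpow_mul hn.le, ← Real.rpow_mul hn.le,
        ← Real.rpow_add hn]
      nth_rewrite 2 [← Real.rpow_one (n : ℝ)]
      congr 1
      push_cast
      ring

lemma Num.m_le : (mn s n : ℝ) ≤ 2 * cn s * Rn s n := by
  unfold mn
  push_cast
  have h1 : (1 : ℝ) ≤ Rn s n := by exact_mod_cast h.a4
  have h2 : (0 : ℝ) ≤ cn s := Nat.cast_nonneg _
  nlinarith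

lemma Num.m1 : 1 ≤ mn s n := by
  unfold mn
  have := cn_pos hs hs1 hK h
  exact Nat.one_le_iff_ne_zero.2 (by positivity)

lemma Num.Qge : (n : ℝ) ^ (Rn s n + 1) ≤ (Tn s n : ℝ) ^ (mn s n + 1) := by
  have hn := h.npos hs hs1 hK
  have hn1 : (1 : ℝ) ≤ n := by exact_mod_cast (show 1 ≤ n by have := h.a2; omega)
  have h1 := h.Tpow hs hs1 hK
  have hT : (1 : ℝ) ≤ Tn s n := by exact_mod_cast h.T1 hs hs1 hK
  calc (n : ℝ) ^ (Rn s n + 1) ≤ ((n : ℝ) ^ 10) ^ (Rn s n + 1) := by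
        have : (n : ℝ) ≤ (n : ℝ) ^ 10 := le_self_pow₀ hn1 (by norm_num)
        gcongr
    _ ≤ ((Tn s n : ℝ) ^ cn s) ^ (Rn s n + 1) := by gcongr
    _ = (Tn s n : ℝ) ^ (mn s n) := by unfold mn; rw [pow_mul]
    _ ≤ _ := pow_le_pow_right₀ hT (by omega)

lemma Num.hbt (j : ℕ) (hj : bt s j ≠ 0) :
    ((Rn s n + 1) * n : ℝ) ^ (2 * bt s j) ≤ 1 / (n : ℝ) ^ 4 * (Tn s n : ℝ) ^ j := by
  have hn := h.npos hs hs1 hK
  have hn1 : (1 : ℝ) ≤ n := by exact_mod_cast (show 1 ≤ n by have := h.a2; omega)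
  have h1 := h.Tpow hs hs1 hK
  have hT : (1 : ℝ) ≤ Tn s n := by exact_mod_cast h.T1 hs hs1 hK
  have hR : (Rn s n + 1 : ℝ) ≤ n := by
    have h2 := h.R3 hs hs1 hK
    have h3 : (1 : ℝ) ≤ Rn s n := by exact_mod_cast h.a4
    have h4 := h.a1
    have h5 : (100 : ℝ) ^ 6 ≤ ((n : ℝ) ^ s) ^ 6 := by
      have : (100 : ℝ) ≤ (n : ℝ) ^ s := hK.trans h4
      gcongr
    have h6 : (Rn s n : ℝ) ≤ (Rn s n : ℝ) ^ 3 := le_self_pow₀ h3 (by norm_num)
    nlinarith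
  have hj1 : 1 ≤ bt s j := Nat.one_le_iff_ne_zero.2 hj
  have hjc : cn s * bt s j ≤ j := by
    unfold bt
    exact Nat.mul_div_le j (cn s)
  calc ((Rn s n + 1) * n : ℝ) ^ (2 * bt s j) ≤ ((n : ℝ) * n) ^ (2 * bt s j) := by gcongr
    _ = ((n : ℝ) ^ 4) ^ bt s j := by rw [← sq, ← pow_mul, ← pow_mul]; ring_nf
    _ ≤ 1 / (n : ℝ) ^ 4 * ((n : ℝ) ^ 10) ^ bt s j := by
      have h2 : ((n : ℝ) ^ 10) ^ bt s j = ((n : ℝ) ^ 4) ^ bt s j * ((n : ℝ) ^ 6) ^ bt s j := by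
        rw [← mul_pow, ← pow_add]
      have h3 : (n : ℝ) ^ 4 ≤ ((n : ℝ) ^ 6) ^ bt s j := by
        calc (n : ℝ) ^ 4 ≤ (n : ℝ) ^ 6 := pow_le_pow_right₀ hn1 (by norm_num)
          _ ≤ _ := le_self_pow₀ (one_le_pow₀ hn1) hj
      rw [h2, one_div, inv_mul_eq_div, le_div_iff₀ (by positivity)]
      gcongr
    _ ≤ 1 / (n : ℝ) ^ 4 * ((Tn s n : ℝ) ^ cn s) ^ bt s j := by gcongr
    _ ≤ 1 / (n : ℝ) ^ 4 * (Tn s n : ℝ) ^ j := by
      rw [← pow_mul]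
      gcongr

end consq

/-- the harmonic type sum -/
lemma sum_bt {s : ℝ} (hc : 1 ≤ cn s) (m : ℕ) :
    ∑ j ∈ range m, 1 / ((bt s j : ℝ) + 1) ≤ cn s * (1 + Real.log m) := by
  have hc0 : (0 : ℝ) < cn s := by exact_mod_cast hc
  have h1 : ∀ j : ℕ, 1 / ((bt s j : ℝ) + 1) ≤ cn s * ((j : ℝ) + 1)⁻¹ := by
    intro j
    have h2 : j + 1 ≤ cn s * (bt s j + 1) := by
      unfold bt
      have := Nat.lt_mul_div_succ j (show 0 < cn s by omega)
      omega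
    have h3 : (j : ℝ) + 1 ≤ cn s * (bt s j + 1) := by exact_mod_cast h2
    rw [← div_eq_mul_inv, div_le_div_iff₀ (by positivity) (by positivity)]
    linarith
  calc ∑ j ∈ range m, 1 / ((bt s j : ℝ) + 1) ≤ ∑ j ∈ range m, cn s * ((j : ℝ) + 1)⁻¹ :=
        sum_le_sum fun j _ => h1 j
    _ = cn s * ((harmonic m : ℚ) : ℝ) := by
        rw [← mul_sum]
        congr 1
        unfold harmonic
        push_cast
        rfl
    _ ≤ _ := by
        gcongr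
        exact harmonic_le_one_add_log m

end

end Run7.h624.PD
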