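import Pool.Agent.Run7.h624.PD.Typ

/-!
Most pairs of permutations are typical.
-/

namespace Run7.h624.PD
open RC14 Finset Equiv Run7.h624.DM Filter Topology

noncomputable section

variable {n : ℕ}

section consq
variable {s K : ℝ} (hs : 0 < s) (hs1 : s ≤ 1 / 100) (hK : 100 ≤ K) (h : Num s K n)
include hs hs1 hK h

lemma Num.a100 : ((n : ℝ) ^ s) ^ 100 ≤ n := by
  have hn := h.npos hs hs1 hK
  have hn1 : (1 : ℝ) ≤ n := by exact_mod_cast (show 1 ≤ n by have := h.a2; omega)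
  rw [← Real.rpow_natCast, ← Real.rpow_mul hn.le]
  nth_rewrite 2 [← Real.rpow_one (n : ℝ)]
  apply Real.rpow_le_rpow_of_exponent_le hn1
  push_cast
  linarith

lemma Num.alog : 1 + Real.log n ≤ (n : ℝ) ^ s := by
  have h1 := h.a1
  have h3 := h.a3
  have hlog : 0 ≤ Real.log n := Real.log_natCast_nonneg n
  nlinarith

/-- the first expected distance -/
lemma Num.b1 (x : Perm (Fin n)) (hc : 200 * (cn s : ℝ) ≤ K)
    (hsh : (#{p | cyl x p ≤ Tn s n} : ℝ) ≤ (n : ℝ) ^ (2 * s)) :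
    ∑ y : Perm (Fin n), hsd x y (Tn s n) (fun _ => 0) (cn s) (Tn s n) 4 ≤
      n.factorial * (1000 * (cn s : ℝ) ^ 3 / (n : ℝ) ^ s) := by
  set a : ℝ := (n : ℝ) ^ s with ha
  have hn := h.npos hs hs1 hK
  have hn1 : (1 : ℝ) ≤ n := by exact_mod_cast (show 1 ≤ n by have := h.a2; omega)
  have ha1 : K ≤ a := h.a1
  have ha100 : a ^ 100 ≤ n := h.a100 hs hs1 hK
  have ha0 : 1 ≤ a := by linarith
  have ha3 : a ^ 3 ≤ n := (pow_le_pow_right₀ ha0 (by norm_num)).trans ha100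
  have hT : (Tn s n : ℝ) ≤ a := h.Tle hs hs1 hK
  have hc1 : (1 : ℝ) ≤ cn s := by exact_mod_cast cn_pos hs hs1 hK h
  have h2 : (n : ℝ) ^ (2 * s) = a ^ 2 := by
    rw [ha, ← Real.rpow_natCast, ← Real.rpow_mul hn.le]
    congr 1; push_cast; ring
  rw [h2] at hsh
  have hnfac : (0 : ℝ) ≤ n.factorial := Nat.cast_nonneg _
  have hca : (cn s : ℝ) ≤ a := by linarith
  have hW : 4 * (4 : ℕ) * (4 : ℕ) * cn s * (2 * Tn s n + 1) ≤ n := by
    have : (4 * (4 : ℕ) * (4 : ℕ) * cn s * (2 * Tn s n + 1) : ℝ) ≤ n := by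
      calc (4 * (4 : ℕ) * (4 : ℕ) * cn s * (2 * Tn s n + 1) : ℝ) ≤ 64 * (a / 200) * (3 * a) := by
            push_cast
            have h3 : (cn s : ℝ) ≤ a / 200 := by linarith
            have h4 : 2 * (Tn s n : ℝ) + 1 ≤ 3 * a := by linarith
            calc (4 * 4 * 4 * cn s * (2 * Tn s n + 1) : ℝ) = 64 * cn s * (2 * Tn s n + 1) := by ring
              _ ≤ 64 * (a / 200) * (3 * a) := by gcongr
        _ ≤ a ^ 3 := by nlinarith
        _ ≤ n := ha3
    exact_mod_cast this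
  have hnbig : (100 : ℝ) ^ 3 ≤ n := by
    calc (100 : ℝ) ^ 3 ≤ a ^ 3 := by
          have : (100 : ℝ) ≤ a := hK.trans ha1
          gcongr
      _ ≤ (n : ℝ) := ha3
  have h4n : 4 ≤ n := by
    have : (4 : ℝ) ≤ n := by linarith
    exact_mod_cast this
  have hcn : 2 * cn s ≤ n := by
    have : (2 * cn s : ℝ) ≤ n := by nlinarith
    exact_mod_cast this
  have main := sum_hsd (r := 4) x (S := Tn s n) (T := Tn s n) (m := cn s) (β := fun _ => 0) le_rfl
    (h.T1 hs hs1 hK) (by norm_num) h4n (by omega) (cn_pos hs hs1 hK h) hcn hW 0 le_rfl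
    (by rw [mul_zero]; positivity) (by intro j _ hj; exact absurd rfl hj) (by
      have h5 := h.Tpow hs hs1 hK
      have hT1 : (1 : ℝ) ≤ Tn s n := by exact_mod_cast h.T1 hs hs1 hK
      calc (n : ℝ) ^ (4 + 1) ≤ (n : ℝ) ^ 10 := pow_le_pow_right₀ hn1 (by norm_num)
        _ ≤ _ := h5
        _ ≤ _ := pow_le_pow_right₀ hT1 (by omega)) hsh (σ := cn s) (by
      apply le_of_eq
      simp) hc1
  refine main.trans ?_
  apply mul_le_mul_of_nonneg_left _ hnfac
  rw [div_le_div_iff₀ hn (by positivity)]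
  have hT2 : (2 * Tn s n + 1 : ℝ) ≤ 3 * a := by linarith
  push_cast
  have e1 : (cn s : ℝ) ≤ (cn s : ℝ) ^ 3 := le_self_pow₀ hc1 (by norm_num)
  have e2 : (cn s : ℝ) ^ 2 ≤ (cn s : ℝ) ^ 3 := pow_le_pow_right₀ hc1 (by norm_num)
  have e3 : a ≤ a ^ 2 := le_self_pow₀ ha0 (by norm_num)
  have e4 : (1 : ℝ) ≤ (cn s : ℝ) ^ 3 := one_le_pow₀ hc1
  have e5 : (1 : ℝ) ≤ a ^ 2 := one_le_pow₀ ha0
  calc (3 + 4 * a ^ 2 + (4 * 4 * a ^ 2 + 12 * 4 * cn s * (cn s + 4) * (2 * Tn s n + 1)) * cn s) * a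
      ≤ (3 * a ^ 2 + 4 * a ^ 2 +
        (16 * a ^ 2 + 48 * cn s * (cn s + 4 * cn s) * (3 * a ^ 2)) * cn s) * a := by
        have f1 : (4 : ℝ) ≤ 4 * cn s := by linarith
        have f2 : (2 * Tn s n + 1 : ℝ) ≤ 3 * a ^ 2 := by linarith
        have f3 : (3 : ℝ) ≤ 3 * a ^ 2 := by linarith
        have f4 : (4 * 4 * a ^ 2 : ℝ) = 16 * a ^ 2 := by ring
        have f5 : (12 * 4 * (cn s : ℝ)) = 48 * cn s := by ring
        rw [f4, f5]
        gcongr
    _ = (7 * 1 + 16 * cn s + 720 * (cn s : ℝ) ^ 3) * a ^ 3 := by ring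
    _ ≤ (7 * (cn s : ℝ) ^ 3 + 16 * (cn s : ℝ) ^ 3 + 720 * (cn s : ℝ) ^ 3) * n := by gcongr
    _ ≤ _ := by
        have : (0 : ℝ) ≤ (cn s : ℝ) ^ 3 * n := by positivity
        nlinarith

/-- the second expected distance -/
lemma Num.b2 (x : Perm (Fin n)) (hc : 200 * (cn s : ℝ) ≤ K)
    (hsh : (#{p | cyl x p ≤ Tn s n} : ℝ) ≤ (n : ℝ) ^ (2 * s)) :
    ∑ y : Perm (Fin n), hsd x y (Tn s n) (bt s) (mn s n) (Tn s n) (Rn s n) ≤
      n.factorial * (1000 * (cn s : ℝ) ^ 3 / (n : ℝ) ^ s) := by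
  set a : ℝ := (n : ℝ) ^ s with ha
  have hn := h.npos hs hs1 hK
  have hn1 : (1 : ℝ) ≤ n := by exact_mod_cast (show 1 ≤ n by have := h.a2; omega)
  have ha1 : K ≤ a := h.a1
  have ha100 : a ^ 100 ≤ n := h.a100 hs hs1 hK
  have ha0 : 1 ≤ a := by linarith
  have hT : (Tn s n : ℝ) ≤ a := h.Tle hs hs1 hK
  have hc1 : (1 : ℝ) ≤ cn s := by exact_mod_cast cn_pos hs hs1 hK h
  have h2 : (n : ℝ) ^ (2 * s) = a ^ 2 := by
    rw [ha, ← Real.rpow_natCast, ← Real.rpow_mul hn.le]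
    congr 1; push_cast; ring
  rw [h2] at hsh
  have hnfac : (0 : ℝ) ≤ n.factorial := Nat.cast_nonneg _
  have hR1 : (1 : ℝ) ≤ Rn s n := by exact_mod_cast h.a4
  have hR3 := h.R3 hs hs1 hK
  rw [← ha] at hR3
  have hm := h.m_le hs hs1 hK
  have hca : 200 * (cn s : ℝ) ≤ a := by linarith
  have hT2 : (2 * Tn s n + 1 : ℝ) ≤ 3 * a := by linarith
  set R : ℝ := (Rn s n : ℝ) with hR
  set c : ℝ := (cn s : ℝ) with hcd
  set m : ℝ := (mn s n : ℝ) with hmd
  have hm0 : 0 ≤ m := Nat.cast_nonneg _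
  have hRR : R ≤ R ^ 3 := le_self_pow₀ hR1 (by norm_num)
  have ha6 : (1 : ℝ) ≤ a ^ 5 := one_le_pow₀ ha0
  have hRa : R ^ 3 * a ≤ n / a ^ 5 := by
    rw [le_div_iff₀ (by positivity)]
    calc R ^ 3 * a * a ^ 5 = R ^ 3 * a ^ 6 := by ring
      _ ≤ (n : ℝ) := hR3
  have hRan : R ^ 3 * a ≤ n := hRa.trans (div_le_self hn.le ha6)
  have hRn : Rn s n ≤ n := by
    have : R ≤ n := by
      calc R ≤ R ^ 3 * 1 := by linarith
        _ ≤ R ^ 3 * a := by gcongr
        _ ≤ n := hRan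
    rw [hR] at this
    exact_mod_cast this
  have hca2 : 1000 * c * a ≤ a ^ 5 := by
    have h5 : (1 : ℝ) ≤ a ^ 3 := one_le_pow₀ ha0
    have h6 : 1000 * c ≤ 5 * a := by linarith
    have h7 : 5 ≤ a := by linarith
    calc 1000 * c * a ≤ 5 * a * a := by gcongr
      _ ≤ a * a * a := by gcongr
      _ = a ^ 3 := by ring
      _ ≤ a ^ 5 := pow_le_pow_right₀ ha0 (by norm_num)
  have hmn : 2 * mn s n ≤ n := by
    have : 2 * m ≤ n := by
      calc 2 * m ≤ 2 * (2 * c * R) := by linarith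
        _ = 4 * c * R := by ring
        _ ≤ a * R ^ 3 := by
          have : 4 * c ≤ a := by linarith
          gcongr
        _ = R ^ 3 * a := by ring
        _ ≤ n := hRan
    rw [hmd] at this
    exact_mod_cast this
  have hW : 4 * Rn s n * Rn s n * mn s n * (2 * Tn s n + 1) ≤ n := by
    have : 4 * R * R * m * (2 * Tn s n + 1) ≤ n := by
      calc 4 * R * R * m * (2 * Tn s n + 1) ≤ 4 * R * R * (2 * c * R) * (3 * a) := by gcongr
        _ = 24 * c * (R ^ 3 * a) := by ring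
        _ ≤ 24 * c * (n / a ^ 5) := by gcongr
        _ ≤ n := by
          rw [mul_div_assoc', div_le_iff₀ (by positivity)]
          have h5 : 24 * c ≤ a ^ 5 := by
            have : c ≤ c * a := le_mul_of_one_le_right (by linarith) ha0
            nlinarith
          nlinarith
    rw [hmd, hR] at this
    exact_mod_cast this
  have hn2 : 2 ≤ n := by have := h.a2; omega
  have hmpos := h.m1 hs hs1 hK
  have hσ1 : ∑ j ∈ range (mn s n), 1 / ((bt s j : ℝ) + 1) ≤ c * a := by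
    refine (sum_bt (cn_pos hs hs1 hK h) (mn s n)).trans ?_
    have h5 : Real.log (mn s n) ≤ Real.log n := by
      apply Real.log_le_log (by exact_mod_cast hmpos)
      exact_mod_cast (show mn s n ≤ n by omega)
    have h6 := h.alog hs hs1 hK
    have : 1 + Real.log (mn s n) ≤ a := by linarith
    exact mul_le_mul_of_nonneg_left this (by linarith)
  have main := sum_hsd (r := Rn s n) x (S := Tn s n) (T := Tn s n) (m := mn s n) (β := bt s) le_rfl
    (h.T1 hs hs1 hK) h.a4 hRn hn2 hmpos hmn hW (1 / (n : ℝ) ^ 4) (by positivity)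
    (by
      rw [← hmd, mul_one_div, div_le_div_iff₀ (by positivity) hn]
      have h5 : m + 1 ≤ n := by
        have : (2 * m : ℝ) ≤ n := by rw [hmd]; exact_mod_cast hmn
        have h6 : (1 : ℝ) ≤ m := by rw [hmd]; exact_mod_cast hmpos
        linarith
      have h6 : (n : ℝ) ^ 2 ≤ (n : ℝ) ^ 4 := pow_le_pow_right₀ hn1 (by norm_num)
      nlinarith) (fun j _ hj => h.hbt hs hs1 hK j hj) (h.Qge hs hs1 hK) hsh (σ := c * a) hσ1
      (by nlinarith)
  refine main.trans ?_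
  apply mul_le_mul_of_nonneg_left _ hnfac
  rw [div_le_div_iff₀ hn (by positivity), ← hR, ← hmd]
  have e1 : c ≤ c ^ 3 := le_self_pow₀ hc1 (by norm_num)
  have e4 : (1 : ℝ) ≤ c ^ 3 := one_le_pow₀ hc1
  have e5 : (1 : ℝ) ≤ a ^ 2 := one_le_pow₀ ha0
  have ea4 : a ^ 4 ≤ a ^ 6 := pow_le_pow_right₀ ha0 (by norm_num)
  have ea3 : a ^ 3 ≤ a ^ 6 := pow_le_pow_right₀ ha0 (by norm_num)
  calc (3 + 4 * a ^ 2 + (4 * R * a ^ 2 + 12 * R * m * (m + R) * (2 * Tn s n + 1)) * (c * a)) * a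
      ≤ (3 * a ^ 2 + 4 * a ^ 2 + (4 * R * a ^ 2 +
          12 * R * (2 * c * R) * (2 * c * R + c * R) * (3 * a)) * (c * a)) * a := by
        have f1 : R ≤ c * R := le_mul_of_one_le_left (by linarith) hc1
        have f3 : (3 : ℝ) ≤ 3 * a ^ 2 := by linarith
        gcongr
    _ = 7 * a ^ 3 + 4 * c * (R * a ^ 4) + 216 * c ^ 3 * (R ^ 3 * a ^ 3) := by ring
    _ ≤ 7 * c ^ 3 * (R ^ 3 * a ^ 6) + 4 * c ^ 3 * (R ^ 3 * a ^ 6) +
          216 * c ^ 3 * (R ^ 3 * a ^ 6) := by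
        have g1 : (1 : ℝ) ≤ R ^ 3 := one_le_pow₀ hR1
        have g2 : 7 * a ^ 3 ≤ 7 * c ^ 3 * (R ^ 3 * a ^ 6) := by
          calc 7 * a ^ 3 = 7 * 1 * (1 * a ^ 3) := by ring
            _ ≤ 7 * c ^ 3 * (R ^ 3 * a ^ 6) := by gcongr
        have g3 : 4 * c * (R * a ^ 4) ≤ 4 * c ^ 3 * (R ^ 3 * a ^ 6) := by gcongr
        have g4 : 216 * c ^ 3 * (R ^ 3 * a ^ 3) ≤ 216 * c ^ 3 * (R ^ 3 * a ^ 6) := by gcongr
        linarith
    _ ≤ 7 * c ^ 3 * n + 4 * c ^ 3 * n + 216 * c ^ 3 * n := by gcongr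
    _ ≤ _ := by
        have : (0 : ℝ) ≤ c ^ 3 * n := by positivity
        nlinarith

open Classical in
/-- for a typical `x` most `y` are typical -/
lemma Num.card_bad (x : Perm (Fin n)) (hc : 200 * (cn s : ℝ) ≤ K)
    (hsh : (#{p | cyl x p ≤ Tn s n} : ℝ) ≤ (n : ℝ) ^ (2 * s)) :
    (#{y : Perm (Fin n) | ¬ Typ s n x y} : ℝ) ≤
      n.factorial * ((210000 * (cn s : ℝ) ^ 3) / (n : ℝ) ^ s) := by
  set a : ℝ := (n : ℝ) ^ s with ha
  have hn := h.npos hs hs1 hK
  have hn1 : (1 : ℝ) ≤ n := by exact_mod_cast (show 1 ≤ n by have := h.a2; omega)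
  have ha1 : K ≤ a := h.a1
  have ha100 : a ^ 100 ≤ n := h.a100 hs hs1 hK
  have ha0 : 1 ≤ a := by linarith
  have hap : 0 < a := by linarith
  have hT : (Tn s n : ℝ) ≤ a := h.Tle hs hs1 hK
  have hT1 := h.T1 hs hs1 hK
  have hc1 : (1 : ℝ) ≤ cn s := by exact_mod_cast cn_pos hs hs1 hK h
  have hnfac : (0 : ℝ) ≤ n.factorial := Nat.cast_nonneg _
  have h2 : (n : ℝ) ^ (2 * s) = a ^ 2 := by
    rw [ha, ← Real.rpow_natCast, ← Real.rpow_mul hn.le]
    congr 1; push_cast; ring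
  have ea : a ≤ a ^ 2 := le_self_pow₀ ha0 (by norm_num)
  have h12 : 12 ≤ n := by
    have h3 : (100 : ℝ) ≤ a := hK.trans ha1
    have h4 : a ≤ a ^ 100 := le_self_pow₀ ha0 (by norm_num)
    have : (12 : ℝ) ≤ n := by linarith
    exact_mod_cast this
  -- the four exceptional sets
  set E1 : Finset (Perm (Fin n)) := {y | ¬ Sps x y (Tn s n) (Tn s n)} with hE1
  set E2 : Finset (Perm (Fin n)) :=
    {y | 1 / 100 < hsd x y (Tn s n) (fun _ => 0) (cn s) (Tn s n) 4} with hE2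
  set E3 : Finset (Perm (Fin n)) :=
    {y | 1 / 100 < hsd x y (Tn s n) (bt s) (mn s n) (Tn s n) (Rn s n)} with hE3
  set F : Perm (Fin n) → ℝ := fun y =>
    ∑ τ : Lt (mn s n) (Tn s n), (#{p | selfc x y (Tn s n) (ex τ) (mn s n) p} : ℝ) with hF
  set B : ℝ := (Tn s n : ℝ) ^ (mn s n + 1) * (a * (2 * ((mn s n : ℝ) ^ 2 * (2 * Tn s n + 1))))
    with hB
  set E4 : Finset (Perm (Fin n)) := {y | B < F y} with hE4
  have c1 : (#E1 : ℝ) ≤ n.factorial * (2000 / a) := by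
    have h3 := card_not_Sps x (S := Tn s n) (T := Tn s n) (w := a ^ 2) le_rfl hT1 h12
      (by linarith) (by rw [← h2]; exact hsh)
    refine h3.trans ?_
    rw [mul_comm]
    apply mul_le_mul_of_nonneg_left _ hnfac
    rw [div_le_div_iff₀ hn hap]
    have h4 : (a ^ 2) ^ 6 * a ≤ n := by
      calc (a ^ 2) ^ 6 * a = a ^ 13 := by ring
        _ ≤ a ^ 100 := pow_le_pow_right₀ ha0 (by norm_num)
        _ ≤ n := ha100
    linarith
  have c2 : (#E2 : ℝ) ≤ n.factorial * (100000 * (cn s : ℝ) ^ 3 / a) := by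
    have h3 := markov_sum (fun y : Perm (Fin n) =>
      hsd x y (Tn s n) (fun _ => 0) (cn s) (Tn s n) 4) (fun y => hsd_nonneg _ _ _ _ _ _ _) (1 / 100)
    have h4 := h.b1 hs hs1 hK x hc hsh
    have h5 := h3.trans h4
    rw [← hE2] at h5
    calc (#E2 : ℝ) = 100 * (1 / 100 * #E2) := by ring
      _ ≤ 100 * _ := mul_le_mul_of_nonneg_left h5 (by norm_num)
      _ = _ := by ring
  have c3 : (#E3 : ℝ) ≤ n.factorial * (100000 * (cn s : ℝ) ^ 3 / a) := by
    have h3 := markov_sum (fun y : Perm (Fin n) =>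
      hsd x y (Tn s n) (bt s) (mn s n) (Tn s n) (Rn s n)) (fun y => hsd_nonneg _ _ _ _ _ _ _)
      (1 / 100)
    have h4 := h.b2 hs hs1 hK x hc hsh
    have h5 := h3.trans h4
    rw [← hE3] at h5
    calc (#E3 : ℝ) = 100 * (1 / 100 * #E3) := by ring
      _ ≤ 100 * _ := mul_le_mul_of_nonneg_left h5 (by norm_num)
      _ = _ := by ring
  have c4 : (#E4 : ℝ) ≤ n.factorial * (1 / a) := by
    have hm2 : 2 * mn s n ≤ n := by
      have hR1 : (1 : ℝ) ≤ Rn s n := by exact_mod_cast h.a4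
      have hR3 := h.R3 hs hs1 hK
      rw [← ha] at hR3
      have hm := h.m_le hs hs1 hK
      have : (2 * mn s n : ℝ) ≤ n := by
        calc (2 * mn s n : ℝ) ≤ 2 * (2 * cn s * Rn s n) := by linarith
          _ = (Rn s n : ℝ) * (4 * cn s) := by ring
          _ ≤ (Rn s n : ℝ) ^ 3 * a ^ 6 := by
            have h3 : (Rn s n : ℝ) ≤ (Rn s n : ℝ) ^ 3 := le_self_pow₀ hR1 (by norm_num)
            have h4 : a ≤ a ^ 6 := le_self_pow₀ ha0 (by norm_num)
            have h5 : 4 * (cn s : ℝ) ≤ a ^ 6 := by linarith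
            gcongr
          _ ≤ n := hR3
      exact_mod_cast this
    have hmpos := h.m1 hs hs1 hK
    have h3 := markov_sum F (fun y => sum_nonneg fun _ _ => Nat.cast_nonneg _) B
    rw [← hE4] at h3
    have hB0 : 0 < B := by
      have h4 : (0 : ℝ) < mn s n := by exact_mod_cast hmpos
      have h5 : (0 : ℝ) < Tn s n := by exact_mod_cast hT1
      positivity
    have h4 : ∑ y, F y ≤ n.factorial * (B / a) := by
      rw [hF, sum_comm]
      have h5 : ∀ τ : Lt (mn s n) (Tn s n), ∑ y : Perm (Fin n),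
          (#{p | selfc x y (Tn s n) (ex τ) (mn s n) p} : ℝ) ≤
          n.factorial * (2 * ((mn s n : ℝ) ^ 2 * (2 * Tn s n + 1))) := by
        intro τ
        refine (sum_selfc x (S := Tn s n) (m := mn s n) (by omega) (ex τ)
          (fun i => ex_le τ i)).trans ?_
        apply mul_le_mul_of_nonneg_left _ hnfac
        have h6 : 2 * (mn s n : ℝ) ≤ n := by exact_mod_cast hm2
        have h7 : (0 : ℝ) < n - mn s n := by linarith
        rw [mul_div_assoc', div_le_iff₀ h7]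
        have h8 : (0 : ℝ) ≤ (mn s n : ℝ) ^ 2 * (2 * Tn s n + 1) := by positivity
        nlinarith
      refine (sum_le_sum fun τ _ => h5 τ).trans (le_of_eq ?_)
      rw [sum_const, card_univ, nsmul_eq_mul, card_Lt, hB]
      field_simp
    have h5 := h3.trans h4
    have h6 : B * #E4 ≤ B * (n.factorial * (1 / a)) := by
      calc B * (#E4 : ℝ) ≤ _ := h5
        _ = _ := by ring
    exact le_of_mul_le_mul_left h6 hB0
  have hsub : ({y : Perm (Fin n) | ¬ Typ s n x y} : Finset _) ⊆ ((E1 ∪ E2) ∪ E3) ∪ E4 := by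
    intro y hy
    have h3 := (mem_filter.1 hy).2
    by_contra hcon
    rw [mem_union, mem_union, mem_union] at hcon
    push Not at hcon
    obtain ⟨⟨⟨h4, h5⟩, h6⟩, h7⟩ := hcon
    rw [hE1, mem_filter] at h4
    rw [hE2, mem_filter] at h5
    rw [hE3, mem_filter] at h6
    rw [hE4, mem_filter] at h7
    simp only [mem_univ, true_and, not_not, not_lt] at h4 h5 h6 h7
    exact h3 ⟨hsh, h4, h5, h6, h7⟩
  have hsum : (#{y : Perm (Fin n) | ¬ Typ s n x y} : ℝ) ≤ #E1 + #E2 + #E3 + #E4 := by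
    have := (card_le_card hsub).trans ((card_union_le _ _).trans (Nat.add_le_add_right
      ((card_union_le _ _).trans (Nat.add_le_add_right (card_union_le _ _) _)) _))
    exact_mod_cast this
  have hc3 : (1 : ℝ) ≤ (cn s : ℝ) ^ 3 := one_le_pow₀ hc1
  calc (#{y : Perm (Fin n) | ¬ Typ s n x y} : ℝ) ≤ #E1 + #E2 + #E3 + #E4 := hsum
    _ ≤ n.factorial * (2000 / a) + n.factorial * (100000 * (cn s : ℝ) ^ 3 / a) +
        n.factorial * (100000 * (cn s : ℝ) ^ 3 / a) + n.factorial * (1 / a) := by linarith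
    _ = n.factorial * ((2001 + 200000 * (cn s : ℝ) ^ 3) / a) := by ring
    _ ≤ _ := by
        apply mul_le_mul_of_nonneg_left _ hnfac
        apply div_le_div_of_nonneg_right _ hap.le
        linarith

end consq

open Classical in
/-- most pairs are typical -/
theorem card_not_Typ {s : ℝ} (hs : 0 < s) (hs1 : s ≤ 1 / 100) {ϑ : ℝ} (hϑ : 0 < ϑ) :
    ∀ᶠ n : ℕ in atTop, (#{z : Perm (Fin n) × Perm (Fin n) | ¬ Typ s n z.1 z.2} : ℝ) ≤
      ϑ * (n.factorial : ℝ) ^ 2 := by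
  set c : ℝ := (cn s : ℝ) with hc
  set K : ℝ := 100 + 200 * c + (1 + 210000 * c ^ 3) / ϑ with hK
  have hc0 : 0 ≤ c := Nat.cast_nonneg _
  have hK0 : 0 ≤ (1 + 210000 * c ^ 3) / ϑ := by positivity
  have hK1 : 100 ≤ K := by rw [hK]; linarith
  have hK2 : 200 * c ≤ K := by rw [hK]; linarith
  have hK3 : (1 + 210000 * c ^ 3) / ϑ ≤ K := by rw [hK]; linarith
  filter_upwards [ev_Num hs hs1 K] with n h
  set a : ℝ := (n : ℝ) ^ s with ha
  have hn := h.npos hs hs1 hK1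
  have ha1 : K ≤ a := h.a1
  have hap : 0 < a := by linarith
  have hT : (Tn s n : ℝ) ≤ a := h.Tle hs hs1 hK1
  have hnfac : (0 : ℝ) < n.factorial := by exact_mod_cast Nat.factorial_pos n
  have h2 : (n : ℝ) ^ (2 * s) = a ^ 2 := by
    rw [ha, ← Real.rpow_natCast, ← Real.rpow_mul hn.le]
    congr 1; push_cast; ring
  -- not typical `x`
  set X : Finset (Perm (Fin n)) := {x | a ^ 2 < (#{p | cyl x p ≤ Tn s n} : ℝ)} with hX
  have hXc : (#X : ℝ) ≤ n.factorial * (1 / a) := by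
    have h3 := markov_sum (fun x : Perm (Fin n) => (#{p | cyl x p ≤ Tn s n} : ℝ))
      (fun x => Nat.cast_nonneg _) (a ^ 2)
    rw [← hX] at h3
    have h4 := h3.trans (sum_short (n := n) (Tn s n))
    have h5 : a ^ 2 * #X ≤ a ^ 2 * (n.factorial * (1 / a)) := by
      calc a ^ 2 * (#X : ℝ) ≤ Tn s n * n.factorial := h4
        _ ≤ a * n.factorial := by gcongr
        _ = _ := by field_simp
    exact le_of_mul_le_mul_left h5 (by positivity)
  have h3 : (#{z : Perm (Fin n) × Perm (Fin n) | ¬ Typ s n z.1 z.2} : ℝ) =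
      ∑ x : Perm (Fin n), (#{y : Perm (Fin n) | ¬ Typ s n x y} : ℝ) := by
    have : #{z : Perm (Fin n) × Perm (Fin n) | ¬ Typ s n z.1 z.2} =
      ∑ x : Perm (Fin n), #{y : Perm (Fin n) | ¬ Typ s n x y} := by
      rw [card_filter, Fintype.sum_prod_type]
      refine sum_congr rfl fun x _ => ?_
      rw [card_filter]
    exact_mod_cast this
  rw [h3]
  have h4 : ∀ x : Perm (Fin n), (#{y : Perm (Fin n) | ¬ Typ s n x y} : ℝ) ≤
      n.factorial * ((210000 * c ^ 3) / a) +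
        (if a ^ 2 < (#{p | cyl x p ≤ Tn s n} : ℝ) then (n.factorial : ℝ) else 0) := by
    intro x
    split_ifs with h5
    · have h6 : (#{y : Perm (Fin n) | ¬ Typ s n x y} : ℝ) ≤ n.factorial := by
        have := card_le_univ ({y : Perm (Fin n) | ¬ Typ s n x y} : Finset _)
        rw [Fintype.card_perm, Fintype.card_fin] at this
        exact_mod_cast this
      have : 0 ≤ (n.factorial : ℝ) * ((210000 * c ^ 3) / a) := by positivity
      linarith
    · push Not at h5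
      rw [add_zero]
      exact h.card_bad hs hs1 hK1 x hK2 (by rw [h2]; exact h5)
  refine (sum_le_sum fun x _ => h4 x).trans ?_
  rw [sum_add_distrib, sum_const, card_univ, Fintype.card_perm, Fintype.card_fin, nsmul_eq_mul,
    ← sum_filter, sum_const, nsmul_eq_mul, ← hX]
  calc (n.factorial : ℝ) * (n.factorial * ((210000 * c ^ 3) / a)) + #X * n.factorial
      ≤ (n.factorial : ℝ) * (n.factorial * ((210000 * c ^ 3) / a)) +
        (n.factorial * (1 / a)) * n.factorial := by gcongr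
    _ = ((1 + 210000 * c ^ 3) / a) * (n.factorial : ℝ) ^ 2 := by ring
    _ ≤ ϑ * (n.factorial : ℝ) ^ 2 := by
        have : (1 + 210000 * c ^ 3) / a ≤ ϑ := by
          rw [div_le_iff₀ hap]
          rw [div_le_iff₀ hϑ] at hK3
          nlinarith
        gcongr

end

end Run7.h624.PD
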